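import Pool.Agent.Lib.MP_775b3b_nt.CM.ADef

namespace Pool.Agent.Lib.MP_775b3b_nt.CM

variable {Γ : Type} [Group Γ] [Fintype Γ]

theorem add_self_ga (x : GA Γ) : x + x = 0 :=
  ga_ext fun g => CharTwo.add_self_eq_zero (x.coeff g)

theorem coeff_gr_mul (g h : Γ) (x : GA Γ) : (gr g * x).coeff h = x.coeff (g⁻¹ * h) := by
  simp

theorem coeff_mul_gr (g h : Γ) (x : GA Γ) : (x * gr g).coeff h = x.coeff (h * g⁻¹) := by
  simp

omit [Fintype Γ] in
theorem gr_mul (g h : Γ) : gr (g * h) = gr g * gr h := by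
  rw [MonoidAlgebra.single_mul_single, one_mul]

theorem star_gr (g : Γ) : star (gr g) = gr g⁻¹ := ga_ext fun h => by
  classical
  simp [Finsupp.single_apply, inv_eq_iff_eq_inv]

theorem coeff_mul_star (x y : GA Γ) : (x * star y).coeff 1 = ∑ g, x.coeff g * y.coeff g := by
  simp [coeff_mul']

theorem eq_sum_gr (m : GA Γ) : m = ∑ g, (m.coeff g).val • gr g := ga_ext fun h => by
  simp

variable {σ : Γ} {G : Subgroup Γ}

omit [Fintype Γ] in
theorem a1_inv (hc : Cub σ G) : σ⁻¹ = σ * σ ∧ (σ * σ)⁻¹ = σ :=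
  ⟨inv_eq_of_mul_eq_one_left hc.three, inv_eq_of_mul_eq_one_right hc.three⟩

omit [Fintype Γ] in
theorem a1_three (hc : Cub σ G) (g : Γ) : g * σ * σ * σ = g := by
  rw [mul_assoc g, mul_assoc g, hc.three, mul_one]

theorem a1_coeff (hc : Cub σ G) (x : GA Γ) (g : Γ) :
    (ee σ * x).coeff g = x.coeff (g * σ * σ) + x.coeff (g * σ) := by
  rw [ee, add_mul, MonoidAlgebra.coeff_add, Finsupp.add_apply, coeff_gr_mul, coeff_gr_mul,
    (a1_inv hc).1, (a1_inv hc).2, hc.cen (g * σ), hc.cen g, mul_assoc]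

theorem Cub.ee_mul (hc : Cub σ G) : ee σ * ee σ = ee σ := by
  rw [ee, add_mul, mul_add, mul_add, ← gr_mul, ← gr_mul, ← gr_mul, ← gr_mul, ← mul_assoc,
    ← mul_assoc, hc.three, one_mul, add_assoc, ← add_assoc (gr 1), add_self_ga, zero_add, add_comm]

theorem Cub.ee_comm (hc : Cub σ G) (x : GA Γ) : ee σ * x = x * ee σ := ga_ext fun g => by
  rw [a1_coeff hc, ee, mul_add, MonoidAlgebra.coeff_add, Finsupp.add_apply, coeff_mul_gr,
    coeff_mul_gr, (a1_inv hc).1, (a1_inv hc).2, mul_assoc]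

theorem Cub.star_ee (hc : Cub σ G) : star (ee σ) = ee σ := by
  rw [ee, star_add, star_gr, star_gr, (a1_inv hc).1, (a1_inv hc).2, add_comm]

theorem Cub.ee_mul_eq (hc : Cub σ G) (x : GA Γ) :
    ee σ * x = x ↔ x + gr σ * x + gr (σ * σ) * x = 0 := by
  have _ := hc
  rw [add_assoc, ← add_mul, add_eq_zero_iff_neg_eq, neg_eq_of_add_eq_zero_left (add_self_ga x),
    eq_comm, ee]

omit [Fintype Γ] in
theorem Cub.nmem2 (hc : Cub σ G) : σ * σ ∉ G := fun h => hc.nmem ((a1_inv hc).2 ▸ inv_mem h)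

omit [Fintype Γ] in
theorem Cub.ne_one (hc : Cub σ G) : σ ≠ 1 := fun h => hc.nmem (h ▸ one_mem G)

theorem Cub.card (hc : Cub σ G) : Nat.card Γ = 3 * Nat.card G := by
  have h3 : σ ^ 3 = 1 := by rw [pow_three', hc.three]
  have key : ∀ k : ℕ, σ ^ k ∈ G → k % 3 = 0 := fun k h => by
    rw [pow_eq_pow_mod k h3] at h
    have := Nat.mod_lt k three_pos
    generalize k % 3 = l at h this ⊢
    interval_cases l
    exacts [rfl, absurd (pow_one σ ▸ h) hc.nmem, absurd (sq σ ▸ h) hc.nmem2]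
  have h := Nat.card_eq_of_bijective (fun p : Fin 3 × G => (p.2 : Γ) * σ ^ (p.1 : ℕ))
    ⟨fun ⟨i, g⟩ ⟨j, g'⟩ e => ?_, fun γ => ?_⟩
  · simpa using h.symm
  · have e1 : (g : Γ) * σ ^ (i : ℕ) = g' * σ ^ (j : ℕ) := e
    have e2 := key (i + 2 * j) (by
      rw [pow_add, eq_inv_mul_of_mul_eq e1, mul_assoc, mul_assoc, ← pow_add,
        show (j : ℕ) + 2 * j = 3 * j by ring, pow_mul, h3, one_pow, mul_one]
      exact mul_mem (inv_mem g.2) g'.2)
    obtain rfl : i = j := Fin.ext (by omega)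
    exact Prod.ext rfl (Subtype.ext (mul_right_cancel e1))
  · rcases hc.dec γ with h | h | h
    · exact ⟨(0, ⟨γ, h⟩), by simp⟩
    · exact ⟨(2, ⟨_, h⟩), by simpa [sq, mul_assoc] using hc.three⟩
    · exact ⟨(1, ⟨_, h⟩), by simpa using a1_three hc γ⟩

theorem Cub.card_part (hc : Cub σ G) :
    Nat.card {a : GA Γ // ee σ * a = a} = 4 ^ Nat.card G := by
  classical
  have h := Nat.card_eq_of_bijective (fun (a : {a : GA Γ // ee σ * a = a}) (g : G) =>
    (a.1.coeff g, a.1.coeff (g * σ))) ⟨fun a b e => Subtype.ext (ga_ext fun γ => ?_), fun f => ?_⟩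
  · simpa [Nat.card_fun] using h
  · have e1 := fun g (hg : g ∈ G) => Prod.ext_iff.1 (congrFun e ⟨g, hg⟩)
    rcases hc.dec γ with h | h | h
    · exact (e1 γ h).1
    · rw [← a.2, ← b.2, a1_coeff hc, a1_coeff hc]
      exact congrArg₂ _ (e1 _ h).2 (e1 _ h).1
    · exact a1_three hc γ ▸ (e1 _ h).2
  · let F : Γ → ZMod 2 × ZMod 2 := fun γ => if h : γ ∈ G then f ⟨γ, h⟩ else 0
    refine ⟨⟨ee σ * CM.mk fun γ => (F γ).2 + (F (γ * σ * σ)).1, by rw [← mul_assoc, hc.ee_mul]⟩,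
      funext fun g => ?_⟩
    have h0 : F g = f g := dif_pos g.2
    have h1 : F (g * σ) = 0 := dif_neg fun h => hc.nmem ((mul_mem_cancel_left g.2).1 h)
    have h2 : F (g * σ * σ) = 0 := dif_neg fun h =>
      hc.nmem2 ((mul_mem_cancel_left g.2).1 (mul_assoc _ σ σ ▸ h))
    simp [a1_coeff hc, a1_three hc, h0, h1, h2]

variable {T : Type} [Fintype T]

theorem coeff_hf (u : GA Γ) (x y : Ix T → GA Γ) (g : Γ) :
    (hf u x y).coeff g = (hf u x (gr g • y)).coeff 1 := by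
  rw [hf_smul_right, star_gr, coeff_mul_gr, inv_inv, one_mul]

end Pool.Agent.Lib.MP_775b3b_nt.CM
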