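import Pool.Agent.Lib.MP_775b3b_nt.CM.A1

namespace Pool.Agent.Lib.MP_775b3b_nt.CM

variable {Γ T : Type} [Group Γ] [Fintype Γ] [Fintype T] {σ : Γ} {G : Subgroup Γ} {u : GA Γ}

theorem a2_rank {K E : Type} [Field K] [AddCommGroup E] [Module K E] [Module.Finite K E]
    (B : E →ₗ[K] E →ₗ[K] K) {V X Y : Submodule K E} (hX : X ≤ V) (hY : Y ≤ V)
    (nd : ∀ x ∈ V, (∀ y ∈ V, B x y = 0) → x = 0) (h : ∀ x ∈ X, ∀ y ∈ Y, B x y = 0) :
    Module.finrank K X + Module.finrank K Y ≤ Module.finrank K V := by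
  have h1 : Function.Injective (B.domRestrict₁₂ X V) :=
    (injective_iff_map_eq_zero _).2 fun x hx => Subtype.ext
      (nd x (hX x.2) fun y hy => LinearMap.congr_fun hx ⟨y, hy⟩)
  have h2 : LinearMap.range (B.domRestrict₁₂ X V) ≤ (Y.comap V.subtype).dualAnnihilator := by
    rintro _ ⟨x, rfl⟩
    exact (Submodule.mem_dualAnnihilator _).2 fun y hy => h x x.2 y hy
  rw [← Subspace.finrank_add_finrank_dualAnnihilator_eq (Y.comap V.subtype),
    (Submodule.comapSubtypeEquivOfLe hY).finrank_eq, ← LinearMap.finrank_range_of_inj h1, add_comm]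
  exact Nat.add_le_add_left (Submodule.finrank_mono h2) _

theorem a2_nd (hc : Cub σ G) (hu : SymU G u) {x : Ix T → GA Γ} (hx : ee σ • x = x)
    (h : ∀ y : Ix T → GA Γ, ee σ • y = y → (hf u x y).coeff 1 = 0) : x = 0 := by
  classical
  have h1 : ∀ y, (hf u x y).coeff 1 = 0 := fun y => by
    rw [← h (ee σ • y) (by rw [smul_smul, hc.ee_mul]), hf_smul_right, hc.star_ee, ← hc.ee_comm,
      ← hf_smul_left, hx]
  have h2 : ∀ y, hf u x y = 0 := fun y => ga_ext fun g => (coeff_hf u x y g).trans (h1 _)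
  funext i
  rcases i with (_ | _) | ⟨_ | _, t⟩
  · simpa [hf, hu.unit.mul_left_eq_zero] using h2 (Pi.single (.inl false) 1)
  · simpa [hf] using h2 (Pi.single (.inl true) 1)
  · simpa [hf, Pi.single_apply, apply_ite star] using h2 (Pi.single (.inr (true, t)) 1)
  · simpa [hf, Pi.single_apply, apply_ite star] using h2 (Pi.single (.inr (false, t)) 1)

theorem card_le_of_orth (hc : Cub σ G) (hu : SymU G u) (X Y : AddSubgroup (Ix T → GA Γ))
    (hX : ∀ x ∈ X, ee σ • x = x) (hY : ∀ y ∈ Y, ee σ • y = y)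
    (h : ∀ x ∈ X, ∀ y ∈ Y, (hf u x y).coeff 1 = 0) :
    Nat.card X * Nat.card Y ≤ 16 ^ (Nat.card G * (1 + Fintype.card T)) := by
  let b : (Ix T → GA Γ) →+ (Ix T → GA Γ) →+ ZMod 2 := AddMonoidHom.mk' (fun x =>
    AddMonoidHom.mk' (fun y => (hf u x y).coeff 1) fun y y' => by simp [hf_add_right])
      fun x x' => AddMonoidHom.ext fun y => by simp [hf_add_left]
  let B : (Ix T → GA Γ) →ₗ[ZMod 2] (Ix T → GA Γ) →ₗ[ZMod 2] ZMod 2 :=
    ((AddMonoidHom.toZModLinearMapEquiv 2).toAddMonoidHom.comp b).toZModLinearMap 2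
  let V : AddSubgroup (Ix T → GA Γ) :=
    { carrier := {v | ee σ • v = v}
      add_mem' := fun {a b} ha hb => (smul_add _ a b).trans (congrArg₂ _ ha hb)
      zero_mem' := smul_zero _
      neg_mem' := fun {a} ha => (smul_neg _ a).trans (congrArg _ ha) }
  have h1 := a2_rank B (V := AddSubgroup.toZModSubmodule 2 V) (X := AddSubgroup.toZModSubmodule 2 X)
    (Y := AddSubgroup.toZModSubmodule 2 Y) hX hY (fun x hx hy => a2_nd hc hu hx hy) h
  have h2 : ∀ Z : AddSubgroup (Ix T → GA Γ),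
      Nat.card Z = 2 ^ Module.finrank (ZMod 2) (AddSubgroup.toZModSubmodule 2 Z) := fun Z =>
    (Module.natCard_eq_pow_finrank (K := ZMod 2) (V := AddSubgroup.toZModSubmodule 2 Z)).trans
      (by rw [Nat.card_zmod])
  have h3 : Nat.card V = 16 ^ (Nat.card G * (1 + Fintype.card T)) := by
    have e : V ≃ (Ix T → {a : GA Γ // ee σ * a = a}) :=
      (Equiv.subtypeEquivRight fun v => funext_iff).trans
        (Equiv.subtypePiEquivPi (p := fun _ a => ee σ * a = a))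
    rw [Nat.card_congr e, Nat.card_fun, hc.card_part, ← pow_mul, show 16 = 4 ^ 2 from rfl, ← pow_mul]
    congr 1
    simp
    ring
  rw [← h3, h2, h2, h2, ← pow_add]
  exact Nat.pow_le_pow_right two_pos h1

theorem a2_sq (m : ℕ) : 16 ^ m = 4 ^ m * 4 ^ m := mul_pow 4 4 m

theorem card_le_of_iso (hc : Cub σ G) (hu : SymU G u) {H : Submodule (GA Γ) (Ix T → GA Γ)}
    (h0 : ∀ x ∈ H, ee σ • x = x) (h1 : ∀ x ∈ H, ∀ y ∈ H, hf u x y = 0) :
    Nat.card H ≤ 4 ^ (Nat.card G * (1 + Fintype.card T)) := by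
  have := card_le_of_orth hc hu H.toAddSubgroup H.toAddSubgroup h0 h0 fun x hx y hy => by
    rw [h1 x hx y hy]
    rfl
  rw [a2_sq] at this
  exact Nat.mul_self_le_mul_self_iff.1 this

theorem lag_of_card (hc : Cub σ G) (hu : SymU G u) {H : Submodule (GA Γ) (Ix T → GA Γ)}
    (h0 : ∀ x ∈ H, ee σ • x = x) (h1 : ∀ x ∈ H, ∀ y ∈ H, hf u x y = 0)
    (h : 4 ^ (Nat.card G * (1 + Fintype.card T)) ≤ Nat.card H) : Lag u (ee σ) H := by
  refine ⟨h0, h1, fun v hv ho => ?_⟩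
  let Y : AddSubgroup (Ix T → GA Γ) :=
    { carrier := {y | ee σ • y = y ∧ ∀ x ∈ H, hf u x y = 0}
      add_mem' := fun {a b} ha hb => ⟨(smul_add _ a b).trans (congrArg₂ _ ha.1 hb.1),
        fun x hx => by rw [hf_add_right, ha.2 x hx, hb.2 x hx, add_zero]⟩
      zero_mem' := ⟨smul_zero _, fun x _ => hf_zero_right u x⟩
      neg_mem' := fun {a} ha => ⟨(smul_neg _ a).trans (congrArg _ ha.1), fun x hx => by
        rw [← neg_one_smul (GA Γ), hf_smul_right, ha.2 x hx, zero_mul]⟩ }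
  have h2 := card_le_of_orth hc hu H.toAddSubgroup Y h0 (fun y hy => hy.1) fun x hx y hy => by
    rw [hy.2 x hx]
    rfl
  rw [a2_sq] at h2
  have h3 : Nat.card Y ≤ Nat.card H.toAddSubgroup :=
    (Nat.le_of_mul_le_mul_left ((Nat.mul_le_mul_right _ h).trans h2) (by positivity)).trans h
  have h4 := AddSubgroup.eq_of_le_of_card_ge (H := H.toAddSubgroup) (K := Y)
    (fun x hx => ⟨h0 x hx, fun y hy => h1 y hy x hx⟩) h3
  exact h4.ge ⟨hv, ho⟩

end Pool.Agent.Lib.MP_775b3b_nt.CM
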