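import Pool.Agent.Lib.MP_775b3b_nt.CM.A2

namespace Pool.Agent.Lib.MP_775b3b_nt.CM

variable {Γ T : Type} [Group Γ] [Fintype Γ] [Fintype T] {σ : Γ} {G : Subgroup Γ} {u : GA Γ}

open Classical in
/-- the sum of the elements of a subgroup -/
noncomputable def nq (Q : Subgroup Γ) : GA Γ := mk fun g => if g ∈ Q then 1 else 0

theorem a3_inv {Q : Subgroup Γ} {x : GA Γ} (h1 : ∀ g ∈ Q, gr g * x = x) {q : Γ} (hq : q ∈ Q)
    (g : Γ) : x.coeff (q⁻¹ * g) = x.coeff g := by
  rw [← coeff_gr_mul, h1 q hq]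

theorem a3_rep (Q : Subgroup Γ) {x : GA Γ} (h1 : ∀ g ∈ Q, gr g * x = x) :
    ∃ w : GA Γ, nq Q * w = x := by
  classical
  let rep : Γ → Γ := fun g => ((QuotientGroup.mk g⁻¹ : Γ ⧸ Q).out)⁻¹
  have hrep : ∀ g, ∃ q ∈ Q, rep g = q⁻¹ * g := by
    intro g
    obtain ⟨q, hq⟩ := QuotientGroup.mk_out_eq_mul Q g⁻¹
    refine ⟨q, q.2, ?_⟩
    simp only [rep, hq, mul_inv_rev, inv_inv]
  have hrep2 : ∀ g, ∀ q ∈ Q, rep (q⁻¹ * g) = rep g := by
    intro g q hq
    simp only [rep, mul_inv_rev, inv_inv]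
    rw [QuotientGroup.mk_mul_of_mem _ hq]
  refine ⟨mk fun h => if h = rep h then x.coeff h else 0, ga_ext fun g => ?_⟩
  obtain ⟨q, hq, hg⟩ := hrep g
  rw [coeff_mul', Finset.sum_eq_single q]
  · simp only [nq, coeff_mk, if_pos hq, one_mul]
    rw [if_pos (by rw [hrep2 g q hq, hg]), a3_inv h1 hq]
  · intro h _ hne
    simp only [nq, coeff_mk]
    by_cases hh : h ∈ Q
    · rw [if_neg (c := h⁻¹ * g = rep (h⁻¹ * g)), mul_zero]
      rw [hrep2 g h hh, hg]
      intro he
      exact hne (inv_injective (mul_right_cancel he))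
    · rw [if_neg hh, zero_mul]
  · intro h
    exact absurd (Finset.mem_univ q) h

theorem a3_star (Q : Subgroup Γ) : star (nq Q) = nq Q := by
  refine ga_ext fun g => ?_
  simp only [coeff_star, nq, coeff_mk]
  by_cases hg : g ∈ Q
  · rw [if_pos hg, if_pos (Q.inv_mem hg)]
  · rw [if_neg hg, if_neg fun h => hg (Q.inv_mem_iff.1 h)]

theorem a3_fix (Q : Subgroup Γ) {g : Γ} (hg : g ∈ Q) : gr g * nq Q = nq Q := by
  refine ga_ext fun h => ?_
  rw [coeff_gr_mul]
  simp only [nq, coeff_mk]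
  by_cases hh : h ∈ Q
  · rw [if_pos hh, if_pos (Q.mul_mem (Q.inv_mem hg) hh)]
  · rw [if_neg hh, if_neg fun h' => hh ((Q.mul_mem_cancel_left (Q.inv_mem hg)).1 h')]

theorem a3_comm (x y : GA Γ) : (x * y).coeff 1 = (y * x).coeff 1 := by
  rw [coeff_mul', coeff_mul']
  refine Fintype.sum_equiv (Equiv.inv Γ) _ _ fun h => ?_
  simp [mul_comm]

omit [Fintype T] in
theorem a3_repv (Q : Subgroup Γ) {x : Ix T → GA Γ} (h1 : ∀ g ∈ Q, gr g • x = x) :
    ∃ w : Ix T → GA Γ, nq Q • w = x := by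
  have h : ∀ i, ∃ w : GA Γ, nq Q * w = x i := fun i =>
    a3_rep Q fun g hg => congrFun (h1 g hg) i
  choose w hw using h
  exact ⟨w, funext hw⟩

theorem a3_card1 (hc : Cub σ G) (Q : Subgroup Γ) :
    Nat.card {a : GA Γ // ee σ * a = a ∧ ∀ g ∈ Q, gr g * a = a} ≤
      4 ^ (Q.subgroupOf G).index := by
  let f : {a : GA Γ // ee σ * a = a ∧ ∀ g ∈ Q, gr g * a = a} →
      (G ⧸ Q.subgroupOf G) → ZMod 2 × ZMod 2 := fun a c =>
    (a.1.coeff ((c.out : G) : Γ)⁻¹, a.1.coeff (((c.out : G) : Γ)⁻¹ * σ))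
  have hf : Function.Injective f := by
    intro a b hab
    have key : ∀ g ∈ G, a.1.coeff g = b.1.coeff g ∧ a.1.coeff (g * σ) = b.1.coeff (g * σ) := by
      intro g hg
      obtain ⟨q, hq⟩ := QuotientGroup.mk_out_eq_mul (Q.subgroupOf G) (⟨g, hg⟩ : G)⁻¹
      have h0 := congrFun hab (QuotientGroup.mk (⟨g, hg⟩ : G)⁻¹)
      have hqQ : ((q : G) : Γ) ∈ Q := Subgroup.mem_subgroupOf.1 q.2
      simp only [f, hq, Subgroup.coe_mul, Subgroup.coe_inv, mul_inv_rev, inv_inv, Prod.mk.injEq,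
        mul_assoc] at h0
      rw [a3_inv a.2.2 hqQ, a3_inv b.2.2 hqQ, a3_inv a.2.2 hqQ, a3_inv b.2.2 hqQ] at h0
      exact h0
    have third : ∀ x : GA Γ, ee σ * x = x → ∀ g,
        x.coeff (g * σ * σ) = -(x.coeff (g * σ) + x.coeff g) := by
      intro x hx g
      have h0 := congrArg (fun y : GA Γ => y.coeff (g * σ * σ)) ((hc.ee_mul_eq x).1 hx)
      have e1 : σ⁻¹ * (g * σ * σ) = g * σ := by
        rw [hc.cen (g * σ), inv_mul_cancel_left]
      have e2 : (σ * σ)⁻¹ * (g * σ * σ) = g := by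
        rw [hc.cen (g * σ), hc.cen g, ← mul_assoc σ σ g, inv_mul_cancel_left]
      simp only [MonoidAlgebra.coeff_add, Finsupp.add_apply, coeff_gr_mul, e1, e2,
        MonoidAlgebra.coeff_zero, Finsupp.zero_apply] at h0
      linear_combination h0
    refine Subtype.ext (ga_ext fun γ => ?_)
    rcases hc.dec γ with h | h | h
    · exact (key γ h).1
    · have e : γ = γ * σ * σ * σ := by
        rw [mul_assoc, mul_assoc, ← mul_assoc σ, hc.three, mul_one]
      rw [e, third _ a.2.1, third _ b.2.1, (key _ h).1, (key _ h).2]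
    · have e : γ = γ * σ * σ * σ := by
        rw [mul_assoc, mul_assoc, ← mul_assoc σ, hc.three, mul_one]
      rw [e]
      exact (key _ h).2
  refine (Nat.card_le_card_of_injective f hf).trans (le_of_eq ?_)
  rw [Nat.card_fun, Nat.card_prod, Nat.card_zmod]
  rfl

omit [Group Γ] [Fintype Γ] in
theorem a3_pi (p : GA Γ → Prop) :
    Nat.card {v : Ix T → GA Γ // ∀ i, p (v i)} =
      Nat.card {a : GA Γ // p a} ^ (2 * (1 + Fintype.card T)) := by
  rw [Nat.card_congr (Equiv.subtypePiEquivPi (p := fun (_ : Ix T) (a : GA Γ) => p a)),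
    Nat.card_fun]
  congr 1
  simp only [Ix, Nat.card_eq_fintype_card, Fintype.card_sum, Fintype.card_prod, Fintype.card_bool]
  ring

theorem card_fixed_le (hc : Cub σ G) (hu : SymU G u) (Q : Subgroup Γ) (hQ : Q ≤ G)
    (X : AddSubgroup (Ix T → GA Γ)) (h0 : ∀ x ∈ X, ee σ • x = x)
    (h1 : ∀ x ∈ X, ∀ g ∈ Q, gr g • x = x)
    (h : ∀ x ∈ X, ∀ v : Ix T → GA Γ, ee σ • v = v → nq Q • v ∈ X → (hf u x v).coeff 1 = 0) :
    Nat.card X ^ Nat.card Q ≤ 4 ^ (Nat.card G * (1 + Fintype.card T)) := by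
  let V : AddSubgroup (Ix T → GA Γ) :=
    { carrier := {v | ee σ • v = v}
      add_mem' := fun {a b} ha hb => by
        simp only [Set.mem_ofPred_eq] at ha hb ⊢
        rw [smul_add, ha, hb]
      zero_mem' := smul_zero _
      neg_mem' := fun {a} ha => by
        simp only [Set.mem_ofPred_eq] at ha ⊢
        rw [smul_neg, ha] }
  let N : V →+ (Ix T → GA Γ) := (DistribSMul.toAddMonoidHom _ (nq Q)).comp V.subtype
  have hN : ∀ v : V, N v = nq Q • (v : Ix T → GA Γ) := fun v => rfl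
  have hcomm : ∀ w : Ix T → GA Γ, nq Q • ee σ • w = ee σ • nq Q • w := by
    intro w
    rw [smul_smul, smul_smul, hc.ee_comm]
  have hXR : X ≤ N.range := by
    intro x hx
    obtain ⟨w, hw⟩ := a3_repv Q (h1 x hx)
    refine ⟨⟨ee σ • w, ?_⟩, ?_⟩
    · show ee σ • ee σ • w = ee σ • w
      rw [smul_smul, hc.ee_mul]
    · rw [hN, hcomm, hw, h0 x hx]
  have hV : Nat.card V = 16 ^ (Nat.card G * (1 + Fintype.card T)) := by
    have e : V ≃ {v : Ix T → GA Γ // ∀ i, ee σ * v i = v i} :=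
      Equiv.subtypeEquivRight fun v => funext_iff
    rw [Nat.card_congr e, a3_pi (fun a => ee σ * a = a), hc.card_part, ← pow_mul,
      mul_left_comm, pow_mul]
    norm_num
  have hR : Nat.card N.range ≤ (4 ^ (Q.subgroupOf G).index) ^ (2 * (1 + Fintype.card T)) := by
    refine le_trans ?_ (Nat.pow_le_pow_left (a3_card1 hc Q) _)
    rw [← a3_pi (fun a => ee σ * a = a ∧ ∀ g ∈ Q, gr g * a = a)]
    refine Nat.card_le_card_of_injective (fun r => ⟨r.1, fun i => ?_⟩) ?_
    · obtain ⟨v, hv⟩ := r.2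
      have h2 : ee σ • r.1 = r.1 := by
        rw [← hv, hN, ← hcomm, show ee σ • (v : Ix T → GA Γ) = v from v.2]
      refine ⟨congrFun h2 i, fun g hg => ?_⟩
      rw [← hv, hN, Pi.smul_apply, smul_eq_mul, ← mul_assoc, a3_fix Q hg]
    · intro a b hab
      exact Subtype.ext (Subtype.mk.inj hab)
  have hVK : Nat.card V = Nat.card N.range * Nat.card N.ker := by
    rw [AddSubgroup.card_eq_card_quotient_mul_card_addSubgroup N.ker,
      Nat.card_congr (QuotientAddGroup.quotientKerEquivRange N).toEquiv]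
  have hY : Nat.card ((X.comap N).map V.subtype) = Nat.card X * Nat.card N.ker := by
    rw [AddSubgroup.card_map_of_injective V.subtype_injective]
    let M : X.comap N →+ X := (N.comp (X.comap N).subtype).codRestrict X fun v => v.2
    have hM : Function.Surjective M := by
      intro x
      obtain ⟨v, hv⟩ := hXR x.2
      exact ⟨⟨v, by rw [AddSubgroup.mem_comap, hv]; exact x.2⟩, Subtype.ext hv⟩
    have e : M.ker ≃ N.ker :=
      { toFun := fun a => ⟨a.1.1, congrArg Subtype.val (AddMonoidHom.mem_ker.1 a.2)⟩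
        invFun := fun b => ⟨⟨b.1, by
          rw [AddSubgroup.mem_comap, AddMonoidHom.mem_ker.1 b.2]; exact X.zero_mem⟩,
          AddMonoidHom.mem_ker.2 (Subtype.ext (AddMonoidHom.mem_ker.1 b.2))⟩
        left_inv := fun _ => rfl
        right_inv := fun _ => rfl }
    rw [AddSubgroup.card_eq_card_quotient_mul_card_addSubgroup M.ker,
      Nat.card_congr (QuotientAddGroup.quotientKerEquivOfSurjective M hM).toEquiv,
      Nat.card_congr e]
  have ho := card_le_of_orth hc hu X ((X.comap N).map V.subtype) h0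
    (by rintro _ ⟨v, _, rfl⟩; exact v.2)
    (by rintro x hx _ ⟨v, hv, rfl⟩; exact h x hx v v.2 hv)
  rw [hY, ← hV, hVK, ← mul_assoc] at ho
  have h2 : Nat.card X * Nat.card X ≤ Nat.card N.range :=
    Nat.le_of_mul_le_mul_right ho Nat.card_pos
  have hidx : Nat.card Q * (Q.subgroupOf G).index = Nat.card G := by
    rw [← Nat.card_congr (Subgroup.subgroupOfEquivOfLe hQ).toEquiv, Subgroup.card_mul_index]
  have h3 : Nat.card X ≤ 4 ^ ((Q.subgroupOf G).index * (1 + Fintype.card T)) := by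
    rw [← Nat.mul_self_le_mul_self_iff]
    refine (h2.trans hR).trans (le_of_eq ?_)
    rw [← pow_mul, ← pow_add]
    congr 1
    ring
  refine (Nat.pow_le_pow_left h3 _).trans (le_of_eq ?_)
  rw [← pow_mul, ← hidx]
  congr 1
  ring

/-- a pairing of an invariant element with `v` only depends on the norm of `v` -/
theorem coeff_hf_congr (u : GA Γ) (Q : Subgroup Γ) {x v v' : Ix T → GA Γ}
    (h1 : ∀ g ∈ Q, gr g • x = x) (h : nq Q • v = nq Q • v') :
    (hf u x v).coeff 1 = (hf u x v').coeff 1 := by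
  obtain ⟨w, hw⟩ := a3_repv Q h1
  have key : ∀ y : Ix T → GA Γ, (hf u x y).coeff 1 = (hf u w (nq Q • y)).coeff 1 := by
    intro y
    rw [← hw, hf_smul_left, hf_smul_right, a3_star, a3_comm]
  rw [key, key, h]

end Pool.Agent.Lib.MP_775b3b_nt.CM
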