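import Mathlib

/-! Hermitian modules over the group ring of a finite group over the field with two elements. -/

namespace Pool.Agent.Lib.MP_775b3b_nt.CM

/-- the group ring -/
abbrev GA (Γ : Type) := MonoidAlgebra (ZMod 2) Γ

/-- index set: `inl false` the prime two, `inl true` the real place, `inr (false, t)` the order
at `t`, `inr (true, t)` the residue symbol at `t` -/
abbrev Ix (T : Type) := Bool ⊕ (Bool × T)

section Ring

variable {R T : Type} [Ring R] [StarRing R] [Fintype T]

/-- the hermitian form -/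
def hf (u : R) (x y : Ix T → R) : R :=
  x (.inl false) * u * star (y (.inl false)) + x (.inl true) * star (y (.inl true)) +
    ∑ t, (x (.inr (false, t)) * star (y (.inr (true, t))) +
      x (.inr (true, t)) * star (y (.inr (false, t))))

theorem hf_add_left (u : R) (x x' y : Ix T → R) : hf u (x + x') y = hf u x y + hf u x' y := by
  simp only [hf, Pi.add_apply, add_mul, Finset.sum_add_distrib]
  abel

theorem hf_smul_left (u r : R) (x y : Ix T → R) : hf u (r • x) y = r * hf u x y := by
  simp only [hf, Pi.smul_apply, smul_eq_mul, mul_add, Finset.mul_sum, mul_assoc]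

theorem hf_star {u : R} (hu : star u = u) (x y : Ix T → R) : star (hf u x y) = hf u y x := by
  simp only [hf, star_add, star_sum, star_mul, star_star, hu, mul_assoc]
  congr 1
  exact Finset.sum_congr rfl fun t _ => add_comm _ _

theorem hf_add_right (u : R) (x y y' : Ix T → R) : hf u x (y + y') = hf u x y + hf u x y' := by
  simp only [hf, Pi.add_apply, star_add, mul_add, Finset.sum_add_distrib]
  abel

theorem hf_smul_right (u r : R) (x y : Ix T → R) : hf u x (r • y) = hf u x y * star r := by
  simp only [hf, Pi.smul_apply, smul_eq_mul, star_mul, add_mul, Finset.sum_mul, mul_assoc]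

theorem hf_zero_left (u : R) (y : Ix T → R) : hf u 0 y = 0 := by
  simp [hf]

theorem hf_zero_right (u : R) (x : Ix T → R) : hf u x 0 = 0 := by
  simp [hf]

/-- a Lagrangian submodule of the `e`-part -/
structure Lag (u e : R) (H : Submodule R (Ix T → R)) : Prop where
  part : ∀ x ∈ H, e • x = x
  iso : ∀ x ∈ H, ∀ y ∈ H, hf u x y = 0
  max : ∀ v : Ix T → R, e • v = v → (∀ x ∈ H, hf u x v = 0) → v ∈ H

omit [StarRing R] [Fintype T] in
/-- free of rank `r` over the `e`-part of the ring -/
def Fre (e : R) (r : ℕ) (H : Submodule R (Ix T → R)) : Prop :=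
  ∃ x : Fin r → Ix T → R, (∀ i, x i ∈ H) ∧ (∀ z ∈ H, ∃ c : Fin r → R, z = ∑ i, c i • x i) ∧
    ∀ c : Fin r → R, (∀ i, e * c i = c i) → ∑ i, c i • x i = 0 → c = 0

/-- an abstract supply of primes of the types `y i`, with symbols `N` -/
structure Sup (u e : R) {n : ℕ} (y : Fin n → Ix T → R) {Pr : Type} (Ind : Pr → Pr → Prop)
    (Ty : Fin n → Pr → Prop) (N : Pr → Pr → R) : Prop where
  symm : ∀ p q, Ind p q → Ind q p
  irr : ∀ p, ¬ Ind p p
  part : ∀ i p q, Ty i p → e * N p q = N p q
  recip : ∀ i j p q, Ty i p → Ty j q → Ind p q ∨ p = q → N p q + star (N q p) = hf u (y i) (y j)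
  ex : ∀ (l : List Pr) (i : Fin n) (c : Pr → R), l.Pairwise Ind → (∀ p ∈ l, ∃ j, Ty j p) →
    (∀ p, e * c p = c p) → ∃ q, Ty i q ∧ ∀ p ∈ l, Ind p q ∧ N q p = c p

end Ring

section Group

variable {Γ : Type} [Group Γ] [Fintype Γ]

/-- an element with given coefficients -/
noncomputable def mk (f : Γ → ZMod 2) : GA Γ :=
  MonoidAlgebra.ofCoeff (Finsupp.equivFunOnFinite.symm f)

omit [Group Γ] in
@[simp] theorem coeff_mk (f : Γ → ZMod 2) (g : Γ) : (mk f).coeff g = f g := rfl

omit [Group Γ] [Fintype Γ] in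
theorem ga_ext {x y : GA Γ} (h : ∀ g, x.coeff g = y.coeff g) : x = y :=
  MonoidAlgebra.coeff_injective (Finsupp.ext h)

theorem coeff_mul' (x y : GA Γ) (g : Γ) :
    (x * y).coeff g = ∑ h, x.coeff h * y.coeff (h⁻¹ * g) := by
  rw [MonoidAlgebra.coeff_mul_apply_left, Finsupp.sum_fintype]
  intro h
  exact zero_mul _

noncomputable instance : Star (GA Γ) := ⟨fun x => mk fun g => x.coeff g⁻¹⟩

@[simp] theorem coeff_star (x : GA Γ) (g : Γ) : (star x).coeff g = x.coeff g⁻¹ := rfl

noncomputable instance : StarRing (GA Γ) where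
  star_involutive x := ga_ext fun g => by simp
  star_mul x y := ga_ext fun g => by
    rw [coeff_star, coeff_mul', coeff_mul']
    refine Fintype.sum_equiv (Equiv.mulLeft g) _ _ fun h => ?_
    simp [mul_comm]
  star_add x y := ga_ext fun g => by simp

instance : Finite (GA Γ) :=
  Finite.of_injective (fun x : GA Γ => (x.coeff : Γ → ZMod 2))
    fun _ _ h => ga_ext fun g => congrFun h g

/-- a group element in the group ring -/
noncomputable abbrev gr (g : Γ) : GA Γ := MonoidAlgebra.single g 1

/-- the idempotent -/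
noncomputable def ee (σ : Γ) : GA Γ := gr σ + gr (σ * σ)

/-- `Γ` is the direct product of `G` and the group of order three generated by `σ` -/
structure Cub (σ : Γ) (G : Subgroup Γ) : Prop where
  three : σ * σ * σ = 1
  nmem : σ ∉ G
  cen : ∀ g, g * σ = σ * g
  dec : ∀ γ, γ ∈ G ∨ γ * σ ∈ G ∨ γ * σ * σ ∈ G

/-- the coefficients vanish on the coset `G c` -/
def Zc (G : Subgroup Γ) (c : Γ) (x : GA Γ) : Prop := ∀ g ∈ G, x.coeff (g * c) = 0

/-- a symmetric unit supported on `G` -/
structure SymU (G : Subgroup Γ) (u : GA Γ) : Prop where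
  supp : ∀ g ∉ G, u.coeff g = 0
  sym : star u = u
  unit : IsUnit u

variable {T : Type}

/-- the class that every move has to keep -/
structure Kap (σ : Γ) (G : Subgroup Γ) (q : T) (k : Ix T → GA Γ) : Prop where
  two : ∀ b γ, (k (.inl b)).coeff γ = 0 ↔ γ * σ ∈ G
  bin : ∀ γ, (k (.inr (false, q))).coeff γ = 0 ↔ γ ∈ G
  sy : ∀ t, k (.inr (true, t)) = 0
  od : ∀ t, t ≠ q → k (.inr (false, t)) = 0

/-- the local conditions for the curve -/
structure Lp (G : Subgroup Γ) (q : T) (z : Ix T → GA Γ) : Prop where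
  two : Zc G 1 (z (.inl false))
  inf : Zc G 1 (z (.inl true))
  od : Zc G 1 (z (.inr (false, q)))
  sy : Zc G 1 (z (.inr (true, q)))
  aux : ∀ t, t ≠ q → z (.inr (false, t)) = 0

/-- the local conditions for the twisted curve -/
structure Lm (σ : Γ) (G : Subgroup Γ) (q : T) (z : Ix T → GA Γ) : Prop where
  two : Zc G 1 (z (.inl false))
  inf : Zc G σ (z (.inl true))
  od : Zc G 1 (z (.inr (false, q)))
  sy : ∀ g ∈ G, (z (.inr (true, q))).coeff g = (z (.inr (false, q))).coeff (g * σ)
  aux : ∀ t, t ≠ q → z (.inr (false, t)) = 0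

end Group

end Pool.Agent.Lib.MP_775b3b_nt.CM
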