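import Pool.Agent.Lib.MP_775b3b_nt.CM.C1b

namespace Pool.Agent.Lib.MP_775b3b_nt.CM

open Pool.Agent.Lib.MP_439fea_co NumberField WithZero

variable {K : Type} [Field K] [NumberField K] [IsGalois ℚ K]

open Pointwise

theorem c10a_lt : exp (-1 : ℤ) < (1 : ℤᵐ⁰) := by
  rw [← exp_zero, exp_lt_exp]; decide

theorem c10a_inertia {w : P K} (hw : val w (2 : K) = exp (-1 : ℤ)) :
    w.asIdeal.inertia (Ga K) = ⊥ := by
  have h : val w ((2 : ℕ) : K) < 1 := by rw [Nat.cast_ofNat, hw]; exact c10a_lt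
  have := w.isPrime
  have := (liesOver_iff_val Nat.prime_two w).mpr h
  have hpz : Prime ((2 : ℕ) : ℤ) := Nat.prime_iff_prime_int.mp Nat.prime_two
  have hmax : (Ideal.span {((2 : ℕ) : ℤ)}).IsMaximal := hpz.isMaximal_span_singleton
  have hne : Ideal.span {((2 : ℕ) : ℤ)} ≠ ⊥ := by simp
  have : Finite (ℤ ⧸ Ideal.span {((2 : ℕ) : ℤ)}) := Ring.HasFiniteQuotients.finiteQuotient hne
  have h1 := Ideal.card_inertia_eq_ramificationIdxIn (G := Ga K) (Ideal.span {((2 : ℕ) : ℤ)})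
    w.asIdeal
  rw [Ideal.ramificationIdxIn_eq_ramificationIdx _ w.asIdeal (Ga K),
    ← Ideal.ramificationIdx'_eq_ramificationIdx (Ideal.span {((2 : ℕ) : ℤ)}) w.asIdeal hne] at h1
  let v : IsDedekindDomain.HeightOneSpectrum ℤ := ⟨Ideal.span {((2 : ℕ) : ℤ)}, hmax.isPrime, hne⟩
  have : w.asIdeal.LiesOver v.asIdeal := (liesOver_iff_val Nat.prime_two w).mpr h
  have h4 := IsDedekindDomain.HeightOneSpectrum.intValuation_liesOver v w ((2 : ℕ) : ℤ)
  have h5 : v.intValuation ((2 : ℕ) : ℤ) = exp (-1 : ℤ) :=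
    IsDedekindDomain.HeightOneSpectrum.intValuation_singleton v hpz.ne_zero rfl
  rw [h5, ← h1, ← IsDedekindDomain.HeightOneSpectrum.valuation_of_algebraMap (K := K)] at h4
  have h6 : w.valuation K (algebraMap (𝓞 K) K (algebraMap ℤ (𝓞 K) ((2 : ℕ) : ℤ))) =
      exp (-1 : ℤ) := by rw [← hw, map_natCast, map_natCast, Nat.cast_ofNat]
  rw [h6, ← exp_nsmul, exp_inj] at h4
  rw [← Subgroup.card_eq_one]
  simpa using h4

theorem c10a_loc {w : P K} (hw : val w (2 : K) = exp (-1 : ℤ)) :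
    ∃ β : 𝓞 K, ∀ a : MulAction.stabilizer (Ga K) w.asIdeal → ℤ,
      ∑ᶠ g, a g • Ideal.Quotient.mk w.asIdeal (g.1 • β) = 0 → ∀ g, Even (a g) := by
  have h : val w ((2 : ℕ) : K) < 1 := by rw [Nat.cast_ofNat, hw]; exact c10a_lt
  have := w.isMaximal
  have := (liesOver_iff_val Nat.prime_two w).mpr h
  have hpz : Prime ((2 : ℕ) : ℤ) := Nat.prime_iff_prime_int.mp Nat.prime_two
  have hmax : (Ideal.span {((2 : ℕ) : ℤ)}).IsMaximal := hpz.isMaximal_span_singleton
  let := Ideal.Quotient.field (Ideal.span {((2 : ℕ) : ℤ)})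
  let := Ideal.Quotient.field w.asIdeal
  obtain ⟨x, hx⟩ := exists_linearIndependent_algEquiv_apply (ℤ ⧸ Ideal.span {((2 : ℕ) : ℤ)})
    (𝓞 K ⧸ w.asIdeal)
  obtain ⟨β, rfl⟩ := Ideal.Quotient.mk_surjective x
  have hi : Function.Injective
      (Ideal.Quotient.stabilizerHom w.asIdeal (Ideal.span {((2 : ℕ) : ℤ)}) (Ga K)) := by
    rw [← MonoidHom.ker_eq_bot_iff, ← Subgroup.map_eq_bot_iff_of_injective _
      (Subgroup.subtype_injective _), Ideal.Quotient.map_ker_stabilizer_subtype, c10a_inertia hw]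
  have := Fintype.ofFinite (MulAction.stabilizer (Ga K) w.asIdeal)
  refine ⟨β, fun a ha g => ?_⟩
  rw [finsum_eq_sum_of_fintype] at ha
  have h1 := Fintype.linearIndependent_iff.1 (hx.comp _ hi)
    (fun g => ((a g : ℤ) : ℤ ⧸ Ideal.span {((2 : ℕ) : ℤ)})) (by
      rw [← ha]
      exact Finset.sum_congr rfl fun g _ => Int.cast_smul_eq_zsmul _ _ _) g
  rw [even_iff_two_dvd]
  exact Ideal.mem_span_singleton.1 (Ideal.Quotient.eq_zero_iff_mem.1 h1)

theorem exists_normal (h2 : Two K) {w : P K} (hw : val w (2 : K) < 1) :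
    ∃ α : 𝓞 K, (∀ w' : P K, val w' (2 : K) < 1 → w' ≠ w → val w' (α : K) < 1) ∧
      ∀ a : Ga K → ℤ, (∀ w' : P K, val w' (2 : K) < 1 → val w' (∑ g, (a g : K) * g (α : K)) < 1) →
        ∀ g, Even (a g) := by
  classical
  obtain ⟨β, hβ⟩ := c10a_loc (h2 w hw)
  obtain ⟨x, hx, hx'⟩ := approx (finite_supp (two_ne_zero (α := K))).toFinset
    (fun w' => if w' = w then (β : K) else 0) (exp (-1 : ℤ)) exp_ne_zero
  have hF : ∀ w' : P K, val w' (2 : K) < 1 →
      val w' (x - if w' = w then (β : K) else 0) < 1 := fun w' h =>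
    (hx w' ((Set.Finite.mem_toFinset _).2 h.ne)).trans_lt c10a_lt
  obtain ⟨α, rfl⟩ := exists_int_of_val_le_one (x := x) fun v => by
    by_cases hv : v ∈ (finite_supp (two_ne_zero (α := K))).toFinset
    · have h1 := (hx v hv).trans c10a_lt.le
      rw [← sub_add_cancel x (if v = w then (β : K) else 0)]
      refine Valuation.map_add_le _ h1 ?_
      split_ifs
      · exact v.valuation_le_one β
      · simp
    · exact hx' v hv
  have h0 : ∀ w' : P K, val w' (2 : K) < 1 → w' ≠ w → val w' (α : K) < 1 := fun w' h h' => by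
    simpa [h'] using hF w' h
  have h1 : α - β ∈ w.asIdeal := by
    rw [← Val_lt_iff_mem]
    simpa using hF w hw
  have hd : ∀ g : Ga K, val (g • w) (2 : K) < 1 := fun g => by
    rw [← (c1b_smul_ofNat g).1, val_smul]; exact hw
  refine ⟨α, h0, fun a ha g => ?_⟩
  have h3 : (∑ h : Ga K, a (g * h) • (h • α) : 𝓞 K) ∈ w.asIdeal := by
    rw [← Val_lt_iff_mem, ← val_smul g]
    refine lt_of_eq_of_lt (congrArg _ ?_) (ha _ (hd g))
    change g (algebraMap (𝓞 K) K _) = _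
    rw [map_sum, map_sum]
    refine Fintype.sum_equiv (Equiv.mulLeft g) _ _ fun h => ?_
    rw [map_zsmul, map_zsmul, zsmul_eq_mul]
    rfl
  have h4 := hβ (fun h => a (g * h)) ?_ 1
  · simpa using h4
  rw [← Ideal.Quotient.eq_zero_iff_mem, map_sum] at h3
  rw [finsum_eq_sum_of_fintype, ← h3, ← Finset.sum_subset (Finset.subset_univ
    (Finset.univ.filter (· ∈ MulAction.stabilizer (Ga K) w.asIdeal))),
    Finset.sum_subtype _ (p := (· ∈ MulAction.stabilizer (Ga K) w.asIdeal)) (by simp)]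
  · refine Finset.sum_congr rfl fun h _ => ?_
    rw [map_zsmul, Ideal.Quotient.eq.2 (show h.1 • α - h.1 • β ∈ w.asIdeal from ?_)]
    have := Ideal.smul_mem_pointwise_smul h.1 _ _ h1
    rwa [MulAction.mem_stabilizer_iff.1 h.2, smul_sub] at this
  · intro h _ hh
    rw [map_zsmul, Ideal.Quotient.eq_zero_iff_mem.2, smul_zero]
    rw [← Ideal.mem_inv_pointwise_smul_iff, ← smul_asIdeal, ← Val_lt_iff_mem]
    refine h0 _ (hd _) fun e => hh ?_
    rw [Finset.mem_filter, ← stabilizer_eq]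
    exact ⟨Finset.mem_univ _, inv_mem_iff.1 e⟩

end Pool.Agent.Lib.MP_775b3b_nt.CM
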