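import Pool.Agent.Lib.MP_775b3b_nt.CM.NDef

namespace Pool.Agent.Lib.MP_775b3b_nt.CM

open Pool.Agent.Lib.MP_439fea_co NumberField WithZero

variable {K : Type} [Field K] [NumberField K]

omit [NumberField K] in
theorem c1b_le_two {v : Valuation K ℤᵐ⁰} (h2 : v (2 : K) = exp (-1 : ℤ)) {a : K} (h : v a < 1) :
    v a ≤ v 2 := by
  rcases eq_or_ne (v a) 0 with h0 | h0
  · rw [h0]; exact zero_le
  · rw [h2]
    rw [← exp_log h0, ← exp_zero, exp_lt_exp] at h
    rw [← exp_log h0, exp_le_exp]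
    omega

omit [NumberField K] in
theorem c1b_two_le_one (v : Valuation K ℤᵐ⁰) : v (2 : K) ≤ 1 := by
  simpa using val_nat_le_one v 2

omit [NumberField K] in
theorem c1b_four_le_two (v : Valuation K ℤᵐ⁰) : v (4 : K) ≤ v 2 := by
  rw [local_val_four]
  exact mul_le_of_le_one_right' (c1b_two_le_one v)

omit [NumberField K] in
theorem c1b_near {v : Valuation K ℤᵐ⁰} {a s : K} (hs : v s ≤ 1)
    (h : v (a - 1 - 2 * s) ≤ v 4) : v (a - 1) ≤ v 2 := by
  have e : a - 1 = (a - 1 - 2 * s) + 2 * s := by ring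
  rw [e]
  refine Valuation.map_add_le _ (h.trans (c1b_four_le_two v)) ?_
  rw [map_mul]
  exact mul_le_of_le_one_right' hs

omit [NumberField K] in
theorem c1b_one {v : Valuation K ℤᵐ⁰} {a : K} (h : v (a - 1) < 1) : v a = 1 := by
  have h1 : v (a - 1) < v 1 := by rwa [map_one]
  simpa using v.map_add_eq_of_lt_right h1

omit [NumberField K] in
theorem c1b_le_one {v : Valuation K ℤᵐ⁰} {a : K} (h : v (a - 1) ≤ 1) : v a ≤ 1 := by
  have e : a = (a - 1) + 1 := by ring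
  rw [e]
  exact Valuation.map_add_le _ h (by simp)

theorem c1b_key {v : Valuation K ℤᵐ⁰} (h2 : v (2 : K) = exp (-1 : ℤ)) (hw : v (2 : K) < 1)
    {b r s s' : K} (hs : v s ≤ 1) (hs' : v s' ≤ 1) (h : v (r ^ 2 * b - 1 - 2 * s) ≤ v 4)
    (h' : v (b - 1 - 2 * s') ≤ v 4) : v (s - s') < 1 := by
  have ha1 := (c1b_near hs h).trans_lt hw
  have hb1 := (c1b_near hs' h').trans_lt hw
  have ha := c1b_one ha1
  have hb := c1b_one hb1
  have hr2 : v (r ^ 2) = 1 := by rwa [map_mul, hb, mul_one] at ha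
  have h1 : v ((r - 1) * (r + 1)) < 1 := by
    have e : (r - 1) * (r + 1) = (r ^ 2 * b - 1) - r ^ 2 * (b - 1) := by ring
    rw [e]
    exact Valuation.map_sub_lt _ ha1 (local_mul_lt v hr2.le hb1)
  have h3 : v (r - 1) < 1 := by
    by_contra hc
    have hc' := not_lt.1 hc
    have h4 : v (r + 1) < 1 := by
      rw [map_mul] at h1
      exact (le_mul_of_one_le_left' hc').trans_lt h1
    have e : r - 1 = (r + 1) - 2 := by ring
    rw [e] at hc
    exact hc (Valuation.map_sub_lt _ h4 hw)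
  have h4 := c1b_le_two h2 h3
  have h5 : v (r + 1) ≤ v 2 := by
    have e : r + 1 = (r - 1) + 2 := by ring
    rw [e]
    exact Valuation.map_add_le _ h4 le_rfl
  have h6 : v ((r - 1) * (r + 1) * b) ≤ v 4 := by
    rw [map_mul, hb, mul_one, map_mul, local_val_four]
    exact mul_le_mul' h4 h5
  have h7 : v (2 * (s - s')) ≤ v 4 := by
    have e : 2 * (s - s') =
        (r - 1) * (r + 1) * b - (r ^ 2 * b - 1 - 2 * s) + (b - 1 - 2 * s') := by ring
    rw [e]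
    exact Valuation.map_add_le _ (Valuation.map_sub_le _ h6 h) h'
  rw [map_mul, local_val_four] at h7
  exact (le_of_mul_le_mul_left h7 (local_val_two_pos v)).trans_lt hw

theorem c1b_sqrt (w : P K) (hw : val w (2 : K) < 1) {a : K} (ha : val w a ≤ 1) :
    ∃ c : K, val w (c ^ 2 - a) < 1 := by
  have hfin : Finite (𝓞 K ⧸ w.asIdeal) := Ideal.finiteQuotientOfFreeOfNeBot _ w.ne_bot
  have hp := w.isPrime
  have h20 : (2 : 𝓞 K ⧸ w.asIdeal) = 0 := by
    have e2 : ((2 : 𝓞 K) : K) = 2 := map_ofNat (algebraMap (𝓞 K) K) 2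
    have h1 : (2 : 𝓞 K) ∈ w.asIdeal := (Val_lt_iff_mem w 2).1 (by rwa [e2])
    have h3 := Ideal.Quotient.eq_zero_iff_mem.2 h1
    rwa [map_ofNat] at h3
  have hinj : Function.Injective (fun y : 𝓞 K ⧸ w.asIdeal => y ^ 2) := by
    intro y y' h
    have h1 : y ^ 2 = y' ^ 2 := h
    have h3 : (y - y') ^ 2 = 0 := by linear_combination h1 + (y' ^ 2 - y * y') * h20
    exact sub_eq_zero.1 (pow_eq_zero_iff two_ne_zero |>.1 h3)
  obtain ⟨r, hr⟩ := w.exists_valuation_sub_lt_of_integer ha 1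
  have hr' : val w ((r : K) - a) < 1 := hr
  obtain ⟨c', hc⟩ := Finite.injective_iff_surjective.1 hinj (Ideal.Quotient.mk _ r)
  obtain ⟨c, rfl⟩ := Ideal.Quotient.mk_surjective c'
  have hc' : Ideal.Quotient.mk w.asIdeal (c ^ 2) = Ideal.Quotient.mk _ r := hc
  rw [Ideal.Quotient.eq, ← Val_lt_iff_mem] at hc'
  refine ⟨c, ?_⟩
  have e : (c : K) ^ 2 - a = ((c ^ 2 - r : 𝓞 K) : K) + ((r : K) - a) := by push_cast; ring
  rw [e]
  exact Valuation.map_add_lt _ hc' hr'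

theorem c1b_local (w : P K) (hw : val w (2 : K) < 1) {x : K} (hx : x ≠ 0) (h : Even (ord w x)) :
    ∃ y : K, val w (x * y ^ 2 - 1) < 1 := by
  obtain ⟨k, hk⟩ := h
  obtain ⟨t, ht⟩ := w.valuation_surjective K (exp k)
  have ht' : val w t = exp k := ht
  have h1 : val w (x * t ^ 2) = 1 := by
    rw [map_mul, local_val_sq, ht', val_eq_exp w hx, hk, ← exp_add, ← exp_add, exp_eq_one]
    ring
  have h0 : x * t ^ 2 ≠ 0 := by
    intro h0
    rw [h0, map_zero] at h1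
    exact zero_ne_one h1
  obtain ⟨c, hc⟩ := c1b_sqrt w hw (a := (x * t ^ 2)⁻¹) (by rw [map_inv₀, h1, inv_one])
  refine ⟨t * c, ?_⟩
  have e : x * (t * c) ^ 2 - 1 = x * t ^ 2 * (c ^ 2 - (x * t ^ 2)⁻¹) := by
    rw [mul_sub, mul_inv_cancel₀ h0]
    ring
  rw [e]
  exact local_mul_lt _ h1.le hc

theorem c1b_glue {x : K} (hx : x ≠ 0) (h : ∀ w : P K, val w (2 : K) < 1 → Even (ord w x)) :
    ∃ z : Kˣ, ∀ w : P K, val w (2 : K) < 1 → val w (x * (z : K) ^ 2 - 1) < 1 := by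
  classical
  have h1 : ∀ w : P K, ∃ y : K, ∃ n : ℕ, val w (2 : K) < 1 →
      val w (x * y ^ 2 - 1) < 1 ∧ exp (-(n : ℤ)) ≤ val w y := by
    intro w
    by_cases hw : val w (2 : K) < 1
    · obtain ⟨y, hy⟩ := c1b_local w hw hx (h w hw)
      have hy0 : val w y ≠ 0 := by
        rw [Valuation.ne_zero_iff]
        rintro rfl
        simp at hy
      obtain ⟨n, hn⟩ := Val_exists_exp_le hy0
      exact ⟨y, n, fun _ => ⟨hy, hn⟩⟩
    · exact ⟨0, 0, fun h' => absurd h' hw⟩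
  choose y n hy using h1
  obtain ⟨F, hF⟩ : ∃ F : Finset (P K), ∀ w : P K, val w (2 : K) < 1 → w ∈ F :=
    ⟨(finite_supp (two_ne_zero : (2 : K) ≠ 0)).toFinset, fun w hw => by simpa using hw.ne⟩
  obtain ⟨z, hz, -⟩ := approx F y (exp (-((F.sup n : ℕ) : ℤ) - 1)) exp_ne_zero
  have h3 : ∀ w : P K, val w (2 : K) < 1 → val w (z - y w) < val w (y w) := by
    intro w hw
    refine (hz w (hF w hw)).trans_lt (lt_of_lt_of_le ?_ (hy w hw).2)
    have := Finset.le_sup (f := n) (hF w hw)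
    rw [exp_lt_exp]
    omega
  have hz0 : z ≠ 0 := by
    obtain ⟨w, hw⟩ := exists_over_prime K Nat.prime_two
    rintro rfl
    have := h3 w (by simpa using hw)
    simp at this
  refine ⟨Units.mk0 z hz0, fun w hw => ?_⟩
  have hy0 : 0 < val w (y w) := zero_le.trans_lt (h3 w hw)
  have hy1 : y w ≠ 0 := (Valuation.ne_zero_iff _).1 hy0.ne'
  have h4 : val w (z / y w - 1) < 1 := by
    rw [div_sub_one hy1, map_div₀, div_lt_one₀ hy0]
    exact h3 w hw
  have h5 := c1b_one h4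
  have e : x * z ^ 2 - 1 =
      (z / y w) ^ 2 * (x * y w ^ 2 - 1) + (z / y w + 1) * (z / y w - 1) := by
    field_simp
    ring
  rw [Units.val_mk0, e]
  refine Valuation.map_add_lt _ (local_mul_lt _ ?_ (hy w hw).1) (local_mul_lt _ ?_ h4)
  · rw [map_pow, h5, one_pow]
  · exact Valuation.map_add_le _ h5.le (by simp)

theorem c1b_smul_ofNat (g : Ga K) : g • (2 : K) = 2 ∧ g • (4 : K) = 4 :=
  ⟨map_ofNat g 2, map_ofNat g 4⟩

theorem c1b_coe (g : Ga K) (x : Kˣ) : ((g • x : Kˣ) : K) = g • (x : K) := rfl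


theorem tr2_add (s t : 𝓞 K) : tr2 (s + t) = tr2 s + tr2 t := by
  simp only [tr2, map_add, Int.cast_add]

theorem tr2_smul [IsGalois ℚ K] (g : Ga K) (s : 𝓞 K) : tr2 (g • s) = tr2 s := by
  have h := Algebra.trace_eq_of_algEquiv
    (AlgEquiv.ofRingEquiv (R := ℤ) (f := MulSemiringAction.toRingEquiv (Ga K) (𝓞 K) g)
      (fun n => by simp)) s
  exact congrArg (Int.cast : ℤ → ZMod 2) h

theorem tr2_eq_zero (h2 : Two K) {s : 𝓞 K}
    (h : ∀ w : P K, val w (2 : K) < 1 → val w (s : K) < 1) : tr2 s = 0 := by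
  obtain ⟨t, ht⟩ := exists_int_of_val_le_one (x := (s : K) / 2) fun w => by
    rw [map_div₀, div_le_one₀ (local_val_two_pos _)]
    by_cases hw : val w (2 : K) < 1
    · exact c1b_le_two (h2 w hw) (h w hw)
    · exact (w.valuation_le_one s).trans (not_lt.1 hw)
  have e1 : ((t + t : 𝓞 K) : K) = (t : K) + t := map_add (algebraMap (𝓞 K) K) t t
  have e0 : (s : K) = ((t + t : 𝓞 K) : K) := by
    rw [e1, ht]
    ring
  have e : s = t + t := RingOfIntegers.coe_injective e0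
  rw [e, tr2_add]
  exact CharTwo.add_self_eq_zero _

theorem tr2_congr (h2 : Two K) {s s' : 𝓞 K}
    (h : ∀ w : P K, val w (2 : K) < 1 → val w ((s : K) - s') < 1) (t : 𝓞 K) :
    tr2 (s * t) = tr2 (s' * t) := by
  have e : s * t = s' * t + t * (s - s') := by ring
  rw [e, tr2_add, tr2_eq_zero h2 (s := t * (s - s')) fun w hw => ?_, add_zero]
  push_cast
  exact local_mul_lt _ (w.valuation_le_one t) (h w hw)

theorem exists_sig (h2 : Two K) {x : Kˣ}
    (h : ∀ w : P K, val w (2 : K) < 1 → Even (ord w (x : K))) : ∃ s, Sig x s := by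
  obtain ⟨z, hz⟩ := c1b_glue x.ne_zero h
  obtain ⟨F, hF⟩ : ∃ F : Finset (P K), ∀ w : P K, val w (2 : K) < 1 ↔ w ∈ F :=
    ⟨(finite_supp (two_ne_zero : (2 : K) ≠ 0)).toFinset, fun w => by
      simpa using (c1b_two_le_one (val w)).lt_iff_ne⟩
  obtain ⟨s, hs, hs'⟩ :=
    approx F (fun _ => ((x : K) * (z : K) ^ 2 - 1) / 2) (exp (-1 : ℤ)) exp_ne_zero
  obtain ⟨t, rfl⟩ := exists_int_of_val_le_one (x := s) fun w => by
    by_cases hw : w ∈ F
    · have hw' := (hF w).2 hw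
      have e : s = (s - ((x : K) * (z : K) ^ 2 - 1) / 2) + ((x : K) * (z : K) ^ 2 - 1) / 2 := by
        ring
      rw [e]
      refine Valuation.map_add_le _ ((hs w hw).trans ((h2 w hw').symm.trans_le hw'.le)) ?_
      rw [map_div₀, div_le_one₀ (local_val_two_pos _)]
      exact c1b_le_two (h2 w hw') (hz w hw')
    · exact hs' w hw
  refine ⟨t, z, fun w hw => ?_⟩
  have e : (x : K) * (z : K) ^ 2 - 1 - 2 * (t : K) =
      -(2 * ((t : K) - ((x : K) * (z : K) ^ 2 - 1) / 2)) := by ring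
  rw [e, Valuation.map_neg, map_mul, local_val_four]
  exact mul_le_mul' le_rfl ((hs w ((hF w).1 hw)).trans_eq (h2 w hw).symm)

theorem sig_spec (h2 : Two K) {x : Kˣ}
    (h : ∀ w : P K, val w (2 : K) < 1 → Even (ord w (x : K))) : Sig x (sig x) := by
  have h1 := exists_sig h2 h
  rw [sig, dif_pos h1]
  exact h1.choose_spec

theorem Sig.even {x : Kˣ} {s : 𝓞 K} (h : Sig x s) {w : P K} (hw : val w (2 : K) < 1) :
    Even (ord w (x : K)) := by
  obtain ⟨z, hz⟩ := h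
  have h1 := c1b_one ((c1b_near (w.valuation_le_one s) (hz w hw)).trans_lt hw)
  have h3 := (sunit_ord_eq_zero_iff w (mul_ne_zero x.ne_zero (pow_ne_zero 2 z.ne_zero))).2 h1
  rw [ord_mul w x.ne_zero (pow_ne_zero 2 z.ne_zero), sq, ord_mul w z.ne_zero z.ne_zero] at h3
  exact ⟨-ord w (z : K), by omega⟩

theorem Sig.mul {x y : Kˣ} {s t : 𝓞 K} (h : Sig x s) (h' : Sig y t) : Sig (x * y) (s + t) := by
  obtain ⟨z, hz⟩ := h
  obtain ⟨z', hz'⟩ := h'
  refine ⟨z * z', fun w hw => ?_⟩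
  have hb : val w ((y : K) * (z' : K) ^ 2) ≤ 1 :=
    c1b_le_one ((c1b_near (w.valuation_le_one t) (hz' w hw)).trans hw.le)
  have hs : val w (1 + 2 * (s : K)) ≤ 1 := by
    refine Valuation.map_add_le _ (by simp) ?_
    rw [map_mul]
    exact mul_le_one' hw.le (w.valuation_le_one s)
  have e : ((x * y : Kˣ) : K) * ((z * z' : Kˣ) : K) ^ 2 - 1 - 2 * ((s + t : 𝓞 K) : K) =
      4 * ((s * t : 𝓞 K) : K) + ((x : K) * (z : K) ^ 2 - 1 - 2 * (s : K)) * ((y : K) * (z' : K) ^ 2) +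
        ((y : K) * (z' : K) ^ 2 - 1 - 2 * (t : K)) * (1 + 2 * (s : K)) := by
    push_cast
    ring
  rw [e]
  refine Valuation.map_add_le _ (Valuation.map_add_le _
    (local_four_mul_le _ (w.valuation_le_one (s * t))) ?_) ?_
  · rw [map_mul]
    exact (mul_le_of_le_one_right' hb).trans (hz w hw)
  · rw [map_mul]
    exact (mul_le_of_le_one_right' hs).trans (hz' w hw)

theorem Sig.smul {x : Kˣ} {s : 𝓞 K} (h : Sig x s) (g : Ga K) : Sig (g • x) (g • s) := by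
  obtain ⟨z, hz⟩ := h
  refine ⟨g • z, fun w hw => ?_⟩
  obtain ⟨w, rfl⟩ : ∃ w' : P K, g • w' = w := ⟨g⁻¹ • w, smul_inv_smul g w⟩
  rw [← (c1b_smul_ofNat g).1, val_smul] at hw
  have h1 := hz w hw
  rw [← val_smul g, ← val_smul g w 4, (c1b_smul_ofNat g).2, smul_sub, smul_sub, smul_mul',
    smul_mul', smul_pow', smul_one, (c1b_smul_ofNat g).1] at h1
  exact h1

theorem Sig.of_isSquare {x : Kˣ} (h : IsSquare x) : Sig x 0 := by
  obtain ⟨r, rfl⟩ := h
  refine ⟨r⁻¹, fun w _ => ?_⟩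
  have e : ((r * r : Kˣ) : K) * ((r⁻¹ : Kˣ) : K) ^ 2 - 1 - 2 * ((0 : 𝓞 K) : K) = 0 := by
    have := r.ne_zero
    push_cast
    field_simp
    ring
  rw [e, map_zero]
  exact zero_le

theorem Sig.pry (h2 : Two K) {x : Kˣ} {s : 𝓞 K} (h : Sig x s) {w : P K}
    (hw : val w (2 : K) < 1) : Pry w x ↔ val w (s : K) < 1 := by
  obtain ⟨z, hz⟩ := h
  constructor
  · rintro ⟨z', hz'⟩
    have e : (x : K) * (z : K) ^ 2 = ((z : K) / z') ^ 2 * ((x : K) * (z' : K) ^ 2) := by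
      have := z'.ne_zero
      field_simp
    have h1 := hz w hw
    rw [e] at h1
    simpa using c1b_key (s' := 0) (h2 w hw) hw (w.valuation_le_one s) (by simp) h1
      (by simpa using hz')
  · intro hs
    refine ⟨z, ?_⟩
    have e : (x : K) * (z : K) ^ 2 - 1 = ((x : K) * (z : K) ^ 2 - 1 - 2 * (s : K)) + 2 * s := by
      ring
    rw [e]
    refine Valuation.map_add_le _ (hz w hw) ?_
    rw [map_mul, local_val_four]
    exact mul_le_mul' le_rfl (c1b_le_two (h2 w hw) hs)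

theorem Sig.neg_pry (h2 : Two K) {x : Kˣ} {s : 𝓞 K} (h : Sig x s) {w : P K}
    (hw : val w (2 : K) < 1) (hp : Pry w (-x)) : val w ((s : K) - 1) < 1 := by
  obtain ⟨z, hz⟩ := h
  obtain ⟨z', hz'⟩ := hp
  have e : (x : K) * (z : K) ^ 2 = ((z : K) / z') ^ 2 * ((x : K) * (z' : K) ^ 2) := by
    have := z'.ne_zero
    field_simp
  have h1 := hz w hw
  rw [e] at h1
  have e' : ((-x : Kˣ) : K) * (z' : K) ^ 2 - 1 = -((x : K) * (z' : K) ^ 2 - 1 - 2 * (-1)) := by
    push_cast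
    ring
  rw [e', Valuation.map_neg] at hz'
  have h3 := c1b_key (h2 w hw) hw (w.valuation_le_one s) (by simp) h1 hz'
  have e3 : (s : K) - 1 = ((s : K) - (-1)) - 2 := by ring
  rw [e3]
  exact Valuation.map_sub_lt _ h3 hw

theorem Sig.unique (h2 : Two K) {x : Kˣ} {s s' : 𝓞 K} (h : Sig x s) (h' : Sig x s') (w : P K)
    (hw : val w (2 : K) < 1) : val w ((s : K) - s') < 1 := by
  obtain ⟨z, hz⟩ := h
  obtain ⟨z', hz'⟩ := h'
  have e : (x : K) * (z : K) ^ 2 = ((z : K) / z') ^ 2 * ((x : K) * (z' : K) ^ 2) := by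
    have := z'.ne_zero
    field_simp
  have h1 := hz w hw
  rw [e] at h1
  exact c1b_key (h2 w hw) hw (w.valuation_le_one s) (w.valuation_le_one s') h1 (hz' w hw)

theorem Pry.mul {w : P K} (hw : val w (2 : K) < 1) {x y : Kˣ} (h : Pry w x) (h' : Pry w y) :
    Pry w (x * y) := by
  obtain ⟨z, hz⟩ := h
  obtain ⟨z', hz'⟩ := h'
  refine ⟨z * z', ?_⟩
  have hb : val w ((y : K) * (z' : K) ^ 2) ≤ 1 :=
    c1b_le_one (hz'.trans ((c1b_four_le_two _).trans hw.le))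
  have e : ((x * y : Kˣ) : K) * ((z * z' : Kˣ) : K) ^ 2 - 1 =
      ((x : K) * (z : K) ^ 2 - 1) * ((y : K) * (z' : K) ^ 2) + ((y : K) * (z' : K) ^ 2 - 1) := by
    push_cast
    ring
  rw [e]
  refine Valuation.map_add_le _ ?_ hz'
  rw [map_mul]
  exact (mul_le_of_le_one_right' hb).trans hz

theorem Pry.of_isSquare (w : P K) {x : Kˣ} (h : IsSquare x) : Pry w x := by
  obtain ⟨r, rfl⟩ := h
  refine ⟨r⁻¹, ?_⟩
  have e : ((r * r : Kˣ) : K) * ((r⁻¹ : Kˣ) : K) ^ 2 - 1 = 0 := by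
    have := r.ne_zero
    push_cast
    field_simp
    ring
  rw [e, map_zero]
  exact zero_le

theorem Pry.smul {w : P K} {x : Kˣ} (g : Ga K) (h : Pry (g • w) x) : Pry w (g⁻¹ • x) := by
  obtain ⟨z, hz⟩ := h
  refine ⟨g⁻¹ • z, ?_⟩
  rw [← val_smul g⁻¹, ← val_smul g⁻¹ (g • w) 4, (c1b_smul_ofNat g⁻¹).2, inv_smul_smul, smul_sub,
    smul_mul', smul_pow', smul_one] at hz
  exact hz

end Pool.Agent.Lib.MP_775b3b_nt.CM
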