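import Pool.Agent.Lib.MP_775b3b_nt.CM.C10a
import Pool.Agent.Lib.MP_775b3b_nt.CM.C2

namespace Pool.Agent.Lib.MP_775b3b_nt.CM

open Pool.Agent.Lib.MP_439fea_co NumberField WithZero

variable {K : Type} [Field K] [NumberField K] [IsGalois ℚ K]


/-- the element with the given coordinates -/
noncomputable def c10b_A (α : 𝓞 K) (a : GA (Ga K)) : 𝓞 K := ∑ g, (a.coeff g).val • g • α

omit [IsGalois ℚ K] in
theorem c10b_cz (α : 𝓞 K) (a : GA (Ga K)) : cz α (c10b_A α a) = a * cz α α := by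
  change AddMonoidHom.mk' (cz α) (cz_add α) _ = _
  conv_rhs => rw [eq_sum_gr a, Finset.sum_mul]
  simp only [c10b_A, map_sum, map_nsmul, AddMonoidHom.mk'_apply, cz_smul, smul_mul_assoc]

theorem c10b_tr (α s : 𝓞 K) (a : GA (Ga K)) :
    (a * star (cz α s)).coeff 1 = tr2 (c10b_A α a * s) := by
  change _ = AddMonoidHom.mk' tr2 tr2_add _
  rw [coeff_mul_star, c10b_A, Finset.sum_mul, map_sum]
  refine Finset.sum_congr rfl fun g _ => ?_
  rw [smul_mul_assoc, map_nsmul, nsmul_eq_mul, ZMod.natCast_zmod_val, AddMonoidHom.mk'_apply, cz,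
    coeff_mk, ← tr2_smul g, smul_mul', smul_inv_smul, mul_comm s]

omit [IsGalois ℚ K] in
theorem c10b_mem {s : 𝓞 K} (h : s ∈ Ideal.span {((2 : ℕ) : 𝓞 K)}) (w : P K)
    (hw : val w (2 : K) < 1) : val w (s : K) < 1 := by
  obtain ⟨t, rfl⟩ := Ideal.mem_span_singleton'.1 h
  push_cast
  exact local_mul_lt _ (w.valuation_le_one t) hw

omit [IsGalois ℚ K] in
theorem c10b_inj {α : 𝓞 K} (h : ∀ a : Ga K → ℤ, (∀ w' : P K, val w' (2 : K) < 1 →
    val w' (∑ g, (a g : K) * g (α : K)) < 1) → ∀ g, Even (a g)) {a b : GA (Ga K)}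
    (e : ∀ w : P K, val w (2 : K) < 1 → val w ((c10b_A α a - c10b_A α b : 𝓞 K) : K) < 1) :
    a = b := by
  refine ga_ext fun g => ?_
  have h1 := h (fun g => ((a.coeff g).val : ℤ) - (b.coeff g).val) (fun w hw => by
    refine Eq.trans_lt (congrArg _ ?_) (e w hw)
    simp only [c10b_A, map_sub, map_sum, Int.cast_sub, Int.cast_natCast, sub_mul,
      Finset.sum_sub_distrib, nsmul_eq_mul, map_mul, map_natCast]
    rfl) g
  have h3 := (ZMod.intCast_zmod_eq_zero_iff_dvd _ 2).2 (even_iff_two_dvd.1 h1)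
  rwa [Int.cast_sub, Int.cast_natCast, Int.cast_natCast, ZMod.natCast_zmod_val,
    ZMod.natCast_zmod_val, sub_eq_zero] at h3

theorem c10b_surj {α : 𝓞 K} (h : ∀ a : Ga K → ℤ, (∀ w' : P K, val w' (2 : K) < 1 →
    val w' (∑ g, (a g : K) * g (α : K)) < 1) → ∀ g, Even (a g)) (s : 𝓞 K) : ∃ a,
    ∀ w : P K, val w (2 : K) < 1 → val w ((c10b_A α a : K) - s) < 1 := by
  have h1 : Nat.card (𝓞 K ⧸ Ideal.span {((2 : ℕ) : 𝓞 K)}) = 2 ^ Module.finrank ℚ K := by
    rw [← RingOfIntegers.rank, ← Ideal.absNorm_span_natCast]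
    rfl
  have := Nat.finite_of_card_ne_zero (h1.trans_ne (pow_ne_zero _ two_ne_zero))
  have h3 : Nat.card (GA (Ga K)) = 2 ^ Module.finrank ℚ K := by
    rw [Nat.card_congr (⟨fun x => (x.coeff : Ga K → ZMod 2), mk, fun _ => ga_ext fun _ => rfl,
      fun _ => rfl⟩ : GA (Ga K) ≃ _), Nat.card_fun, Nat.card_zmod, IsGalois.card_aut_eq_finrank]
  obtain ⟨a, ha⟩ := ((Nat.bijective_iff_injective_and_card fun a =>
    Ideal.Quotient.mk (Ideal.span {((2 : ℕ) : 𝓞 K)}) (c10b_A α a)).2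
      ⟨fun a b e => c10b_inj h (c10b_mem (Ideal.Quotient.eq.1 e)), h3.trans h1.symm⟩).2
        (Ideal.Quotient.mk _ s)
  exact ⟨a, fun w hw => by simpa using c10b_mem (Ideal.Quotient.eq.1 ha) w hw⟩

theorem c10b_one {α : 𝓞 K} (h : ∀ a : Ga K → ℤ, (∀ w' : P K, val w' (2 : K) < 1 →
    val w' (∑ g, (a g : K) * g (α : K)) < 1) → ∀ g, Even (a g)) : tr2 α = 1 := by
  refine (by decide : ∀ x : ZMod 2, x ≠ 0 → x = 1) _ fun e => ?_
  obtain ⟨m, hm⟩ := (ZMod.intCast_zmod_eq_zero_iff_dvd _ 2).1 e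
  refine Int.not_even_one (h (fun _ => 1) (fun w hw => ?_) 1)
  simp only [Int.cast_one, one_mul]
  rw [← trace_eq_sum_automorphisms, ← Algebra.coe_trace_int, hm, map_intCast]
  push_cast
  rw [mul_comm]
  exact local_mul_lt _ (by simpa using w.valuation_le_one (K := K) (m : 𝓞 K)) hw

omit [IsGalois ℚ K] in
theorem c10b_pow {G : Subgroup (Ga K)} {u : GA (Ga K)} (h : ∀ g ∉ G, u.coeff g = 0) (n : ℕ) :
    ∀ g ∉ G, (u ^ n).coeff g = 0 := by
  induction n with
  | zero =>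
    intro g hg
    have hne : g ≠ 1 := fun e => hg (e ▸ G.one_mem)
    rw [pow_zero, MonoidAlgebra.one_def, MonoidAlgebra.coeff_single, Finsupp.single_eq_of_ne hne]
  | succ n ih =>
    intro g hg
    rw [pow_succ, coeff_mul']
    refine Finset.sum_eq_zero fun k _ => ?_
    by_cases hk : k ∈ G
    · rw [h _ fun e => hg (by simpa using G.mul_mem hk e), mul_zero]
    · rw [ih k hk, zero_mul]

theorem exists_nb (h2 : Two K) {w : P K} (hw : val w (2 : K) < 1) {G : Subgroup (Ga K)}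
    (hG : ∀ g : Ga K, g • w = w → g ∈ G) :
    ∃ (α : 𝓞 K) (u : GA (Ga K)), SymU G u ∧
      (∀ s s' : 𝓞 K, (cz α s * u * star (cz α s')).coeff 1 = tr2 (s * s')) ∧
      (∀ s : 𝓞 K, val w (s : K) < 1 → tr2 (s * α) = 0) ∧
      ∀ s : 𝓞 K, val w ((s : K) - 1) < 1 → tr2 (s * α) = 1 := by
  obtain ⟨α, h0, h1⟩ := exists_normal h2 hw
  have z0 : ∀ s : 𝓞 K, val w (s : K) < 1 → tr2 (s * α) = 0 := fun s hs =>
    tr2_eq_zero h2 fun v hv => by
      push_cast
      rcases eq_or_ne v w with rfl | e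
      · exact mul_comm (α : K) s ▸ local_mul_lt _ (v.valuation_le_one α) hs
      · exact local_mul_lt _ (v.valuation_le_one s) (h0 v hv e)
  have z1 : ∀ s : 𝓞 K, val w ((s : K) - 1) < 1 → tr2 (s * α) = 1 := fun s hs => by
    rw [show s * α = (s - 1) * α + α by ring, tr2_add, z0 _ (by simpa using hs), c10b_one h1,
      zero_add]
  have nd : ∀ a, a * cz α α = 0 → a = 0 := fun a ha => c10b_inj h1 fun v hv => by
    rw [show c10b_A α 0 = 0 by simp [c10b_A], sub_zero, Val_lt_iff_mem]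
    by_contra e
    obtain ⟨y, i, hi, e1⟩ := v.isMaximal.exists_inv e
    obtain ⟨g, rfl⟩ := exists_smul_eq_of_prime Nat.prime_two (w := w) (w' := v)
      (by exact_mod_cast hw) (by exact_mod_cast hv)
    obtain ⟨b, hb⟩ := c10b_surj h1 (y * g • α)
    have h3 := z1 (g⁻¹ • (y * c10b_A α a)) (by
      rw [← val_smul g, smul_sub, smul_one, coe_smul_int, smul_inv_smul,
        eq_sub_of_add_eq e1]
      simpa using (Val_lt_iff_mem _ i).2 hi)
    rw [← tr2_smul g, smul_mul', smul_inv_smul, mul_right_comm, ← tr2_congr h2 hb, ← c10b_tr,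
      c10b_cz, ha, star_zero, mul_zero] at h3
    exact zero_ne_one h3
  have un : IsUnit (cz α α) := IsRightRegular.isUnit_of_finite fun a b e =>
    sub_eq_zero.1 (nd _ (by rw [sub_mul]; exact sub_eq_zero.2 e))
  have sy : star (cz α α) = cz α α := ga_ext fun g => by
    rw [coeff_star, cz, coeff_mk, coeff_mk, ← tr2_smul g⁻¹, smul_mul', inv_inv, inv_smul_smul,
      mul_comm]
  obtain ⟨n, hn, h3⟩ := (isOfFinOrder_of_finite un.unit).exists_pow_eq_one
  obtain ⟨n, rfl⟩ := Nat.exists_eq_succ_of_ne_zero hn.ne'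
  have h4 : cz α α * cz α α ^ n = 1 := by simpa [pow_succ'] using congrArg Units.val h3
  refine ⟨α, cz α α ^ n, ⟨c10b_pow (fun g hg => z0 _ ?_) n, by rw [star_pow, sy], un.pow n⟩,
    fun s s' => ?_, z0, z1⟩
  · rw [← val_smul g, coe_smul_int, smul_inv_smul]
    exact h0 _ (by rw [← (c1b_smul_ofNat g).1, val_smul]; exact hw) fun e => hg (hG g e)
  · obtain ⟨a, ha⟩ := c10b_surj h1 s
    have h5 : cz α (c10b_A α a) = cz α s := ga_ext fun g => tr2_congr h2 (fun v hv => by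
      rw [← val_smul g, smul_sub, coe_smul_int, coe_smul_int, smul_inv_smul, smul_inv_smul]
      exact ha _ (by rw [← (c1b_smul_ofNat g).1, val_smul]; exact hv)) α
    rw [← h5, c10b_cz, mul_assoc a, h4, mul_one, c10b_tr, tr2_congr h2 ha]

end Pool.Agent.Lib.MP_775b3b_nt.CM
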