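import Pool.Agent.Lib.MP_775b3b_nt.CM.NDef

namespace Pool.Agent.Lib.MP_775b3b_nt.CM

open Pool.Agent.Lib.MP_439fea_co NumberField WithZero

variable {K : Type} [Field K] [NumberField K]


theorem val_nu {n : ℕ} (h : n ≠ 0) : ((nu K n : Kˣ) : K) = n := by
  rw [nu, dif_neg h, Units.val_mk0]

theorem nu_mul {a b : ℕ} (ha : a ≠ 0) (hb : b ≠ 0) : nu K (a * b) = nu K a * nu K b := by
  ext
  rw [Units.val_mul, val_nu ha, val_nu hb, val_nu (mul_ne_zero ha hb), Nat.cast_mul]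

theorem smul_nu (g : Ga K) (n : ℕ) : g • nu K n = nu K n := by
  by_cases h : n = 0
  · rw [nu, dif_pos h, smul_one]
  · ext
    change g ((nu K n : Kˣ) : K) = _
    rw [val_nu h, map_natCast]

theorem val_smul_units (g : Ga K) (x : Kˣ) : ((g • x : Kˣ) : K) = g (x : K) := by
  rfl

theorem nm_smul (g : Ga K) (v : P K) : nm (g • v) = nm v := by
  exact absNorm_smul g v

theorem ord_smul' (g : Ga K) (v : P K) (x : Kˣ) :
    ord v ((g⁻¹ • x : Kˣ) : K) = ord (g • v) (x : K) := by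
  rw [← ord_smul g v]
  exact congrArg _ (smul_inv_smul g (x : K))

theorem Sq_smul (g : Ga K) (v : P K) (x : Kˣ) : g⁻¹ • x ∈ Sq (val v) ↔ x ∈ Sq (val (g • v)) := by
  have k : ∀ (g : Ga K) (v : P K) (x : Kˣ), x ∈ Sq (val v) → g • x ∈ Sq (val (g • v)) := by
    intro g v x h
    obtain ⟨z, o, ho, rfl⟩ := mem_Sq.1 h
    refine mem_Sq.2 ⟨g • z, g • o, ?_, by rw [smul_mul', smul_pow']⟩
    rw [mem_One, ← val_smul g, ← val_smul g v 4] at ho
    rw [mem_One, val_smul_units]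
    simpa only [AlgEquiv.smul_def, map_sub, map_one, map_ofNat] using ho
  exact ⟨fun h => smul_inv_smul g x ▸ k g v _ h, fun h => by
    have := k g⁻¹ _ _ h
    rwa [inv_smul_smul] at this⟩

theorem mem_Sq_of_isSquare (v : P K) {x : Kˣ} (h : IsSquare x) : x ∈ Sq (val v) := by
  obtain ⟨z, rfl⟩ := h
  exact mem_Sq.2 ⟨z, 1, one_mem _, by rw [mul_one, sq]⟩

theorem even_ord_of_mem_Sq {v : P K} {x : Kˣ} (h : x ∈ Sq (val v)) : Even (ord v (x : K)) := by
  obtain ⟨z, o, ho, rfl⟩ := mem_Sq.1 h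
  rw [sq, Units.val_mul, Units.val_mul, ord_mul v (mul_ne_zero z.ne_zero z.ne_zero) o.ne_zero,
    ord_mul v z.ne_zero z.ne_zero, (sunit_ord_eq_zero_iff v o.ne_zero).2 (One_le_Un _ ho), add_zero]
  exact ⟨_, rfl⟩

theorem isSquare_units {x : Kˣ} : IsSquare x ↔ IsSquare (x : K) := by
  rw [← mem_Sqs_iff_isSquare, mem_Sqs]
  exact exists_congr fun z => by rw [sq]

theorem sg_mul (ρ : K →+* ℝ) (x y : Kˣ) : sg ρ (x * y) = sg ρ x + sg ρ y := by
  have hx : ρ x ≠ 0 := (map_ne_zero ρ).2 x.ne_zero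
  have hy : ρ y ≠ 0 := (map_ne_zero ρ).2 y.ne_zero
  simp only [sg, Units.val_mul, map_mul, mul_neg_iff]
  rcases hx.lt_or_gt with h | h <;> rcases hy.lt_or_gt with h' | h' <;>
    simp [h, h', h.not_gt, h'.not_gt]
  rfl

theorem od_mul (v : P K) (x y : Kˣ) : od v (x * y) = od v x + od v y := by
  rw [od, od, od, Units.val_mul, ord_mul v x.ne_zero y.ne_zero, Int.cast_add]

theorem od_eq_zero {v : P K} {x : Kˣ} : od v x = 0 ↔ Even (ord v (x : K)) := by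
  rw [od, ZMod.intCast_zmod_eq_zero_iff_dvd, even_iff_two_dvd]
  rfl

theorem ns_eq_zero {v : P K} {x : Kˣ} : ns v x = 0 ↔ x ∈ Sq (val v) := by
  rw [ns]
  split_ifs with h <;> simp [h]

theorem ns_mul_of_mem {v : P K} (x : Kˣ) {y : Kˣ} (h : y ∈ Sq (val v)) :
    ns v (x * y) = ns v x := by
  classical
  rw [ns, ns]
  exact if_congr (Subgroup.mul_mem_cancel_right _ h) rfl rfl

theorem ns_mul {v : P K} (h2 : val v (2 : K) = 1) {x y : Kˣ} (hx : Even (ord v (x : K)))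
    (hy : Even (ord v (y : K))) : ns v (x * y) = ns v x + ns v y := by
  obtain ⟨p, hp⟩ := v.valuation_surjective K (exp (-1 : ℤ))
  have p0 : p ≠ 0 := fun h => exp_ne_zero (by rw [← hp, h, map_zero])
  have k : ∀ x : Kˣ, Even (ord v (x : K)) → ∃ z ∈ Sq (val v), x * z ∈ Un (val v) := by
    rintro x ⟨n, hn⟩
    refine ⟨(Units.mk0 p p0 ^ (-n)) * (Units.mk0 p p0 ^ (-n)), mem_Sq_of_isSquare v ⟨_, rfl⟩, ?_⟩
    replace hp : val v p = exp (-1 : ℤ) := hp
    simp only [mem_Un, Units.val_mul, Units.val_zpow_eq_zpow_val, Units.val_mk0, map_mul, map_zpow₀,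
      hp, val_eq_exp v x.ne_zero, hn, ← exp_zsmul, ← exp_add, ← exp_zero (M := ℤ), exp_inj,
      smul_eq_mul]
    ring
  obtain ⟨a, ha, ha'⟩ := k x hx
  obtain ⟨b, hb, hb'⟩ := k y hy
  rw [← ns_mul_of_mem (x * y) (mul_mem ha hb), ← ns_mul_of_mem x ha, ← ns_mul_of_mem y hb,
    mul_mul_mul_comm]
  by_cases h1 : x * a ∈ Sq (val v)
  · rw [mul_comm, ns_mul_of_mem _ h1, ns_eq_zero.2 h1, zero_add]
  by_cases h3 : y * b ∈ Sq (val v)
  · rw [ns_mul_of_mem _ h3, ns_eq_zero.2 h3, add_zero]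
  rw [ns_eq_zero.2 (mul_mem_Sq v h2 ha' hb' h1 h3), ns, ns, if_neg h1, if_neg h3]
  rfl

theorem SP.smul {v : P K} (h : SP v) (g : Ga K) : SP (g • v) := by
  refine ⟨nm_smul g v ▸ h.prime, nm_smul g v ▸ h.one, ?_, fun a ha => ?_, fun y hy => ?_⟩
  · rw [nm_smul, ← h.unr, ← val_smul g v, AlgEquiv.smul_def, map_natCast g]
  · have := h.free (g⁻¹ * a * g) (by rw [mul_smul, mul_smul, ha, inv_smul_smul])
    rwa [mul_assoc, inv_mul_eq_one, eq_comm, mul_eq_right] at this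
  · obtain ⟨n, hn⟩ := h.res (g⁻¹ • y) (by rwa [← val_smul g, smul_inv_smul])
    refine ⟨n, ?_⟩
    rwa [← val_smul g, smul_sub, smul_inv_smul, AlgEquiv.smul_def, map_intCast] at hn

theorem c1a_lt : exp (-1 : ℤ) < (1 : ℤᵐ⁰) := by
  rw [← exp_zero, exp_lt_exp]
  decide

theorem SP.two {v : P K} (h : SP v) : val v (2 : K) = 1 := by
  refine (val_natCast_le_one v 2).antisymm (not_lt.1 fun h2 => ?_)
  have := prime_under_unique v h.prime Nat.prime_two (h.unr ▸ c1a_lt) h2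
  have h1 := h.one
  omega

theorem SP.ord_nu {v : P K} (h : SP v) : ord v ((nu K (nm v) : Kˣ) : K) = 1 := by
  have := val_eq_exp v (nu K (nm v)).ne_zero
  rw [val_nu h.prime.ne_zero, h.unr, exp_inj, neg_inj] at this
  rw [val_nu h.prime.ne_zero, ← this]

theorem SP.val_nat {v : P K} (h : SP v) {n : ℕ} (hn : ¬ nm v ∣ n) : val v (n : K) = 1 := by
  exact (val_natCast_le_one v n).antisymm (not_lt.1 fun h2 =>
    hn (Val_dvd_of_lt v h.prime (h.unr ▸ c1a_lt) h2))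

theorem SP.neg_one {v : P K} (h : SP v) : (-1 : Kˣ) ∈ Sq (val v) := by
  have := Fact.mk h.prime
  obtain ⟨y, hy⟩ := (ZMod.exists_sq_eq_neg_one_iff (p := nm v)).2 (by rw [h.one]; decide)
  have h1 : nm v ∣ y.val ^ 2 + 1 := by
    rw [← ZMod.natCast_eq_zero_iff, Nat.cast_add, Nat.cast_pow, ZMod.natCast_zmod_val, sq, ← hy]
    simp
  have h2 : ¬ nm v ∣ y.val := fun e =>
    h.prime.not_dvd_one ((Nat.dvd_add_right (dvd_pow e two_ne_zero)).1 h1)
  have h0 : y.val ≠ 0 := fun e => h2 (e ▸ dvd_zero _)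
  have h3 := (val_natCast_lt_one_iff v h.prime (h.unr ▸ c1a_lt) _).2 h1
  refine mem_Sq.2 ⟨(nu K y.val)⁻¹, -(nu K y.val) ^ 2, ?_, by simp⟩
  rw [mem_One, local_val_four, h.two, mul_one, ← Valuation.map_neg]
  simpa [val_nu h0, add_comm] using h3

theorem c1a_zpow (v : P K) (x : Kˣ) (n : ℤ) : ord v ((x ^ n : Kˣ) : K) = n * ord v (x : K) := by
  have := val_eq_exp v (x ^ n).ne_zero
  rw [Units.val_zpow_eq_zpow_val, map_zpow₀, val_eq_exp v x.ne_zero, ← exp_zsmul, exp_inj,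
    smul_eq_mul, mul_neg, neg_inj] at this
  rw [Units.val_zpow_eq_zpow_val, this]

theorem c1a_ord {v : P K} (h : SP v) (x : Kˣ) :
    ord v ((x * nu K (nm v) ^ (-ord v (x : K)) : Kˣ) : K) = 0 := by
  rw [Units.val_mul, ord_mul v x.ne_zero (Units.ne_zero _), c1a_zpow, h.ord_nu, mul_one,
    add_neg_cancel]

theorem c1a_ns (v : P K) (x : Kˣ) (n : ℤ) :
    ns v (x ^ n) = n * ns v x := by
  obtain ⟨k, rfl | rfl⟩ := Int.even_or_odd' n
  · rw [ns_eq_zero.2 (mem_Sq_of_isSquare v ⟨x ^ k, by rw [two_mul, zpow_add]⟩)]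
    simp [CharTwo.two_eq_zero]
  · rw [zpow_add, zpow_one, mul_comm,
      ns_mul_of_mem x (mem_Sq_of_isSquare v ⟨x ^ k, by rw [two_mul, zpow_add]⟩)]
    simp [CharTwo.two_eq_zero]

theorem sy_mul {v : P K} (h : SP v) (x y : Kˣ) : sy v (x * y) = sy v x + sy v y := by
  rw [sy, sy, sy, ← ns_mul h.two (c1a_ord h x ▸ Even.zero) (c1a_ord h y ▸ Even.zero), Units.val_mul,
    ord_mul v x.ne_zero y.ne_zero, neg_add, zpow_add, mul_mul_mul_comm]

theorem sy_eq_ns {v : P K} {x : Kˣ} (h : Even (ord v (x : K))) : sy v x = ns v x := by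
  obtain ⟨n, hn⟩ := h
  exact ns_mul_of_mem x (mem_Sq_of_isSquare v ⟨_ ^ (-n), by rw [hn, neg_add, zpow_add]⟩)

theorem sy_nu {v : P K} (h : SP v) : sy v (nu K (nm v)) = 0 := by
  rw [sy, h.ord_nu, zpow_neg, zpow_one, mul_inv_cancel, ns_eq_zero]
  exact one_mem _

theorem sy_smul (g : Ga K) (v : P K) (x : Kˣ) : sy v (g⁻¹ • x) = sy (g • v) x := by
  classical
  rw [sy, sy, ns, ns, ord_smul', nm_smul]
  exact if_congr (by rw [← Sq_smul, smul_mul', smul_zpow', smul_nu]) rfl rfl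

theorem tm_eq {v : P K} (h : SP v) (x y : Kˣ) :
    tm v x y = od v x * sy v y + sy v x * od v y := by
  have e : x ^ ord v (y : K) * y ^ (-ord v (x : K)) =
      (x * nu K (nm v) ^ (-ord v (x : K))) ^ ord v (y : K) *
        (y * nu K (nm v) ^ (-ord v (y : K))) ^ (-ord v (x : K)) := by
    rw [mul_zpow, mul_zpow, ← zpow_mul, ← zpow_mul, mul_mul_mul_comm, ← zpow_add,
      show -ord v (x : K) * ord v (y : K) + -ord v (y : K) * -ord v (x : K) = 0 by ring,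
      zpow_zero, mul_one]
  rw [tm, mul_assoc, mul_comm, ns_mul_of_mem _ (zpow_mem h.neg_one _), e,
    ns_mul h.two (by rw [c1a_zpow, c1a_ord h, mul_zero]; exact Even.zero)
      (by rw [c1a_zpow, c1a_ord h, mul_zero]; exact Even.zero),
    c1a_ns, c1a_ns, Int.cast_neg, CharTwo.neg_eq (R := ZMod 2), add_comm,
    mul_comm ((ord v (y : K) : ℤ) : ZMod 2)]
  rfl

end Pool.Agent.Lib.MP_775b3b_nt.CM
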