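import Pool.Agent.Lib.MP_775b3b_nt.CM.C1a

namespace Pool.Agent.Lib.MP_775b3b_nt.CM

open Pool.Agent.Lib.MP_439fea_co NumberField WithZero

variable {K : Type} [Field K] [NumberField K]

theorem c1c_abs (v : P K) (a : ℤ) : val v (a : K) = val v ((a.natAbs : ℕ) : K) := by
  rcases Int.natAbs_eq a with h | h
  · conv_lhs => rw [h, Int.cast_natCast]
  · conv_lhs => rw [h, Int.cast_neg, Int.cast_natCast, Valuation.map_neg]

theorem c1c_int {v : P K} (hv : SP v) (a : ℤ) : val v (a : K) < 1 ↔ ((nm v : ℕ) : ℤ) ∣ a := by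
  rw [c1c_abs, val_natCast_lt_one_iff v hv.prime (hv.unr ▸ c1a_lt), Int.natCast_dvd]

theorem SP.isSquare_iff {v : P K} (hv : SP v) {n : ℕ} (hn : ¬ nm v ∣ n) :
    nu K n ∈ Sq (val v) ↔ IsSquare (n : ZMod (nm v)) := by
  have hp := Fact.mk hv.prime
  have hn0 : n ≠ 0 := fun h => hn (h ▸ dvd_zero _)
  have h4 : val v (4 : K) = 1 := by rw [local_val_four, hv.two, one_mul]
  have hn1 := hv.val_nat hn
  constructor
  · intro h
    obtain ⟨z, o, ho, e⟩ := mem_Sq.1 h
    have e1 : (n : K) = (z : K) ^ 2 * o := by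
      rw [← val_nu hn0, e, Units.val_mul, Units.val_pow_eq_pow_val]
    have ho1 : val v (o : K) = 1 := One_le_Un _ ho
    rw [mem_One, h4] at ho
    have hz : val v (z : K) = 1 := by
      rw [e1, map_mul, ho1, mul_one, map_pow] at hn1
      exact (pow_eq_one_iff_of_nonneg zero_le two_ne_zero).1 hn1
    obtain ⟨m, hm⟩ := hv.res z hz.le
    have hm1 : val v ((z : K) + m) ≤ 1 := (val v).map_add_le hz.le (by
      rw [c1c_abs]
      exact val_natCast_le_one v _)
    have e2 : (((n : ℤ) - m * m : ℤ) : K) = (z : K) ^ 2 * (o - 1) + (z + m) * (z - m) := by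
      push_cast
      rw [e1]
      ring
    have h1 : val v (((n : ℤ) - m * m : ℤ) : K) < 1 := by
      rw [e2]
      refine (val v).map_add_lt (local_mul_lt _ ?_ ho) (local_mul_lt _ hm1 hm)
      rw [map_pow, hz, one_pow]
    have h2 := (ZMod.intCast_zmod_eq_zero_iff_dvd _ _).2 ((c1c_int hv _).1 h1)
    push_cast at h2
    exact ⟨m, sub_eq_zero.1 h2⟩
  · rintro ⟨r, hr⟩
    have hr0 : ¬ nm v ∣ r.val := fun h => hn (by
      rw [← ZMod.natCast_eq_zero_iff, ZMod.natCast_zmod_val] at h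
      rw [← ZMod.natCast_eq_zero_iff, hr, h, mul_zero])
    have hm0 : r.val ≠ 0 := fun h => hr0 (h ▸ dvd_zero _)
    have hm1 := hv.val_nat hr0
    have h1 : val v (((n : ℤ) - r.val * r.val : ℤ) : K) < 1 := by
      rw [c1c_int hv, ← ZMod.intCast_zmod_eq_zero_iff_dvd]
      push_cast
      rw [ZMod.natCast_zmod_val, hr, sub_self]
    refine mem_Sq.2 ⟨nu K r.val, nu K n / nu K r.val ^ 2, ?_, by simp⟩
    have hm2 : ((r.val : ℕ) : K) ≠ 0 := Nat.cast_ne_zero.2 hm0
    have e2 : ((nu K n / nu K r.val ^ 2 : Kˣ) : K) - 1 =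
        (((n : ℤ) - r.val * r.val : ℤ) : K) / ((r.val : ℕ) : K) ^ 2 := by
      rw [Units.val_div_eq_div_val, Units.val_pow_eq_pow_val, val_nu hn0, val_nu hm0,
        Int.cast_sub, Int.cast_mul, Int.cast_natCast, Int.cast_natCast]
      field_simp
    rwa [mem_One, h4, e2, map_div₀, map_pow, hm1, one_pow, div_one]

theorem nu_recip {v w : P K} (hv : SP v) (hw : SP w) (h : nm v ≠ nm w)
    (hs : nu K (nm v) ∈ Sq (val w)) : nu K (nm w) ∈ Sq (val v) := by
  have h1 := Fact.mk hv.prime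
  have h2 := Fact.mk hw.prime
  rw [hw.isSquare_iff fun e => h ((Nat.prime_dvd_prime_iff_eq hw.prime hv.prime).1 e).symm] at hs
  rw [hv.isSquare_iff fun e => h ((Nat.prime_dvd_prime_iff_eq hv.prime hw.prime).1 e)]
  have h3 := hw.one
  exact (ZMod.exists_sq_eq_prime_iff_of_mod_four_eq_one hv.one (by omega)).2 hs

theorem nu_prod {ι : Type} (s : Finset ι) (f : ι → ℕ) (h : ∀ i ∈ s, f i ≠ 0) :
    nu K (∏ i ∈ s, f i) = ∏ i ∈ s, nu K (f i) := by
  classical
  induction s using Finset.induction_on with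
  | empty => simp [nu]
  | insert a s ha ih =>
    rw [Finset.prod_insert ha, Finset.prod_insert ha,
      nu_mul (h a (Finset.mem_insert_self _ _))
        (Finset.prod_ne_zero_iff.2 fun i hi => h i (Finset.mem_insert_of_mem hi)),
      ih fun i hi => h i (Finset.mem_insert_of_mem hi)]

theorem mem_Sq_of_val {v : P K} (h2 : val v (2 : K) = 1) {x : Kˣ} (h : val v ((x : K) - 1) < 1) :
    x ∈ Sq (val v) := by
  refine mem_Sq.2 ⟨1, x, ?_, by simp⟩
  rwa [mem_One, local_val_four, h2, one_mul]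

theorem SP.conj [IsGalois ℚ K] {v w : P K} (hv : SP v) (h : val w ((nm v : ℕ) : K) < 1) :
    ∃ g : Ga K, g • v = w := by
  exact exists_smul_eq_of_prime hv.prime (hv.unr ▸ c1a_lt) h

theorem SP.val_conj [IsGalois ℚ K] {v w : P K} (hv : SP v) (h : ∀ g : Ga K, g • v ≠ w) :
    val w ((nm v : ℕ) : K) = 1 := by
  refine (val_natCast_le_one w _).antisymm (not_lt.1 fun h1 => ?_)
  obtain ⟨g, hg⟩ := hv.conj h1
  exact h g hg

end Pool.Agent.Lib.MP_775b3b_nt.CM
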