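import Pool.Agent.Lib.MP_775b3b_nt.CM.Rec1

/-! The product formula for the quadratic norm residue symbol. -/

namespace Pool.Agent.Lib.MP_775b3b_nt.CM

open Pool.Agent.Lib.MP_439fea_co NumberField WithZero

variable {k : Type} [Field k] [NumberField k]

theorem rec2_zmod : ∀ a b : ZMod 2, (a + b = 0 ↔ (a = 0 ↔ b = 0)) := by decide

/-- the kernel of the local symbol -/
def Kl (x : kˣ) (i : P k ⊕ (k →+* ℝ)) : Subgroup kˣ where
  carrier := {y | hl x y i = 0}
  one_mem' := hl_of_Ql x (one_mem _)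
  mul_mem' := fun {a b} ha hb => by
    change hl x (a * b) i = 0
    rw [hl_mul_right, ha, hb, add_zero]
  inv_mem' := fun {a} ha => by
    have h := hl_mul_right x a a⁻¹ i
    rwa [mul_inv_cancel, hl_of_Ql x (one_mem _), ha, zero_add, eq_comm] at h

theorem mem_Kl {x y : kˣ} {i : P k ⊕ (k →+* ℝ)} : y ∈ Kl x i ↔ hl x y i = 0 := Iff.rfl

theorem Sqs_le_Ql (i : P k ⊕ (k →+* ℝ)) : Sqs k ≤ Ql i := by
  rcases i with v | ρ
  · exact hasse_Sqs_le_Sq v
  · exact hasser_Sqs_le ρ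

theorem rec2_prod {A ι : Type} [CommGroup A] {W : Subgroup A} (hW : W.index = 2) (ξ : ι → A)
    (c : ι → ZMod 2) (s : Finset ι) (h : ∀ i ∈ s, (ξ i ∈ W ↔ c i = 0)) :
    ∏ i ∈ s, ξ i ∈ W ↔ ∑ i ∈ s, c i = 0 := by
  classical
  induction s using Finset.induction_on with
  | empty => simp
  | insert i s hi ih =>
    rw [Finset.prod_insert hi, Finset.sum_insert hi, Subgroup.mul_mem_iff_of_index_two hW,
      rec2_zmod, h i (Finset.mem_insert_self _ _), ih fun j hj => h j (Finset.mem_insert_of_mem hj)]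

theorem rec2_approx [Fintype (k →+* ℝ)] (S : Finset (P k)) (y : P k ⊕ (k →+* ℝ) → kˣ) :
    ∃ ξ : kˣ, ∀ j ∈ S.disjSum (Finset.univ : Finset (k →+* ℝ)), ξ / y j ∈ Ql j := by
  obtain ⟨ξ, h1, h2⟩ := approxR S (fun v => y (.inl v)) fun ρ => y (.inr ρ) ∈ PosR ρ
  refine ⟨ξ, ?_⟩
  rintro (v | ρ) hj
  · exact Subgroup.mem_sup_right (h1 v (Finset.inl_mem_disjSum.1 hj))
  · have h3 := sg_mul ρ (ξ / y (.inr ρ)) (y (.inr ρ))
    have h4 := h2 ρ
    rw [div_mul_cancel] at h3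
    rw [← sg_eq_zero, ← sg_eq_zero, h3, rec2_zmod] at h4
    refine sg_eq_zero.1 ?_
    tauto

open Classical in
theorem rec2_approx' [Fintype (k →+* ℝ)] (S : Finset (P k)) (i : P k ⊕ (k →+* ℝ)) (a : kˣ) :
    ∃ ξ : kˣ, (i ∈ S.disjSum (Finset.univ : Finset (k →+* ℝ)) → ξ / a ∈ Ql i) ∧
      ∀ j ∈ S.disjSum (Finset.univ : Finset (k →+* ℝ)), j ≠ i → ξ ∈ Ql j := by
  obtain ⟨ξ, h⟩ := rec2_approx S fun j => if j = i then a else 1
  refine ⟨ξ, fun hi => ?_, fun j hj hne => ?_⟩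
  · have := h i hi
    rwa [if_pos rfl] at this
  · have := h j hj
    rwa [if_neg hne, div_one] at this

open Classical in
theorem rec2_dual {S T : Finset (P k)} (hS : PidOut S) (hd : Disjoint S T)
    (h2 : ∀ v ∉ S, val v (2 : k) = 1)
    (hT : ∀ v ∈ T, ∃ u ∈ US S, u ∉ Sq (val v) ∧ ∀ v' ∈ T, v' ≠ v → u ∈ Sq (val v'))
    {v : P k} (hvT : v ∈ T) (a : kˣ) :
    ∃ y ∈ US (S ∪ T), y / a ∈ Sq (val v) ∧ ∀ v' ∈ T, v' ≠ v → y ∈ Sq (val v') := by
  have hvS : v ∉ S := Finset.disjoint_right.1 hd hvT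
  obtain ⟨z, hz⟩ := hS (fun w => if w = v then ord v (a : k) else 0)
    ((Set.finite_singleton v).subset fun w hw => by_contra fun hne => hw (if_neg hne))
  have hz1 : ∀ w ∉ S, w ≠ v → val w (z : k) = 1 := fun w hw hne =>
    hasse_val_eq_one_of_ord (by rw [hz w hw, if_neg hne])
  have hz2 : val v ((z * a⁻¹ : kˣ) : k) = 1 := hasse_val_eq_one_of_ord (by
    rw [rec1_mul, hz v hvS, if_pos rfl, Units.val_inv_eq_inv_val, ord_inv, add_neg_cancel])
  obtain ⟨u, hu, hu'⟩ := hasse_fix S T hd h2 hT (fun w => if w = v then z * a⁻¹ else z) (by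
    intro w hw
    by_cases hne : w = v
    · rw [if_pos hne, hne]
      exact mem_Un.2 hz2
    · rw [if_neg hne]
      exact mem_Un.2 (hz1 w (Finset.disjoint_right.1 hd hw) hne))
  refine ⟨z * u, Subgroup.mul_mem _ (mem_US.2 fun w hw => hz1 w
    (fun h => hw (Finset.mem_union_left _ h)) fun e => hw (e ▸ Finset.mem_union_right _ hvT))
    (US_mono Finset.subset_union_left hu), ?_, fun v' hv' hne => ?_⟩
  · have h3 := hu' v hvT
    rwa [if_pos rfl, mul_right_comm, ← div_eq_mul_inv] at h3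
  · have h3 := hu' v' hv'
    rwa [if_neg hne] at h3

open Classical in
/-- the symbol cannot be nontrivial at one place only -/
theorem rec2_one [Fintype (k →+* ℝ)] {S T : Finset (P k)} (hS : PidOut S) (hST : PidOut (S ∪ T))
    (hd : Disjoint S T) (h2 : ∀ v ∉ S, val v (2 : k) = 1)
    (hT : ∀ v ∈ T, ∃ u ∈ US S, u ∉ Sq (val v) ∧ ∀ v' ∈ T, v' ≠ v → u ∈ Sq (val v'))
    {a b : kˣ} (ha : a ∈ US (S ∪ T)) (hb : b ∈ US (S ∪ T)) (hbT : ∀ v ∈ T, b ∈ Sq (val v))
    (i : P k ⊕ (k →+* ℝ))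
    (h : ∀ j ∈ S.disjSum (Finset.univ : Finset (k →+* ℝ)), j ≠ i → a ∈ Ql j) : hl a b i = 0 := by
  by_contra hi
  have hsq : ¬ IsSquare (a : k) := fun h0 =>
    hi ((hl_comm _ _ _).trans (hl_of_Ql b (Sqs_le_Ql i (mem_Sqs_iff_isSquare.2 h0))))
  obtain ⟨h0, h1⟩ := herbR a hsq (S ∪ T) hST (fun v hv => h2 v fun e => hv
    (Finset.mem_union_left _ e)) ha
  set s := T.filter (fun v => a ∉ Sq (val v)) with hs
  have hc : ((S ∪ T).filter (fun v => a ∉ Sq (val v))).card +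
      Nat.card {ρ : k →+* ℝ // ρ (a : k) < 0} ≤ s.card + 1 := by
    rcases i with w | ρ
    · rw [hasser_zero fun ρ => h (.inr ρ) (by simp) (by simp), add_zero]
      refine (Finset.card_le_card fun v hv => ?_).trans (Finset.card_insert_le w _)
      simp only [hs, Finset.mem_filter, Finset.mem_union, Finset.mem_insert] at hv ⊢
      rcases hv with ⟨hv | hv, hv'⟩
      · exact Or.inl (by_contra fun e => hv' (h (.inl v) (by simpa using hv) (by simpa using e)))
      · exact Or.inr ⟨hv, hv'⟩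
    · refine add_le_add (Finset.card_le_card fun v hv => ?_)
        (Finite.card_le_one_iff_subsingleton.2 ⟨fun ρ₁ ρ₂ => Subtype.ext ?_⟩)
      · simp only [hs, Finset.mem_filter, Finset.mem_union] at hv ⊢
        exact ⟨hv.1.resolve_left fun e => hv.2 (h (.inl v) (by simpa using e) (by simp)), hv.2⟩
      · have h3 : ∀ ρ' : {ρ : k →+* ℝ // ρ (a : k) < 0}, ρ'.1 = ρ := fun ρ' => by_contra fun e =>
          ρ'.2.not_gt (h (.inr ρ'.1) (by simp) (by simpa using e))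
        rw [h3, h3]
  have hy : ∀ v : P k, ∃ y : kˣ, v ∈ s → y ∈ US (S ∪ T) ∧ y ∉ Kl a (.inl v) ∧ y ∈ Kl a i ∧
      ∀ v' ∈ T, v' ≠ v → y ∈ Sq (val v') := fun v => by
    by_cases hv : v ∈ s
    · obtain ⟨hvT, hva⟩ := Finset.mem_filter.1 hv
      have hv2 := h2 v (Finset.disjoint_right.1 hd hvT)
      obtain ⟨c, hc⟩ := tm_nondeg hv2 hva
      obtain ⟨y, y1, y2, y3⟩ := rec2_dual hS hd h2 hT hvT c
      have y4 : y ∉ Kl a (.inl v) := fun e => hc (by
        have h3 := (Kl a (.inl v)).div_mem e (hl_of_Ql a (i := .inl v) y2)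
        rw [div_div_cancel, mem_Kl, hl, if_pos hv2] at h3
        exact h3)
      by_cases e : y ∈ Kl a i
      · exact ⟨y, fun _ => ⟨y1, y4, e, y3⟩⟩
      · refine ⟨y * b, fun _ => ⟨mul_mem y1 hb, fun e' => y4 ((Subgroup.mul_mem_cancel_right _
          (hl_of_Ql a (i := .inl v) (hbT v hvT))).1 e'), ?_,
          fun v' h3 h4 => mul_mem (y3 v' h3 h4) (hbT v' h3)⟩⟩
        rw [mem_Kl, hl_mul_right, rec2_zmod]
        exact iff_of_false e hi
    · exact ⟨1, fun e => absurd e hv⟩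
  choose y hy using hy
  have h3 := two_pow_le_relIndex s.insertNone (US (S ∪ T)) (Ng a)
    (fun o => Kl a (o.elim i .inl)) (fun _ _ _ e => hl_Ng e _) (fun o => o.elim b y) (by
      rintro (_ | v) hv
      · exact hb
      · exact (hy v (Finset.some_mem_insertNone.1 hv)).1) (by
      rintro (_ | v) hv
      · exact hi
      · exact (hy v (Finset.some_mem_insertNone.1 hv)).2.1) (by
      rintro (_ | v) hv (_ | v') hv' hne
      · exact absurd rfl hne
      · exact hl_of_Ql a (i := .inl v')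
          (hbT v' (Finset.mem_filter.1 (Finset.some_mem_insertNone.1 hv')).1)
      · exact (hy v (Finset.some_mem_insertNone.1 hv)).2.2.1
      · exact hl_of_Ql a (i := .inl v') ((hy v (Finset.some_mem_insertNone.1 hv)).2.2.2 v'
          (Finset.mem_filter.1 (Finset.some_mem_insertNone.1 hv')).1 fun e => hne (by rw [e]))) h0
  rw [Finset.card_insertNone] at h3
  have h4 := h1.trans (Nat.pow_le_pow_right two_pos hc)
  have h5 : 0 < 2 ^ (s.card + 1) := by positivity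
  omega

open Classical in
theorem rec2_index [Fintype (k →+* ℝ)] {S T : Finset (P k)} (hS : PidOut S)
    (hST : PidOut (S ∪ T)) (hd : Disjoint S T) (h2 : ∀ v ∉ S, val v (2 : k) = 1)
    (hT : ∀ v ∈ T, ∃ u ∈ US S, u ∉ Sq (val v) ∧ ∀ v' ∈ T, v' ≠ v → u ∈ Sq (val v'))
    (hc : T.card + 1 = Fintype.card (InfinitePlace k) + S.card) :
    (US (S ∪ T) ⊔ ⨅ i ∈ S.disjSum (Finset.univ : Finset (k →+* ℝ)), Ql i).index ≠ 0 ∧
      (US (S ∪ T) ⊔ ⨅ i ∈ S.disjSum (Finset.univ : Finset (k →+* ℝ)), Ql i).index ≤ 2 := by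
  set U := US (S ∪ T) with hU
  set s := S.disjSum (Finset.univ : Finset (k →+* ℝ)) with hs
  have hQ : (⨅ i ∈ s, Ql i) ⊓ U = Sqs k ⊓ U := by
    refine le_antisymm (fun x hx => ?_) (inf_le_inf_right _ (le_iInf₂ fun i _ => Sqs_le_Ql i))
    obtain ⟨hx1, hx2⟩ := Subgroup.mem_inf.1 hx
    simp only [Subgroup.mem_iInf] at hx1
    exact Subgroup.mem_inf.2 ⟨mem_Sqs_iff_isSquare.2
      (hasser_isSquare S T hS hST hd h2 hT x hx2
        (fun v hv => hx1 (.inl v) (Finset.inl_mem_disjSum.2 hv))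
        fun ρ => hx1 (.inr ρ) (Finset.inr_mem_disjSum.2 (Finset.mem_univ ρ))), hx2⟩
  have hQ1 : (⨅ i ∈ s, Ql i).relIndex U =
      2 ^ (Fintype.card (InfinitePlace k) + (S.card + T.card)) := by
    rw [← Subgroup.inf_relIndex_right, hQ, Subgroup.inf_relIndex_right, hU, relIndex_Sqs_US,
      Finset.card_union_of_disjoint hd]
  have hQ2 : ∏ i ∈ s, (Ql i).index ≤ 2 * (⨅ i ∈ s, Ql i).relIndex U := by
    rw [Finset.prod_disjSum]
    refine (Nat.mul_le_mul (prod_index_Sq_le S) (Finset.prod_le_pow_card _ _ 2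
      fun ρ _ => Nat.le_of_dvd two_pos (hasser_index ρ))).trans (le_of_eq ?_)
    have h3 := two_mul_card_infinitePlace' (K := k)
    rw [hQ1, show (4 : ℕ) = 2 ^ 2 by norm_num, ← pow_mul, ← pow_add, ← pow_add, ← pow_succ',
      Finset.card_univ, ← Nat.card_eq_fintype_card (α := k →+* ℝ)]
    congr 1
    omega
  have h0 : ∀ i : P k ⊕ (k →+* ℝ), (Ql i).index ≠ 0 := by
    rintro (v | ρ)
    · exact index_Sq_ne_zero v
    · exact ne_zero_of_dvd_ne_zero two_ne_zero (hasser_index ρ)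
  have h3 : (⨅ i ∈ s, Ql i).index ≤ ∏ i ∈ s, (Ql i).index := by
    rw [iInf_subtype', ← Finset.prod_coe_sort s]
    exact Subgroup.index_iInf_le _
  have h4 : (⨅ i ∈ s, Ql i).index ≠ 0 := by
    rw [iInf_subtype']
    exact Subgroup.index_iInf_ne_zero fun i => h0 _
  have h5 := Subgroup.relIndex_mul_index (le_sup_right : (⨅ i ∈ s, Ql i) ≤ U ⊔ ⨅ i ∈ s, Ql i)
  rw [Subgroup.relIndex_sup_right] at h5
  refine ⟨fun e => h4 (by rw [← h5, e, mul_zero]), ?_⟩
  rw [← h5] at h3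
  exact Nat.le_of_mul_le_mul_left ((h3.trans hQ2).trans_eq (mul_comm _ _))
    (by rw [hQ1]; positivity)

open Classical in
/-- the product formula -/
theorem hilbert [Fintype (k →+* ℝ)] (b y : kˣ) (hy : ∀ w : P k, val w (2 : k) < 1 → y ∈ Nm (val w) b)
    (S₁ : Finset (P k)) : ∃ S : Finset (P k), S₁ ⊆ S ∧
      ∑ i ∈ S.disjSum (Finset.univ : Finset (k →+* ℝ)), hl b y i = 0 := by
  by_cases hb : IsSquare (b : k)
  · exact ⟨S₁, subset_rfl, Finset.sum_eq_zero fun i _ =>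
      (hl_comm _ _ _).trans (hl_of_Ql y (Sqs_le_Ql i (mem_Sqs_iff_isSquare.2 hb)))⟩
  obtain ⟨S₀, hS₀⟩ := exists_pidOut k
  set S : Finset (P k) := S₀ ∪ S₁ ∪ (finite_supp (two_ne_zero (α := k))).toFinset ∪
    (finite_supp b.ne_zero).toFinset ∪ (finite_supp y.ne_zero).toFinset with hSdef
  have h2 : ∀ v ∉ S, val v (2 : k) = 1 := fun v hv => by_contra fun h => hv (by simp [hSdef, h])
  have hbS : b ∈ US S := mem_US.2 fun v hv => by_contra fun h => hv (by simp [hSdef, h])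
  have hyS : y ∈ US S := mem_US.2 fun v hv => by_contra fun h => hv (by simp [hSdef, h])
  have hS0 : S₀ ⊆ S := fun v hv => by simp [hSdef, hv]
  refine ⟨S, fun v hv => by simp [hSdef, hv], ?_⟩
  clear_value S
  have hr : 0 < Fintype.card (InfinitePlace k) := Fintype.card_pos
  obtain ⟨T, hd, hc, hbT, hT⟩ := hasser_aux b hb S h2 hbS
    (Fintype.card (InfinitePlace k) + S.card - 1) (by omega)
  have hS : PidOut S := hS₀ S hS0
  have hST : PidOut (S ∪ T) := hS₀ _ (hS0.trans Finset.subset_union_left)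
  have hbU : b ∈ US (S ∪ T) := US_mono Finset.subset_union_left hbS
  obtain ⟨w0, w2⟩ := rec2_index hS hST hd h2 hT (by omega)
  set U := US (S ∪ T) with hU
  set s := S.disjSum (Finset.univ : Finset (k →+* ℝ)) with hs
  let N : P k ⊕ (k →+* ℝ) → Subgroup kˣ := fun i => Kl b i ⊓
    i.elim (fun v => if val v (2 : k) = 1 then ⊤ else Nm (val v) b) fun _ => ⊤
  have n1 : ∀ i, Ng b ≤ N i := by
    rintro (v | ρ) <;> refine le_inf (fun _ e => hl_Ng e _) ?_
    · simp only [Sum.elim_inl]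
      split_ifs
      · exact le_top
      · exact le_sup_left
    · exact le_top
  have n2 : ∀ i, Ql i ≤ N i := by
    rintro (v | ρ) <;> refine le_inf (fun _ e => hl_of_Ql _ e) ?_
    · simp only [Sum.elim_inl]
      split_ifs
      · exact le_top
      · exact Sq_le_Nm _ _
    · exact le_top
  have n3 : ∀ i, b ∉ Ql i → ∃ c, c ∉ N i := by
    rintro (v | ρ) h
    · by_cases hv : val v (2 : k) = 1
      · obtain ⟨c, hc⟩ := tm_nondeg hv h
        exact ⟨c, fun e => hc (by simpa only [mem_Kl, hl, if_pos hv] using (Subgroup.mem_inf.1 e).1)⟩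
      · obtain ⟨c, hc⟩ := nonnorm' v b h
        exact ⟨c, fun e => hc (by simpa only [Sum.elim_inl, if_neg hv] using (Subgroup.mem_inf.1 e).2)⟩
    · exact ⟨b, fun e => h (sg_eq_zero.1 (mul_self_eq_zero.1 e.1))⟩
  have n4 : ∀ i, hl b y i = 0 → y ∈ N i := by
    rintro (v | ρ) h <;> refine ⟨h, ?_⟩
    · simp only [Sum.elim_inl]
      split_ifs with hv
      · trivial
      · exact hy v (lt_of_le_of_ne (by simpa using val_nat_le_one (val v) 2) hv)
    · trivial
  have w3 : U ⊔ ⨅ i ∈ s, N i ≠ ⊤ := fun htop => by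
    let s' : Finset (P k ⊕ (k →+* ℝ)) := (S.filter fun v => b ∉ Sq (val v)).disjSum
      (Finset.univ.filter fun ρ => ρ (b : k) < 0)
    have hs' : ∀ i ∈ s', i ∈ s ∧ b ∉ Ql i := by
      rintro (v | ρ) hi
      · have := Finset.mem_filter.1 (Finset.inl_mem_disjSum.1 hi)
        exact ⟨Finset.inl_mem_disjSum.2 this.1, this.2⟩
      · exact ⟨Finset.inr_mem_disjSum.2 (Finset.mem_univ _),
          (Finset.mem_filter.1 (Finset.inr_mem_disjSum.1 hi)).2.not_gt⟩
    have hx : ∀ i, ∃ x : kˣ, i ∈ s' → x ∈ U ∧ x ∉ N i ∧ ∀ j ∈ s, j ≠ i → x ∈ N j := fun i => by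
      by_cases hi : i ∈ s'
      · obtain ⟨c, hc⟩ := n3 i (hs' i hi).2
        obtain ⟨ξ, x1, x2⟩ := rec2_approx' S i c
        obtain ⟨u, hu, n, hn, rfl⟩ := Subgroup.mem_sup.1 (htop ▸ Subgroup.mem_top ξ)
        simp only [Subgroup.mem_iInf] at hn
        refine ⟨u, fun _ => ⟨hu, fun e => hc ?_, fun j hj hne =>
          (Subgroup.mul_mem_cancel_right _ (hn j hj)).1 (n2 j (x2 j hj hne))⟩⟩
        have := (N i).div_mem (mul_mem e (hn i (hs' i hi).1)) (n2 i (x1 (hs' i hi).1))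
        rwa [div_div_cancel] at this
      · exact ⟨1, fun e => absurd e hi⟩
    choose x hx using hx
    obtain ⟨k0, k1⟩ := herbR b hb (S ∪ T) hST (fun v hv => h2 v fun e => hv
      (Finset.mem_union_left _ e)) hbU
    have k2 := two_pow_le_relIndex s' U (Ng b) N (fun i _ => n1 i) x (fun i hi => (hx i hi).1)
      (fun i hi => (hx i hi).2.1) (fun i hi j hj hne => (hx i hi).2.2 j (hs' j hj).1 hne.symm) k0
    have k3 : (S ∪ T).filter (fun v => b ∉ Sq (val v)) = S.filter (fun v => b ∉ Sq (val v)) := by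
      ext v
      simp only [Finset.mem_filter, Finset.mem_union]
      exact and_congr_left fun h => ⟨fun e => e.resolve_right fun e' => h (hbT v e'), Or.inl⟩
    rw [k3, ← hU] at k1
    rw [← hU] at k0
    rw [Finset.card_disjSum, ← Nat.subtype_card (Finset.univ.filter fun ρ : k →+* ℝ => ρ (b : k) < 0)
      (p := fun ρ => ρ (b : k) < 0) fun ρ => Finset.mem_filter_univ ρ] at k2
    have k4 := Nat.pos_of_ne_zero k0
    omega
  have w4 : (U ⊔ ⨅ i ∈ s, Ql i) ≤ U ⊔ ⨅ i ∈ s, N i :=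
    sup_le_sup_left (iInf₂_mono fun i _ => n2 i) _
  have w5 := Subgroup.relIndex_mul_index w4
  have w6 := mt Subgroup.index_eq_one.1 w3
  obtain ⟨w7, w8⟩ : (U ⊔ ⨅ i ∈ s, Ql i).relIndex (U ⊔ ⨅ i ∈ s, N i) = 1 ∧
      (U ⊔ ⨅ i ∈ s, Ql i).index = 2 := by
    rw [← w5] at w0 w2 ⊢
    generalize (U ⊔ ⨅ i ∈ s, Ql i).relIndex (U ⊔ ⨅ i ∈ s, N i) = p at w0 w2 ⊢
    generalize (U ⊔ ⨅ i ∈ s, N i).index = q at w0 w2 w6 ⊢
    have h3 : 2 ≤ q := by
      have := right_ne_zero_of_mul w0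
      omega
    have h4 := Nat.pos_of_ne_zero (left_ne_zero_of_mul w0)
    constructor <;> nlinarith
  choose ξ x1 x2 using fun i => rec2_approx' S i y
  refine (rec2_prod w8 ξ _ s fun i hi => ⟨fun e => ?_, fun e => ?_⟩).1 ?_
  · obtain ⟨u, hu, n, hn, e'⟩ := Subgroup.mem_sup.1 e
    simp only [Subgroup.mem_iInf] at hn
    have h3 := rec2_one hS hST hd h2 hT hu hbU hbT i fun j hj hne =>
      (Subgroup.mul_mem_cancel_right _ (hn j hj)).1 (e' ▸ x2 i j hj hne)
    rw [hl_comm] at h3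
    have h4 := (Kl b i).div_mem (e' ▸ mul_mem h3 (hl_of_Ql b (hn i hi))) (hl_of_Ql b (x1 i hi))
    rwa [div_div_cancel] at h4
  · refine Subgroup.relIndex_eq_one.1 w7 (Subgroup.mem_sup_right ?_)
    simp only [Subgroup.mem_iInf]
    intro j hj
    by_cases hne : j = i
    · rw [hne, ← div_mul_cancel (ξ i) y]
      exact mul_mem (n2 i (x1 i hi)) (n4 i e)
    · exact n2 j (x2 i j hj hne)
  · rw [← mul_div_cancel y (∏ i ∈ s, ξ i)]
    refine Subgroup.mul_mem_sup (US_mono Finset.subset_union_left hyS) ?_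
    simp only [Subgroup.mem_iInf]
    intro j hj
    rw [← Finset.mul_prod_erase s ξ hj, mul_div_right_comm]
    exact mul_mem (x1 j hj) (prod_mem fun i hi => x2 i j hj (Finset.ne_of_mem_erase hi).symm)

end Pool.Agent.Lib.MP_775b3b_nt.CM
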