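import Pool.Agent.Lib.MP_775b3b_nt.CM.Rec1

/-! The supplementary law for `-1`. -/

namespace Pool.Agent.Lib.MP_775b3b_nt.CM

open Pool.Agent.Lib.MP_439fea_co NumberField WithZero

variable {k : Type} [Field k] [NumberField k]

/-- the sign modulo four -/
def e4 (z : ZMod 2) : ZMod 4 := if z = 0 then 1 else -1

theorem e4_add : ∀ a b : ZMod 2, e4 (a + b) = e4 a * e4 b := by decide

theorem e4_inj : ∀ a b : ZMod 2, e4 a = e4 b → a = b := by decide

theorem e4_sum {ι : Type} (s : Finset ι) (c : ι → ZMod 2) : e4 (∑ i ∈ s, c i) = ∏ i ∈ s, e4 (c i) := by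
  classical
  induction s using Finset.induction_on with
  | empty => rfl
  | insert i s hi ih => rw [Finset.sum_insert hi, Finset.prod_insert hi, e4_add, ih]

theorem e4_mul (n : ℕ) (z : ZMod 2) : e4 (n * z) = e4 z ^ n := by
  induction n with
  | zero => simp [e4]
  | succ n ih => rw [Nat.cast_succ, add_mul, one_mul, e4_add, ih, pow_succ]

theorem e4_int (t c : ℤ) : ((1 + t * 2 + c * 2 ^ 2 : ℤ) : ZMod 4) = e4 (t : ZMod 2) := by
  have h4 : (4 : ZMod 4) = 0 := rfl
  have h2 : (2 : ZMod 2) = 0 := rfl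
  rcases Int.even_or_odd' t with ⟨m, rfl | rfl⟩ <;> push_cast
  · rw [h2, zero_mul, show e4 0 = 1 from rfl]
    linear_combination (m + c : ZMod 4) * h4
  · rw [h2, zero_mul, zero_add, show e4 1 = -1 from rfl]
    linear_combination (m + c + 1 : ZMod 4) * h4

theorem rec3_nm {v : P k} (h2 : val v (2 : k) = 1) : (nm v : ZMod 4) = e4 (ns v (-1)) := by
  classical
  have := v.isMaximal
  let := Ideal.Quotient.field v.asIdeal
  have : Finite (𝓞 k ⧸ v.asIdeal) := Ideal.finiteQuotientOfFreeOfNeBot _ v.ne_bot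
  have := Fintype.ofFinite (𝓞 k ⧸ v.asIdeal)
  have hc : nm v = Fintype.card (𝓞 k ⧸ v.asIdeal) := by
    rw [nm, Ideal.absNorm_apply, Submodule.cardQuot_apply, Nat.card_eq_fintype_card]
  have h1 : nm v % 2 = 1 := by
    rw [hc]
    refine FiniteField.odd_card_of_char_ne_two fun h => ?_
    have h3 : ((2 : ℕ) : 𝓞 k ⧸ v.asIdeal) = 0 := h ▸ ringChar.Nat.cast_ringChar
    rw [← map_natCast (Ideal.Quotient.mk v.asIdeal), Ideal.Quotient.eq_zero_iff_mem,
      ← Val_lt_iff_mem] at h3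
    exact h3.ne (h2 ▸ congrArg (val v) ((map_natCast (algebraMap (𝓞 k) k) 2).trans Nat.cast_ofNat))
  have h3 : (-1 : kˣ) ∈ Sq (val v) ↔ nm v % 4 ≠ 3 := by
    rw [hc, ← FiniteField.isSquare_neg_one_iff]
    have h4 : ∀ r : 𝓞 k, (-1 : 𝓞 k ⧸ v.asIdeal) = Ideal.Quotient.mk _ r * Ideal.Quotient.mk _ r ↔
        val v ((r : k) * r + 1) < 1 := fun r => by
      rw [eq_comm, ← add_eq_zero_iff_eq_neg, ← map_mul, ← map_one (Ideal.Quotient.mk v.asIdeal),
        ← map_add, Ideal.Quotient.eq_zero_iff_mem, ← Val_lt_iff_mem]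
      rfl
    constructor
    · intro h
      obtain ⟨z, o, ho, e⟩ := mem_Sq.1 h
      have e' : -1 = (z : k) ^ 2 * o := by simpa using congrArg Units.val e
      have h5 : val v (z : k) = 1 := by
        have := congrArg (val v) e'
        rw [Valuation.map_neg, map_one, map_mul, mem_Un.1 (One_le_Un _ ho), mul_one, map_pow] at this
        exact (pow_eq_one_iff_of_nonneg zero_le two_ne_zero).1 this.symm
      obtain ⟨r, hr⟩ := v.exists_valuation_sub_lt_of_integer h5.le 1
      have hr' : val v ((r : k) - z) < 1 := hr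
      refine ⟨_, (h4 r).2 ?_⟩
      have h6 := mem_One.1 ho
      rw [local_val_four, h2, one_mul] at h6
      rw [show (r : k) * r + 1 = (r + z) * (r - z) - z ^ 2 * (o - 1) by linear_combination -e']
      refine Valuation.map_sub_lt _ (local_mul_lt _ (Valuation.map_add_le _
        (v.valuation_le_one r) h5.le) hr') (local_mul_lt _ (by rw [map_pow, h5, one_pow]) h6)
    · rintro ⟨r, hr⟩
      obtain ⟨r, rfl⟩ := Ideal.Quotient.mk_surjective r
      have h5 := (h4 r).1 hr
      have h6 : val v ((r : k) * r) = 1 := by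
        have := (val v).map_sub_eq_of_lt_right (x := (r : k) * r + 1) (y := 1) (by rwa [map_one])
        rwa [add_sub_cancel_right, map_one] at this
      have h7 : (r : k) ≠ 0 := fun e => by simp [e] at h6
      rw [← Subgroup.mul_mem_cancel_right _ (rec1_sq v (Units.mk0 _ h7))]
      refine rec1_One h2 ?_
      rwa [show ((-1 * (Units.mk0 _ h7 * Units.mk0 _ h7) : kˣ) : k) - 1 = -((r : k) * r + 1) by
        simp; ring, Valuation.map_neg]
  rw [← ZMod.natCast_mod]
  by_cases h4 : (-1 : kˣ) ∈ Sq (val v)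
  · rw [ns_eq_zero.2 h4, show nm v % 4 = 1 by have := h3.1 h4; omega]
    rfl
  · rw [e4, if_neg (mt ns_eq_zero.1 h4), not_not.1 (mt h3.2 h4)]
    rfl

theorem rec3_sign [Fintype (k →+* ℝ)] (x : kˣ) : ∏ φ : k →+* ℂ, φ (x : k) =
    (∏ ρ : k →+* ℝ, if ρ (x : k) < 0 then -1 else 1 : ℤ) * (∏ φ : k →+* ℂ, ‖φ (x : k)‖ : ℝ) := by
  classical
  have h0 : ∀ φ : k →+* ℂ, (‖φ (x : k)‖ : ℂ) ≠ 0 := fun φ => by simp
  rw [Complex.ofReal_prod, ← div_eq_iff (Finset.prod_ne_zero_iff.2 fun φ _ => h0 φ),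
    ← Finset.prod_div_distrib, ← Finset.prod_filter_mul_prod_filter_not Finset.univ
      ComplexEmbedding.IsReal, Finset.prod_involution (s := Finset.univ.filter fun φ : k →+* ℂ =>
        ¬ ComplexEmbedding.IsReal φ) (fun φ _ => ComplexEmbedding.conjugate φ) (fun φ _ => by
      rw [ComplexEmbedding.conjugate_coe_eq, Complex.norm_conj, div_mul_div_comm,
        Complex.mul_conj', sq, div_self (mul_ne_zero (h0 φ) (h0 φ))])
      (fun φ hφ _ e => (Finset.mem_filter.1 hφ).2 (ComplexEmbedding.isReal_iff.2 e))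
      (fun φ hφ => by simpa [ComplexEmbedding.isReal_conjugate_iff] using hφ)
      (fun φ _ => star_star φ), mul_one, Int.cast_prod]
  refine (Finset.prod_nbij (fun ρ : k →+* ℝ => Complex.ofRealHom.comp ρ) (fun ρ _ => ?_)
    (fun ρ _ ρ' _ h => RingHom.ext fun y => Complex.ofReal_injective (RingHom.congr_fun h y))
    (fun φ hφ => ?_) fun ρ _ => ?_).symm
  · exact Finset.mem_filter.2 ⟨Finset.mem_univ _, ComplexEmbedding.isReal_iff.2
      (RingHom.ext fun x => Complex.conj_ofReal _)⟩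
  · have h := (Finset.mem_filter.1 hφ).2
    exact ⟨h.embedding, Finset.mem_univ _, RingHom.ext fun x => h.coe_embedding_apply x⟩
  · have h1 : ρ (x : k) ≠ 0 := (map_ne_zero ρ).2 x.ne_zero
    change _ = (ρ (x : k) : ℂ) / ‖(ρ (x : k) : ℂ)‖
    rw [Complex.norm_real, Real.norm_eq_abs, ← Complex.ofReal_div]
    split_ifs with h
    · rw [abs_of_neg h, div_neg, div_self h1]
      simp
    · rw [abs_of_nonneg (not_lt.1 h), div_self h1]
      simp

theorem rec3_abs (x : kˣ) (hx : ∀ v : P k, val v (x : k) ≤ 1) (S : Finset (P k))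
    (hS : ∀ v ∉ S, val v (x : k) = 1) :
    ∏ φ : k →+* ℂ, ‖φ (x : k)‖ = (∏ v ∈ S, nm v ^ (ord v (x : k)).toNat : ℕ) := by
  have h0 : ∀ v : P k, (nm v : ℝ) ≠ 0 := fun v =>
    Nat.cast_ne_zero.2 fun h => v.ne_bot (Ideal.absNorm_eq_zero_iff.1 h)
  refine Real.log_injOn_pos (Set.mem_Ioi.2 (Finset.prod_pos fun φ _ => by simp))
    (Set.mem_Ioi.2 (Nat.cast_pos.2 (Finset.prod_pos fun v _ =>
      pow_pos (Nat.pos_of_ne_zero (Nat.cast_ne_zero.1 (h0 v))) _))) ?_
  rw [Real.log_prod (fun φ _ => by simp), sum_log_embeddings x.ne_zero S hS, Nat.cast_prod,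
    Real.log_prod (fun v _ => by simp [h0 v])]
  refine Finset.sum_congr rfl fun v _ => ?_
  have h1 := hx v
  rw [val_eq_exp v x.ne_zero, ← exp_zero, exp_le_exp] at h1
  rw [Nat.cast_pow, Real.log_pow, ← Int.cast_natCast (ord v (x : k)).toNat,
    Int.toNat_of_nonneg (by omega)]

/-- the supplementary law -/
theorem rec3_supp [Fintype (k →+* ℝ)] (a : 𝓞 k) (x : kˣ) (hx : (x : k) = 1 + 2 * a)
    (S : Finset (P k)) (hS : ∀ v ∉ S, val v (x : k) = 1) :
    ∑ i ∈ S.disjSum (Finset.univ : Finset (k →+* ℝ)), hl x (-1) i = tr2 a := by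
  classical
  have e : ((1 + 2 * a : 𝓞 k) : k) = x := by
    rw [hx]
    rfl
  have h1 : ∀ v : P k, val v (x : k) ≤ 1 := fun v => e ▸ v.valuation_le_one (1 + 2 * a)
  have h3 : ((Algebra.norm ℤ (1 + 2 * a : 𝓞 k) : ℤ) : ℂ) = ∏ φ : k →+* ℂ, φ (x : k) := by
    rw [Fintype.prod_equiv (RingHom.equivRatAlgHom k ℂ) (fun f => f (x : k)) (fun φ => φ (x : k))
      fun _ => by simp [RingHom.equivRatAlgHom_apply], ← Algebra.norm_eq_prod_embeddings, ← e,
      ← Algebra.coe_norm_int, eq_ratCast, Rat.cast_intCast]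
  rw [rec3_sign, rec3_abs x h1 S hS, Complex.ofReal_natCast, ← Int.cast_natCast, ← Int.cast_mul,
    Int.cast_inj] at h3
  have h4 := congrArg (Int.cast : ℤ → ZMod 4) h3
  let b := Module.Free.chooseBasis ℤ (𝓞 k)
  rw [Algebra.norm_eq_matrix_det b, show (2 : 𝓞 k) * a = (2 : ℤ) • a by simp, map_add, map_one,
    map_smul, Matrix.det_one_add_smul, e4_int, ← Algebra.trace_eq_matrix_trace] at h4
  refine e4_inj _ _ (Eq.trans ?_ h4.symm)
  rw [e4_sum, Finset.prod_disjSum, mul_comm]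
  push_cast
  congr 1
  · refine Finset.prod_congr rfl fun ρ _ => ?_
    by_cases h : ρ (x : k) < 0 <;> simp [hl, sg, h, e4]
  · refine Finset.prod_congr rfl fun v _ => ?_
    have h5 := h1 v
    rw [val_eq_exp v x.ne_zero, ← exp_zero, exp_le_exp] at h5
    rw [hl]
    split_ifs with h2
    · rw [tm_unit (rec1_neg_one v), rec3_nm h2, ← e4_mul, od, ← Int.cast_natCast,
        Int.toNat_of_nonneg (by omega)]
    · have h6 : val v (x : k) = 1 := by
        have h7 : val v (2 * a : k) < val v 1 := by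
          rw [map_one, mul_comm]
          exact local_mul_lt _ (v.valuation_le_one a)
            (lt_of_le_of_ne (by simpa using val_nat_le_one (val v) 2) h2)
        rw [hx, Valuation.map_add_eq_of_lt_left _ h7, map_one]
      simp [ord, h6, e4]

end Pool.Agent.Lib.MP_775b3b_nt.CM
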