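import Pool.Agent.Lib.MP_775b3b_nt.CM.C1b
import Pool.Agent.Lib.MP_775b3b_nt.CM.Rec2
import Pool.Agent.Lib.MP_775b3b_nt.CM.Rec3
import Pool.Agent.Lib.MP_775b3b_nt.ZHasse

namespace Pool.Agent.Lib.MP_775b3b_nt.CM

open Pool.Agent.Lib.MP_439fea_co NumberField WithZero

variable {k : Type} [Field k] [NumberField k]

/-- the sum of the symbols at the odd primes and the real places -/
noncomputable def bt (x y : kˣ) : ZMod 2 := ∑ᶠ i, hl x y i

theorem bt_eq [Fintype (k →+* ℝ)] {x y : kˣ} {S : Finset (P k)}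
    (h : ∀ v ∉ S, hl x y (.inl v) = 0) :
    bt x y = ∑ i ∈ S.disjSum (Finset.univ : Finset (k →+* ℝ)), hl x y i := by
  refine finsum_eq_sum_of_support_subset _ ?_
  rintro (v | ρ) hi
  · exact Finset.inl_mem_disjSum.2 (by_contra fun e => hi (h v e))
  · exact Finset.inr_mem_disjSum.2 (Finset.mem_univ _)

theorem rec_even {v : P k} {x y : kˣ} (hx : Even (ord v (x : k))) (hy : Even (ord v (y : k))) :
    hl x y (.inl v) = 0 := by
  simp only [hl, tm_even hx hy, ite_self]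

theorem rec_supp (l : List kˣ) : ∃ S : Finset (P k), (∀ x ∈ l, ∀ v ∉ S, val v (x : k) = 1) ∧
    ∀ S', S ⊆ S' → ∀ x ∈ l, ∀ y ∈ l, ∀ v ∉ S', hl x y (.inl v) = 0 := by
  classical
  have h : ∀ x ∈ l, ∀ v ∉ l.toFinset.biUnion fun x => (finite_supp x.ne_zero).toFinset,
      val v (x : k) = 1 := fun x hx v hv => by_contra fun e =>
    hv (Finset.mem_biUnion.2 ⟨x, List.mem_toFinset.2 hx, by simpa using e⟩)
  exact ⟨_, h, fun S' hS x hx y hy v hv => rec_even (by simp [ord, h x hx v fun e => hv (hS e)])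
    (by simp [ord, h y hy v fun e => hv (hS e)])⟩

theorem bt_comm (x y : kˣ) : bt x y = bt y x := finsum_congr (hl_comm x y)

theorem bt_mul (x x' y : kˣ) : bt (x * x') y = bt x y + bt x' y := by
  have := Fintype.ofFinite (k →+* ℝ)
  obtain ⟨S, -, h⟩ := rec_supp [x * x', x, x', y]
  rw [bt_eq (h S subset_rfl _ (by simp) _ (by simp)), bt_eq (h S subset_rfl _ (by simp) _ (by simp)),
    bt_eq (h S subset_rfl _ (by simp) _ (by simp)), ← Finset.sum_add_distrib]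
  exact Finset.sum_congr rfl fun i _ => by rw [hl_comm, hl_mul_right, hl_comm y, hl_comm y]

theorem bt_zero {b y : kˣ} (hy : ∀ w : P k, val w (2 : k) < 1 → y ∈ Nm (val w) b) :
    bt b y = 0 := by
  have := Fintype.ofFinite (k →+* ℝ)
  obtain ⟨S, -, h⟩ := rec_supp [b, y]
  obtain ⟨S', h1, h2⟩ := hilbert b y hy S
  rw [bt_eq (h S' h1 _ (by simp) _ (by simp)), h2]

theorem rec_norm {w : P k} (hw : val w (2 : k) < 1) {x y : kˣ} (hx : Pry w x) {t : 𝓞 k}
    (hy : Sig y t) : y ∈ Nm (val w) x := by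
  obtain ⟨z, hz⟩ := hx
  obtain ⟨z', hz'⟩ := hy
  have h1 := c1b_near (w.valuation_le_one t) (hz' w hw)
  obtain ⟨ρ, hρ⟩ : ∃ ρ : k, (x : k) * z ^ 2 - 1 = 4 * ρ := ⟨((x : k) * z ^ 2 - 1) / 4, by ring⟩
  obtain ⟨c, hc⟩ : ∃ c : k, (y : k) * z' ^ 2 - 1 = 2 * c := ⟨((y : k) * z' ^ 2 - 1) / 2, by ring⟩
  have h2 := c1b_one (h1.trans_lt hw)
  rw [hρ, map_mul] at hz
  rw [hc, map_mul] at h1
  have r1 : val w ρ ≤ 1 := (mul_le_iff_le_one_right (local_val_four_pos _)).1 hz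
  have c1 : val w c ≤ 1 := (mul_le_iff_le_one_right (local_val_two_pos _)).1 h1
  obtain ⟨n, hn⟩ : ∃ n : k, n = (1 + (c + 2 * ρ * c ^ 2)) ^ 2 - x * (z * (c + 2 * ρ * c ^ 2)) ^ 2 :=
    ⟨_, rfl⟩
  have h3 : val w ((y : k) * z' ^ 2 - n) < val w 4 := by
    rw [show (y : k) * z' ^ 2 - n = 4 * (ρ * ρ * (c * c * c) * (1 + ρ * c) * 2 * 2) by
      rw [hn]
      linear_combination hc + (c + 2 * ρ * c ^ 2) ^ 2 * hρ, map_mul]
    refine mul_lt_of_lt_one_right (local_val_four_pos _) (local_mul_lt _ ?_ hw)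
    simp only [map_mul]
    exact mul_le_one' (mul_le_one' (mul_le_one' (mul_le_one' r1 r1)
      (mul_le_one' (mul_le_one' c1 c1) c1)) (Valuation.map_add_le _ (map_one _).le
        (by rw [map_mul]; exact mul_le_one' r1 c1))) hw.le
  have h4 : val w n = 1 := by
    have := (val w).map_sub_eq_of_lt_left (x := (y : k) * z' ^ 2) (y := (y : k) * z' ^ 2 - n)
      (by rw [h2]; exact h3.trans_le (val_four_le_one _))
    rwa [sub_sub_cancel, h2] at this
  have h5 : n ≠ 0 := fun e => by simp [e] at h4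
  rw [← Subgroup.mul_mem_cancel_right _ (Sq_le_Nm _ x (rec1_sq w z'))]
  refine mem_Nm.2 ⟨Units.mk0 n h5, ⟨_, _, hn⟩, y * (z' * z') / Units.mk0 n h5, mem_One.2 ?_,
    (mul_div_cancel _ _).symm⟩
  rw [Units.val_div_eq_div_val, Units.val_mk0, div_sub_one h5, map_div₀, h4, div_one,
    Units.val_mul, Units.val_mul, ← sq]
  exact h3

theorem bt_congr (h2 : Two k) {x x' y : kˣ} {s s' t : 𝓞 k} (hx : Sig x s) (hx' : Sig x' s')
    (h : ∀ w : P k, val w (2 : k) < 1 → val w ((s : k) - s') < 1) (hy : Sig y t) :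
    bt x y = bt x' y := by
  have h1 := bt_zero (b := x * x') fun w hw => rec_norm hw (((hx.mul hx').pry h2 hw).2 (by
    rw [show ((s + s' : 𝓞 k) : k) = (s - s') + s' * 2 by push_cast; ring]
    exact Valuation.map_add_lt _ (h w hw) (local_mul_lt _ (w.valuation_le_one s') hw))) hy
  rwa [bt_mul, add_eq_zero_iff_eq_neg, ZMod.neg_eq_self_mod_two] at h1

theorem rec_ne (a : 𝓞 k) : (1 + 2 * a : k) ≠ 0 := fun h => by
  obtain ⟨w, hw⟩ := exists_over_prime k Nat.prime_two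
  have h1 := local_mul_lt (val w) (w.valuation_le_one a) (x := 2) (by simpa using hw)
  rw [show (algebraMap (𝓞 k) k a) * 2 = -1 by linear_combination h, Valuation.map_neg,
    map_one] at h1
  exact lt_irrefl _ h1

/-- the element `1 + 2 a` -/
noncomputable def u1 (a : 𝓞 k) : kˣ := Units.mk0 _ (rec_ne a)

theorem u1_sig (a : 𝓞 k) : Sig (u1 a) a := ⟨1, fun w _ => by simp [u1]⟩

theorem u1_add (h2 : Two k) (a b c : 𝓞 k) :
    bt (u1 (a + b)) (u1 c) = bt (u1 a) (u1 c) + bt (u1 b) (u1 c) := by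
  rw [← bt_mul]
  exact bt_congr h2 (u1_sig _) ((u1_sig a).mul (u1_sig b)) (fun w _ => by simp) (u1_sig c)

theorem u1_norm (h2 : Two k) (a u : 𝓞 k) : bt (u1 u) (u1 a) = bt (u1 (a * u ^ 2)) (u1 a) := by
  have h := u1_add h2 (u - a * u ^ 2) (a * u ^ 2) a
  rwa [sub_add_cancel, bt_comm (u1 (u - _)), bt_zero (b := u1 a) fun w _ => Subgroup.mem_sup_left
    ⟨1 + u, u, by simp [u1]; ring⟩, zero_add] at h

theorem u1_swap (h2 : Two k) (a b u : 𝓞 k) :
    bt (u1 (b * u ^ 2)) (u1 a) = bt (u1 (a * u ^ 2)) (u1 b) := by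
  have h := u1_norm h2 (a + b) u
  rw [add_mul, u1_add h2, bt_comm, u1_add h2, bt_comm (u1 (a * _)), u1_add h2,
    bt_comm (u1 (b * _)), u1_add h2, bt_comm (u1 a), bt_comm (u1 b), u1_norm h2 a, u1_norm h2 b,
    bt_comm (u1 a), bt_comm (u1 b), bt_comm (u1 a), bt_comm (u1 b)] at h
  generalize bt (u1 (b * u ^ 2)) (u1 a) = p, bt (u1 (a * u ^ 2)) (u1 b) = q,
    bt (u1 (a * u ^ 2)) (u1 a) = r, bt (u1 (b * u ^ 2)) (u1 b) = t at h ⊢
  revert p q r t
  decide

theorem rec_sqrt (s : 𝓞 k) : ∃ u : 𝓞 k, ∀ w : P k, val w (2 : k) < 1 →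
    val w ((s : k) - (1 * u ^ 2 : 𝓞 k)) < 1 := by
  have h : ∀ w : P k, ∃ c : k, val w (2 : k) < 1 → val w (c ^ 2 - s) < 1 := fun w => by
    by_cases hw : val w (2 : k) < 1
    · exact (c1b_sqrt w hw (w.valuation_le_one s)).imp fun _ e _ => e
    · exact ⟨0, fun e => absurd e hw⟩
  choose c hc using h
  have hc1 : ∀ w : P k, val w (2 : k) < 1 → val w (c w) ≤ 1 := fun w hw => by
    have := Valuation.map_add_le _ (hc w hw).le (w.valuation_le_one (K := k) s)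
    rwa [sub_add_cancel, map_pow, pow_le_one_iff_of_nonneg zero_le two_ne_zero] at this
  obtain ⟨x, h1, h3⟩ := approx (finite_supp (two_ne_zero (α := k))).toFinset c _
    (exp_ne_zero (a := (-1 : ℤ)))
  simp only [Set.Finite.mem_toFinset, Set.mem_ofPred_eq] at h1 h3
  have hx : ∀ w : P k, val w x ≤ 1 := fun w => by
    by_cases hw : val w (2 : k) = 1
    · exact h3 w (not_not.2 hw)
    · rw [← sub_add_cancel x (c w)]
      exact Valuation.map_add_le _ ((h1 w hw).trans c1a_lt.le)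
        (hc1 w (lt_of_le_of_ne (c1b_two_le_one _) hw))
  obtain ⟨u, rfl⟩ := exists_int_of_val_le_one hx
  refine ⟨u, fun w hw => ?_⟩
  rw [show (s : k) - (1 * u ^ 2 : 𝓞 k) = -((u + c w) * (u - c w) + (c w ^ 2 - s)) by
    push_cast; ring, Valuation.map_neg]
  exact Valuation.map_add_lt _ (local_mul_lt _ (Valuation.map_add_le _ (hx w) (hc1 w hw))
    ((h1 w hw.ne).trans_lt c1a_lt)) (hc w hw)

/-- quadratic reciprocity -/
theorem recip [Fintype (k →+* ℝ)] (h2 : Two k) (x y : kˣ) (s s' : 𝓞 k) (hx : Sig x s)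
    (hy : Sig y s') (T : Finset (P k)) (hT : ∀ v ∈ T, val v (2 : k) = 1)
    (ho : ∀ v ∉ T, Even (ord v (x : k)) ∧ Even (ord v (y : k))) :
    ∑ v ∈ T, tm v x y + ∑ ρ : k →+* ℝ, sg ρ x * sg ρ y + tr2 (s * s') = 0 := by
  obtain ⟨u, hu⟩ := rec_sqrt s
  obtain ⟨S, hS, hS'⟩ := rec_supp [u1 (s' * u ^ 2), -1]
  have e : u1 (-1 : 𝓞 k) = -1 := Units.ext (by simp [u1]; norm_num)
  have h1 : bt x y = tr2 (s * s') := by
    rw [bt_comm, bt_congr h2 hy (u1_sig s') (fun w _ => by simp) hx, bt_comm,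
      bt_congr h2 hx (u1_sig _) hu (u1_sig s'), u1_swap h2, bt_comm,
      bt_congr h2 (u1_sig 1) (u1_sig (-1)) (fun w hw => by simpa [one_add_one_eq_two] using hw)
        (u1_sig _), bt_comm, e, bt_eq (hS' S subset_rfl _ (by simp) _ (by simp)),
      rec3_supp _ _ rfl S (hS _ (by simp)), tr2_congr h2 hu, one_mul, mul_comm]
  rw [← h1, bt_eq (S := T) fun v hv => rec_even (ho v hv).1 (ho v hv).2, Finset.sum_disjSum,
    Finset.sum_congr (f := fun v => hl x y (.inl v)) rfl fun v hv => if_pos (hT v hv)]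
  exact CharTwo.add_self_eq_zero _

end Pool.Agent.Lib.MP_775b3b_nt.CM
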