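import Pool.Agent.Lib.MP_775b3b_nt.CM.C2
import Pool.Agent.Lib.MP_775b3b_nt.CM.Rec

namespace Pool.Agent.Lib.MP_775b3b_nt.CM

open Pool.Agent.Lib.MP_439fea_co NumberField WithZero

variable {K : Type} [Field K] [NumberField K] [IsGalois ℚ K]


theorem real_bij (ρ : K →+* ℝ) :
    Function.Bijective fun g : Ga K => ρ.comp ((g⁻¹ : Ga K) : K →+* K) := by
  constructor
  · intro g h e
    refine inv_injective (AlgEquiv.ext fun x => ρ.injective ?_)
    exact RingHom.congr_fun e x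
  · intro ρ'
    obtain ⟨g, hg⟩ := ComplexEmbedding.exists_comp_symm_eq_of_comp_eq (k := ℚ)
      (Complex.ofRealHom.comp ρ) (Complex.ofRealHom.comp ρ') (Subsingleton.elim _ _)
    exact ⟨g, RingHom.ext fun x => Complex.ofReal_injective (RingHom.congr_fun hg x)⟩

variable (D : Dat K) {S : Finset (P K)}

theorem c3_real (ρ : K →+* ℝ) [Fintype (K →+* ℝ)] (x y : Kˣ) :
    (co (sg ρ) x * star (co (sg ρ) y)).coeff 1 = ∑ τ : K →+* ℝ, sg τ x * sg τ y := by
  rw [coeff_mul_star]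
  exact Fintype.sum_bijective _ (real_bij ρ) _ _ fun g => rfl

omit [IsGalois ℚ K] in
theorem c3_tame {v : P K} (hv : SP v) (x y : Kˣ) :
    (co (od v) x * star (co (sy v) y) + co (sy v) x * star (co (od v) y)).coeff 1 =
      ∑ g : Ga K, tm (g • v) x y := by
  rw [MonoidAlgebra.coeff_add, Finsupp.add_apply, coeff_mul_star, coeff_mul_star,
    ← Finset.sum_add_distrib]
  refine Finset.sum_congr rfl fun g _ => ?_
  simp only [co, coeff_mk, od, ord_smul', sy_smul, tm_eq (hv.smul g)]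

theorem c3_one (hS : SPs S) {x y : Kˣ} (hx : x ∈ D.Z S) (hy : y ∈ D.Z S) :
    (hf D.u (D.loc S x) (D.loc S y)).coeff 1 = 0 := by
  classical
  have : Finite (K →+* ℝ) := Finite.of_surjective _ (real_bij D.ρ).2
  have : Fintype (K →+* ℝ) := Fintype.ofFinite _
  have inj : Function.Injective fun p : S × Ga K => p.2 • p.1.1 := by
    rintro ⟨v, g⟩ ⟨w, h⟩ (e : g • v.1 = h • w.1)
    obtain rfl : v = w := Subtype.ext (hS.inj _ v.2 _ w.2 (by
      rw [← nm_smul g v.1, e, nm_smul]))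
    obtain rfl : g = h :=
      (inv_mul_eq_one.1 ((hS.sp _ v.2).free (h⁻¹ * g) (by rw [mul_smul, e, inv_smul_smul]))).symm
    rfl
  have out : ∀ w ∉ Finset.univ.image fun p : S × Ga K => p.2 • p.1.1,
      ∀ v ∈ S, ∀ g : Ga K, g • v ≠ w := fun w hw v hv g e =>
    hw (Finset.mem_image.2 ⟨(⟨v, hv⟩, g), Finset.mem_univ _, e⟩)
  have h := recip D.two x y _ _ (D.sig_spec hS hx) (D.sig_spec hS hy)
    (Finset.univ.image fun p : S × Ga K => p.2 • p.1.1)
    (fun w hw => by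
      obtain ⟨p, -, rfl⟩ := Finset.mem_image.1 hw
      exact ((hS.sp _ p.1.2).smul p.2).two)
    fun w hw => ⟨hx.2 w (out w hw), hy.2 w (out w hw)⟩
  rw [Finset.sum_image inj.injOn, Fintype.sum_prod_type] at h
  rw [← h, hf, MonoidAlgebra.coeff_add, MonoidAlgebra.coeff_add, MonoidAlgebra.coeff_sum,
    Finsupp.add_apply, Finsupp.add_apply, Finsupp.finsetSum_apply, ← D.form, ← c3_real D.ρ,
    add_comm _ (∑ _, _), add_assoc, add_comm (MonoidAlgebra.coeff _ _)]
  exact congrArg₂ _ (Finset.sum_congr rfl fun v _ => c3_tame (hS.sp _ v.2) x y) rfl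

theorem Dat.pair (hS : SPs S) {x y : Kˣ} (hx : x ∈ D.Z S) (hy : y ∈ D.Z S) :
    hf D.u (D.loc S x) (D.loc S y) = 0 := by
  refine ga_ext fun g => ?_
  rw [coeff_hf, ← D.loc_smul hS hy g]
  exact c3_one D hS hx (D.smul_mem hy g)

theorem Dat.pairT [DecidableEq (P K)] {T : Finset (P K)} (hS : SPs (S ∪ T)) (hd : Disjoint S T)
    {x y : Kˣ} (hx : x ∈ D.Z (S ∪ T)) (hy : y ∈ D.Z (S ∪ T)) :
    hf D.u (D.loc S x) (D.loc S y) =
      ∑ v ∈ T, (co (od v) x * star (co (sy v) y) + co (sy v) x * star (co (od v) y)) := by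
  have h := D.pair hS hx hy
  let F : P K → GA (Ga K) := fun v =>
    co (od v) x * star (co (sy v) y) + co (sy v) x * star (co (od v) y)
  let c : GA (Ga K) :=
    cz D.α (sig x) * D.u * star (cz D.α (sig y)) + co (sg D.ρ) x * star (co (sg D.ρ) y)
  have e : ∀ U : Finset (P K), hf D.u (D.loc U x) (D.loc U y) = c + ∑ v ∈ U, F v := fun U =>
    congrArg (c + ·) (Finset.sum_coe_sort U F)
  rw [e, Finset.sum_union hd, ← add_assoc, ← e] at h
  exact add_right_cancel (h.trans (add_self_ga _).symm)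

end Pool.Agent.Lib.MP_775b3b_nt.CM
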