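import Pool.Agent.Lib.MP_775b3b_nt.CM.C3

namespace Pool.Agent.Lib.MP_775b3b_nt.CM

open Pool.Agent.Lib.MP_439fea_co NumberField WithZero

variable {K : Type} [Field K] [NumberField K] [IsGalois ℚ K]


open Classical in
/-- all conjugates of the primes of `S` -/
noncomputable def orb (S : Finset (P K)) : Finset (P K) :=
  (S ×ˢ (Finset.univ : Finset (Ga K))).image fun p => p.2 • p.1

omit [IsGalois ℚ K] in
theorem mem_orb {S : Finset (P K)} {w : P K} : w ∈ orb S ↔ ∃ v ∈ S, ∃ g : Ga K, g • v = w := by
  classical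
  simp only [orb, Finset.mem_image, Finset.mem_product, Finset.mem_univ, and_true, Prod.exists]
  exact ⟨fun ⟨v, g, h1, h2⟩ => ⟨v, h1, g, h2⟩, fun ⟨v, h1, g, h2⟩ => ⟨v, g, h1, h2⟩⟩

omit [IsGalois ℚ K] in
theorem card_orb {S : Finset (P K)} (hS : SPs S) : (orb S).card = S.card * Nat.card (Ga K) := by
  classical
  rw [orb, Finset.card_image_of_injOn, Finset.card_product, Finset.card_univ,
    Nat.card_eq_fintype_card]
  rintro ⟨v, g⟩ h1 ⟨w, h⟩ h2 e
  have e' : g • v = h • w := e
  have h3 : v = w := hS.inj v (Finset.mem_product.1 h1).1 w (Finset.mem_product.1 h2).1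
    (by rw [← nm_smul g v, e', nm_smul])
  subst h3
  have := (hS.sp v (Finset.mem_product.1 h1).1).free (h⁻¹ * g) (by rw [mul_smul, e', inv_smul_smul])
  rw [inv_mul_eq_one] at this
  rw [this]

/-- the relative norm -/
noncomputable def Dat.nrm (D : Dat K) : Kˣ →* Kˣ where
  toFun x := x * D.σ • x * (D.σ * D.σ) • x
  map_one' := by simp
  map_mul' x y := by
    rw [smul_mul', smul_mul', mul_mul_mul_comm x y, mul_mul_mul_comm]

/-- units outside the conjugates of `S` of norm one -/
noncomputable def Dat.U1 (D : Dat K) (S : Finset (P K)) : Subgroup Kˣ := US (orb S) ⊓ D.nrm.ker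

omit [IsGalois ℚ K] in
theorem c5a_und (H : Subgroup (Ga K)) {σ : Ga K} (hσ : σ ∈ H) (w : P K) :
    und (IntermediateField.fixedField H) (σ • w) = und (IntermediateField.fixedField H) w :=
  und_smul (IntermediateField.subgroupEquivAlgEquiv H ⟨σ, hσ⟩) w

theorem Dat.rank_U1 (D : Dat K) {S : Finset (P K)} (hS : SPs S) :
    2 * (Nat.card D.G * (1 + S.card)) ≤ Module.finrank ℤ (Additive (D.U1 S)) := by
  classical
  let k := IntermediateField.fixedField (Subgroup.zpowers D.σ)
  let S0 : Finset (P k) := (orb S).image (und k)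
  have hinj : Function.Injective (Units.map (algebraMap k K : k →* K)) :=
    Units.map_injective (algebraMap k K).injective
  let e : Additive (US S0) ≃ₗ[ℤ] Additive ((US S0).map (Units.map (algebraMap k K : k →* K))) :=
    (MulEquiv.toAdditive ((US S0).equivMapOfInjective _ hinj)).toIntLinearEquiv
  have := Module.Finite.equiv e
  have h3 := D.cub.three
  have h1 := rk_rank_le D.nrm (US (orb S)) ((US S0).map (Units.map (algebraMap k K : k →* K)))
    fun x hx => by
      have hA : D.nrm x ∈ US (orb S) := by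
        have hs : ∀ g : Ga K, g • x ∈ US (orb S) := fun g => mem_US.2 fun w hw => by
          obtain ⟨w, rfl⟩ : ∃ w' : P K, g • w' = w := ⟨g⁻¹ • w, smul_inv_smul g w⟩
          refine (val_smul g w (x : K)).trans (mem_US.1 hx w fun h => hw ?_)
          obtain ⟨v, hv, a, rfl⟩ := mem_orb.1 h
          exact mem_orb.2 ⟨v, hv, g * a, mul_smul _ _ _⟩
        exact mul_mem (mul_mem hx (hs _)) (hs _)
      have hσ : D.σ • D.nrm x = D.nrm x := by
        show D.σ • (x * D.σ • x * (D.σ * D.σ) • x) = x * D.σ • x * (D.σ * D.σ) • x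
        rw [smul_mul', smul_mul', smul_smul, smul_smul, ← mul_assoc, h3, one_smul, mul_comm _ x,
          mul_assoc]
      have hk : ((D.nrm x : Kˣ) : K) ∈ k := by
        rw [IntermediateField.mem_fixedField_iff]
        intro g hg
        have : g ∈ MulAction.stabilizer (Ga K) (D.nrm x) :=
          (Subgroup.zpowers_le.2 (MulAction.mem_stabilizer_iff.2 hσ)) hg
        exact congrArg Units.val (MulAction.mem_stabilizer_iff.1 this)
      refine ⟨Units.mk0 ⟨_, hk⟩ fun h => (D.nrm x).ne_zero (congrArg Subtype.val h),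
        mem_US.2 fun v hv => ?_, Units.ext rfl⟩
      obtain ⟨w, rfl⟩ := exists_over K v
      exact (val_algebraMap_eq_one_iff w _).1
        (mem_US.1 hA w fun h => hv (Finset.mem_image_of_mem _ h))
  rw [← e.finrank_eq] at h1
  have h2 := finrank_US (orb S)
  have h4 := finrank_US S0
  have h5 := two_mul_card_infinitePlace' (K := K)
  have h6 : Nat.card (K →+* ℝ) = Nat.card (Ga K) :=
    (Nat.card_eq_of_bijective _ (real_bij D.ρ)).symm
  have h7 : Nat.card (Ga K) = Module.finrank ℚ K := IsGalois.card_aut_eq_finrank ℚ K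
  have h8 := D.cub.card
  have h9 : Module.finrank k K = 3 := by
    have := Fact.mk Nat.prime_three
    rw [IntermediateField.finrank_fixedField_eq_card, Nat.card_zpowers]
    exact orderOf_eq_prime (by rw [pow_three', h3]) D.cub.ne_one
  have h10 := Module.finrank_mul_finrank ℚ k K
  have h11 : Fintype.card (InfinitePlace k) ≤ Module.finrank ℚ k := by
    rw [InfinitePlace.card_eq_nrRealPlaces_add_nrComplexPlaces,
      ← InfinitePlace.card_add_two_mul_card_eq_rank]
    omega
  have h12 : S0.card ≤ S.card * Nat.card D.G := by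
    have : S0 ⊆ (S ×ˢ (Finset.univ : Finset D.G)).image fun p => und k (p.2.1 • p.1) := by
      intro v hv
      obtain ⟨w, hw, rfl⟩ := Finset.mem_image.1 hv
      obtain ⟨u, hu, g, rfl⟩ := mem_orb.1 hw
      have hm := Subgroup.mem_zpowers D.σ
      rcases D.cub.dec g with h | h | h
      · exact Finset.mem_image.2 ⟨(u, ⟨_, h⟩), by simp [hu], rfl⟩
      · refine Finset.mem_image.2 ⟨(u, ⟨_, h⟩), by simp [hu], ?_⟩
        show und k ((g * D.σ) • u) = _
        rw [D.cub.cen, mul_smul]
        exact c5a_und _ hm _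
      · refine Finset.mem_image.2 ⟨(u, ⟨_, h⟩), by simp [hu], ?_⟩
        show und k ((g * D.σ * D.σ) • u) = _
        rw [D.cub.cen, D.cub.cen g, mul_smul, mul_smul]
        exact (c5a_und _ hm _).trans (c5a_und _ hm _)
    refine (Finset.card_le_card this).trans (Finset.card_image_le.trans ?_)
    rw [Finset.card_product, Finset.card_univ, Nat.card_eq_fintype_card]
  rw [card_orb hS, h8, mul_left_comm] at h2
  rw [h9] at h10
  rw [mul_add, mul_one, mul_comm _ S.card]
  change _ ≤ Module.finrank ℤ (Additive (US (orb S) ⊓ D.nrm.ker : Subgroup Kˣ))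
  omega

end Pool.Agent.Lib.MP_775b3b_nt.CM
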