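import Pool.Agent.Lib.MP_775b3b_nt.CM.C5a
import Pool.Agent.Lib.MP_775b3b_nt.CM.A2

namespace Pool.Agent.Lib.MP_775b3b_nt.CM

open Pool.Agent.Lib.MP_439fea_co NumberField WithZero

variable {K : Type} [Field K] [NumberField K] [IsGalois ℚ K]


variable (D : Dat K) {S : Finset (P K)}

omit [IsGalois ℚ K] in
theorem Dat.U1_le : D.U1 S ≤ D.Z S := fun x h =>
  ⟨⟨1, (show D.nrm x = 1 from h.2).trans (one_mul 1).symm⟩, fun w hw => by
    rw [(sunit_ord_eq_zero_iff w x.ne_zero).2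
      (mem_US.1 h.1 w fun hm => let ⟨v, hv, g, e⟩ := mem_orb.1 hm; hw v hv g e)]
    exact Even.zero⟩

omit [IsGalois ℚ K] in
theorem Dat.U1_smul {x : Kˣ} (h : x ∈ D.U1 S) (g : Ga K) : g • x ∈ D.U1 S := by
  refine ⟨mem_US.2 fun w hw => ?_, ?_⟩
  · rw [← smul_inv_smul g w]
    refine (val_smul g _ (x : K)).trans (mem_US.1 h.1 _ fun hm => hw ?_)
    obtain ⟨v, hv, k, e⟩ := mem_orb.1 hm
    exact mem_orb.2 ⟨v, hv, g * k, by rw [mul_smul, e, smul_inv_smul]⟩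
  · have e : ∀ z : Kˣ, D.σ • g • z = g • D.σ • z := fun z => by
      rw [← mul_smul, ← mul_smul, D.cub.cen g]
    change g • x * D.σ • g • x * (D.σ * D.σ) • g • x = 1
    rw [mul_smul, e, e, ← mul_smul D.σ, ← smul_mul', ← smul_mul',
      show x * D.σ • x * (D.σ * D.σ) • x = 1 from h.2, smul_one]

omit [IsGalois ℚ K] in
theorem c5b_neg : D.nrm (-1) = -1 := Units.ext (by simp [Dat.nrm])

omit [IsGalois ℚ K] in
theorem Dat.U1_sq {x : Kˣ} (h : x ∈ D.U1 S) (h' : IsSquare x) : ∃ y ∈ D.U1 S, x = y * y := by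
  obtain ⟨z, rfl⟩ := h'
  have h1 : z ∈ US (orb S) := mem_US.2 fun w hw => by
    have := mem_US.1 h.1 w hw
    rw [Units.val_mul, map_mul, ← sq] at this
    exact (pow_eq_one_iff_of_nonneg zero_le two_ne_zero).1 this
  have h2 : (D.nrm z : K) * D.nrm z = 1 := by
    rw [← Units.val_mul, ← map_mul, show D.nrm (z * z) = 1 from h.2, Units.val_one]
  rcases mul_self_eq_one_iff.1 h2 with h3 | h3
  · exact ⟨z, ⟨h1, Units.ext h3⟩, rfl⟩
  · refine ⟨-1 * z, ⟨mul_mem (neg_one_mem_US _) h1, Units.ext ?_⟩, by simp⟩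
    rw [map_mul, c5b_neg, Units.val_mul, h3]
    simp

instance : Module.Finite ℤ (Additive (D.U1 S)) := rk_finite_of_le inf_le_left

instance : Module.Free ℤ (Additive (D.U1 S)) := by
  have : IsMulTorsionFree (D.U1 S) := .of_not_isOfFinOrder fun a ha h => by
    obtain ⟨n, hn, e⟩ := isOfFinOrder_iff_pow_eq_one.1 h
    have e1 : D.ρ ((a : Kˣ) : K) ^ n = 1 := by
      simpa using congrArg (fun x : D.U1 S => D.ρ ((x : Kˣ) : K)) e
    rcases (pow_eq_one_iff_of_ne_zero hn.ne').1 e1 with h1 | ⟨h1, -⟩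
    · exact ha (Subtype.ext (Units.ext (D.ρ.injective (by simpa using h1))))
    · have h2 : D.nrm a = 1 := a.2.2
      rw [show (a : Kˣ) = -1 from Units.ext (D.ρ.injective (by simpa using h1)), c5b_neg] at h2
      have h3 := congrArg Units.val h2
      rw [Units.val_neg, Units.val_one] at h3
      exact absurd h3 (by norm_num)
  exact Module.free_of_finite_type_torsion_free'

theorem Dat.lag (hS : SPs S) (hI : D.Inj S) : Lag D.u (ee D.σ) (D.HS S) ∧
    Nat.card (D.HS S) = 4 ^ (Nat.card D.G * (1 + S.card)) ∧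
    ∀ z ∈ D.HS S, ∃ x ∈ D.U1 S, D.loc S x = z := by
  let lam : Additive (D.U1 S) →+ (Ix S → GA (Ga K)) := AddMonoidHom.mk'
    (fun a => D.loc S (a.toMul : D.U1 S)) fun a b =>
      D.loc_mul hS hS (D.U1_le a.toMul.2) (D.U1_le b.toMul.2)
  have h1 : lam.ker ≤ (nsmulAddMonoidHom 2).range := fun a ha => by
    obtain ⟨y, hy, e⟩ := D.U1_sq a.toMul.2 (hI _ (D.U1_le a.toMul.2) ha)
    exact ⟨.ofMul ⟨y, hy⟩, Additive.toMul.injective (Subtype.ext (by simpa [sq] using e.symm))⟩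
  have h2 : 4 ^ (Nat.card D.G * (1 + S.card)) ≤ Nat.card lam.range := by
    rw [← AddSubgroup.index_ker, show 4 = 2 ^ 2 from rfl, ← pow_mul]
    refine (Nat.pow_le_pow_right two_pos (D.rank_U1 hS)).trans ?_
    rw [← AddSubgroup.index_range_nsmul]
    exact Nat.le_of_dvd (by rw [AddSubgroup.index_ker]; exact Nat.card_pos)
      (AddSubgroup.index_dvd_of_le h1)
  have h3 : lam.range ≤ (D.HS S).toAddSubgroup := by
    rintro _ ⟨a, rfl⟩
    exact (D.mem_HS hS).2 ⟨_, D.U1_le a.toMul.2, rfl⟩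
  have h4 : ∀ x ∈ D.HS S, ee D.σ • x = x := fun x hx => by
    obtain ⟨y, hy, rfl⟩ := (D.mem_HS hS).1 hx
    exact D.ee_loc hS hS hy
  have h5 : ∀ x ∈ D.HS S, ∀ y ∈ D.HS S, hf D.u x y = 0 := fun x hx y hy => by
    obtain ⟨a, ha, rfl⟩ := (D.mem_HS hS).1 hx
    obtain ⟨b, hb, rfl⟩ := (D.mem_HS hS).1 hy
    exact D.pair hS ha hb
  have h6 := card_le_of_iso D.cub D.hu h4 h5
  have h7 := h2.trans (AddSubgroup.card_le_of_le h3)
  rw [Fintype.card_coe] at h6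
  refine ⟨lag_of_card D.cub D.hu h4 h5 (by rwa [Fintype.card_coe]), h6.antisymm h7, fun z hz => ?_⟩
  obtain ⟨a, ha⟩ := (AddSubgroup.eq_of_le_of_card_ge h3 (h6.trans h2)).ge hz
  exact ⟨_, a.toMul.2, ha⟩

end Pool.Agent.Lib.MP_775b3b_nt.CM
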