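import Pool.Agent.Lib.MP_775b3b_nt.CM.C1a
import Pool.Agent.Lib.MP_775b3b_nt.CM.A1

namespace Pool.Agent.Lib.MP_775b3b_nt.CM

open Pool.Agent.Lib.MP_439fea_co NumberField WithZero

variable {K : Type} [Field K] [NumberField K] [IsGalois ℚ K]

omit [IsGalois ℚ K] in
theorem c6a_h90 (Q : Subgroup (Ga K)) (b : Q → Kˣ)
    (hb : ∀ g h : Q, b (g * h) = b g * (g : Ga K) • b h) :
    ∃ θ : Kˣ, ∀ g : Q, b g * (g : Ga K) • θ = θ := by
  classical
  have := Fintype.ofFinite Q
  let f : Q → (K →* K) := fun g => ((g : Ga K) : K →* K)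
  have hf : Function.Injective f := fun g h e =>
    Subtype.ext (AlgEquiv.ext fun z => DFunLike.congr_fun e z)
  have hli := (linearIndependent_monoidHom K K).comp f hf
  have hz : ∃ z : K, ∑ h : Q, (b h : K) * (h : Ga K) z ≠ 0 := by
    by_contra hcon
    have h0 : ∑ h : Q, (b h : K) • ((fun φ : K →* K => (φ : K → K)) ∘ f) h = 0 := by
      funext z
      rw [Finset.sum_apply]
      by_contra hne
      exact hcon ⟨z, hne⟩
    exact (b 1).ne_zero (Fintype.linearIndependent_iff.1 hli _ h0 1)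
  obtain ⟨z, hz⟩ := hz
  refine ⟨Units.mk0 _ hz, fun g => Units.ext ?_⟩
  rw [Units.val_mul, val_smul_units, Units.val_mk0, map_sum, Finset.mul_sum]
  refine Fintype.sum_equiv (Equiv.mulLeft g) _ _ fun h => ?_
  rw [Equiv.coe_mulLeft, hb, Units.val_mul, val_smul_units, map_mul, mul_assoc]
  rfl

theorem Dat.descend (D : Dat K) (Q : Subgroup (Ga K)) {x : Kˣ}
    (hN : IsSquare (x * D.σ • x * (D.σ * D.σ) • x)) (h : ∀ g ∈ Q, IsSquare (g • x * x)) :
    ∃ y r : Kˣ, (∀ g ∈ Q, g • y = y) ∧ (∀ g ∈ Q, g • r = r) ∧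
      y * D.σ • y * (D.σ * D.σ) • y = r * r ∧ IsSquare (x * y) := by
  have hc : ∀ (g : Ga K) (z : Kˣ), g • D.σ • z = D.σ • g • z := fun g z => by
    rw [smul_smul, smul_smul, D.cub.cen]
  have h3 : ∀ z : Kˣ, D.σ • D.σ • D.σ • z = z := fun z => by
    rw [smul_smul, smul_smul, D.cub.three, one_smul]
  have ha : ∀ g : Q, ∃ a : Kˣ, (g : Ga K) • x = x * (a * a) := by
    intro g
    obtain ⟨c, hc'⟩ := h g g.2
    refine ⟨c * x⁻¹, ?_⟩
    rw [mul_mul_mul_comm, ← hc', mul_assoc, mul_inv_cancel_left, mul_left_comm, mul_inv_cancel,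
      mul_one]
  choose a ha using ha
  have hb : ∀ g k : Q, D.σ • a (g * k) * D.σ • D.σ • a (g * k) =
      D.σ • a g * D.σ • D.σ • a g * (g : Ga K) • (D.σ • a k * D.σ • D.σ • a k) := by
    intro g k
    have e : a (g * k) * a (g * k) =
        (a g * (g : Ga K) • a k) * (a g * (g : Ga K) • a k) := by
      refine mul_left_cancel (a := x) ?_
      rw [← ha, Subgroup.coe_mul, mul_smul, ha k, smul_mul', smul_mul', ha g]
      refine Units.ext ?_
      simp only [Units.val_mul]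
      ring
    have e2 : a (g * k) = a g * (g : Ga K) • a k ∨ a (g * k) = -(a g * (g : Ga K) • a k) := by
      rcases mul_self_eq_mul_self_iff.1 (congrArg Units.val e) with h' | h'
      · exact Or.inl (Units.ext h')
      · exact Or.inr (Units.ext h')
    have hneg : ∀ z : Kˣ, D.σ • (-z) = -(D.σ • z) := fun z => Units.ext (by
      rw [Units.val_neg, val_smul_units, val_smul_units, Units.val_neg, map_neg])
    rcases e2 with e2 | e2
    · simp only [e2, smul_mul', hc]
      refine Units.ext ?_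
      simp only [Units.val_mul]
      ring
    · simp only [e2, hneg, neg_mul_neg, smul_mul', hc]
      refine Units.ext ?_
      simp only [Units.val_mul]
      ring
  obtain ⟨θ, hθ⟩ := c6a_h90 Q (fun g => D.σ • a g * D.σ • D.σ • a g) hb
  refine ⟨D.σ • x * D.σ • D.σ • x * (θ * θ),
    x * D.σ • x * D.σ • D.σ • x * (θ * D.σ • θ * D.σ • D.σ • θ), fun g hg => ?_, fun g hg => ?_,
    ?_, ?_⟩
  · have e1 : g • x = x * (a ⟨g, hg⟩ * a ⟨g, hg⟩) := ha ⟨g, hg⟩
    have e2 : D.σ • a ⟨g, hg⟩ * D.σ • D.σ • a ⟨g, hg⟩ * g • θ = θ := hθ ⟨g, hg⟩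
    simp only [smul_mul', hc, e1]
    generalize g • θ = t at e2 ⊢
    subst e2
    refine Units.ext ?_
    simp only [Units.val_mul]
    ring
  · have e1 : g • x = x * (a ⟨g, hg⟩ * a ⟨g, hg⟩) := ha ⟨g, hg⟩
    have e2 : D.σ • a ⟨g, hg⟩ * D.σ • D.σ • a ⟨g, hg⟩ * g • θ = θ := hθ ⟨g, hg⟩
    simp only [smul_mul', hc, e1]
    generalize g • θ = t at e2 ⊢
    subst e2
    simp only [smul_mul', h3]
    refine Units.ext ?_
    simp only [Units.val_mul]
    ring
  · simp only [mul_smul, smul_mul', h3]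
    refine Units.ext ?_
    simp only [Units.val_mul]
    ring
  · rw [mul_smul] at hN
    have := hN.mul (IsSquare.mul_self θ)
    rwa [mul_assoc x, mul_assoc x] at this

end Pool.Agent.Lib.MP_775b3b_nt.CM
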