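import Pool.Agent.Lib.MP_775b3b_nt.CM.C1a
import Pool.Agent.Lib.MP_775b3b_nt.CM.C1b

namespace Pool.Agent.Lib.MP_775b3b_nt.CM

open Pool.Agent.Lib.MP_439fea_co NumberField WithZero

variable {k K : Type} [Field k] [NumberField k] [Field K] [NumberField K] [Algebra k K]

/-- the map on units -/
noncomputable abbrev um (K : Type) [Field K] [Algebra k K] : kˣ →* Kˣ :=
  Units.map (algebraMap k K : k →* K)

theorem c6b_le (w : P K) (x y : k) :
    val w (algebraMap k K x) ≤ val w (algebraMap k K y) ↔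
      val (und k w) x ≤ val (und k w) y := by
  rw [← not_lt, ← not_lt, val_algebraMap_lt_iff]

theorem ord_map (k : Type) [Field k] [NumberField k] [Algebra k K] (w : P K) :
    ∃ e : ℕ, e ≠ 0 ∧ ∀ x : k, ord w (algebraMap k K x) = e * ord (und k w) x := by
  obtain ⟨e, he, h⟩ := val_algebraMap k w
  refine ⟨e, he, fun x => ?_⟩
  rw [ord, ord, h, log_pow, nsmul_eq_mul, mul_neg]

theorem ord_map_of_one {w : P K} {n : ℕ} (h : val w (n : K) = exp (-1 : ℤ)) (x : k) :
    val w (algebraMap k K x) = val (und k w) x := by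
  obtain ⟨e, he, hv⟩ := val_algebraMap k w
  have h1 := hv (n : k)
  rw [map_natCast, h] at h1
  have h2 := congrArg log h1
  rw [log_pow, log_exp, nsmul_eq_mul] at h2
  have h3 : (e : ℤ) ∣ 1 := ⟨-log (val (und k w) (n : k)), by rw [mul_neg, ← h2, neg_neg]⟩
  have h4 : e = 1 := Nat.dvd_one.1 (Int.natCast_dvd_natCast.1 h3)
  rw [hv, h4, pow_one]

theorem Two.down (h : Two K) : Two k := by
  intro v hv
  obtain ⟨w, rfl⟩ := exists_over K v
  have h1 := (val_algebraMap_lt_iff w (2 : k) 1).2 (by rwa [map_one])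
  rw [map_ofNat, map_one, map_one] at h1
  have h2 := h w h1
  have h3 := ord_map_of_one (k := k) (w := w) (n := 2) h2 (2 : k)
  rw [← h3, map_ofNat, h2]

theorem Sig.map {x : kˣ} {s : 𝓞 k} (h : Sig x s) :
    Sig (um K x) (algebraMap (𝓞 k) (𝓞 K) s) := by
  obtain ⟨z, hz⟩ := h
  refine ⟨um K z, fun w hw => ?_⟩
  have h1 : val (und k w) (2 : k) < 1 := by
    have := (val_algebraMap_lt_iff w (2 : k) 1).1 (by rwa [map_ofNat, map_one, map_one])
    rwa [map_one] at this
  have h2 := (c6b_le w _ _).2 (hz _ h1)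
  simp only [map_sub (algebraMap k K), map_mul (algebraMap k K), map_pow (algebraMap k K),
    map_one (algebraMap k K), map_ofNat (algebraMap k K)] at h2
  exact h2

theorem Pry.map {w : P K} {x : kˣ} (h : Pry (und k w) x) : Pry w (um K x) := by
  obtain ⟨z, hz⟩ := h
  refine ⟨um K z, ?_⟩
  have h2 := (c6b_le w _ _).2 hz
  rw [map_sub, map_mul, map_pow, map_one, map_ofNat] at h2
  exact h2

theorem ns_map {w : P K} (h2 : val w (2 : K) = 1) {n : ℕ} (h : val w (n : K) = exp (-1 : ℤ))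
    (hr : ∀ y : K, val w y ≤ 1 → ∃ z : k, val w (y - algebraMap k K z) < 1) (x : kˣ) :
    ns w (um K x) = ns (und k w) x := by
  classical
  rw [ns, ns]
  refine if_congr ⟨fun hx => ?_, map_mem_Sq w⟩ rfl rfl
  obtain ⟨z, o, ho, e⟩ := mem_Sq.1 hx
  have h4 : val w (4 : K) = 1 := by rw [local_val_four, h2, mul_one]
  have n0 : n ≠ 0 := by
    rintro rfl
    rw [Nat.cast_zero, map_zero] at h
    exact exp_ne_zero h.symm
  have hN : ((um K (nu k n) : Kˣ) : K) = n := by
    change algebraMap k K (nu k n : kˣ) = n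
    rw [val_nu n0, map_natCast]
  have hoN : ord w ((um K (nu k n) : Kˣ) : K) = 1 := by rw [hN, ord, h, log_exp, neg_neg]
  obtain ⟨z', hz'⟩ : ∃ z' : Kˣ, z' = z * um K (nu k n) ^ (-ord w (z : K)) := ⟨_, rfl⟩
  have h5 : val w (z' : K) = 1 := by
    rw [← sunit_ord_eq_zero_iff w z'.ne_zero, hz', Units.val_mul,
      ord_mul w z.ne_zero (Units.ne_zero _), c1a_zpow, hoN, mul_one, add_neg_cancel]
  obtain ⟨a, ha⟩ := hr z' h5.le
  have h6 : val w (algebraMap k K a) = 1 := by
    have := (val w).map_sub_eq_of_lt_left (x := (z' : K)) (y := z' - algebraMap k K a)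
      (by rwa [h5])
    rwa [sub_sub_cancel, h5] at this
  have a0 : a ≠ 0 := by
    rintro rfl
    rw [map_zero, map_zero] at h6
    exact zero_ne_one h6
  have a1 : algebraMap k K a ≠ 0 := (map_ne_zero _).2 a0
  have h7 : z' * (um K (Units.mk0 a a0))⁻¹ ∈ One (val w) := by
    rw [mem_One, h4, Units.val_mul, Units.val_inv_eq_inv_val]
    change val w ((z' : K) * (algebraMap k K a)⁻¹ - 1) < 1
    have : (z' : K) * (algebraMap k K a)⁻¹ - 1 =
        (z' - algebraMap k K a) * (algebraMap k K a)⁻¹ := by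
      rw [sub_mul, mul_inv_cancel₀ a1]
    rwa [this, map_mul, map_inv₀, h6, inv_one, mul_one]
  obtain ⟨y, hy⟩ : ∃ y : kˣ, y = nu k n ^ ord w (z : K) * Units.mk0 a a0 := ⟨_, rfl⟩
  have h8 : um K (x * (y ^ 2)⁻¹) = (z' * (um K (Units.mk0 a a0))⁻¹) ^ 2 * o := by
    rw [map_mul, map_inv, map_pow, e, hy, map_mul, map_zpow, hz', zpow_neg, mul_assoc z,
      ← mul_inv, mul_pow z, inv_pow, mul_right_comm]
  refine mem_Sq.2 ⟨y, x * (y ^ 2)⁻¹, (map_mem_One_iff w _).1 ?_, ?_⟩
  · rw [h8]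
    exact mul_mem (pow_mem h7 2) ho
  · rw [mul_comm, inv_mul_cancel_right]

theorem tm_map {w : P K} (h : SP w) (x y : kˣ) :
    tm w (um K x) (um K y) = tm (und k w) x y := by
  have ho : ∀ z : kˣ, ord w ((um K z : Kˣ) : K) = ord (und k w) (z : k) := fun z => by
    rw [ord, ord, ← ord_map_of_one h.unr]
    rfl
  have hm : um K (-1 : kˣ) = -1 := by
    ext
    change algebraMap k K (-1 : kˣ) = _
    rw [Units.val_neg, Units.val_one, map_neg, map_one, Units.val_neg, Units.val_one]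
  rw [tm, tm, ← ns_map h.two h.unr fun y hy => ?_, map_mul, map_mul, map_zpow, map_zpow, map_zpow,
    hm, ho, ho]
  obtain ⟨n, hn⟩ := h.res y hy
  exact ⟨n, by rwa [map_intCast]⟩

theorem tr2_map [IsGalois k K] (s t : 𝓞 k) (τ : 𝓞 K)
    (h : algebraMap k K (t : k) = ∑ g : K ≃ₐ[k] K, g (τ : K)) :
    tr2 (algebraMap (𝓞 k) (𝓞 K) s * τ) = tr2 (s * t) := by
  have : FiniteDimensional k K := Module.Finite.of_restrictScalars_finite ℚ k K
  have h1 : Algebra.trace k K (τ : K) = t :=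
    (algebraMap k K).injective (by rw [trace_eq_sum_automorphisms, h])
  rw [tr2, tr2]
  refine congrArg _ (Int.cast_injective (α := ℚ) ?_)
  rw [Algebra.coe_trace_int, Algebra.coe_trace_int, ← Algebra.trace_trace (S := k)]
  refine congrArg _ ?_
  change Algebra.trace k K (algebraMap k K (s : k) * (τ : K)) = (s : k) * (t : k)
  rw [← Algebra.smul_def, map_smul, h1, smul_eq_mul]

end Pool.Agent.Lib.MP_775b3b_nt.CM
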