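import Pool.Agent.Lib.MP_775b3b_nt.CM.C6b
import Pool.Agent.Lib.MP_775b3b_nt.CM.C3
import Pool.Agent.Lib.MP_775b3b_nt.CM.A3

namespace Pool.Agent.Lib.MP_775b3b_nt.CM

open Pool.Agent.Lib.MP_439fea_co NumberField WithZero

variable {K : Type} [Field K] [NumberField K] [IsGalois ℚ K]


variable (D : Dat K) {S : Finset (P K)}

section Grp

variable {Γ : Type} [Group Γ] [Fintype Γ] {Q : Subgroup Γ} {R : Finset Γ}

omit [Fintype Γ] in
/-- representatives of the cosets `Q g` -/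
structure c6c_Rep (Q : Subgroup Γ) (R : Finset Γ) : Prop where
  ex : ∀ g, ∃ q ∈ Q, q⁻¹ * g ∈ R
  un : ∀ a ∈ R, ∀ b ∈ R, ∀ q ∈ Q, a = q * b → a = b

theorem c6c_rep (Q : Subgroup Γ) : ∃ R : Finset Γ, c6c_Rep Q R := by
  classical
  let rep : Γ → Γ := fun g => ((QuotientGroup.mk g⁻¹ : Γ ⧸ Q).out)⁻¹
  have hrep : ∀ g, ∃ q ∈ Q, rep g = q⁻¹ * g := by
    intro g
    obtain ⟨q, hq⟩ := QuotientGroup.mk_out_eq_mul Q g⁻¹
    refine ⟨q, q.2, ?_⟩
    simp only [rep, hq, mul_inv_rev, inv_inv]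
  have hrep2 : ∀ g, ∀ q ∈ Q, rep (q⁻¹ * g) = rep g := by
    intro g q hq
    simp only [rep, mul_inv_rev, inv_inv]
    rw [QuotientGroup.mk_mul_of_mem _ hq]
  refine ⟨Finset.univ.filter fun g => rep g = g, fun g => ?_, fun a ha b hb q hq e => ?_⟩
  · obtain ⟨q, hq, hg⟩ := hrep g
    exact ⟨q, hq, Finset.mem_filter.2 ⟨Finset.mem_univ _, by rw [hrep2 g q hq, hg]⟩⟩
  · have := hrep2 b q⁻¹ (Q.inv_mem hq)
    rwa [inv_inv, ← e, (Finset.mem_filter.1 ha).2, (Finset.mem_filter.1 hb).2] at this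

theorem c6c_sum {A M : Type} [Fintype A] [AddCommMonoid M] {ι : A → Γ}
    (hι : Function.Injective ι) (hQ : ∀ g, g ∈ Q ↔ ∃ a, ι a = g) (hR : c6c_Rep Q R)
    (f : Γ → M) : ∑ a, ∑ g ∈ R, f (ι a * g) = ∑ γ, f γ := by
  rw [← Finset.sum_product']
  refine Finset.sum_bij (fun p _ => ι p.1 * p.2) (fun _ _ => Finset.mem_univ _) ?_ ?_
    fun _ _ => rfl
  · rintro ⟨a, g⟩ h1 ⟨b, h⟩ h2 (e : ι a * g = ι b * h)
    obtain rfl : g = h := hR.un g (Finset.mem_product.1 h1).2 h (Finset.mem_product.1 h2).2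
      ((ι a)⁻¹ * ι b) (Q.mul_mem (Q.inv_mem ((hQ _).2 ⟨a, rfl⟩)) ((hQ _).2 ⟨b, rfl⟩))
      (by rw [mul_assoc, ← e, inv_mul_cancel_left])
    obtain rfl : a = b := hι (mul_right_cancel e)
    rfl
  · intro γ _
    obtain ⟨q, hq, h⟩ := hR.ex γ
    obtain ⟨a, rfl⟩ := (hQ q).1 hq
    exact ⟨(a, (ι a)⁻¹ * γ), Finset.mem_product.2 ⟨Finset.mem_univ _, h⟩,
      mul_inv_cancel_left _ _⟩

theorem c6c_nq {A : Type} [Fintype A] {ι : A → Γ} (hι : Function.Injective ι)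
    (hQ : ∀ g, g ∈ Q ↔ ∃ a, ι a = g) (z : GA Γ) : nq Q * z = ∑ a, gr (ι a) * z := by
  refine ga_ext fun g => ?_
  rw [coeff_mul', MonoidAlgebra.coeff_sum, Finsupp.finsetSum_apply]
  refine (Fintype.sum_of_injective ι hι _ _ (fun h hh => ?_) fun a => ?_).symm
  · simp only [nq, coeff_mk]
    rw [if_neg fun h' => hh ((hQ h).1 h'), zero_mul]
  · simp only [nq, coeff_mk]
    rw [if_pos ((hQ _).2 ⟨a, rfl⟩), one_mul, coeff_gr_mul]

open Classical in
/-- restriction of the coefficients to `R` -/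
noncomputable def c6c_rs (R : Finset Γ) (x : GA Γ) : GA Γ :=
  mk fun g => if g ∈ R then x.coeff g else 0

theorem c6c_rs_nq (hR : c6c_Rep Q R) {x : GA Γ} (h1 : ∀ g ∈ Q, gr g * x = x) :
    nq Q * c6c_rs R x = x := by
  refine ga_ext fun g => ?_
  obtain ⟨q, hq, hg⟩ := hR.ex g
  rw [coeff_mul', Finset.sum_eq_single q]
  · simp only [nq, c6c_rs, coeff_mk]
    rw [if_pos hq, if_pos hg, one_mul, a3_inv h1 hq]
  · intro h _ hne
    simp only [nq, c6c_rs, coeff_mk]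
    by_cases hh : h ∈ Q
    · rw [if_neg (c := h⁻¹ * g ∈ R), mul_zero]
      intro he
      have e := hR.un _ he _ hg (h⁻¹ * q) (Q.mul_mem (Q.inv_mem hh) hq)
        (by rw [mul_assoc, mul_inv_cancel_left])
      exact hne (inv_injective (mul_right_cancel e))
    · rw [if_neg hh, zero_mul]
  · intro h
    exact absurd (Finset.mem_univ q) h

theorem c6c_rs_star (R : Finset Γ) (x y : GA Γ) :
    (x * star (c6c_rs R y)).coeff 1 = ∑ g ∈ R, x.coeff g * y.coeff g := by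
  classical
  rw [coeff_mul_star, ← Finset.sum_subset (Finset.subset_univ R)]
  · refine Finset.sum_congr rfl fun g hg => ?_
    simp only [c6c_rs, coeff_mk]
    rw [if_pos hg]
  · intro g _ hg
    simp only [c6c_rs, coeff_mk]
    rw [if_neg hg, mul_zero]

end Grp

omit [NumberField K] [IsGalois ℚ K] in
theorem c6c_tr2_int (t : ℤ) (a : 𝓞 K) : tr2 ((t : 𝓞 K) * a) = t * tr2 a := by
  rw [← zsmul_eq_mul, tr2, map_zsmul, smul_eq_mul, Int.cast_mul, tr2]

omit [IsGalois ℚ K] in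
theorem c6c_cz_sum {A : Type} (s : Finset A) (α : 𝓞 K) (f : A → 𝓞 K) :
    cz α (∑ a ∈ s, f a) = ∑ a ∈ s, cz α (f a) :=
  map_sum (AddMonoidHom.mk' (cz α) (cz_add α)) f s

theorem c6c_trace : ∑ g : Ga K, g • D.α = ((Algebra.trace ℤ (𝓞 K) D.α : ℤ) : 𝓞 K) := by
  apply RingOfIntegers.ext
  have h := trace_eq_sum_automorphisms (K := ℚ) (D.α : K)
  rw [← Algebra.coe_trace_int, map_intCast] at h
  change algebraMap (𝓞 K) K _ = algebraMap (𝓞 K) K _
  rw [map_intCast, map_sum, h]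
  rfl

omit [IsGalois ℚ K] in
theorem c6c_odd : ((Algebra.trace ℤ (𝓞 K) D.α : ℤ) : ZMod 2) = 1 := by
  have h := D.one 1 (by simp)
  rwa [one_mul] at h

section Tower

variable {k : Type} [Field k] [NumberField k] [Algebra k K] {Q : Subgroup (Ga K)}
  {R : Finset (Ga K)}

omit [IsGalois ℚ K] in
theorem c6c_Q (hQ : ∀ g : Ga K, g ∈ Q ↔ ∀ a : k, g (algebraMap k K a) = algebraMap k K a)
    (g : Ga K) : g ∈ Q ↔ ∃ τ : K ≃ₐ[k] K, τ.restrictScalars ℚ = g := by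
  rw [hQ]
  constructor
  · intro h
    exact ⟨AlgEquiv.ofRingEquiv (f := g.toRingEquiv) h, AlgEquiv.ext fun _ => rfl⟩
  · rintro ⟨τ, rfl⟩ a
    exact τ.commutes a

omit [IsGalois ℚ K] in
theorem c6c_res (τ : K ≃ₐ[k] K) (w : P K) : (τ.restrictScalars ℚ : Ga K) • w = τ • w :=
  IsDedekindDomain.HeightOneSpectrum.ext rfl

omit [IsGalois ℚ K] in
theorem c6c_even {x r : kˣ}
    (h5 : um K x * D.σ • um K x * (D.σ * D.σ) • um K x = um K r * um K r) {w : P K}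
    (hw : Even (ord w ((um K x : Kˣ) : K))) : Even (ord (und k w) (x : k)) := by
  obtain ⟨e, he, h⟩ := ord_map k w
  have hx : ord w ((um K x : Kˣ) : K) = e * ord (und k w) (x : k) := h x
  have hr : ord w ((um K r : Kˣ) : K) = e * ord (und k w) (r : k) := h r
  rcases D.ram w with h1 | ⟨n, hn⟩
  · have a1 : ord w ((D.σ • um K x : Kˣ) : K) = ord w ((um K x : Kˣ) : K) := by
      have := ord_smul D.σ w ((um K x : Kˣ) : K)
      rwa [h1] at this
    have a2 : ord w (((D.σ * D.σ) • um K x : Kˣ) : K) = ord w ((um K x : Kˣ) : K) := by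
      have := ord_smul (D.σ * D.σ) w ((um K x : Kˣ) : K)
      rwa [mul_smul, h1, h1] at this
    have a3 := congrArg (fun z : Kˣ => ord w (z : K)) h5
    simp only [Units.val_mul] at a3
    rw [ord_mul w (mul_ne_zero (Units.ne_zero _) (Units.ne_zero _)) (Units.ne_zero _),
      ord_mul w (Units.ne_zero _) (Units.ne_zero _), ord_mul w (Units.ne_zero _) (Units.ne_zero _),
      a1, a2, hx, hr, ← mul_add, ← mul_add, ← mul_add] at a3
    have a4 := mul_left_cancel₀ (Int.natCast_ne_zero.2 he) a3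
    exact ⟨ord (und k w) (r : k) - ord (und k w) (x : k), by omega⟩
  · have := h (n : k)
    rw [map_natCast] at this
    rw [this, Int.odd_mul] at hn
    rw [hx, Int.even_mul] at hw
    exact hw.resolve_left (Int.not_even_iff_odd.2 hn.1)

theorem c6c_real [Fintype (k →+* ℝ)]
    (hQ : ∀ g : Ga K, g ∈ Q ↔ ∀ a : k, g (algebraMap k K a) = algebraMap k K a)
    (hR : c6c_Rep Q R) (ρ : K →+* ℝ) (x y : kˣ) :
    ∑ g ∈ R, sg ρ (g⁻¹ • um K x) * sg ρ (g⁻¹ • um K y) = ∑ τ : k →+* ℝ, sg τ x * sg τ y := by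
  refine Finset.sum_bij (fun g _ => (ρ.comp ((g⁻¹ : Ga K) : K →+* K)).comp (algebraMap k K))
    (fun _ _ => Finset.mem_univ _) ?_ ?_ fun _ _ => rfl
  · intro g hg h hh e
    refine hR.un g hg h hh (g * h⁻¹) ((hQ _).2 fun a => ?_) (inv_mul_cancel_right g h).symm
    have e1 : g⁻¹ (algebraMap k K a) = h⁻¹ (algebraMap k K a) :=
      ρ.injective (RingHom.congr_fun e a)
    rw [AlgEquiv.mul_apply, ← e1, ← AlgEquiv.mul_apply, mul_inv_cancel, AlgEquiv.one_apply]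
  · intro τ _
    have : Algebra.IsAlgebraic k K := Algebra.IsAlgebraic.tower_top (K := ℚ) k
    obtain ⟨g, hg⟩ := ComplexEmbedding.exists_comp_symm_eq_of_comp_eq (k := ℚ)
      (Complex.ofRealHom.comp ρ) (ComplexEmbedding.lift K (Complex.ofRealHom.comp τ))
      (Subsingleton.elim _ _)
    obtain ⟨q, hq, h⟩ := hR.ex g
    refine ⟨q⁻¹ * g, h, RingHom.ext fun a => Complex.ofReal_injective ?_⟩
    have e1 := RingHom.congr_fun hg (algebraMap k K a)
    rw [ComplexEmbedding.lift_algebraMap_apply] at e1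
    have e2 : (q⁻¹ * g)⁻¹ (algebraMap k K a) = g⁻¹ (algebraMap k K a) := by
      rw [mul_inv_rev, inv_inv, AlgEquiv.mul_apply, (hQ q).1 hq]
    exact (congrArg (fun z => ((ρ z : ℝ) : ℂ)) e2).trans e1

theorem c6c_tau (hQ : ∀ g : Ga K, g ∈ Q ↔ ∀ a : k, g (algebraMap k K a) = algebraMap k K a)
    (hR : c6c_Rep Q R) :
    ∑ τ : K ≃ₐ[k] K, (τ.restrictScalars ℚ : Ga K) • ∑ g ∈ R, g • D.α =
      ((Algebra.trace ℤ (𝓞 K) D.α : ℤ) : 𝓞 K) := by
  rw [← c6c_trace, ← c6c_sum (AlgEquiv.restrictScalars_injective ℚ) (c6c_Q hQ) hR]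
  simp only [Finset.smul_sum, mul_smul]

theorem c6c_two (hQ : ∀ g : Ga K, g ∈ Q ↔ ∀ a : k, g (algebraMap k K a) = algebraMap k K a)
    (hR : c6c_Rep Q R) (s : 𝓞 k) :
    nq Q * cz D.α (algebraMap (𝓞 k) (𝓞 K) s * ∑ g ∈ R, g • D.α) =
      cz D.α (algebraMap (𝓞 k) (𝓞 K) s) := by
  have e : ∀ τ : K ≃ₐ[k] K, (τ.restrictScalars ℚ : Ga K) • algebraMap (𝓞 k) (𝓞 K) s =
      algebraMap (𝓞 k) (𝓞 K) s := fun τ => RingOfIntegers.ext (τ.commutes (s : k))
  rw [c6c_nq (AlgEquiv.restrictScalars_injective ℚ) (c6c_Q hQ)]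
  simp only [← cz_smul, smul_mul', e]
  rw [← c6c_cz_sum, ← Finset.mul_sum, c6c_tau D hQ hR]
  refine ga_ext fun g => ?_
  simp only [cz, coeff_mk]
  rw [mul_comm (algebraMap _ _ s), ← zsmul_eq_mul, smul_comm, smul_mul_assoc, zsmul_eq_mul,
    c6c_tr2_int, c6c_odd, one_mul]

theorem c6c_form [IsGalois k K]
    (hQ : ∀ g : Ga K, g ∈ Q ↔ ∀ a : k, g (algebraMap k K a) = algebraMap k K a)
    (hR : c6c_Rep Q R) (s s' : 𝓞 k) :
    tr2 (algebraMap (𝓞 k) (𝓞 K) s * (algebraMap (𝓞 k) (𝓞 K) s' * ∑ g ∈ R, g • D.α)) =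
      tr2 (s * s') := by
  rw [← mul_assoc, ← map_mul,
    tr2_map (s * s') ((Algebra.trace ℤ (𝓞 K) D.α : ℤ) : 𝓞 k), mul_comm, c6c_tr2_int, c6c_odd,
    one_mul]
  have h := congrArg (algebraMap (𝓞 K) K) (c6c_tau D hQ hR)
  rw [map_intCast, map_sum] at h
  change algebraMap k K (algebraMap (𝓞 k) k _) = _
  rw [map_intCast, map_intCast, ← h]
  rfl

theorem c6c_main [IsGalois k K] (hS : SPs S)
    (hQ : ∀ g : Ga K, g ∈ Q ↔ ∀ a : k, g (algebraMap k K a) = algebraMap k K a)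
    {x y r r' : kˣ} (hx : um K x ∈ D.Z S) (hy : um K y ∈ D.Z S)
    (h5 : um K x * D.σ • um K x * (D.σ * D.σ) • um K x = um K r * um K r)
    (h6 : um K y * D.σ • um K y * (D.σ * D.σ) • um K y = um K r' * um K r')
    {v : Ix S → GA (Ga K)} (hv : nq Q • v = D.loc S (um K y)) :
    (hf D.u (D.loc S (um K x)) v).coeff 1 = 0 := by
  classical
  obtain ⟨R, hR⟩ := c6c_rep Q
  have fix : ∀ z : kˣ, ∀ g ∈ Q, g • um K z = um K z := fun z g hg =>
    Units.ext ((hQ g).1 hg (z : k))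
  have hund : ∀ q ∈ Q, ∀ w : P K, und k (q • w) = und k w := by
    intro q hq w
    obtain ⟨τ, rfl⟩ := (c6c_Q hQ q).1 hq
    rw [c6c_res, und_smul]
  let f : S × Ga K → P k := fun p => und k (p.2 • p.1.1)
  have inj : Set.InjOn f ((Finset.univ : Finset S) ×ˢ R : Finset (S × Ga K)) := by
    rintro ⟨v, g⟩ h1 ⟨w, h⟩ h2 (e : und k (g • v.1) = und k (h • w.1))
    obtain ⟨τ, e⟩ := exists_smul_eq e
    rw [← c6c_res, ← mul_smul] at e
    obtain rfl : v = w := Subtype.ext (hS.inj _ v.2 _ w.2 (by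
      rw [← nm_smul (τ.restrictScalars ℚ * g) v.1, e, nm_smul]))
    have e1 := inv_mul_eq_one.1 ((hS.sp _ v.2).free (h⁻¹ * (τ.restrictScalars ℚ * g))
      (by rw [mul_smul, e, inv_smul_smul]))
    obtain rfl : h = g := hR.un h (Finset.mem_product.1 h2).2 g (Finset.mem_product.1 h1).2 _
      ((c6c_Q hQ _).2 ⟨τ, rfl⟩) e1
    rfl
  have hT : ∀ w ∈ ((Finset.univ : Finset S) ×ˢ R).image f, val w (2 : k) = 1 := by
    intro w hw
    obtain ⟨p, -, rfl⟩ := Finset.mem_image.1 hw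
    refine (val_algebraMap_eq_one_iff (p.2 • p.1.1) (2 : k)).1 ?_
    rw [map_ofNat]
    exact ((hS.sp _ p.1.2).smul p.2).two
  have ho : ∀ w ∉ ((Finset.univ : Finset S) ×ˢ R).image f,
      Even (ord w (x : k)) ∧ Even (ord w (y : k)) := by
    intro w hw
    obtain ⟨W, rfl⟩ := exists_over K w
    have out : ∀ v ∈ S, ∀ g : Ga K, g • v ≠ W := by
      intro v hv g e
      obtain ⟨q, hq, h⟩ := hR.ex g
      refine hw (Finset.mem_image.2 ⟨(⟨v, hv⟩, q⁻¹ * g),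
        Finset.mem_product.2 ⟨Finset.mem_univ _, h⟩, ?_⟩)
      change und k ((q⁻¹ * g) • v) = _
      rw [mul_smul, e, hund _ (Q.inv_mem hq)]
    exact ⟨c6c_even D h5 (hx.2 W out), c6c_even D h6 (hy.2 W out)⟩
  have h2 : Two k := D.two.down
  obtain ⟨s, hs⟩ := exists_sig h2 (x := x) fun w hw => (ho w fun h => hw.ne (hT w h)).1
  obtain ⟨s', hs'⟩ := exists_sig h2 (x := y) fun w hw => (ho w fun h => hw.ne (hT w h)).2
  have h := recip h2 x y s s' hs hs' _ hT ho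
  rw [Finset.sum_image inj, Finset.sum_product] at h
  let v' : Ix S → GA (Ga K) := fun i => match i with
    | .inl false => cz D.α (algebraMap (𝓞 k) (𝓞 K) s' * ∑ g ∈ R, g • D.α)
    | .inl true => c6c_rs R (co (sg D.ρ) (um K y))
    | .inr (false, t) => c6c_rs R (co (od t.1) (um K y))
    | .inr (true, t) => c6c_rs R (co (sy t.1) (um K y))
  have hco : ∀ φ : Kˣ → ZMod 2, nq Q * c6c_rs R (co φ (um K y)) = co φ (um K y) := fun φ =>
    c6c_rs_nq hR fun g hg => by rw [← co_smul, fix y g hg]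
  have hv' : nq Q • v = nq Q • v' := by
    rw [hv]
    funext i
    rcases i with (_ | _) | ⟨_ | _, t⟩
    · exact (cz_congr D.two D.α (D.sig_spec hS hy) hs'.map).trans (c6c_two D hQ hR s').symm
    · exact (hco _).symm
    · exact (hco _).symm
    · exact (hco _).symm
  rw [coeff_hf_congr D.u Q (fun g hg => by rw [← D.loc_smul hS hx g, fix x g hg]) hv', ← h, hf,
    MonoidAlgebra.coeff_add, MonoidAlgebra.coeff_add, MonoidAlgebra.coeff_sum,
    Finsupp.add_apply, Finsupp.add_apply, Finsupp.finsetSum_apply, ← c6c_form D hQ hR, ← D.form,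
    ← c6c_real hQ hR D.ρ, add_comm _ (∑ _, _), add_assoc, add_comm (MonoidAlgebra.coeff _ _)]
  refine congrArg₂ _ (Finset.sum_congr rfl fun t _ => ?_)
    (congrArg₂ _ (c6c_rs_star R _ _) ?_)
  · rw [MonoidAlgebra.coeff_add, Finsupp.add_apply]
    refine (congrArg₂ _ (c6c_rs_star R _ _) (c6c_rs_star R _ _)).trans ?_
    rw [← Finset.sum_add_distrib]
    refine Finset.sum_congr rfl fun g _ => ?_
    have hp := (hS.sp _ t.2).smul g
    change _ = tm (und k (g • t.1)) x y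
    rw [← tm_map hp, tm_eq hp]
    simp only [Dat.loc, co, coeff_mk, od, ord_smul', sy_smul]
  · rw [← cz_congr D.two D.α (D.sig_spec hS hx) hs.map]
    rfl

end Tower

theorem Dat.pair_fixed (hS : SPs S) (Q : Subgroup (Ga K)) {x y r r' : Kˣ} (hx : x ∈ D.Z S)
    (hy : y ∈ D.Z S) (h1 : ∀ g ∈ Q, g • x = x) (h2 : ∀ g ∈ Q, g • y = y)
    (h3 : ∀ g ∈ Q, g • r = r) (h4 : ∀ g ∈ Q, g • r' = r')
    (h5 : x * D.σ • x * (D.σ * D.σ) • x = r * r) (h6 : y * D.σ • y * (D.σ * D.σ) • y = r' * r')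
    {v : Ix S → GA (Ga K)} (hv : nq Q • v = D.loc S y) :
    (hf D.u (D.loc S x) v).coeff 1 = 0 := by
  have hl : ∀ z : Kˣ, (∀ g ∈ Q, g • z = z) →
      ∃ z0 : (IntermediateField.fixedField Q)ˣ, um K z0 = z := fun z hz =>
    ⟨Units.mk0 ⟨z, (IntermediateField.mem_fixedField_iff Q _).2 fun g hg =>
      congrArg Units.val (hz g hg)⟩ fun e => z.ne_zero (congrArg Subtype.val e), Units.ext rfl⟩
  obtain ⟨x, rfl⟩ := hl x h1
  obtain ⟨y, rfl⟩ := hl y h2
  obtain ⟨r, rfl⟩ := hl r h3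
  obtain ⟨r', rfl⟩ := hl r' h4
  refine c6c_main D hS (fun g => ?_) hx hy h5 h6 hv
  constructor
  · intro hg a
    exact (IntermediateField.mem_fixedField_iff Q _).1 a.2 g hg
  · intro h
    rw [← IntermediateField.fixingSubgroup_fixedField Q, IntermediateField.mem_fixingSubgroup_iff]
    exact fun a ha => h ⟨a, ha⟩

end Pool.Agent.Lib.MP_775b3b_nt.CM
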