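import Pool.Agent.Lib.MP_775b3b_nt.CM.Fr3

namespace Pool.Agent.Lib.MP_775b3b_nt.CM.Fr

open scoped Classical

variable {Γ : Type} [Group Γ] [Fintype Γ] {W : Type} [AddCommGroup W] [Module (ZMod 2) W]

/-- the permutation matrices of the action on the cosets of a subgroup -/
noncomputable def fr4Perm (C : Subgroup Γ) : Γ →* Matrix (Γ ⧸ C) (Γ ⧸ C) ℤ where
  toFun g := fun x y => if g • y = x then 1 else 0
  map_one' := by
    ext x y
    simp only [one_smul, Matrix.one_apply, eq_comm]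
  map_mul' g h := by
    ext x y
    rw [Matrix.mul_apply, Finset.sum_eq_single (h • y)]
    · simp [mul_smul]
    · intro z _ hz
      simp [hz.symm]
    · intro hz
      exact absurd (Finset.mem_univ _) hz

theorem fr4Perm_apply (C : Subgroup Γ) (g : Γ) (x y : Γ ⧸ C) :
    fr4Perm C g x y = if g • y = x then 1 else 0 := rfl

theorem fr4_top {ρ : Representation (ZMod 2) Γ W} (h : Hig ρ ⊤) :
    ∃ θ : Module.End (ZMod 2) W, ∑ g : Γ, ρ g * θ * ρ g⁻¹ = 1 := by
  obtain ⟨θ, hθ⟩ := h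
  refine ⟨θ, ?_⟩
  rw [← hθ]
  exact (Fintype.sum_equiv (Subgroup.topEquiv (G := Γ)).toEquiv _ _ (fun g => rfl)).symm

theorem fr4_rank [Finite W] (ρ : Representation (ZMod 2) Γ W) (θ : Module.End (ZMod 2) W)
    (hθ : ∑ g : Γ, ρ g * θ * ρ g⁻¹ = 1) (C : Subgroup Γ) :
    Module.finrank (ZMod 2) (LinearMap.range (act (fun g => θ * ρ g) (fr4Perm C))) =
      Module.finrank (ZMod 2) (fx ρ C) := by
  let I : fx ρ C →ₗ[ZMod 2] ((Γ ⧸ C) → W) :=
    LinearMap.pi fun x => (θ * ρ x.out) ∘ₗ (fx ρ C).subtype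
  let J0 : ((Γ ⧸ C) → W) →ₗ[ZMod 2] W :=
    ∑ a : Γ, (ρ a⁻¹) ∘ₗ LinearMap.proj (a : Γ ⧸ C)
  have hJ0 : ∀ f, J0 f = ∑ a : Γ, ρ a⁻¹ (f (a : Γ ⧸ C)) := by
    intro f
    simp [J0, LinearMap.sum_apply]
  have hmem : ∀ f, J0 f ∈ fx ρ C := by
    intro f c hc
    rw [hJ0, map_sum]
    refine Fintype.sum_equiv (Equiv.mulRight c⁻¹) _ _ (fun a => ?_)
    have e : ((a * c⁻¹ : Γ) : Γ ⧸ C) = (a : Γ ⧸ C) :=
      QuotientGroup.mk_mul_of_mem a (C.inv_mem hc)
    simp only [Equiv.coe_mulRight, e, mul_inv_rev, inv_inv, map_mul, Module.End.mul_apply]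
  let J : ((Γ ⧸ C) → W) →ₗ[ZMod 2] fx ρ C := J0.codRestrict _ hmem
  have hI : ∀ (w : fx ρ C) x, I w x = θ (ρ x.out w) := fun w x => rfl
  have hJI : ∀ w, J (I w) = w := by
    intro w
    apply Subtype.ext
    change J0 (I w) = (w : W)
    rw [hJ0]
    have e1 : ∀ a : Γ, ρ a⁻¹ (I w (a : Γ ⧸ C)) = (ρ a⁻¹ * θ * ρ a⁻¹⁻¹) w := by
      intro a
      obtain ⟨c, hc⟩ := QuotientGroup.mk_out_eq_mul C a
      rw [hI, hc, map_mul, Module.End.mul_apply, w.2 c c.2, inv_inv]
      rfl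
    rw [Finset.sum_congr rfl (fun a _ => e1 a), ← LinearMap.sum_apply,
      Fintype.sum_equiv (Equiv.inv Γ) (fun a => ρ a⁻¹ * θ * ρ a⁻¹⁻¹) (fun g => ρ g * θ * ρ g⁻¹)
        (fun a => rfl), hθ]
    rfl
  have hIJ : ∀ f, I (J f) = act (fun g => θ * ρ g) (fr4Perm C) f := by
    intro f
    funext x
    rw [hI, act_apply]
    change θ (ρ x.out (J0 f)) = _
    rw [hJ0, map_sum, map_sum]
    refine Fintype.sum_equiv ((Equiv.inv Γ).trans (Equiv.mulLeft x.out)) _ _ (fun a => ?_)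
    rw [Finset.sum_eq_single (a : Γ ⧸ C)]
    · have e : (x.out * a⁻¹) • (a : Γ ⧸ C) = x := by
        rw [MulAction.Quotient.smul_coe, smul_eq_mul, inv_mul_cancel_right, QuotientGroup.out_eq']
      simp [fr4Perm_apply, e]
    · intro y _ hy
      have e : ¬ (x.out * a⁻¹) • y = x := by
        intro e
        apply hy
        have e2 : (x.out * a⁻¹) • (a : Γ ⧸ C) = x := by
          rw [MulAction.Quotient.smul_coe, smul_eq_mul, inv_mul_cancel_right,
            QuotientGroup.out_eq']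
        exact smul_left_cancel _ (e.trans e2.symm)
      simp [fr4Perm_apply, e]
    · intro hz
      exact absurd (Finset.mem_univ _) hz
  have hr : LinearMap.range (act (fun g => θ * ρ g) (fr4Perm C)) = LinearMap.range I := by
    apply le_antisymm
    · rintro _ ⟨f, rfl⟩
      exact ⟨J f, hIJ f⟩
    · rintro _ ⟨w, rfl⟩
      exact ⟨I w, by rw [← hIJ, hJI]⟩
  rw [hr]
  exact LinearMap.finrank_range_of_inj (Function.LeftInverse.injective hJI)

theorem fr4_coset {A : Type} [AddCommMonoid A] (C : Subgroup Γ) (f : Γ ⧸ C → A) :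
    ∑ y : Γ, f (y : Γ ⧸ C) = Nat.card C • ∑ x, f x := by
  rw [← Finset.sum_fiberwise (s := Finset.univ) (g := fun y : Γ => (y : Γ ⧸ C)), Finset.smul_sum]
  refine Finset.sum_congr rfl (fun x _ => ?_)
  rw [Finset.sum_congr rfl (g := fun _ => f x) (fun y hy => by rw [(Finset.mem_filter.1 hy).2]),
    Finset.sum_const]
  have e := QuotientGroup.card_preimage_mk C ({x} : Set (Γ ⧸ C))
  rw [Nat.card_unique (α := ({x} : Set (Γ ⧸ C))), mul_one] at e
  rw [← e, Nat.card_eq_card_toFinset]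
  refine congrArg (fun n : ℕ => n • f x) (congrArg Finset.card ?_)
  ext y
  simp

theorem fr4_trace (C : Subgroup Γ) (g : Γ) :
    (Nat.card C : ℤ) * (fr4Perm C g).trace = ∑ y : Γ, if y⁻¹ * g * y ∈ C then 1 else 0 := by
  have e := fr4_coset C (fun x : Γ ⧸ C => (if g • x = x then 1 else 0 : ℤ))
  rw [nsmul_eq_mul] at e
  refine e.symm.trans (Finset.sum_congr rfl (fun y _ => ?_))
  have e2 : (g • (y : Γ ⧸ C) = y) ↔ y⁻¹ * g * y ∈ C := by
    rw [MulAction.Quotient.smul_coe, smul_eq_mul, eq_comm, QuotientGroup.eq, mul_assoc]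
  simp only [e2]

theorem fr4_char [Finite W] (ρ : Representation (ZMod 2) Γ W) (h : Hig ρ ⊤) (k : ℕ) :
    ∃ a : Γ → ZMod (2 ^ k), ∀ C : Subgroup Γ,
      (Nat.card C : ZMod (2 ^ k)) * (Module.finrank (ZMod 2) (fx ρ C) : ℕ) =
        ∑ c, if c ∈ C then a c else 0 := by
  obtain ⟨θ, hθ⟩ := fr4_top h
  have hq : ∀ x, ∑ g, (θ * ρ g) * (θ * ρ (g⁻¹ * x)) = θ * ρ x := by
    intro x
    have e : ∀ g : Γ, (θ * ρ g) * (θ * ρ (g⁻¹ * x)) = θ * (ρ g * θ * ρ g⁻¹) * ρ x := by
      intro g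
      rw [map_mul]
      simp only [mul_assoc]
    rw [Finset.sum_congr rfl (fun g _ => e g), ← Finset.sum_mul, ← Finset.mul_sum, hθ, mul_one]
  obtain ⟨t, ht⟩ := tr_lift (fun g => θ * ρ g) hq k
  refine ⟨fun c => ∑ y, t (y * c * y⁻¹), fun C => ?_⟩
  rw [← fr4_rank ρ θ hθ C, ht _ (fr4Perm C), Finset.mul_sum]
  have e : ∀ g : Γ, (Nat.card C : ZMod (2 ^ k)) * (t g * (((fr4Perm C g).trace : ℤ) : ZMod (2 ^ k)))
      = ∑ y : Γ, if y⁻¹ * g * y ∈ C then t g else 0 := by
    intro g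
    have e1 := congrArg (Int.cast : ℤ → ZMod (2 ^ k)) (fr4_trace C g)
    push_cast at e1
    rw [mul_left_comm, e1, Finset.mul_sum]
    refine Finset.sum_congr rfl (fun y _ => ?_)
    split_ifs <;> simp
  rw [Finset.sum_congr rfl (fun g _ => e g), Finset.sum_comm]
  have e3 : ∀ c : Γ, (if c ∈ C then ∑ y, t (y * c * y⁻¹) else 0) =
      ∑ y : Γ, if c ∈ C then t (y * c * y⁻¹) else 0 := by
    intro c
    split_ifs <;> simp
  rw [Finset.sum_congr rfl (fun c _ => e3 c), Finset.sum_comm]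
  rw [Finset.sum_comm]
  conv_rhs => rw [Finset.sum_comm]
  refine Finset.sum_congr rfl (fun y _ => ?_)
  refine Fintype.sum_equiv ((Equiv.mulLeft y⁻¹).trans (Equiv.mulRight y)) _ _ (fun g => ?_)
  simp [mul_assoc]

theorem fr4_cyc {A : Type} [AddCommGroup A] (b : Γ → A)
    (hb : ∀ (x : Γ) (C : Subgroup Γ), Subgroup.zpowers x = C →
      (∑ c, if c ∈ C then b c else 0) = 0) : ∑ c, b c = 0 := by
  have : Fintype (Subgroup Γ) := Fintype.ofFinite _
  have key : ∀ H : Subgroup Γ, ∑ c with Subgroup.zpowers c = H, b c = 0 := by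
    intro H
    induction H using WellFoundedLT.induction with
    | ind H ih =>
      by_cases hH : ∃ x, Subgroup.zpowers x = H
      · obtain ⟨x, hx⟩ := hH
        have e := hb x H hx
        rw [← Finset.sum_fiberwise (s := Finset.univ) (g := fun c : Γ => Subgroup.zpowers c),
          Finset.sum_eq_single H] at e
        · rw [← e]
          refine Finset.sum_congr rfl (fun c hc => ?_)
          rw [if_pos]
          rw [← (Finset.mem_filter.1 hc).2]
          exact Subgroup.mem_zpowers c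
        · intro K _ hK
          by_cases hle : K ≤ H
          · rw [← ih K (lt_of_le_of_ne hle hK)]
            refine Finset.sum_congr rfl (fun c hc => ?_)
            rw [if_pos]
            apply hle
            rw [← (Finset.mem_filter.1 hc).2]
            exact Subgroup.mem_zpowers c
          · refine Finset.sum_eq_zero (fun c hc => ?_)
            rw [if_neg]
            intro hcH
            apply hle
            rw [← (Finset.mem_filter.1 hc).2]
            exact (Subgroup.zpowers_le (H := H)).2 hcH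
        · intro hz
          exact absurd (Finset.mem_univ _) hz
      · refine Finset.sum_eq_zero (fun c hc => ?_)
        exact absurd ⟨c, (Finset.mem_filter.1 hc).2⟩ hH
  rw [← Finset.sum_fiberwise (s := Finset.univ) (g := fun c : Γ => Subgroup.zpowers c)]
  exact Finset.sum_eq_zero (fun H _ => key H)

theorem lemA {W' : Type} [AddCommGroup W'] [Module (ZMod 2) W'] [Finite W] [Finite W']
    (ρ : Representation (ZMod 2) Γ W) (ρ' : Representation (ZMod 2) Γ W')
    (h : Hig ρ ⊤) (h' : Hig ρ' ⊤)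
    (hc : ∀ x, Nat.card (fx ρ (Subgroup.zpowers x)) ^ 2 = Nat.card (fx ρ' (Subgroup.zpowers x))) :
    Nat.card (fx ρ ⊤) ^ 2 = Nat.card (fx ρ' ⊤) := by
  have c1 : ∀ C : Subgroup Γ, Nat.card (fx ρ C) = 2 ^ Module.finrank (ZMod 2) (fx ρ C) := by
    intro C
    rw [Module.natCard_eq_pow_finrank (K := ZMod 2), Nat.card_zmod]
  have c2 : ∀ C : Subgroup Γ, Nat.card (fx ρ' C) = 2 ^ Module.finrank (ZMod 2) (fx ρ' C) := by
    intro C
    rw [Module.natCard_eq_pow_finrank (K := ZMod 2), Nat.card_zmod]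
  have hd : ∀ x, Module.finrank (ZMod 2) (fx ρ (Subgroup.zpowers x)) * 2 =
      Module.finrank (ZMod 2) (fx ρ' (Subgroup.zpowers x)) := by
    intro x
    have e := hc x
    rw [c1, c2, ← pow_mul] at e
    exact Nat.pow_right_injective (le_refl 2) e
  rw [c1, c2, ← pow_mul]
  refine congrArg (fun n : ℕ => 2 ^ n) ?_
  set d := Module.finrank (ZMod 2) (fx ρ ⊤) with hd1
  set d' := Module.finrank (ZMod 2) (fx ρ' ⊤) with hd2
  set n := Nat.card (⊤ : Subgroup Γ) with hn
  have hn0 : 0 < n := Nat.card_pos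
  have main : ∀ k : ℕ, ((n * (d * 2) : ℕ) : ZMod (2 ^ k)) = ((n * d' : ℕ) : ZMod (2 ^ k)) := by
    intro k
    obtain ⟨a, ha⟩ := fr4_char ρ h k
    obtain ⟨a', ha'⟩ := fr4_char ρ' h' k
    have sp : ∀ C : Subgroup Γ, (∑ c, if c ∈ C then a c * 2 - a' c else 0) =
        (∑ c, if c ∈ C then a c else 0) * 2 - ∑ c, if c ∈ C then a' c else 0 := by
      intro C
      rw [Finset.sum_mul, ← Finset.sum_sub_distrib]
      refine Finset.sum_congr rfl (fun c _ => ?_)
      split_ifs <;> simp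
    have z := fr4_cyc (fun c => a c * 2 - a' c) (fun x C hC => by
      have hd' := hd x
      rw [hC] at hd'
      rw [sp, ← ha, ← ha', ← hd']
      push_cast
      ring)
    have z2 := sp ⊤
    rw [← ha, ← ha', ← hn, ← hd1, ← hd2] at z2
    simp only [Subgroup.mem_top, if_true] at z2
    rw [z] at z2
    push_cast
    linear_combination -z2
  have m2 := (ZMod.natCast_eq_natCast_iff _ _ _).1 (main (n * (d * 2) + n * d'))
  have l0 : n * (d * 2) + n * d' < 2 ^ (n * (d * 2) + n * d') := Nat.lt_two_pow_self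
  have m3 := m2.eq_of_lt_of_lt (by omega) (by omega)
  exact Nat.eq_of_mul_eq_mul_left hn0 m3

end Pool.Agent.Lib.MP_775b3b_nt.CM.Fr
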