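import Pool.Agent.Lib.MP_775b3b_nt.CM.Fr3

namespace Pool.Agent.Lib.MP_775b3b_nt.CM.Fr

open scoped Classical

variable {Γ : Type} [Group Γ] [Fintype Γ] {W : Type} [AddCommGroup W] [Module (ZMod 2) W]

theorem fr5_odd {C : Subgroup Γ} (hC : Odd (Nat.card C)) {V : Type} [AddCommGroup V]
    [Module (ZMod 2) V] (w : V) : ∑ _g : C, w = w := by
  rw [Finset.sum_const, Finset.card_univ, ← Nat.card_eq_fintype_card,
    ← Nat.cast_smul_eq_nsmul (ZMod 2), ZMod.natCast_eq_one_iff_odd.2 hC, one_smul]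

theorem fr5_rng (β : Representation (ZMod 2) Γ W) {C : Subgroup Γ} (hC : Odd (Nat.card C)) :
    LinearMap.range (∑ g : C, β g) = fx β C := by
  refine le_antisymm ?_ fun w hw => ⟨w, ?_⟩
  · rintro _ ⟨v, rfl⟩ g hg
    simp only [LinearMap.sum_apply, map_sum, ← Module.End.mul_apply, ← map_mul]
    exact Equiv.sum_comp (Equiv.mulLeft (⟨g, hg⟩ : C)) fun h : C => β h v
  · rw [LinearMap.sum_apply, Finset.sum_congr rfl fun g _ => hw g.1 g.2, fr5_odd hC]

theorem fr5_tr [Finite W] (ρ : Representation (ZMod 2) Γ W) {C : Subgroup Γ}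
    (hC : Odd (Nat.card C)) (k : ℕ) : ∃ t : C → ZMod (2 ^ k),
      ∀ (N : Type) [Fintype N] [DecidableEq N] (τ : Γ →* Matrix N N ℤ),
        ((Module.finrank (ZMod 2) (fx ((mrep τ).linHom ρ) C) : ℕ) : ZMod (2 ^ k)) =
          ∑ g, t g * (((τ (g : Γ)⁻¹).trace : ℤ) : ZMod (2 ^ k)) := by
  obtain ⟨t, ht⟩ := tr_lift (fun g : C => ρ g) (fun x => by
    simp only [← map_mul, Subgroup.coe_mul, Subgroup.coe_inv, mul_inv_cancel_left]
    exact fr5_odd hC _) k
  refine ⟨t, fun N _ _ τ => ?_⟩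
  let σ : C →* Matrix N N ℤ :=
    { toFun := fun g => (τ (g : Γ)⁻¹).transpose
      map_one' := by simp
      map_mul' := fun a b => by simp [Matrix.transpose_mul] }
  let Φ := LinearEquiv.piRing (ZMod 2) W N (ZMod 2)
  have e : act (fun g : C => ρ g) σ =
      (Φ.toLinearMap ∘ₗ ∑ g : C, (mrep τ).linHom ρ g) ∘ₗ Φ.symm.toLinearMap := by
    refine LinearMap.ext fun u => funext fun x => ?_
    simp [act_apply, Φ, σ, LinearMap.sum_apply, mrep_apply, Pi.single_apply]
  have := ht N σ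
  rw [e, LinearEquiv.range_comp, LinearMap.range_comp, LinearEquiv.finrank_map_eq,
    fr5_rng _ hC] at this
  exact this

theorem hom_mrep [Finite W] (ρ : Representation (ZMod 2) Γ W) (C : Subgroup Γ)
    (hC : Odd (Nat.card C)) {N N' : Type} [Fintype N] [DecidableEq N] [Fintype N']
    [DecidableEq N'] (τ : Γ →* Matrix N N ℤ) (τ' : Γ →* Matrix N' N' ℤ)
    (h : ∀ g, (τ g).trace = (τ' g).trace) :
    Nat.card (fx ((mrep τ).linHom ρ) C) = Nat.card (fx ((mrep τ').linHom ρ) C) := by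
  have : Module.Finite (ZMod 2) W := Module.Finite.of_finite
  rw [Module.natCard_eq_pow_finrank (K := ZMod 2), Module.natCard_eq_pow_finrank (K := ZMod 2)
    (V := fx ((mrep τ').linHom ρ) C)]
  have key : ∀ k, ((Module.finrank (ZMod 2) (fx ((mrep τ).linHom ρ) C) : ℕ) : ZMod (2 ^ k)) =
      (Module.finrank (ZMod 2) (fx ((mrep τ').linHom ρ) C) : ℕ) := fun k => by
    obtain ⟨t, ht⟩ := fr5_tr ρ hC k
    simp only [ht, h]
  generalize Module.finrank (ZMod 2) (fx ((mrep τ).linHom ρ) C) = a at *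
  generalize Module.finrank (ZMod 2) (fx ((mrep τ').linHom ρ) C) = b at *
  have h1 := (ZMod.natCast_eq_natCast_iff' _ _ _).1 (key (a + b))
  have h2 := Nat.lt_two_pow_self (n := a + b)
  rw [Nat.mod_eq_of_lt (by omega), Nat.mod_eq_of_lt (by omega)] at h1
  rw [h1]

end Pool.Agent.Lib.MP_775b3b_nt.CM.Fr
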