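import Pool.Agent.Lib.MP_775b3b_nt.CM.Fr0

namespace Pool.Agent.Lib.MP_775b3b_nt.CM.Fr

open scoped Classical

variable {Γ : Type} [Group Γ] [Fintype Γ] {W : Type} [AddCommGroup W] [Module (ZMod 2) W]

theorem fr6_exact (C : Subgroup Γ) (hC : Odd (Nat.card C)) {X Y Z : Type} [AddCommGroup X]
    [Module (ZMod 2) X] [AddCommGroup Y] [Module (ZMod 2) Y] [AddCommGroup Z] [Module (ZMod 2) Z]
    (α : Representation (ZMod 2) Γ X) (β : Representation (ZMod 2) Γ Y)
    (γ : Representation (ZMod 2) Γ Z) (i : X →ₗ[ZMod 2] Y) (p : Y →ₗ[ZMod 2] Z)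
    (hi : ∀ g x, i (α g x) = β g (i x)) (hp : ∀ g y, p (β g y) = γ g (p y))
    (inj : Function.Injective i) (sur : Function.Surjective p) (ex : Function.Exact i p) :
    Nat.card (fx β C) = Nat.card (fx α C) * Nat.card (fx γ C) := by
  let i' : fx α C →ₗ[ZMod 2] fx β C := i.restrict fun x hx g hg => by rw [← hi, hx g hg]
  let p' : fx β C →ₗ[ZMod 2] fx γ C := p.restrict fun y hy g hg => by rw [← hp, hy g hg]
  have h1 : Function.Injective i' := fun x y e => Subtype.ext (inj (congrArg Subtype.val e))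
  have h2 : Function.Surjective p' := fun z => by
    obtain ⟨y, hy⟩ := sur z
    refine ⟨⟨∑ g : C, β g y, fun h hh => ?_⟩, Subtype.ext ?_⟩
    · rw [map_sum]
      exact Fintype.sum_equiv (Equiv.mulLeft (⟨h, hh⟩ : C)) _ _ fun g => by
        rw [← Module.End.mul_apply, ← map_mul]
        rfl
    · change p (∑ g : C, β g y) = z
      rw [map_sum, Finset.sum_congr rfl fun (g : C) _ => (hp g y).trans (hy ▸ z.2 g g.2),
        Finset.sum_const, Finset.card_univ, ← Nat.card_eq_fintype_card,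
        ← Nat.cast_smul_eq_nsmul (ZMod 2), ZMod.natCast_eq_one_iff_odd.2 hC, one_smul, hy]
  have h3 : LinearMap.ker p' = LinearMap.range i' := by
    ext y
    refine ⟨fun h => ?_, fun ⟨x, h⟩ => Subtype.ext ((ex _).2 ⟨x, congrArg Subtype.val h⟩)⟩
    obtain ⟨x, hx⟩ := (ex y).1 (congrArg Subtype.val h)
    exact ⟨⟨x, fun g hg => inj (by rw [hi, hx, y.2 g hg])⟩, Subtype.ext hx⟩
  rw [Submodule.card_eq_card_quotient_mul_card (LinearMap.ker p'),
    Nat.card_congr (p'.quotKerEquivOfSurjective h2).toEquiv, h3,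
    ← Nat.card_congr (LinearEquiv.ofInjective i' h1).toEquiv]

theorem hom_exact [Finite W] (ρ : Representation (ZMod 2) Γ W) (C : Subgroup Γ)
    (hC : Odd (Nat.card C)) {X Y Z : Type} [AddCommGroup X] [Module (ZMod 2) X] [AddCommGroup Y]
    [Module (ZMod 2) Y] [AddCommGroup Z] [Module (ZMod 2) Z] [Finite X] [Finite Y] [Finite Z]
    (α : Representation (ZMod 2) Γ X) (β : Representation (ZMod 2) Γ Y)
    (γ : Representation (ZMod 2) Γ Z) (i : X →ₗ[ZMod 2] Y) (p : Y →ₗ[ZMod 2] Z)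
    (hi : ∀ g x, i (α g x) = β g (i x)) (hp : ∀ g y, p (β g y) = γ g (p y))
    (inj : Function.Injective i) (sur : Function.Surjective p) (ex : Function.Exact i p) :
    Nat.card (fx (β.linHom ρ) C) = Nat.card (fx (α.linHom ρ) C) * Nat.card (fx (γ.linHom ρ) C) := by
  obtain ⟨l, hl⟩ := i.exists_leftInverse_of_injective (LinearMap.ker_eq_bot.2 inj)
  rw [mul_comm]
  refine fr6_exact C hC _ _ _ (LinearMap.lcomp (ZMod 2) W p) (LinearMap.lcomp (ZMod 2) W i)
    (fun g f => LinearMap.ext fun y => ?_) (fun g f => LinearMap.ext fun y => ?_)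
    (LinearMap.lcomp_injective_of_surjective p sur)
    (fun f => ⟨f ∘ₗ l, by rw [LinearMap.lcomp_apply', LinearMap.comp_assoc, hl, f.comp_id]⟩)
    fun f => ⟨fun h => ?_, ?_⟩
  · simp [Representation.linHom_apply, hp]
  · simp [Representation.linHom_apply, hi]
  · obtain ⟨r, hr⟩ := p.exists_rightInverse_of_surjective (LinearMap.range_eq_top.2 sur)
    refine ⟨f ∘ₗ r, LinearMap.ext fun y => ?_⟩
    obtain ⟨x, hx⟩ := (ex (r (p y) - y)).1 (by
      rw [map_sub, ← LinearMap.comp_apply p, hr, LinearMap.id_apply, sub_self])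
    have := LinearMap.congr_fun h x
    rwa [LinearMap.lcomp_apply, hx, map_sub, LinearMap.zero_apply, sub_eq_zero] at this
  · rintro ⟨u, rfl⟩
    exact LinearMap.ext fun x => by simp [ex.apply_apply_eq_zero]

omit [Fintype Γ] in
theorem hom_congr (ρ : Representation (ZMod 2) Γ W) (C : Subgroup Γ)
    {X Y : Type} [AddCommGroup X] [Module (ZMod 2) X] [AddCommGroup Y] [Module (ZMod 2) Y]
    (α : Representation (ZMod 2) Γ X) (β : Representation (ZMod 2) Γ Y) (i : X ≃ₗ[ZMod 2] Y)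
    (hi : ∀ g x, i (α g x) = β g (i x)) :
    Nat.card (fx (α.linHom ρ) C) = Nat.card (fx (β.linHom ρ) C) := by
  have hs : ∀ g y, i.symm (β g y) = α g (i.symm y) := fun g y => by
    rw [i.symm_apply_eq, hi, i.apply_symm_apply]
  refine Nat.card_congr ⟨fun f => ⟨f.1 ∘ₗ i.symm.toLinearMap, fun g hg => LinearMap.ext fun y => ?_⟩,
    fun f => ⟨f.1 ∘ₗ i.toLinearMap, fun g hg => LinearMap.ext fun x => ?_⟩,
    fun f => Subtype.ext (LinearMap.ext fun x => by simp),
    fun f => Subtype.ext (LinearMap.ext fun y => by simp)⟩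
  · simpa [Representation.linHom_apply, hs] using LinearMap.congr_fun (f.2 g hg) (i.symm y)
  · simpa [Representation.linHom_apply, hi] using LinearMap.congr_fun (f.2 g hg) (i x)

theorem hig_linHom (ρ : Representation (ZMod 2) Γ W) (C : Subgroup Γ)
    {X : Type} [AddCommGroup X] [Module (ZMod 2) X] (α : Representation (ZMod 2) Γ X)
    (h : Hig α C) : Hig (α.linHom ρ) C := by
  obtain ⟨θ, hθ⟩ := h
  refine ⟨LinearMap.lcomp (ZMod 2) W θ, LinearMap.ext fun f => LinearMap.ext fun x => ?_⟩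
  simpa [Representation.linHom_apply, LinearMap.sum_apply] using
    congrArg f (LinearMap.congr_fun hθ x)

end Pool.Agent.Lib.MP_775b3b_nt.CM.Fr
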