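import Mathlib

namespace Pool.Agent.Lib.MP_775b3b_nt.CM.Fr

open Finset in
open scoped Classical in
theorem fr7_sum {A P : Type} [Fintype A] [Fintype P] [PartialOrder P] (φ : A → P) (M : P) :
    (univ.filter fun a => φ a ≤ M).card = (univ.filter fun a => φ a = M).card +
      ∑ N ∈ univ.filter (· < M), (univ.filter fun a => φ a = N).card := by
  have e : univ.filter (· ≤ M) = insert M (univ.filter (· < M)) := by
    ext N
    simp [le_iff_eq_or_lt]
  rw [← sum_insert (f := fun N => (univ.filter fun a => φ a = N).card) (by simp), ← e,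
    card_eq_sum_card_fiberwise (f := φ) (t := univ.filter (· ≤ M)) fun a ha => by simpa using ha]
  refine sum_congr rfl fun N hN => congrArg card ?_
  rw [filter_filter]
  exact filter_congr fun a _ => ⟨And.right, fun h => ⟨h ▸ (mem_filter.1 hN).2, h⟩⟩

open Finset in
open scoped Classical in
theorem fr7_inv {A B P : Type} [Fintype A] [Fintype B] [Fintype P] [PartialOrder P] (φ : A → P)
    (ψ : B → P) (h : ∀ M, (univ.filter fun a => φ a ≤ M).card = (univ.filter fun b => ψ b ≤ M).card)
    (M : P) : (univ.filter fun a => φ a = M).card = (univ.filter fun b => ψ b = M).card := by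
  induction M using (wellFounded_lt (α := P)).induction with
  | _ M ih =>
    have := h M
    rw [fr7_sum, fr7_sum, sum_congr rfl fun N hN => ih N (mem_filter.1 hN).2] at this
    exact Nat.add_right_cancel this

theorem lovasz {R H : Type} [Ring R] [AddCommGroup H] [Module R H] [Finite H] (r : ℕ)
    (h : ∀ M : Submodule R H, Nat.card (H →ₗ[R] M) = Nat.card M ^ r) :
    ∃ x : Fin r → H, Submodule.span R (Set.range x) = ⊤ := by
  classical
  have : Finite (H →ₗ[R] H) := Finite.of_injective _ DFunLike.coe_injective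
  have := Fintype.ofFinite (H →ₗ[R] H)
  have := Fintype.ofFinite (Fin r → H)
  have := Fintype.ofFinite (Submodule R H)
  have key := fr7_inv (fun f : H →ₗ[R] H => LinearMap.range f)
    (fun x : Fin r → H => Submodule.span R (Set.range x)) (fun M => ?_) ⊤
  · obtain ⟨x, hx⟩ := Finset.card_pos.1 (key ▸ Finset.card_pos.2
      ⟨LinearMap.id, Finset.mem_filter.2 ⟨Finset.mem_univ _, LinearMap.range_id⟩⟩)
    exact ⟨x, (Finset.mem_filter.1 hx).2⟩
  · have e1 : {f : H →ₗ[R] H // LinearMap.range f ≤ M} ≃ (H →ₗ[R] M) :=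
      ⟨fun f => f.1.codRestrict M fun x => f.2 ⟨x, rfl⟩,
        fun f => ⟨M.subtype ∘ₗ f, by rintro _ ⟨x, rfl⟩; exact (f x).2⟩, fun _ => rfl, fun _ => rfl⟩
    have e2 : {x : Fin r → H // Submodule.span R (Set.range x) ≤ M} ≃ (Fin r → M) :=
      ⟨fun x i => ⟨x.1 i, x.2 (Submodule.subset_span ⟨i, rfl⟩)⟩,
        fun x => ⟨fun i => x i, Submodule.span_le.2 (by rintro _ ⟨i, rfl⟩; exact (x i).2)⟩,
        fun _ => rfl, fun _ => rfl⟩
    rw [← Fintype.card_subtype, ← Fintype.card_subtype, ← Nat.card_eq_fintype_card,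
      ← Nat.card_eq_fintype_card, Nat.card_congr e1, Nat.card_congr e2, h, Nat.card_fun]
    simp

end Pool.Agent.Lib.MP_775b3b_nt.CM.Fr
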