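import Mathlib

namespace Pool.Agent.Lib.MP_775b3b_nt.CM.Fr

variable {Γ : Type} [Group Γ] [Fintype Γ]

theorem trace_inv {N : Type} [Fintype N] [DecidableEq N] (τ : Γ →* Matrix N N ℤ) (g : Γ) :
    (τ g⁻¹).trace = (τ g).trace := by
  let A : Γ →* Matrix N N ℝ := (Int.castRingHom ℝ).mapMatrix.toMonoidHom.comp τ
  have ht : ∀ h, (A h).trace = ((τ h).trace : ℝ) := fun h => by
    simp [A, Matrix.trace]
  obtain ⟨S, hS⟩ : ∃ S, S = ∑ h, (A h).transpose * A h := ⟨_, rfl⟩
  have h1 : S * A g⁻¹ = (A g).transpose * S := by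
    rw [hS, Finset.sum_mul, Finset.mul_sum, ← Equiv.sum_comp (Equiv.mulRight g)]
    refine Finset.sum_congr rfl fun h _ => ?_
    rw [Equiv.coe_mulRight, mul_assoc, ← map_mul, mul_inv_cancel_right, map_mul,
      Matrix.transpose_mul, mul_assoc]
  have h2 : S.det ≠ 0 := fun h0 => by
    obtain ⟨v, hv, e⟩ := Matrix.exists_mulVec_eq_zero_iff.2 h0
    have h3 : ∑ h, (A h).mulVec v ⬝ᵥ (A h).mulVec v = 0 := by
      have := congrArg (v ⬝ᵥ ·) e
      simp only [hS, Matrix.sum_mulVec, dotProduct_sum, dotProduct_zero] at this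
      rw [← this]
      refine Finset.sum_congr rfl fun h _ => ?_
      rw [← Matrix.mulVec_mulVec, Matrix.dotProduct_mulVec v, Matrix.vecMul_transpose]
    have h4 := (Finset.sum_eq_zero_iff_of_nonneg fun h _ =>
      Finset.sum_nonneg fun i _ => mul_self_nonneg _).1 h3 1 (Finset.mem_univ _)
    rw [map_one, Matrix.one_mulVec] at h4
    exact hv (dotProduct_self_eq_zero.1 h4)
  have h5 : A g⁻¹ = S⁻¹ * ((A g).transpose * S) := by
    rw [← h1, Matrix.nonsing_inv_mul_cancel_left _ _ h2.isUnit]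
  apply Int.cast_injective (α := ℝ)
  rw [← ht, ← ht, h5, Matrix.trace_mul_comm, Matrix.mul_nonsing_inv_cancel_right _ _ h2.isUnit,
    Matrix.trace_transpose]

end Pool.Agent.Lib.MP_775b3b_nt.CM.Fr
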