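import Mathlib

/-! Fixed points and Higman elements of representations over the field with two elements. -/

namespace Pool.Agent.Lib.MP_775b3b_nt.CM.Fr

open scoped Classical

variable {Γ : Type} [Group Γ] {W : Type} [AddCommGroup W] [Module (ZMod 2) W]

/-- the fixed points of a subgroup -/
def fx (ρ : Representation (ZMod 2) Γ W) (C : Subgroup Γ) : Submodule (ZMod 2) W where
  carrier := {w | ∀ g ∈ C, ρ g w = w}
  add_mem' ha hb g hg := by rw [map_add, ha g hg, hb g hg]
  zero_mem' g _ := map_zero _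
  smul_mem' c w hw g hg := by rw [map_smul, hw g hg]

theorem mem_fx {ρ : Representation (ZMod 2) Γ W} {C : Subgroup Γ} {w : W} :
    w ∈ fx ρ C ↔ ∀ g ∈ C, ρ g w = w := Iff.rfl

/-- a Higman element for a subgroup -/
def Hig [Fintype Γ] (ρ : Representation (ZMod 2) Γ W) (C : Subgroup Γ) : Prop :=
  ∃ θ : Module.End (ZMod 2) W, ∑ g : C, ρ g * θ * ρ (g : Γ)⁻¹ = 1

/-- the reduction of an integral matrix representation -/
noncomputable def mrep {N : Type} [Fintype N] [DecidableEq N] (τ : Γ →* Matrix N N ℤ) :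
    Representation (ZMod 2) Γ (N → ZMod 2) :=
  ((Matrix.toLinAlgEquiv' (R := ZMod 2) (n := N)).toRingEquiv.toRingHom.toMonoidHom.comp
    (Int.castRingHom (ZMod 2)).mapMatrix.toMonoidHom).comp τ

theorem mrep_apply {N : Type} [Fintype N] [DecidableEq N] (τ : Γ →* Matrix N N ℤ) (g : Γ)
    (v : N → ZMod 2) (x : N) : mrep τ g v x = ∑ y, (τ g x y : ZMod 2) * v y := rfl

/-- the action of a family of endomorphisms twisted by an integral matrix representation -/
noncomputable def act [Fintype Γ] {N : Type} [Fintype N] [DecidableEq N]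
    (q : Γ → Module.End (ZMod 2) W) (τ : Γ →* Matrix N N ℤ) : Module.End (ZMod 2) (N → W) :=
  LinearMap.pi fun x => ∑ g, ∑ y, (τ g x y : ZMod 2) • (q g ∘ₗ LinearMap.proj y)

theorem act_apply [Fintype Γ] {N : Type} [Fintype N] [DecidableEq N]
    (q : Γ → Module.End (ZMod 2) W) (τ : Γ →* Matrix N N ℤ) (f : N → W) (x : N) :
    act q τ f x = ∑ g, ∑ y, (τ g x y : ZMod 2) • q g (f y) := by
  simp [act, LinearMap.sum_apply]

end Pool.Agent.Lib.MP_775b3b_nt.CM.Fr
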