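import Pool.Agent.Lib.MP_775b3b_nt.CM.ADef
import Pool.Agent.Lib.MP_775b3b_nt.CM.Fr0

namespace Pool.Agent.Lib.MP_775b3b_nt.CM.Fr

open scoped Classical

variable {Γ : Type} [Group Γ] [Fintype Γ]

/-- the representation on a module over the group ring -/
noncomputable def rp (Γ X : Type) [Group Γ] [AddCommGroup X] [Module (ZMod 2) X] [Module (GA Γ) X]
    [IsScalarTower (ZMod 2) (GA Γ) X] : Representation (ZMod 2) Γ X :=
  ((Algebra.lsmul (ZMod 2) (ZMod 2) X : GA Γ →ₐ[ZMod 2] Module.End (ZMod 2) X) :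
    GA Γ →* Module.End (ZMod 2) X).comp (MonoidAlgebra.of (ZMod 2) Γ)

omit [Fintype Γ] in
theorem rp_apply {X : Type} [AddCommGroup X] [Module (ZMod 2) X] [Module (GA Γ) X]
    [IsScalarTower (ZMod 2) (GA Γ) X] (g : Γ) (x : X) : rp Γ X g x = gr g • x := rfl

omit [Fintype Γ] in
theorem gr_mul_gr (g h : Γ) : gr g * gr h = gr (g * h) := by
  simp [gr, MonoidAlgebra.single_mul_single]

omit [Fintype Γ] in
theorem gr_one' : gr (1 : Γ) = 1 := rfl

theorem star_gr' (g : Γ) : star (gr g) = gr g⁻¹ := ga_ext fun h => by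
  simp only [coeff_star, gr, MonoidAlgebra.coeff_single, Finsupp.single_apply]
  exact if_congr ⟨fun e => by rw [e, inv_inv], fun e => by rw [← e, inv_inv]⟩ rfl rfl

omit [Fintype Γ] in
theorem coeff_gr_inv_mul (g : Γ) (a : GA Γ) : (gr g⁻¹ * a).coeff 1 = a.coeff g := by
  simp [gr, MonoidAlgebra.coeff_single_mul_apply]

omit [Fintype Γ] in
theorem coeff_mul_gr_inv (g : Γ) (a : GA Γ) : (a * gr g⁻¹).coeff 1 = a.coeff g := by
  simp [gr, MonoidAlgebra.coeff_mul_single_apply]

theorem ga_sum (a : GA Γ) : a = ∑ g, a.coeff g • gr g := ga_ext fun h => by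
  simp [gr]

omit [Fintype Γ] in
theorem ga_two (a : GA Γ) : a + a = 0 := by
  rw [← two_smul (ZMod 2) a]
  exact (congrArg (· • a) (show (2 : ZMod 2) = 0 from rfl)).trans (zero_smul _ _)

section E

variable {σ : Γ} {G : Subgroup Γ}

theorem ee_comm' (hc : Cub σ G) (a : GA Γ) : ee σ * a = a * ee σ := by
  rw [ga_sum a, Finset.mul_sum, Finset.sum_mul]
  refine Finset.sum_congr rfl fun g _ => ?_
  rw [mul_smul_comm, smul_mul_assoc, ee, add_mul, mul_add, gr_mul_gr, gr_mul_gr, gr_mul_gr,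
    gr_mul_gr, hc.cen g, mul_assoc σ σ g, ← hc.cen g, ← mul_assoc σ g σ, ← hc.cen g, mul_assoc]

omit [Fintype Γ] in
theorem ee_idem' (hc : Cub σ G) : ee σ * ee σ = ee σ := by
  have h3 := hc.three
  have e1 : σ * (σ * σ) = 1 := by rw [← mul_assoc, h3]
  have e2 : σ * σ * (σ * σ) = σ := by rw [← mul_assoc, h3, one_mul]
  rw [ee, add_mul, mul_add, mul_add, gr_mul_gr, gr_mul_gr, gr_mul_gr, gr_mul_gr, e1, e2, h3]
  calc gr (σ * σ) + gr 1 + (gr 1 + gr σ) = gr σ + gr (σ * σ) + (gr 1 + gr 1) := by abel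
    _ = _ := by rw [ga_two, add_zero]

theorem star_ee' (hc : Cub σ G) : star (ee σ) = ee σ := by
  have h3 := hc.three
  have e1 : σ⁻¹ = σ * σ := by rw [inv_eq_iff_mul_eq_one, ← mul_assoc, h3]
  have e2 : (σ * σ)⁻¹ = σ := by rw [inv_eq_iff_mul_eq_one, h3]
  rw [ee, star_add, star_gr', star_gr', e1, e2, add_comm]

/-- the part of a free module fixed by the idempotent -/
def EV (hc : Cub σ G) (I : Type) : Submodule (GA Γ) (I → GA Γ) where
  carrier := {v | ee σ • v = v}
  add_mem' ha hb := by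
    simp only [Set.mem_ofPred_eq] at ha hb ⊢
    rw [smul_add, ha, hb]
  zero_mem' := smul_zero _
  smul_mem' c v hv := by
    simp only [Set.mem_ofPred_eq] at hv ⊢
    rw [smul_smul, ee_comm' hc, ← smul_smul, hv]

theorem mem_EV (hc : Cub σ G) {I : Type} {v : I → GA Γ} : v ∈ EV hc I ↔ ee σ • v = v := Iff.rfl

theorem ee_mem_EV (hc : Cub σ G) {I : Type} (v : I → GA Γ) : ee σ • v ∈ EV hc I := by
  rw [mem_EV, smul_smul, ee_idem' hc]

theorem card_EV (hc : Cub σ G) (I : Type) [Fintype I] :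
    Nat.card (EV hc I) = Nat.card {a : GA Γ // ee σ * a = a} ^ Fintype.card I := by
  rw [← Nat.card_eq_fintype_card (α := I), ← Nat.card_fun]
  exact Nat.card_congr ⟨fun v i => ⟨v.1 i, congrFun v.2 i⟩, fun v => ⟨fun i => (v i).1,
    funext fun i => (v i).2⟩, fun _ => rfl, fun _ => rfl⟩

theorem hig_EV (hc : Cub σ G) (I : Type) : Hig (rp Γ (EV hc I)) ⊤ := by
  let θ : Module.End (ZMod 2) (EV hc I) :=
    { toFun := fun v => ⟨ee σ • fun i => (v.1 i).coeff 1 • 1, ee_mem_EV hc _⟩
      map_add' := fun v w => Subtype.ext (funext fun i => by simp [add_smul, mul_add])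
      map_smul' := fun c v => Subtype.ext (funext fun i => by simp [mul_smul]) }
  refine ⟨θ, ?_⟩
  refine (Fintype.sum_equiv Subgroup.topEquiv.toEquiv _
    (fun g : Γ => rp Γ (EV hc I) g * θ * rp Γ (EV hc I) g⁻¹) (fun _ => rfl)).trans ?_
  ext v i : 3
  have e1 : ∀ g : Γ, ((rp Γ (EV hc I) g * θ * rp Γ (EV hc I) g⁻¹) v).1 i =
      ee σ * ((v.1 i).coeff g • gr g) := by
    intro g
    show gr g * (ee σ * ((gr g⁻¹ * v.1 i).coeff 1 • 1)) = _
    rw [coeff_gr_inv_mul, ← mul_assoc, ← ee_comm' hc, mul_assoc, mul_smul_comm, mul_one]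
  rw [LinearMap.sum_apply, Submodule.coe_sum, Finset.sum_apply]
  simp only [e1]
  rw [← Finset.mul_sum, ← ga_sum]
  exact congrFun v.2 i

theorem card_hom_EV (hc : Cub σ G) (I : Type) [Fintype I] (M : Type) [AddCommGroup M]
    [Module (GA Γ) M] (hM : ∀ m : M, ee σ • m = m) :
    Nat.card (EV hc I →ₗ[GA Γ] M) = Nat.card M ^ Fintype.card I := by
  rw [← Nat.card_eq_fintype_card (α := I), ← Nat.card_fun]
  refine Nat.card_congr ⟨fun f i => f ⟨ee σ • Pi.single i 1, ee_mem_EV hc _⟩,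
    fun m => (Fintype.linearCombination (GA Γ) m).comp (EV hc I).subtype, fun f => ?_, fun m => ?_⟩
  · ext v
    simp only [LinearMap.comp_apply, Submodule.subtype_apply, Fintype.linearCombination_apply,
      ← map_smul]
    rw [← map_sum]
    congr 1
    apply Subtype.ext
    rw [Submodule.coe_sum]
    funext j
    rw [Finset.sum_apply, Finset.sum_eq_single j]
    · show v.1 j * (ee σ * Pi.single (M := fun _ => GA Γ) j 1 j) = _
      rw [Pi.single_eq_same, mul_one, ← ee_comm' hc]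
      exact congrFun v.2 j
    · intro i _ hi
      show v.1 i * (ee σ * Pi.single (M := fun _ => GA Γ) i 1 j) = _
      rw [Pi.single_eq_of_ne hi.symm, mul_zero, mul_zero]
    · simp
  · funext i
    simp only [LinearMap.comp_apply, Submodule.subtype_apply, map_smul,
      Fintype.linearCombination_apply_single, one_smul, hM]

end E

theorem card_hom_fx (X M : Type) [AddCommGroup X] [Module (ZMod 2) X] [Module (GA Γ) X]
    [IsScalarTower (ZMod 2) (GA Γ) X] [AddCommGroup M] [Module (ZMod 2) M] [Module (GA Γ) M]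
    [IsScalarTower (ZMod 2) (GA Γ) M] :
    Nat.card (X →ₗ[GA Γ] M) = Nat.card (fx ((rp Γ X).linHom (rp Γ M)) ⊤) := by
  have key : ∀ f : fx ((rp Γ X).linHom (rp Γ M)) ⊤, ∀ (g : Γ) (x : X),
      f.1 (gr g • x) = gr g • f.1 x := by
    intro f g x
    have h := LinearMap.congr_fun (f.2 g (Subgroup.mem_top g)) (gr g • x)
    rw [← h, Representation.linHom_apply]
    show gr g • f.1 (gr g⁻¹ • gr g • x) = _
    rw [smul_smul, gr_mul_gr, inv_mul_cancel, gr_one', one_smul]
  refine Nat.card_congr ⟨fun f => ⟨f.restrictScalars (ZMod 2), fun g _ => ?_⟩,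
    fun f => ⟨f.1.toAddHom, fun a x => ?_⟩, fun _ => rfl, fun _ => rfl⟩
  · ext x
    rw [Representation.linHom_apply]
    show gr g • f (gr g⁻¹ • x) = f x
    rw [← map_smul, smul_smul, gr_mul_gr, mul_inv_cancel, gr_one', one_smul]
  · show f.1 (a • x) = a • f.1 x
    rw [ga_sum a, Finset.sum_smul, Finset.sum_smul, map_sum]
    refine Finset.sum_congr rfl fun g _ => ?_
    rw [smul_assoc, smul_assoc, map_smul, key]

variable {T : Type} [Fintype T]

theorem hf_nondeg {u : GA Γ} (hu : IsUnit u) (x : Ix T → GA Γ)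
    (h : ∀ v, (hf u x v).coeff 1 = 0) : x = 0 := by
  have h' : ∀ v, hf u x v = 0 := fun v => ga_ext fun g => by
    have := h (gr g • v)
    rw [hf_smul_right, star_gr', coeff_mul_gr_inv] at this
    exact this
  funext i
  rcases i with (_ | _) | ⟨_ | _, t⟩
  · have := h' (Pi.single (.inl false) 1)
    simp [hf] at this
    exact (hu.mul_left_eq_zero).1 this
  · have := h' (Pi.single (.inl true) 1)
    simpa [hf] using this
  · have := h' (Pi.single (.inr (true, t)) 1)
    simpa [hf, Pi.single_apply, apply_ite] using this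
  · have := h' (Pi.single (.inr (false, t)) 1)
    simpa [hf, Pi.single_apply, apply_ite] using this

end Pool.Agent.Lib.MP_775b3b_nt.CM.Fr
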