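import Pool.Agent.Lib.MP_775b3b_nt.CM.Fr2
import Pool.Agent.Lib.MP_775b3b_nt.CM.Fr4
import Pool.Agent.Lib.MP_775b3b_nt.CM.Fr5
import Pool.Agent.Lib.MP_775b3b_nt.CM.Fr6
import Pool.Agent.Lib.MP_775b3b_nt.CM.Fr7
import Pool.Agent.Lib.MP_775b3b_nt.CM.Fr8
import Pool.Agent.Lib.MP_775b3b_nt.CM.Fr9

namespace Pool.Agent.Lib.MP_775b3b_nt.CM

open scoped Classical

variable {Γ T : Type} [Group Γ] [Fintype Γ] [Fintype T]

namespace Fr

/-- the contragredient matrix representation -/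
def dualM {N : Type} [Fintype N] [DecidableEq N] (τ : Γ →* Matrix N N ℤ) :
    Γ →* Matrix N N ℤ where
  toFun g := (τ g⁻¹).transpose
  map_one' := by rw [inv_one, map_one, Matrix.transpose_one]
  map_mul' g h := by rw [mul_inv_rev, map_mul, Matrix.transpose_mul]

theorem lattice_data {σ : Γ} {G : Subgroup Γ} (hc : Cub σ G) {u : GA Γ} (hu : SymU G u)
    {H : Submodule (GA Γ) (Ix T → GA Γ)} (hL : Lag u (ee σ) H)
    (U : Type) [AddCommGroup U] [Module.Free ℤ U] [Module.Finite ℤ U]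
    (ρ : Representation ℤ Γ U) (lam : U →+ (Ix T → GA Γ))
    (he : ∀ g a, lam (ρ g a) = gr g • lam a) (hr : ∀ x, x ∈ H ↔ ∃ a, lam a = x)
    (hk : ∀ a, lam a = 0 → ∃ b, a = b + b) :
    ∃ (n : ℕ) (τ : Γ →* Matrix (Fin n) (Fin n) ℤ) (ι : (Fin n → ZMod 2) ≃ₗ[ZMod 2] H)
      (p : EV hc (Ix T) →ₗ[ZMod 2] (Fin n → ZMod 2)),
      (∀ g c, ι (mrep τ g c) = rp Γ H g (ι c)) ∧
      (∀ g v, p (rp Γ (EV hc (Ix T)) g v) = mrep (dualM τ) g (p v)) ∧
      Function.Surjective p ∧ ∀ v, p v = 0 ↔ v.1 ∈ H := by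
  let b := Module.finBasis ℤ U
  let τ : Γ →* Matrix (Fin (Module.finrank ℤ U)) (Fin (Module.finrank ℤ U)) ℤ :=
    ((LinearMap.toMatrixAlgEquiv b).toRingEquiv.toRingHom.toMonoidHom).comp ρ
  have hτ : ∀ g y, ρ g (b y) = ∑ x, τ g x y • b x := by
    intro g y
    conv_lhs => rw [← b.sum_repr (ρ g (b y))]
    refine Finset.sum_congr rfl fun x _ => ?_
    congr 1
    exact (LinearMap.toMatrix_apply b b (ρ g) x y).symm
  have hz : ∀ (n : ℤ) (v : Ix T → GA Γ), n • v = (n : ZMod 2) • v := fun n v =>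
    (Int.cast_smul_eq_zsmul (ZMod 2) n v).symm
  have hl : ∀ c : Fin (Module.finrank ℤ U) → ℤ,
      lam (∑ x, c x • b x) = ∑ x, (c x : ZMod 2) • lam (b x) := by
    intro c
    rw [map_sum]
    exact Finset.sum_congr rfl fun x _ => by rw [map_zsmul, hz]
  let ι0 : (Fin (Module.finrank ℤ U) → ZMod 2) →ₗ[ZMod 2] H :=
    Fintype.linearCombination (ZMod 2) fun x => ⟨lam (b x), (hr _).2 ⟨_, rfl⟩⟩
  have hι : ∀ c, (ι0 c).1 = ∑ x, c x • lam (b x) := by
    intro c
    simp only [ι0, Fintype.linearCombination_apply]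
    rw [Submodule.coe_sum]
    rfl
  have hinj : ∀ c, ι0 c = 0 → c = 0 := by
    intro c h
    choose n hn using fun x => ZMod.intCast_surjective (c x)
    have h1 : lam (∑ x, n x • b x) = 0 := by
      rw [hl]
      simp only [hn]
      rw [← hι, h]
      rfl
    obtain ⟨a, ha⟩ := hk _ h1
    funext x
    have h2 : n x = b.repr a x + b.repr a x := by
      have := congrArg (fun z => b.repr z x) ha
      simpa [Finsupp.single_apply] using this
    rw [← hn, h2]
    push_cast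
    exact CharTwo.add_self_eq_zero _
  have hbij : Function.Bijective ι0 := by
    refine ⟨(injective_iff_map_eq_zero ι0).2 hinj, fun z => ?_⟩
    obtain ⟨a, ha⟩ := (hr _).1 z.2
    refine ⟨fun x => (b.repr a x : ZMod 2), Subtype.ext ?_⟩
    rw [hι, ← hl, b.sum_repr, ha]
  have hsum : ∀ (c : Fin (Module.finrank ℤ U) → ZMod 2) (v : Ix T → GA Γ),
      (hf u (∑ x, c x • lam (b x)) v).coeff 1 = ∑ x, c x * (hf u (lam (b x)) v).coeff 1 := by
    intro c v
    let φ : (Ix T → GA Γ) →ₗ[ZMod 2] ZMod 2 :=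
      { toFun := fun x => (hf u x v).coeff 1
        map_add' := fun x y => by rw [hf_add_left]; rfl
        map_smul' := fun r x => by
          rw [← algebraMap_smul (GA Γ) r x, hf_smul_left, ← Algebra.smul_def]; rfl }
    show φ _ = ∑ x, c x * φ (lam (b x))
    rw [map_sum]
    exact Finset.sum_congr rfl fun x _ => map_smul φ _ _
  let p : EV hc (Ix T) →ₗ[ZMod 2] (Fin (Module.finrank ℤ U) → ZMod 2) :=
    { toFun := fun v x => (hf u (lam (b x)) v.1).coeff 1
      map_add' := fun v w => funext fun x => by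
        show (hf u _ (v.1 + w.1)).coeff 1 = _
        rw [hf_add_right]; rfl
      map_smul' := fun r v => funext fun x => by
        show (hf u _ (r • v.1)).coeff 1 = r * (hf u _ v.1).coeff 1
        rcases (by decide : ∀ r : ZMod 2, r = 0 ∨ r = 1) r with rfl | rfl
        · rw [zero_smul, hf_zero_right, zero_mul]; rfl
        · rw [one_smul, one_mul] }
  have hp : ∀ v x, p v x = (hf u (lam (b x)) v.1).coeff 1 := fun _ _ => rfl
  refine ⟨_, τ, LinearEquiv.ofBijective ι0 hbij, p, fun g c => Subtype.ext ?_,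
    fun g v => funext fun x => ?_, ?_, fun v => ⟨fun h => hL.max _ v.2 fun z hz => ?_,
      fun h => funext fun x => ?_⟩⟩
  · show (ι0 _).1 = gr g • (ι0 c).1
    rw [hι, hι, Finset.smul_sum]
    simp only [mrep_apply, Finset.sum_smul]
    rw [Finset.sum_comm]
    refine Finset.sum_congr rfl fun y _ => ?_
    rw [smul_comm, ← he, hτ, hl, Finset.smul_sum]
    exact Finset.sum_congr rfl fun x _ => by rw [smul_smul, mul_comm]
  · rw [hp, mrep_apply]
    show (hf u _ (gr g • v.1)).coeff 1 = ∑ y, (τ g⁻¹ y x : ZMod 2) * p v y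
    rw [hf_smul_right, star_gr', coeff_mul_gr_inv, ← coeff_gr_inv_mul, ← hf_smul_left, ← he, hτ,
      hl, hsum]
    rfl
  · rw [← LinearMap.range_eq_top]
    by_contra hne
    obtain ⟨f, hf0, hf1⟩ := Submodule.exists_dual_map_eq_bot_of_lt_top
      (lt_top_iff_ne_top.2 hne) inferInstance
    let c : Fin (Module.finrank ℤ U) → ZMod 2 := fun x => f fun j => if x = j then 1 else 0
    have hc0 : c = 0 := by
      refine hinj c (Subtype.ext (hf_nondeg hu.unit _ fun v => ?_))
      have h1 : f (p ⟨ee σ • v, ee_mem_EV hc v⟩) = 0 := by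
        have : f (p ⟨ee σ • v, ee_mem_EV hc v⟩) ∈ (LinearMap.range p).map f :=
          Submodule.mem_map_of_mem (LinearMap.mem_range_self _ _)
        rwa [hf1] at this
      have h2 : hf u (ι0 c).1 v = hf u (ι0 c).1 (ee σ • v) := by
        rw [hf_smul_right, star_ee' hc, ← ee_comm' hc, ← hf_smul_left, hL.part _ (ι0 c).2]
      rw [h2, hι, hsum, ← h1, LinearMap.pi_apply_eq_sum_univ]
      exact Finset.sum_congr rfl fun x _ => mul_comm _ _
    apply hf0
    refine LinearMap.ext fun w => ?_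
    rw [LinearMap.pi_apply_eq_sum_univ]
    refine Finset.sum_eq_zero fun x _ => ?_
    have : c x = 0 := congrFun hc0 x
    show w x * c x = 0
    rw [this, mul_zero]
  · refine ga_ext fun g => ?_
    obtain ⟨c, hc'⟩ := hbij.2 ⟨gr g⁻¹ • z, H.smul_mem _ hz⟩
    have h1 : gr g⁻¹ • z = ∑ x, c x • lam (b x) := by rw [← hι, hc']
    rw [← coeff_gr_inv_mul, ← hf_smul_left, h1, hsum]
    refine Finset.sum_eq_zero fun x _ => ?_
    rw [← hp, h]
    exact mul_zero _
  · rw [hp, hL.iso _ ((hr _).2 ⟨_, rfl⟩) _ h]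
    rfl

end Fr

open Fr

theorem free {σ : Γ} {G : Subgroup Γ} (hc : Cub σ G) {u : GA Γ} (hu : SymU G u)
    {H : Submodule (GA Γ) (Ix T → GA Γ)} (hL : Lag u (ee σ) H) (Q : Subgroup Γ)
    (h2 : IsPGroup 2 Q) (hi : Odd Q.index)
    (hQ : Nat.card {x : Ix T → GA Γ // x ∈ H ∧ ∀ g ∈ Q, gr g • x = x} ^ Nat.card Q ≤ Nat.card H)
    (U : Type) [AddCommGroup U] [Module.Free ℤ U] [Module.Finite ℤ U]
    (ρ : Representation ℤ Γ U) (lam : U →+ (Ix T → GA Γ))
    (he : ∀ g a, lam (ρ g a) = gr g • lam a) (hr : ∀ x, x ∈ H ↔ ∃ a, lam a = x)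
    (hk : ∀ a, lam a = 0 → ∃ b, a = b + b) : Fre (ee σ) (1 + Fintype.card T) H := by
  obtain ⟨n, τ, ι, p, hι, hp, hs, hker⟩ := lattice_data hc hu hL U ρ lam he hr hk
  have hI : Fintype.card (Ix T) = (1 + Fintype.card T) * 2 := by
    simp only [Fintype.card_sum, Fintype.card_prod, Fintype.card_bool]
    ring
  have hH : Hig (rp Γ H) ⊤ := by
    refine hig_top_of_odd _ Q hi (hig_of_card _ Q h2 ?_)
    rw [show Nat.card (fx (rp Γ H) Q) =
      Nat.card {x : Ix T → GA Γ // x ∈ H ∧ ∀ g ∈ Q, gr g • x = x} from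
      Nat.card_congr ⟨fun x => ⟨x.1.1, x.1.2, fun g hg => congrArg Subtype.val (x.2 g hg)⟩,
        fun x => ⟨⟨x.1, x.2.1⟩, fun g hg => Subtype.ext (x.2.2 g hg)⟩, fun _ => rfl, fun _ => rfl⟩]
    exact hQ
  let i : H →ₗ[ZMod 2] EV hc (Ix T) :=
    (Submodule.inclusion (show H ≤ EV hc (Ix T) from hL.part)).restrictScalars (ZMod 2)
  have iinj : Function.Injective i := fun _ _ h => Subtype.ext (congrArg (fun z => z.1) h)
  have ex : Function.Exact i p := fun v => (hker v).trans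
    ⟨fun h => ⟨⟨v.1, h⟩, rfl⟩, fun ⟨z, hz⟩ => hz ▸ z.2⟩
  have hcount : ∀ M : Submodule (GA Γ) H,
      Nat.card (H →ₗ[GA Γ] M) = Nat.card M ^ (1 + Fintype.card T) := by
    intro M
    have fin : ∀ (X : Type) [AddCommGroup X] [Module (ZMod 2) X] [Finite X],
        Finite (X →ₗ[ZMod 2] M) := fun X _ _ _ =>
      Finite.of_injective _ (DFunLike.coe_injective (F := X →ₗ[ZMod 2] M))
    have f1 := fin H
    have f2 := fin (EV hc (Ix T))
    have h1 := hig_linHom (rp Γ M) ⊤ _ hH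
    have h3 := hig_linHom (rp Γ M) ⊤ _ (hig_EV hc (Ix T))
    have key := lemA _ _ h1 h3 fun x => by
      obtain ⟨s, m, hs1, hm, hs2⟩ := cyc_red x
      apply Nat.pow_left_injective hm
      simp only
      rw [← pow_mul, mul_comm, pow_mul, ← hs2 _ _ h1, ← hs2 _ _ h3,
        hom_exact (rp Γ M) _ hs1 (rp Γ H) (rp Γ (EV hc (Ix T))) (mrep (dualM τ)) i p
          (fun _ _ => rfl) hp iinj hs ex,
        hom_mrep (rp Γ M) _ hs1 (dualM τ) τ fun g =>
          (Matrix.trace_transpose _).trans (trace_inv τ g),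
        hom_congr (rp Γ M) _ (mrep τ) (rp Γ H) ι hι, sq]
    rw [← card_hom_fx, ← card_hom_fx, card_hom_EV hc (Ix T) M
      (fun m => Subtype.ext (Subtype.ext (hL.part _ m.1.2))), hI, pow_mul] at key
    exact Nat.pow_left_injective two_ne_zero key
  obtain ⟨x, hx⟩ := lovasz _ hcount
  have hgen : ∀ z : H, ∃ c : Fin (1 + Fintype.card T) → GA Γ, ∑ i, c i • x i = z := fun z =>
    (Submodule.mem_span_range_iff_exists_fun _).1 (hx ▸ Submodule.mem_top)
  have hcard : Nat.card (EV hc (Fin (1 + Fintype.card T))) = Nat.card H := by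
    apply Nat.pow_left_injective two_ne_zero
    simp only
    rw [card_EV, Fintype.card_fin, ← pow_mul, ← hI, ← card_EV hc,
      Submodule.card_eq_card_quotient_mul_card (LinearMap.ker p),
      Nat.card_congr (p.quotKerEquivOfSurjective hs).toEquiv, Nat.card_congr ι.toEquiv,
      ex.linearMap_ker_eq, ← Nat.card_congr (LinearEquiv.ofInjective i iinj).toEquiv, sq]
  let Φ : EV hc (Fin (1 + Fintype.card T)) →ₗ[GA Γ] H :=
    (Fintype.linearCombination (GA Γ) x).comp (EV hc _).subtype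
  have hΦ : Function.Surjective Φ := by
    intro z
    obtain ⟨c, hc'⟩ := hgen z
    refine ⟨⟨ee σ • c, ee_mem_EV hc c⟩, ?_⟩
    show Fintype.linearCombination (GA Γ) x (ee σ • c) = z
    rw [map_smul, Fintype.linearCombination_apply, hc']
    exact Subtype.ext (hL.part _ z.2)
  have hΦi : Function.Injective Φ :=
    ((Nat.bijective_iff_surjective_and_card Φ).2 ⟨hΦ, hcard⟩).1
  refine ⟨fun i => (x i).1, fun i => (x i).2, fun z hz => ?_, fun c h1 h0 => ?_⟩
  · obtain ⟨c, hc'⟩ := hgen ⟨z, hz⟩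
    refine ⟨c, ?_⟩
    have := congrArg Subtype.val hc'
    rw [Submodule.coe_sum] at this
    exact this.symm
  · have : (⟨c, funext h1⟩ : EV hc (Fin (1 + Fintype.card T))) = 0 := by
      apply hΦi
      rw [map_zero]
      apply Subtype.ext
      show (Fintype.linearCombination (GA Γ) x c).1 = 0
      rw [Fintype.linearCombination_apply, Submodule.coe_sum]
      exact h0
    exact congrArg Subtype.val this

end Pool.Agent.Lib.MP_775b3b_nt.CM
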