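import Pool.Agent.Lib.MP_775b3b_nt.CM.C6a
import Pool.Agent.Lib.MP_775b3b_nt.CM.C6c
import Pool.Agent.Lib.MP_775b3b_nt.CM.C5b
import Pool.Agent.Lib.MP_775b3b_nt.CM.Fr

namespace Pool.Agent.Lib.MP_775b3b_nt.CM

open Pool.Agent.Lib.MP_439fea_co NumberField WithZero

variable {K : Type} [Field K] [NumberField K] [IsGalois ℚ K]


variable (D : Dat K) {S : Finset (P K)}

theorem c6d_self {T Γ : Type} [Group Γ] [Fintype Γ] (z : Ix T → GA Γ) : z + z = 0 :=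
  funext fun i => add_self_ga (z i)

theorem c6d_desc (hS : SPs S) (hI : D.Inj S) (Q : Subgroup (Ga K)) {z : Ix S → GA (Ga K)}
    (hz : z ∈ D.HS S) (hf : ∀ g ∈ Q, gr g • z = z) :
    ∃ y r : Kˣ, y ∈ D.Z S ∧ (∀ g ∈ Q, g • y = y) ∧ (∀ g ∈ Q, g • r = r) ∧
      y * D.σ • y * (D.σ * D.σ) • y = r * r ∧ D.loc S y = z := by
  obtain ⟨x, hx, rfl⟩ := (D.mem_HS hS).1 hz
  obtain ⟨y, r, h1, h2, h3, h4⟩ := D.descend Q hx.1 fun g hg =>
    hI _ (mul_mem (D.smul_mem hx g) hx) (by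
      rw [D.loc_mul hS hS (D.smul_mem hx g) hx, D.loc_smul hS hx, hf g hg, c6d_self])
  have hy : y ∈ D.Z S := by
    have := mul_mem (inv_mem hx) (D.sq_mem (S := S) h4)
    rwa [inv_mul_cancel_left] at this
  refine ⟨y, r, hy, h1, h2, h3, ?_⟩
  have e := D.loc_isSquare hS h4
  rw [D.loc_mul hS hS hx hy] at e
  exact add_left_cancel (e.trans (c6d_self _).symm)

theorem c6d_sylow {Γ : Type} [Group Γ] [Fintype Γ] {σ : Γ} {G : Subgroup Γ} (hc : Cub σ G) :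
    ∃ Q : Subgroup Γ, Q ≤ G ∧ IsPGroup 2 Q ∧ Odd Q.index := by
  obtain ⟨P⟩ : Nonempty (Sylow 2 G) := inferInstance
  have hG : G.index = 3 := by
    have e := G.index_mul_card
    rw [hc.card] at e
    exact Nat.eq_of_mul_eq_mul_right Nat.card_pos e
  refine ⟨(P : Subgroup G).map G.subtype, Subgroup.map_subtype_le _, P.isPGroup'.map _, ?_⟩
  rw [Subgroup.index_map_subtype, hG]
  exact (Nat.not_even_iff_odd.1 fun h => P.not_dvd_index h.two_dvd).mul (by decide)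

theorem Dat.card_fixed (hS : SPs S) (hI : D.Inj S) (Q : Subgroup (Ga K)) (hQ : Q ≤ D.G) :
    Nat.card {x : Ix S → GA (Ga K) // x ∈ D.HS S ∧ ∀ g ∈ Q, gr g • x = x} ^ Nat.card Q ≤
      Nat.card (D.HS S) := by
  let X : AddSubgroup (Ix S → GA (Ga K)) :=
    { carrier := {x | x ∈ D.HS S ∧ ∀ g ∈ Q, gr g • x = x}
      add_mem' := fun {a b} ha hb => ⟨add_mem ha.1 hb.1, fun g hg => by
        rw [smul_add, ha.2 g hg, hb.2 g hg]⟩
      zero_mem' := ⟨zero_mem _, fun g _ => smul_zero _⟩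
      neg_mem' := fun {a} ha => ⟨neg_mem ha.1, fun g hg => by rw [smul_neg, ha.2 g hg]⟩ }
  obtain ⟨hL, hc, -⟩ := D.lag hS hI
  have key := card_fixed_le D.cub D.hu Q hQ X (fun x hx => hL.part x hx.1) (fun x hx => hx.2)
    fun x hx v _ hv => by
      obtain ⟨y, r, hy, h1, h2, h3, rfl⟩ := c6d_desc D hS hI Q hx.1 hx.2
      obtain ⟨y', r', hy', h1', h2', h3', e⟩ := c6d_desc D hS hI Q hv.1 hv.2
      exact D.pair_fixed hS Q hy hy' h1 h1' h2 h2' h3 h3' e.symm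
  rw [Fintype.card_coe, ← hc] at key
  exact key

theorem Dat.fre (hS : SPs S) (hI : D.Inj S) :
    Fre (ee D.σ) (1 + Fintype.card S) (D.HS S) := by
  obtain ⟨Q, hQ, h2, hi⟩ := c6d_sylow D.cub
  obtain ⟨hL, -, hr⟩ := D.lag hS hI
  let f : Ga K → D.U1 S →* D.U1 S := fun g =>
    { toFun := fun x => ⟨g • x.1, D.U1_smul x.2 g⟩
      map_one' := Subtype.ext (smul_one g)
      map_mul' := fun x y => Subtype.ext (smul_mul' g x.1 y.1) }
  let ρ : Representation ℤ (Ga K) (Additive (D.U1 S)) :=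
    { toFun := fun g => (MonoidHom.toAdditive (f g)).toIntLinearMap
      map_one' := LinearMap.ext fun x => Subtype.ext (one_smul _ x.toMul.1)
      map_mul' := fun g h => LinearMap.ext fun x => Subtype.ext (mul_smul g h x.toMul.1) }
  let lam : Additive (D.U1 S) →+ (Ix S → GA (Ga K)) := AddMonoidHom.mk'
    (fun x => D.loc S x.toMul.1) fun x y =>
      D.loc_mul hS hS (D.U1_le x.toMul.2) (D.U1_le y.toMul.2)
  refine free D.cub D.hu hL Q h2 hi (D.card_fixed hS hI Q hQ) (Additive (D.U1 S)) ρ lam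
    (fun g a => D.loc_smul hS (D.U1_le a.toMul.2) g) (fun x => ⟨fun hx => ?_, ?_⟩) fun a ha => ?_
  · obtain ⟨y, hy, e⟩ := hr x hx
    exact ⟨Additive.ofMul ⟨y, hy⟩, e⟩
  · rintro ⟨a, rfl⟩
    exact (D.mem_HS hS).2 ⟨_, D.U1_le a.toMul.2, rfl⟩
  · obtain ⟨y, hy, e⟩ := D.U1_sq a.toMul.2 (hI _ (D.U1_le a.toMul.2) ha)
    exact ⟨Additive.ofMul ⟨y, hy⟩, Subtype.ext e⟩

end Pool.Agent.Lib.MP_775b3b_nt.CM
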