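import Pool.Agent.Lib.MP_775b3b_nt.CM.Rec3
import Pool.Agent.Lib.MP_775b3b_nt.YPrime1
import Pool.Agent.Lib.MP_775b3b_nt.ZHasse

namespace Pool.Agent.Lib.MP_775b3b_nt.CM

open Pool.Agent.Lib.MP_439fea_co NumberField WithZero

section Tower

variable {k L : Type} [Field k] [NumberField k] [Field L] [NumberField L] [Algebra k L]

theorem sym_pos (v : P k) : 0 < nm v :=
  Nat.pos_of_ne_zero fun h => v.ne_bot (Ideal.absNorm_eq_zero_iff.1 h)

theorem sym_bound {ι : Type} [Finite ι] (x : ι → kˣ) : ∃ Y : ℕ, ∀ v : P k, Y < nm v →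
    val v (2 : k) = 1 ∧ ∀ i, val v (x i : k) = 1 := by
  obtain ⟨Y, hY⟩ := (((finite_supp (two_ne_zero (α := k))).union
    (Set.finite_iUnion fun i => finite_supp (x i).ne_zero)).image fun v => nm v).bddAbove
  exact ⟨Y, fun v hv => ⟨by_contra fun e => hv.not_ge (hY ⟨v, Or.inl e, rfl⟩), fun i =>
    by_contra fun e => hv.not_ge (hY ⟨v, Or.inr (Set.mem_iUnion.2 ⟨i, e⟩), rfl⟩)⟩⟩

theorem sym_und {w : P L} (hp : (nm w).Prime) : nm (und k w) = nm w := by
  refine ((Nat.dvd_prime hp).1 ?_).resolve_left fun h =>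
    (und k w).isPrime.ne_top (Ideal.absNorm_eq_one_iff.1 h)
  simp only [nm, Ideal.absNorm_apply, Submodule.cardQuot_apply]
  exact AddSubgroup.card_dvd_of_injective (Ideal.quotientMap w.asIdeal (algebraMap (𝓞 k) (𝓞 L))
    le_rfl).toAddMonoidHom Ideal.quotientMap_injective

theorem sym_down {w : P L} (hp : (nm w).Prime) (h2 : val (und k w) (2 : k) = 1) {x : kˣ}
    (h1 : val (und k w) (x : k) = 1)
    (hx : Units.map (algebraMap k L : k →* L) x ∈ Sq (val w)) : x ∈ Sq (val (und k w)) := by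
  obtain ⟨z, o, ho, e⟩ := mem_Sq.1 hx
  have e' : algebraMap k L x = (z : L) ^ 2 * o := by simpa using congrArg Units.val e
  have h3 : val w (z : L) = 1 := by
    have := (val_algebraMap_eq_one_iff w (x : k)).2 h1
    rw [e', map_mul, mem_Un.1 (One_le_Un _ ho), mul_one, map_pow] at this
    exact (pow_eq_one_iff_of_nonneg zero_le two_ne_zero).1 this
  obtain ⟨n, hn⟩ := res1_of_absNorm hp z h3.le
  have h4 : val w (n : L) = 1 := by
    have := (val w).map_sub_eq_of_lt_left (x := (z : L)) (y := z - n) (by rwa [h3])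
    rwa [sub_sub_cancel, h3] at this
  have h5 : val (und k w) ((x : k) - n * n) < 1 := by
    rw [← map_one (val (und k w)), ← val_algebraMap_lt_iff w, map_one, map_one, map_sub, map_mul,
      map_intCast, e', show (z : L) ^ 2 * o - n * n = z ^ 2 * (o - 1) + (z + n) * (z - n) by ring]
    exact Valuation.map_add_lt _ (local_mul_lt _ (by rw [map_pow, h3, one_pow])
      ((mem_One.1 ho).trans_le (val_four_le_one _)))
      (local_mul_lt _ (Valuation.map_add_le _ h3.le h4.le) hn)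
  rw [← map_intCast (algebraMap k L), val_algebraMap_eq_one_iff] at h4
  have h6 : (n : k) ≠ 0 := fun e => by simp [e] at h4
  rw [← Subgroup.mul_mem_cancel_right _ (inv_mem (rec1_sq _ (Units.mk0 _ h6))), ← div_eq_mul_inv]
  refine rec1_One h2 ?_
  rw [Units.val_div_eq_div_val, Units.val_mul, Units.val_mk0, div_sub_one (mul_ne_zero h6 h6),
    map_div₀, map_mul, h4, mul_one, div_one]
  exact h5

theorem sym_base (u : kˣ) (hu : ¬ IsSquare (u : k)) (Y : ℕ) :
    ∃ v : P k, (nm v).Prime ∧ Y < nm v ∧ u ∉ Sq (val v) := by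
  obtain ⟨L, _, _, _, θ, σ, _, hfin, hθ, hσθ, -, -, -⟩ := exists_quadExt (u : k) hu
  have hθ0 : θ ≠ 0 := fun h => by
    rw [h, zero_pow two_ne_zero] at hθ
    exact u.ne_zero ((map_eq_zero _).1 hθ.symm)
  choose f hf hf' using fun v : P k => exists_above (k' := L) v
  by_contra hcon
  refine zeta_key Y f (fun v => σ • f v) fun v hp hY => ?_
  have h1 : f v ≠ σ • f v := fun h1 => by
    obtain ⟨z, o, ho, hb⟩ := mem_Sq.1 (by_contra fun e => hcon ⟨v, hp, hY, e⟩ : u ∈ Sq (val v))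
    refine split_of_sq (val (f v)) (σ : L ≃+* L) ((mem_stabilizer_iff_val σ (f v)).1 h1.symm)
      (Units.mk0 θ hθ0) (Units.map (algebraMap k L : k →* L) z)
      (Units.map (algebraMap k L : k →* L) o) hσθ (σ.commutes _)
      ((map_mem_One_iff (f v) o).2 (by rwa [hf])) (Units.ext ?_)
    simp [hθ, hb]
  have h2 : nm (f v) = nm v := by
    have h3 : ∀ w : P L, und k w = v → w.asIdeal ∣ v.asIdeal.map (algebraMap (𝓞 k) (𝓞 L)) :=
      fun w hw => Ideal.dvd_iff_le.2 (Ideal.map_le_iff_le_comap.2 (by rw [← hw]; exact le_rfl))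
    have h4 := map_dvd Ideal.absNorm (IsCoprime.mul_dvd
      (IsDedekindDomain.HeightOneSpectrum.isCoprime_of_ne _ _ h1) (h3 _ (hf v))
      (h3 _ ((und_smul σ _).trans (hf v))))
    rw [map_mul, absNorm_smul, Ideal.absNorm_algebraMap,
      ← IsFractionRing.finrank_eq (𝓞 k) k (𝓞 L) L, hfin, ← sq] at h4
    refine le_antisymm (Nat.le_of_dvd (sym_pos v) ((Nat.pow_dvd_pow_iff two_ne_zero).1 h4))
      (Nat.le_of_dvd (sym_pos _) (Val_dvd_of_lt _ hp ?_ (intp2_val_absNorm _)))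
    have := (hf' v _).2 (intp2_val_absNorm v)
    rwa [map_natCast] at this
  refine ⟨h2, (absNorm_smul _ _).trans h2, h1, fun v' _ _ h3 => ?_⟩
  rcases h3 with h3 | h3 | h3 <;> simpa only [und_smul, hf] using congrArg (und k) h3

end Tower

theorem sym_ind (n : ℕ) : ∀ (k : Type) [Field k] [NumberField k] (y : Fin n → kˣ) (u : kˣ)
    (H : Subgroup kˣ), Sqs k ≤ H → (∀ i, y i ∈ H) → u ∉ H → ∀ Y : ℕ,
    ∃ v : P k, (nm v).Prime ∧ Y < nm v ∧ u ∉ Sq (val v) ∧ ∀ i, y i ∈ Sq (val v) := by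
  induction n with
  | zero =>
    intro k _ _ y u H h1 _ h3 Y
    obtain ⟨v, h⟩ := sym_base u (fun e => h3 (h1 (mem_Sqs_iff_isSquare.2 e))) Y
    exact ⟨v, h.1, h.2.1, h.2.2, fun i => i.elim0⟩
  | succ n ih =>
    intro k _ _ y u H h1 h2 h3 Y
    by_cases hb : IsSquare (y 0 : k)
    · obtain ⟨v, h⟩ := ih k (fun i => y i.succ) u H h1 (fun i => h2 _) h3 Y
      exact ⟨v, h.1, h.2.1, h.2.2.1,
        Fin.cases (hasse_Sqs_le_Sq v (mem_Sqs_iff_isSquare.2 hb)) h.2.2.2⟩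
    obtain ⟨L, _, _, _, θ, σ, _, -, hθ, hσθ, -, -, hfix⟩ := exists_quadExt (y 0 : k) hb
    obtain ⟨Y₀, hY₀⟩ := sym_bound y
    let ι : kˣ →* Lˣ := Units.map (algebraMap k L : k →* L)
    obtain ⟨w, hp, hY, h4, h5⟩ := ih L (fun i => ι (y i.succ)) (ι u) (H.map ι ⊔ Sqs L) le_sup_right
      (fun i => Subgroup.mem_sup_left (Subgroup.mem_map_of_mem _ (h2 _))) (fun e => by
        obtain ⟨_, ⟨a, ha, rfl⟩, z, hz, e'⟩ := Subgroup.mem_sup.1 e
        rw [← eq_inv_mul_iff_mul_eq, ← map_inv, ← map_mul] at e'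
        obtain ⟨r, hr⟩ := mem_Sqs_iff_isSquare.1 (e' ▸ hz)
        have hr' : algebraMap k L ((a⁻¹ * u : kˣ) : k) = r * r := hr
        have h6 : (σ r) ^ 2 = r ^ 2 := by rw [← map_pow, sq, ← hr', AlgEquiv.commutes]
        refine h3 ((Subgroup.mul_mem_cancel_left _ (inv_mem ha)).1 ?_)
        rcases sq_eq_sq_iff_eq_or_eq_neg.1 h6 with h | h
        · obtain ⟨x, rfl⟩ := hfix r h
          exact h1 (mem_Sqs_iff_isSquare.2 ⟨x, (algebraMap k L).injective (by rw [hr', map_mul])⟩)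
        · obtain ⟨x, hx⟩ := hfix (θ * r) (by rw [map_mul, h, hσθ]; ring)
          refine (Subgroup.mul_mem_cancel_left _ (h2 0)).1 (h1 (mem_Sqs_iff_isSquare.2
            ⟨x, (algebraMap k L).injective ?_⟩))
          rw [Units.val_mul, map_mul, map_mul, hx, hr', ← hθ]
          ring) (max Y Y₀)
    rw [← sym_und (k := k) hp] at hY
    obtain ⟨h6, h7⟩ := hY₀ _ ((le_max_right _ _).trans_lt hY)
    refine ⟨und k w, by rwa [sym_und hp], (le_max_left _ _).trans_lt hY,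
      fun e => h4 (map_mem_Sq w e), fun i => sym_down hp h6 (h7 i) ?_⟩
    refine Fin.cases ?_ h5 i
    exact hasse_Sqs_le_Sq w (mem_Sqs_iff_isSquare.2 ⟨θ, by rw [← sq, hθ]; rfl⟩)

variable {K : Type} [Field K] [NumberField K] [IsGalois ℚ K]

theorem sym_SP {ι : Type} [Finite ι] (y : ι → Kˣ) (u : Kˣ) (H : Subgroup Kˣ) (h1 : Sqs K ≤ H)
    (h2 : ∀ i, y i ∈ H) (h3 : -1 ∈ H) (h4 : u ∉ H) (Y : ℕ) :
    ∃ v : P K, SP v ∧ Y < nm v ∧ u ∉ Sq (val v) ∧ ∀ i, y i ∈ Sq (val v) := by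
  obtain ⟨n, ⟨e⟩⟩ := Finite.exists_equiv_fin (Option ι)
  obtain ⟨α, Y₀, hα, hsep⟩ := exists_separating K
  obtain ⟨N₀, hN, hU⟩ := exists_unr K
  obtain ⟨Y₁, hY₁⟩ := sym_bound y
  obtain ⟨v, hp, hY, h5, h6⟩ := sym_ind n K (fun j => (e.symm j).elim (-1) y) u H h1 (fun j => by
    rcases e.symm j with _ | i
    · exact h3
    · exact h2 i) h4 (max (max Y Y₀) (max N₀ Y₁))
  have h7 := fun o => e.symm_apply_apply o ▸ h6 (e o)
  refine ⟨v, ⟨hp, ?_, ?_, fun g hg => ?_, res1_of_absNorm hp⟩, by omega, h5, fun i => h7 (some i)⟩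
  · have h8 := rec3_nm (hY₁ v (by omega)).1
    rw [(ns_eq_zero (x := -1)).2 (h7 none)] at h8
    exact (ZMod.natCast_eq_natCast_iff' _ 1 4).1 h8
  · exact hU N₀ dvd_rfl v ⟨_, hp⟩ (fun hd => absurd (Nat.le_of_dvd (Nat.pos_of_ne_zero hN) hd)
      (not_le.2 (by change N₀ < nm v; omega))) (intp2_val_absNorm v)
  · exact Subgroup.mem_bot.1 (stabilizer_le hα (hsep _ v hp (by omega) (intp2_val_absNorm v)) ⊥
      (fun z _ hz => res1_of_absNorm hp z hz) hg)

/-- completely split primes with prescribed quadratic symbols; the symbol of `-1` is trivial -/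
theorem exists_sym {ι : Type} [Fintype ι] (x : ι → Kˣ) (c : ι → ZMod 2)
    (h : ∀ (a : ι → ℕ) (j : ℕ), IsSquare ((-1) ^ j * ∏ i, x i ^ a i) →
      ∑ i, (a i : ZMod 2) * c i = 0) (Y : ℕ) :
    ∃ v : P K, SP v ∧ Y < nm v ∧ ∀ i, val v (x i : K) = 1 ∧ ns v (x i) = c i := by
  classical
  obtain ⟨Y₀, hY₀⟩ := sym_bound x
  by_cases hc : ∀ i, c i = 0
  · obtain ⟨p, hp1, hp⟩ := Nat.exists_infinite_primes (Y₀ + 1)
    obtain ⟨w, hw⟩ := exists_over_prime K hp
    have h1 := (hY₀ w (hp1.trans (Nat.le_of_dvd (sym_pos w)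
      (Val_dvd_of_lt w hp hw (intp2_val_absNorm w))))).2
    obtain ⟨π, hπ⟩ := rec1_unif w
    obtain ⟨v, h2, h3, -, h4⟩ := sym_SP x π (zhasse_ev w)
      (fun z hz => even_ord_of_mem_Sq (hasse_Sqs_le_Sq w hz))
      (fun i => (zhasse_ord_zero (h1 i)).symm ▸ Even.zero : ∀ i, Even (ord w (x i : K)))
      ((rec1_neg_one w).symm ▸ Even.zero : Even (ord w ((-1 : Kˣ) : K)))
      (hπ.symm ▸ Int.not_even_one : ¬ Even (ord w (π : K))) (max Y Y₀)
    exact ⟨v, h2, by omega, fun i => ⟨(hY₀ v (by omega)).2 i, by rw [hc, ns_eq_zero.2 (h4 i)]⟩⟩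
  obtain ⟨i₀, hi⟩ := not_forall.1 hc
  have hi' : c i₀ = 1 := (by decide : ∀ z : ZMod 2, ¬ z = 0 → z = 1) _ hi
  have e1 : ∀ i n, ∏ j, x j ^ (Pi.single i n : ι → ℕ) j = x i ^ n := fun i n => by
    rw [Finset.prod_eq_single i (fun j _ hj => by simp [hj]) (by simp), Pi.single_eq_same]
  have e2 : ∀ i n, ∑ j, ((Pi.single i n : ι → ℕ) j : ZMod 2) * c j = n * c i := fun i n => by
    rw [Finset.sum_eq_single i (fun j _ hj => by simp [hj]) (by simp), Pi.single_eq_same]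
  let H : Subgroup Kˣ :=
    { carrier := {z | ∃ (a : ι → ℕ) (j : ℕ), ∑ i, (a i : ZMod 2) * c i = 0 ∧
        IsSquare (z * ((-1) ^ j * ∏ i, x i ^ a i))}
      one_mem' := ⟨0, 0, by simp, by simp⟩
      mul_mem' := by
        rintro z z' ⟨a, j, h1, h2⟩ ⟨a', j', h3, h4⟩
        refine ⟨a + a', j + j', by simp [add_mul, Finset.sum_add_distrib, h1, h3], ?_⟩
        have := h2.mul h4
        rw [mul_mul_mul_comm, mul_mul_mul_comm ((-1) ^ j)] at this
        simpa only [Pi.add_apply, pow_add, Finset.prod_mul_distrib] using this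
      inv_mem' := by
        rintro z ⟨a, j, h1, h2⟩
        have := h2.mul (IsSquare.mul_self z⁻¹)
        rw [mul_right_comm, mul_inv_cancel_left] at this
        exact ⟨a, j, h1, this⟩ }
  obtain ⟨v, h2, h3, h4, h5⟩ := sym_SP (fun i => x i * x i₀ ^ (c i).val) (x i₀) H
    (fun z hz => ⟨0, 0, by simp, by simpa using isSquare_units.2 (mem_Sqs_iff_isSquare.1 hz)⟩)
    (fun i => ⟨Pi.single i 1 + Pi.single i₀ (c i).val, 0, by
      simp only [Pi.add_apply, Nat.cast_add, add_mul, Finset.sum_add_distrib, e2, hi', Nat.cast_one,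
        one_mul, mul_one, ZMod.natCast_zmod_val, CharTwo.add_self_eq_zero], by
      simp only [Pi.add_apply, pow_add, Finset.prod_mul_distrib, e1, pow_one, pow_zero, one_mul,
        IsSquare.mul_self]⟩) ⟨0, 1, by simp, by simp⟩ (by
      rintro ⟨a, j, h1, h2⟩
      have := h (Pi.single i₀ 1 + a) j (by
        simpa only [Pi.add_apply, pow_add, Finset.prod_mul_distrib, e1, pow_one, mul_left_comm]
          using h2)
      simp only [Pi.add_apply, Nat.cast_add, add_mul, Finset.sum_add_distrib, e2, h1, Nat.cast_one,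
        one_mul, add_zero] at this
      exact hi this) (max Y Y₀)
  obtain ⟨h6, h7⟩ := hY₀ v (by omega)
  refine ⟨v, h2, by omega, fun i => ⟨h7 i, ?_⟩⟩
  have h8 := ns_eq_zero.2 (h5 i)
  rw [ns_mul h6 (by simp [ord, h7]) (by simp [ord, h7]), ← zpow_natCast, c1a_ns, ns, ns,
    if_neg h4, mul_one, Int.cast_natCast, ZMod.natCast_zmod_val, add_eq_zero_iff_eq_neg,
    ZMod.neg_eq_self_mod_two] at h8
  exact h8

end Pool.Agent.Lib.MP_775b3b_nt.CM
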