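import Pool.Agent.Lib.MP_775b3b_nt.CM.C2
import Pool.Agent.Lib.MP_775b3b_nt.CM.Sym
import Pool.Agent.Lib.MP_651af7_nt.MWSel

namespace Pool.Agent.Lib.MP_775b3b_nt.CM

open Pool.Agent.Lib.MP_439fea_co NumberField WithZero

variable {K : Type} [Field K] [NumberField K] [IsGalois ℚ K]


omit [IsGalois ℚ K] in
theorem c8_coeff (φ : Kˣ → ZMod 2) (x : Kˣ) (g : Ga K) : (co φ x).coeff g⁻¹ = φ (g • x) := by
  rw [co, coeff_mk, inv_inv]

omit [IsGalois ℚ K] in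
theorem c8_sg (ρ : K →+* ℝ) (g : Ga K) {φ κ₀ κ₁ κ₂ : Kˣ} {j a b c d : ℕ}
    (hφ : co (sg ρ) φ = 0) (h : IsSquare ((-1) ^ j * (φ ^ a * κ₀ ^ b * κ₁ ^ c * κ₂ ^ d))) :
    (j : ZMod 2) + (b * sg ρ (g • κ₀) + c * sg ρ (g • κ₁) + d * sg ρ (g • κ₂)) = 0 := by
  have h1 := co_isSquare (sg_mul ρ) h
  simp only [co_mul (sg_mul ρ), c2_pow (sg_mul ρ), hφ, smul_zero, zero_add] at h1
  have h2 := congrArg (fun z : GA (Ga K) => z.coeff g⁻¹) h1
  have h3 : sg ρ (g • (-1 : Kˣ)) = 1 := by simp [sg]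
  simp only [MonoidAlgebra.coeff_add, MonoidAlgebra.coeff_smul, Finsupp.add_apply,
    Finsupp.smul_apply, c8_coeff, h3, MonoidAlgebra.coeff_zero, Finsupp.zero_apply] at h2
  simpa only [nsmul_eq_mul, mul_one] using h2

theorem c8_key (D : Dat K) {q : P K} {κ : Kˣ} (hκ : κ ∈ D.Z {q})
    (hG : ∀ g ∈ D.G, g • κ = κ) (hk : ∀ γ, (co (sg D.ρ) κ).coeff γ = 0 ↔ γ * D.σ ∈ D.G)
    {φ : Kˣ} (h1 : co (sg D.ρ) φ = 0) (h2 : ¬ IsSquare φ) (Y : ℕ) :
    ∃ v : P K, SP v ∧ Y < nm v ∧ ns v φ = 1 ∧ co (sy v) κ = 0 := by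
  have h3 := D.cub.three
  have one : ∀ a : ZMod 2, a ≠ 0 → a = 1 := by decide
  have t0 : sg D.ρ κ = 1 := one _ fun h => D.cub.nmem (by
    have := (hk 1⁻¹).1 (by rw [c8_coeff, one_smul, h])
    rwa [inv_one, one_mul] at this)
  have t1 : sg D.ρ (D.σ • κ) = 0 := by
    rw [← c8_coeff (sg D.ρ), hk, inv_mul_cancel]
    exact D.G.one_mem
  have t2 : sg D.ρ (D.σ • D.σ • κ) = 1 := one _ fun h => D.cub.nmem (by
    have := (hk (D.σ * D.σ)⁻¹).1 (by rw [c8_coeff, mul_smul, h])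
    rwa [mul_inv_rev, inv_mul_cancel_right, inv_mem_iff] at this)
  have t3 : D.σ • D.σ • D.σ • κ = κ := by rw [← mul_smul, ← mul_smul, h3, one_smul]
  obtain ⟨v, v1, v2, v3⟩ := exists_sym ![φ, κ, D.σ • κ, D.σ • D.σ • κ] ![1, 0, 0, 0]
    (fun a j h => by
      simp only [Fin.prod_univ_four, Fin.sum_univ_four, Matrix.cons_val] at h ⊢
      have e0 := c8_sg D.ρ 1 h1 h
      have e1 := c8_sg D.ρ D.σ h1 h
      have e2 := c8_sg D.ρ (D.σ * D.σ) h1 h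
      simp only [one_smul, mul_smul, t3, t0, t1, t2] at e0 e1 e2
      have e : ∀ j b c d : ZMod 2, j + (b * 1 + c * 0 + d * 1) = 0 →
          j + (b * 0 + c * 1 + d * 1) = 0 → j + (b * 1 + c * 1 + d * 0) = 0 →
          j = 0 ∧ c = b ∧ d = b := by decide
      obtain ⟨f0, f1, f2⟩ := e _ _ _ _ e0 e1 e2
      rw [ZMod.natCast_eq_natCast_iff'] at f1 f2
      rw [ZMod.natCast_eq_zero_iff_even, Nat.even_iff] at f0
      simp only [mul_one, mul_zero, add_zero]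
      rw [ZMod.natCast_eq_zero_iff_even, Nat.even_iff]
      by_contra f3
      let π := QuotientGroup.mk' (Subgroup.square Kˣ)
      have p1 : ∀ x, π x = 1 ↔ IsSquare x := fun x => QuotientGroup.eq_one_iff x
      have p2 : ∀ x (n : ℕ), π x ^ n = π x ^ (n % 2) := fun x n =>
        pow_eq_pow_mod n (by rw [← map_pow, p1]; exact IsSquare.sq x)
      have p3 := (p1 _).2 hκ.1
      have p4 := (p1 _).2 h
      rw [mul_smul] at p3
      simp only [map_mul, map_pow] at p3 p4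
      rw [p2 _ j, p2 _ (a 0), p2 _ (a 1), p2 _ (a 2), p2 _ (a 3), f0, f1, f2,
        show a 0 % 2 = 1 by omega, pow_zero, one_mul, pow_one, mul_assoc, mul_assoc, ← mul_pow,
        ← mul_pow, ← mul_assoc, p3, one_pow, mul_one] at p4
      exact h2 ((p1 _).1 p4)) Y
  refine ⟨v, v1, v2, (v3 0).2, ga_ext fun g => ?_⟩
  have s : ∀ x : Kˣ, val v (x : K) = 1 ∧ ns v x = 0 → sy v x = 0 := fun x h => by
    rw [sy_eq_ns, h.2]
    rw [(sunit_ord_eq_zero_iff v x.ne_zero).2 h.1]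
    exact Even.zero
  change sy v (g⁻¹ • κ) = 0
  rcases D.cub.dec g⁻¹ with h | h | h
  · rw [hG _ h]
    exact s _ (v3 1)
  · have : g⁻¹ • κ = D.σ • D.σ • κ := by
      conv_rhs => rw [← hG _ h, ← mul_smul, ← mul_smul, D.cub.cen g⁻¹, ← mul_assoc, h3, one_mul]
    rw [this]
    exact s _ (v3 3)
  · have : g⁻¹ • κ = D.σ • κ := by
      conv_rhs => rw [← hG _ h, ← mul_smul, ← D.cub.cen, mul_assoc, mul_assoc, ← mul_assoc D.σ,
        h3, mul_one]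
    rw [this]
    exact s _ (v3 2)

theorem c8_ind (D : Dat K) {q : P K} (hq : SP q) {κ : Kˣ} (hκ : κ ∈ D.Z {q})
    (hG : ∀ g ∈ D.G, g • κ = κ) (hk : ∀ γ, (co (sg D.ρ) κ).coeff γ = 0 ↔ γ * D.σ ∈ D.G)
    (T : Finset K) : ∃ S : Finset (P K), q ∈ S ∧ SPs S ∧ (∀ v ∈ S, v ≠ q → co (sy v) κ = 0) ∧
      ∀ t ∈ T, ∀ φ : Kˣ, (∃ z : K, (φ : K) = t * z ^ 2) → co (sg D.ρ) φ = 0 → ¬ IsSquare φ →
        ∃ v ∈ S, ns v φ = 1 := by
  classical
  induction T using Finset.induction_on with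
  | empty => exact ⟨{q}, by simp, ⟨by simpa using hq, by simp⟩, by simp, by simp⟩
  | insert t T _ ih =>
    obtain ⟨S, s1, s2, s3, s4⟩ := ih
    by_cases h : ∃ φ : Kˣ, (∃ z : K, (φ : K) = t * z ^ 2) ∧ co (sg D.ρ) φ = 0 ∧ ¬ IsSquare φ
    · obtain ⟨φ, ⟨z, hz⟩, h1, h2⟩ := h
      obtain ⟨v, v1, v2, v3, v4⟩ := c8_key D hκ hG hk h1 h2 (S.sup nm)
      have hlt : ∀ w ∈ S, nm w < nm v := fun w hw => (Finset.le_sup hw).trans_lt v2
      refine ⟨insert v S, by simp [s1], ⟨?_, ?_⟩, ?_, ?_⟩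
      · exact Finset.forall_mem_insert _ _ _ |>.2 ⟨v1, s2.sp⟩
      · intro a ha b hb e
        rw [Finset.mem_insert] at ha hb
        rcases ha with rfl | ha <;> rcases hb with rfl | hb
        · rfl
        · exact absurd e (hlt b hb).ne'
        · exact absurd e (hlt a ha).ne
        · exact s2.inj a ha b hb e
      · exact Finset.forall_mem_insert _ _ _ |>.2 ⟨fun _ => v4, s3⟩
      · refine Finset.forall_mem_insert _ _ _ |>.2 ⟨?_, fun t ht ψ a b c => ?_⟩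
        · rintro ψ ⟨y, hy⟩ - -
          refine ⟨v, by simp, ?_⟩
          have h0 := φ.ne_zero
          rw [hz] at h0
          rw [← mul_div_cancel φ ψ, ns_mul_of_mem _ (mem_Sq_of_isSquare v
            (isSquare_units.2 ⟨y / z, ?_⟩)), v3]
          rw [Units.val_div_eq_div_val, hy, hz, mul_div_mul_left _ _ (left_ne_zero_of_mul h0),
            ← div_pow, sq]
        · obtain ⟨w, hw, e⟩ := s4 t ht ψ a b c
          exact ⟨w, by simp [hw], e⟩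
    · exact ⟨S, s1, s2, s3, Finset.forall_mem_insert _ _ _ |>.2
        ⟨fun φ a b c => absurd ⟨φ, a, b, c⟩ h, s4⟩⟩

theorem Dat.exists_aux (D : Dat K) {q : P K} (hq : SP q) {κ : Kˣ} (hκ : κ ∈ D.Z {q})
    (hG : ∀ g ∈ D.G, g • κ = κ) (hk : ∀ γ, (co (sg D.ρ) κ).coeff γ = 0 ↔ γ * D.σ ∈ D.G) :
    ∃ S : Finset (P K), q ∈ S ∧ SPs S ∧ D.Inj S ∧ ∀ v ∈ S, v ≠ q → co (sy v) κ = 0 := by
  classical
  obtain ⟨T, hT⟩ := Pool.Agent.MP_651af7_nt.MW.selmer_finite (Set.range fun g : Ga K => g • q)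
    (Set.finite_range _)
  obtain ⟨S, s1, s2, s3, s4⟩ := c8_ind D hq hκ hG hk T
  refine ⟨S, s1, s2, fun x hx h0 => by_contra fun h2 => ?_, s3⟩
  have h1 : ∀ v ∈ S, co (od v) x = 0 := fun v hv => congrFun h0 (.inr (false, ⟨v, hv⟩))
  have h3 : x ∈ D.Z {q} := D.mem_of_od (D.Z_mono Finset.subset_union_right hx) h1
  obtain ⟨t, ht, hz⟩ := hT x x.ne_zero fun w hw => by
    obtain ⟨m, hm⟩ := h3.2 w fun v hv g e => hw ⟨g, by rw [← e, Finset.mem_singleton.1 hv]⟩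
    exact ⟨exp (-m), (val_eq_exp w x.ne_zero).trans (by rw [hm, neg_add, exp_add])⟩
  obtain ⟨v, hv, e⟩ := s4 t ht x hz (congrFun h0 (.inl true)) h2
  have h4 : co (sy v) x = 0 := congrFun h0 (.inr (true, ⟨v, hv⟩))
  have h5 := c8_coeff (sy v) x 1
  have h6 := c8_coeff (od v) x 1
  rw [h1 v hv, one_smul] at h6
  rw [h4, one_smul, sy_eq_ns (od_eq_zero.1 h6.symm), e] at h5
  exact zero_ne_one h5

end Pool.Agent.Lib.MP_775b3b_nt.CM
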