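import Pool.Agent.Lib.MP_775b3b_nt.CM.C7b
import Pool.Agent.Lib.MP_775b3b_nt.CM.C1c

namespace Pool.Agent.Lib.MP_775b3b_nt.CM

open Pool.Agent.Lib.MP_439fea_co NumberField WithZero

variable {K : Type} [Field K] [NumberField K] [IsGalois ℚ K]


variable (D : Dat K) (S : Finset (P K)) (B : Finset Kˣ) (κ : Kˣ)

open Classical in
/-- the prime `p.1` with generator `p.2` has type `y` -/
structure Dat.Ty (y : Ix S → GA (Ga K)) (p : P K × Kˣ) : Prop where
  sp : SP p.1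
  ne : ∀ w ∈ S, nm w ≠ nm p.1
  sq : ∀ w ∈ S, nu K (nm w) ∈ Sq (val p.1)
  sqB : ∀ b ∈ B, ∀ g : Ga K, g • b ∈ Sq (val p.1)
  kap : co (sy p.1) κ = 0
  mem : p.2 ∈ D.Z (insert p.1 S)
  od : co (od p.1) p.2 = ee D.σ
  loc : D.loc S p.2 = y

/-- two primes that are squares modulo each other -/
structure Ind (p q : P K × Kˣ) : Prop where
  ne : nm p.1 ≠ nm q.1
  sq : nu K (nm p.1) ∈ Sq (val q.1)
  sq' : nu K (nm q.1) ∈ Sq (val p.1)

variable {S B κ}

omit [IsGalois ℚ K] in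
open Classical in
theorem c9a_sps (hS : SPs S) {T : Finset (P K)} (h1 : ∀ v ∈ T, SP v ∧ ∀ w ∈ S, nm w ≠ nm v)
    (h2 : ∀ v ∈ T, ∀ w ∈ T, nm v = nm w → v = w) : SPs (S ∪ T) ∧ Disjoint S T := by
  refine ⟨⟨fun v hv => ?_, fun v hv w hw h => ?_⟩,
    Finset.disjoint_left.2 fun v hv hv' => (h1 v hv').2 v hv rfl⟩
  · rcases Finset.mem_union.1 hv with h | h
    exacts [hS.sp v h, (h1 v h).1]
  · rcases Finset.mem_union.1 hv with a | a <;> rcases Finset.mem_union.1 hw with b | b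
    · exact hS.inj v a w b h
    · exact absurd h ((h1 w b).2 v a)
    · exact absurd h.symm ((h1 v a).2 w b)
    · exact h2 v a w b h

theorem c9a_recip (hS : SPs S) {y y' : Ix S → GA (Ga K)} {p q : P K × Kˣ} (hp : D.Ty S B κ y p)
    (hq : D.Ty S B κ y' q) (h : Ind p q ∨ p = q) :
    ee D.σ * co (sy q.1) p.2 + star (ee D.σ * co (sy p.1) q.2) = hf D.u y y' := by
  classical
  rw [← hp.loc, ← hq.loc, star_mul, D.cub.star_ee, ← D.cub.ee_comm, add_comm]
  rcases h with h | rfl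
  · have hne : p.1 ≠ q.1 := fun e => h.ne (by rw [e])
    obtain ⟨a, b⟩ := c9a_sps (T := {p.1, q.1}) hS (fun v hv => by
      rcases Finset.mem_insert.1 hv with rfl | hv
      · exact ⟨hp.sp, hp.ne⟩
      · rw [Finset.mem_singleton.1 hv]
        exact ⟨hq.sp, hq.ne⟩) (fun v hv w hw e => by
      simp only [Finset.mem_insert, Finset.mem_singleton] at hv hw
      rcases hv with rfl | rfl <;> rcases hw with rfl | rfl
      exacts [rfl, absurd e h.ne, absurd e.symm h.ne, rfl])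
    have e1 : co (od p.1) q.2 = 0 := D.co_od hq.mem fun w hw => by
      rcases Finset.mem_insert.1 hw with rfl | hw
      exacts [h.ne.symm, hp.ne w hw]
    have e2 : co (od q.1) p.2 = 0 := D.co_od hp.mem fun w hw => by
      rcases Finset.mem_insert.1 hw with rfl | hw
      exacts [h.ne, hq.ne w hw]
    have m1 : insert p.1 S ⊆ S ∪ {p.1, q.1} :=
      Finset.insert_subset (by simp) Finset.subset_union_left
    have m2 : insert q.1 S ⊆ S ∪ {p.1, q.1} :=
      Finset.insert_subset (by simp) Finset.subset_union_left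
    rw [D.pairT a b (D.Z_mono m1 hp.mem) (D.Z_mono m2 hq.mem),
      Finset.sum_pair hne, e1, e2, hp.od, hq.od, D.cub.star_ee, ← D.cub.ee_comm]
    simp
  · obtain ⟨a, b⟩ := c9a_sps (T := {p.1}) hS (fun v hv => by
      rw [Finset.mem_singleton.1 hv]
      exact ⟨hp.sp, hp.ne⟩) (fun v hv w hw _ => (Finset.mem_singleton.1 hv).trans
        (Finset.mem_singleton.1 hw).symm)
    have m : p.2 ∈ D.Z (S ∪ {p.1}) :=
      D.Z_mono (Finset.insert_subset (by simp) Finset.subset_union_left) hp.mem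
    rw [D.pairT a b m m, Finset.sum_singleton, hp.od, D.cub.star_ee, ← D.cub.ee_comm]

open Classical in
/-- extension of a type to a larger set of primes -/
noncomputable def c9a_ext (S' : Finset (P K)) (y : Ix S → GA (Ga K)) (c : P K → GA (Ga K)) :
    Ix S' → GA (Ga K)
  | .inl b => y (.inl b)
  | .inr (b, w) => if h : w.1 ∈ S then y (.inr (b, ⟨w.1, h⟩)) else if b then c w.1 else 0

omit [IsGalois ℚ K] in
theorem c9a_hf {S' : Finset (P K)} (hS : S ⊆ S') (y : Ix S → GA (Ga K)) (c : P K → GA (Ga K))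
    (h : ∀ w ∈ S', w ∉ S → co (od w) κ = 0) :
    hf D.u (D.loc S' κ) (c9a_ext S' y c) = hf D.u (D.loc S κ) y := by
  unfold hf
  congr 1
  refine (Fintype.sum_of_injective (fun w : S => (⟨w.1, hS w.2⟩ : S'))
    (fun a b e => Subtype.ext (Subtype.mk.inj e)) _ _ (fun w hw => ?_) fun w => ?_).symm
  · have h1 : w.1 ∉ S := fun h2 => hw ⟨⟨w.1, h2⟩, rfl⟩
    simp [Dat.loc, c9a_ext, h1, h w.1 w.2 h1]
  · simp [Dat.loc, c9a_ext]

theorem c9a_ex (hS : SPs S) (hI : D.Inj S) (hB : ∀ b ∈ B, D.σ • b = b) (hκ : κ ∈ D.Z S)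
    {y : Ix S → GA (Ga K)} (hy : ee D.σ • y = y) (hk : hf D.u (D.loc S κ) y = 0)
    {T : Finset (P K)} (h1 : ∀ v ∈ T, SP v ∧ ∀ w ∈ S, nm w ≠ nm v)
    (h2 : ∀ v ∈ T, ∀ w ∈ T, nm v = nm w → v = w) (c : P K → GA (Ga K))
    (hc : ∀ w, ee D.σ * c w = c w) : ∃ q, D.Ty S B κ y q ∧ ∀ w ∈ T, nm w ≠ nm q.1 ∧
      nu K (nm w) ∈ Sq (val q.1) ∧ co (sy w) q.2 = c w := by
  classical
  obtain ⟨a, b⟩ := c9a_sps hS h1 h2
  have hT : ∀ w ∈ T, w ∉ S := fun w hw hw' => Finset.disjoint_left.1 b hw' hw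
  obtain ⟨v, x, p1, p2, p3, p4, p5, p6, p7⟩ := D.exists_prime a
    (hI.mono Finset.subset_union_left) (B ∪ (S ∪ T).image fun w => nu K (nm w))
    (fun z hz => by
      rcases Finset.mem_union.1 hz with hz | hz
      · exact hB z hz
      · obtain ⟨w, -, rfl⟩ := Finset.mem_image.1 hz
        exact smul_nu _ _) (y := c9a_ext (S ∪ T) y c) (funext fun t => by
      rcases t with t | ⟨t, w⟩
      · exact congrFun hy (.inl t)
      · simp only [Pi.smul_apply, c9a_ext, smul_eq_mul]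
        split_ifs with h h'
        exacts [congrFun hy _, hc _, mul_zero _])
  have q1 : ∀ w ∈ S ∪ T, nu K (nm w) ∈ Sq (val v) := fun w hw => by
    simpa using p3 _ (Finset.mem_union_right _ (Finset.mem_image_of_mem _ hw)) 1
  refine ⟨(v, x), ⟨p1, fun w hw => p2 w (Finset.mem_union_left _ hw),
    fun w hw => q1 w (Finset.mem_union_left _ hw),
    fun z hz => p3 z (Finset.mem_union_left _ hz), ?_, ?_, p5, funext fun t => ?_⟩,
    fun w hw => ⟨p2 w (Finset.mem_union_right _ hw), q1 w (Finset.mem_union_right _ hw), ?_⟩⟩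
  · rw [p7 κ (D.Z_mono Finset.subset_union_left hκ), c9a_hf D Finset.subset_union_left y c
      fun w hw hw' => D.co_od hκ (h1 w ((Finset.mem_union.1 hw).resolve_left hw')).2, hk]
  · refine D.mem_of_od (T := T) (by rwa [Finset.insert_union]) fun w hw => ?_
    simpa [Dat.loc, c9a_ext, hT w hw] using
      congrFun p6 (.inr (false, ⟨w, Finset.mem_union_right _ hw⟩))
  · rcases t with (_ | _) | ⟨_ | _, w⟩
    · exact congrFun p6 (.inl false)
    · exact congrFun p6 (.inl true)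
    · simpa [Dat.loc, c9a_ext] using
        congrFun p6 (.inr (false, ⟨w.1, Finset.mem_union_left _ w.2⟩))
    · simpa [Dat.loc, c9a_ext] using
        congrFun p6 (.inr (true, ⟨w.1, Finset.mem_union_left _ w.2⟩))
  · simpa [Dat.loc, c9a_ext, hT w hw] using
      congrFun p6 (.inr (true, ⟨w, Finset.mem_union_right _ hw⟩))

theorem Dat.sup (hS : SPs S) (hI : D.Inj S) (hB : ∀ b ∈ B, D.σ • b = b) (hκ : κ ∈ D.Z S) {n : ℕ}
    {y : Fin n → Ix S → GA (Ga K)} (hy : ∀ i, ee D.σ • y i = y i)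
    (hk : ∀ i, hf D.u (D.loc S κ) (y i) = 0) :
    Sup D.u (ee D.σ) y Ind (fun i p => D.Ty S B κ (y i) p)
      fun p q => ee D.σ * co (sy q.1) p.2 := by
  classical
  have hsym : ∀ p q : P K × Kˣ, Ind p q → Ind q p := fun p q h => ⟨h.ne.symm, h.sq', h.sq⟩
  refine ⟨hsym, fun p h => h.ne rfl, fun i p q _ => by rw [← mul_assoc, D.cub.ee_mul],
    fun i j p q hp hq h => c9a_recip D hS hp hq h, fun l i c hl ht hc => ?_⟩
  have inj : ∀ p ∈ l, ∀ q ∈ l, nm p.1 = nm q.1 → p = q := fun p hp q hq e => by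
    by_contra h
    have : Std.Symm (Ind (K := K)) := ⟨hsym⟩
    exact (hl.forall hp hq h).ne e
  have hT : ∀ w, w ∈ (l.map Prod.fst).toFinset ↔ ∃ p ∈ l, p.1 = w := fun w => by
    rw [List.mem_toFinset, List.mem_map]
  obtain ⟨q, h1, h2⟩ := c9a_ex D hS hI hB hκ (hy i) (hk i) (T := (l.map Prod.fst).toFinset)
    (fun v hv => by
      obtain ⟨p, hp, rfl⟩ := (hT v).1 hv
      obtain ⟨j, hj⟩ := ht p hp
      exact ⟨hj.sp, hj.ne⟩)
    (fun v hv w hw e => by
      obtain ⟨p, hp, rfl⟩ := (hT v).1 hv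
      obtain ⟨q, hq, rfl⟩ := (hT w).1 hw
      rw [inj p hp q hq e])
    (fun w => if h : ∃ p ∈ l, p.1 = w then c h.choose else 0)
    (fun w => by split_ifs; exacts [hc _, mul_zero _])
  refine ⟨q, h1, fun p hp => ?_⟩
  have h : ∃ p' ∈ l, p'.1 = p.1 := ⟨p, hp, rfl⟩
  obtain ⟨a, b, d⟩ := h2 p.1 ((hT _).2 h)
  obtain ⟨j, hj⟩ := ht p hp
  refine ⟨⟨a, b, nu_recip hj.sp h1.sp a b⟩, ?_⟩
  rw [d, dif_pos h, inj _ h.choose_spec.1 p hp (by rw [h.choose_spec.2]), hc]

end Pool.Agent.Lib.MP_775b3b_nt.CM
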