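import Pool.Agent.Lib.MP_775b3b_nt.CM.ADef

/-! Local conditions for a twist with mixed signs. -/

set_option autoImplicit false

namespace Pool.Agent.Lib.MP_775b3b_nt.CM

variable {Γ T : Type} [Group Γ]

/-- the local conditions for a twist with sign pattern `ε` -/
structure Lx (σ : Γ) (G : Subgroup Γ) (q : T) (ε : Γ → ZMod 2) (z : Ix T → GA Γ) : Prop where
  two : Zc G 1 (z (.inl false))
  inf : ∀ g ∈ G, (z (.inl true)).coeff (if ε g = 0 then g else g * σ) = 0
  od : Zc G 1 (z (.inr (false, q)))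
  sy : ∀ g ∈ G, (z (.inr (true, q))).coeff g = (z (.inr (false, q))).coeff (g * σ) * ε g
  aux : ∀ t, t ≠ q → z (.inr (false, t)) = 0

end Pool.Agent.Lib.MP_775b3b_nt.CM
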