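import Pool.Agent.Lib.MP_775b3b_nt.CM.SelX1
import Pool.Agent.Lib.MP_775b3b_nt.CM.XDef

/-! A family of targets that meet all local conditions trivially. -/

set_option autoImplicit false

namespace Pool.Agent.Lib.MP_775b3b_nt.CM

open Matrix

theorem sum_zt {R T : Type} [Ring R] [DecidableEq T] [Fintype T] (e w ζ : R) (m : Option T → R) :
    (∑ i, m i • zt e w ζ i) (.inl false) = m none * (w * w * ζ) ∧
    (∑ i, m i • zt e w ζ i) (.inl true) = m none * (w * w) ∧
    (∀ t, (∑ i, m i • zt e w ζ i) (.inr (false, t)) = 0) ∧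
    ∀ t, (∑ i, m i • zt e w ζ i) (.inr (true, t)) = m (some t) * e := by
  simp [Fintype.sum_option, zt]

variable {Γ : Type} [Group Γ] [Fintype Γ] {σ : Γ} {G : Subgroup Γ}

theorem Cub.kap_eq (h : Cub σ G) {T : Type} [DecidableEq T] {q : T} {k : Ix T → GA Γ}
    (hk : Kap σ G q k) {ζ : GA Γ} (z1 : ee σ * ζ = ζ) (z4 : selNG G * ζ = selNG G * ee σ) :
    k = selNG G • yt (ee σ) (gr σ * (gr σ * ee σ)) ζ q (some q) := by
  classical
  have c1 : ∀ x y, x * (gr σ * y) = gr σ * (x * y) := fun x y => by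
    rw [← mul_assoc, ← h.gr_cm, mul_assoc]
  have b0 : ∀ a b : ZMod 2, (a = 0 ↔ b = 0) → a = b := by decide
  have n1 : ∀ γ, γ ∈ G → γ * σ ∉ G := fun γ a b => h.nmem ((G.mul_mem_cancel_left a).1 b)
  have n2 : ∀ γ, γ ∈ G → γ * σ * σ ∉ G := fun γ a b => h.nmem (G.inv_mem_iff.1 (by
    rwa [mul_assoc, G.mul_mem_cancel_left a, ← h.inv_eq'] at b))
  have e0 : ∀ γ, (selNG G * ee σ).coeff γ = 0 ↔ γ ∈ G := fun γ => by
    have : (selNG G * ee σ).coeff γ =
        (if γ * σ * σ ∈ G then 1 else 0) + if γ * σ ∈ G then 1 else 0 := by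
      rw [ee, mul_assoc γ, ← h.inv_eq']
      simp [mul_add, selNG]
    rw [this]
    rcases h.dec γ with e | e | e
    · simp [e, n1 γ e, n2 γ e]
    · simp [e, n1 _ e, mt (n1 γ) (not_not.2 e)]
    · simp [e, mt (n1 _) (not_not.2 e), mt (n2 γ) (not_not.2 e)]
  have e1 : ∀ γ, (selNG G * (gr σ * (gr σ * ee σ))).coeff γ = 0 ↔ γ * σ ∈ G := fun γ => by
    rw [c1, c1 (selNG G), ← mul_assoc, ← sel_gr_mul, ← h.inv_eq', sel_coeff_gr_mul, inv_inv, e0,
      h.cen]
  funext j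
  rcases j with (_ | _) | ⟨_ | _, t⟩
  · refine ga_ext fun γ => b0 _ _ ?_
    rw [hk.two, ← e1]
    simp only [Pi.smul_apply, yt, if_true, smul_eq_mul, mul_assoc, z1, c1 (selNG G), z4]
  · exact ga_ext fun γ => b0 _ _ (by rw [hk.two, ← e1]; simp [yt])
  · rcases eq_or_ne t q with rfl | ne
    · exact ga_ext fun γ => b0 _ _ (by rw [hk.bin, ← e0]; simp [yt])
    · simp [yt, ne, hk.od t ne]
  · simp [yt, hk.sy]

theorem Cub.lx_zero (h : Cub σ G) {ζ : GA Γ}
    (z5 : ∀ b, ee σ * b = b → Zc G 1 (gr σ * b * ζ) → Zc G 1 b → b = 0) {a b : GA Γ}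
    (ha : ee σ * a = a) (hb : ee σ * b = b) {g : Γ} (hg : g ∈ G) (ε : Γ → ZMod 2)
    (l1 : Zc G 1 ((b + gr σ * (gr σ * a)) * gr g * ζ))
    (l2 : ∀ g ∈ G, (gr σ * (gr σ * (b + a))).coeff (if ε g = 0 then g else g * σ) = 0)
    (l3 : Zc G 1 a) (l4 : ∀ g ∈ G, (gr σ * (gr σ * b)).coeff g = a.coeff (g * σ) * ε g) :
    a = 0 ∧ b = 0 := by
  have c1 : ∀ x y, x * (gr σ * y) = gr σ * (x * y) := fun x y => by
    rw [← mul_assoc, ← h.gr_cm, mul_assoc]
  have c2 : ∀ y, gr σ * (gr σ * (gr σ * y)) = y := fun y => by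
    rw [← mul_assoc, ← mul_assoc, h.gr_three', one_mul]
  have c3 : ∀ (x : GA Γ) γ, (gr σ * (gr σ * x)).coeff γ = x.coeff (γ * σ) := fun x γ => by
    rw [← mul_assoc, ← sel_gr_mul, ← h.inv_eq', sel_coeff_gr_mul, inv_inv, h.cen]
  have ee2 : ∀ x, ee σ * x = x → ee σ * (gr σ * x) = gr σ * x := fun x hx => by rw [c1, hx]
  have c4 : ∀ g ∈ G, a.coeff (g * σ * σ) = a.coeff (g * σ) := fun g hg => by
    have := congrArg (·.coeff g) ha
    simp only [ee, add_mul, MonoidAlgebra.coeff_add, Finsupp.add_apply, sel_coeff_gr_mul] at this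
    rw [← h.inv_eq', inv_inv, h.inv_eq', ← h.cen g, mul_assoc σ, ← h.cen g, ← h.cen,
      show a.coeff g = 0 from mul_one g ▸ l3 g hg] at this
    exact (eq_neg_of_add_eq_zero_left this).trans (CharTwo.neg_eq _)
  simp only [c3, MonoidAlgebra.coeff_add, Finsupp.add_apply] at l2 l4
  have b0 : ∀ e x y : ZMod 2, (e = 0 → y + x = 0) → y = x * e → y + x = 0 := by decide
  have k1 : Zc G 1 (gr σ * (gr σ * (b + gr σ * (gr σ * a)))) := fun g hg => by
    rw [c3, mul_one, MonoidAlgebra.coeff_add, Finsupp.add_apply, c3, c4 g hg]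
    exact b0 _ _ _ (fun e => by simpa [e] using l2 g hg) (l4 g hg)
  have k2 := z5 (gr σ * (gr σ * (b + gr σ * (gr σ * a))) * gr g)
    (by rw [← mul_assoc, ee2 _ (ee2 _ (by rw [mul_add, hb, ee2 _ (ee2 _ ha)]))])
    (by rwa [← mul_assoc (gr σ), c2]) (k1.mul fun γ hγ => Finsupp.single_eq_of_ne fun e => hγ (e ▸ hg))
  have k3 : b = gr σ * (gr σ * a) := by
    have := congrArg (fun x => gr σ * (x * gr g⁻¹)) k2
    simp only [mul_assoc _ (gr g), ← sel_gr_mul, mul_inv_cancel, zero_mul, mul_zero] at this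
    rw [show (gr 1 : GA Γ) = 1 from rfl, mul_one, c2] at this
    exact (eq_neg_of_add_eq_zero_left this).trans (neg_eq_iff_add_eq_zero.2 (sel_two _))
  have k4 : a = 0 := h.sel_zero ha l3 fun g hg => by
    have e1 := l2 g hg
    have e2 := l4 g hg
    by_cases e : ε g = 0
    · rwa [k3, c3, c4 g hg, e, mul_zero] at e2
    · rw [if_neg e, k3, c3, c4 g hg, mul_assoc, mul_assoc, ← mul_assoc σ, h.three] at e1
      rwa [l3 g hg, zero_add] at e1
  exact ⟨k4, by rw [k3, k4, mul_zero, mul_zero]⟩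

theorem Cub.target2 (h : Cub σ G) {T : Type} [Fintype T] [DecidableEq T] {u : GA Γ} (hu : SymU G u)
    (q : T) {k : Ix T → GA Γ} (hk : Kap σ G q k) : ∃ y z : Option T → Ix T → GA Γ,
      Dub u (ee σ) y z ∧ k = selNG G • y (some q) ∧ ∀ g ∈ G, IsNilpotent (1 + gr g) →
        ∃ B : Matrix (Option T) (Option T) (GA Γ), star B = B ∧ ee σ • B = B ∧
          B (some q) (some q) + (1 + gr g) * ee σ ∈ I2 G ∧ (∀ i, selNG G * B i (some q) = 0) ∧
          ∀ m : Option T → GA Γ, ee σ • m = m → ∀ ε,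
            Lx σ G q ε (∑ i, m i • y i + ∑ i, (m ᵥ* B) i • z i) → m = 0 := by
  obtain ⟨ζ, z1, z2, z3, z4, z5⟩ := h.exists_zeta hu
  have c1 : ∀ x y, x * (gr σ * y) = gr σ * (x * y) := fun x y => by
    rw [← mul_assoc, ← h.gr_cm, mul_assoc]
  have c2 : ∀ y, gr σ * (gr σ * (gr σ * y)) = y := fun y => by
    rw [← mul_assoc, ← mul_assoc, h.gr_three', one_mul]
  have hke := h.kap_eq hk z1 z4
  obtain ⟨w, hw⟩ : ∃ w, w = gr σ * (gr σ * ee σ) := ⟨_, rfl⟩
  rw [← hw] at hke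
  have w0 : ∀ x, ee σ * x = x → x * w = gr σ * (gr σ * x) := fun x hx => by
    rw [hw, c1, c1 x, ← h.ee_cm, hx]
  have ew : ee σ * w = w := by rw [hw, c1, c1 (ee σ), h.ee_mul_ee']
  have w1 : w * w = gr σ * ee σ := by rw [w0 w ew, hw, c2]
  have wc : ∀ x, w * x = x * w := fun x => hw ▸ (Commute.mul_left (h.gr_cm x)
    (Commute.mul_left (h.gr_cm x) (h.ee_cm x))).eq
  have w2 : ee σ = w + w * w := by
    rw [w1, hw, ← mul_assoc, ← add_mul, add_comm, ← sel_ee_eq, h.ee_mul_ee']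
  have w3 : w * w * w = ee σ := by rw [w1, mul_assoc, w0 _ h.ee_mul_ee', c2]
  have ws : star w = w * w := by
    rw [w1, hw, ← mul_assoc, ← sel_gr_mul, star_mul, h.star_ee', sel_star_gr, ← h.inv_eq', inv_inv,
      h.ee_cm]
  refine ⟨_, _, hyp_yt sel_two q wc w2 w3 ws z1 z2 z3, hke, fun g hg hn => ?_⟩
  obtain ⟨ν, hν⟩ : ∃ ν, ν = 1 + gr g := ⟨_, rfl⟩
  have nN : selNG G * ν = 0 := hν ▸ an_one_add hg
  rw [← hν] at hn ⊢
  obtain ⟨ρ, hρ⟩ := (Commute.isNilpotent_mul_right (wc ν).symm hn).isUnit_one_add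
  obtain ⟨t, ht⟩ : ∃ t, t = ee σ * ν * ↑ρ⁻¹ := ⟨_, rfl⟩
  have t1 : t * (1 + ν * w) = ee σ * ν := by rw [ht, ← hρ, ρ.inv_mul_cancel_right]
  have t2 : ee σ * t = t := by rw [ht, ← mul_assoc, ← mul_assoc, h.ee_mul_ee']
  have wl : ∀ x y, x * (w * y) = w * (x * y) := fun x y => by rw [← mul_assoc, ← wc, mul_assoc]
  have el : ∀ x y, x * (ee σ * y) = ee σ * (x * y) := fun x y => by
    rw [← mul_assoc, ← h.ee_cm, mul_assoc]
  have t3 : star t = t := by
    have e1 : star ν * ν = ν + star ν := by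
      rw [hν, star_add, star_one, sel_star_gr, add_mul, mul_add, mul_add, ← sel_gr_mul, inv_mul_cancel]
      rw [show (gr 1 : GA Γ) = 1 from rfl, one_mul, one_mul, mul_one, add_comm (gr g⁻¹)]
    refine ρ.isUnit.star.mul_left_cancel (ρ.isUnit.mul_right_cancel ?_)
    rw [← star_mul, mul_assoc, hρ, t1, star_mul, star_add, star_one, star_mul, ws, h.star_ee',
      ← h.ee_cm, mul_assoc, mul_add, mul_one, ← mul_assoc _ ν, e1, add_mul 1, one_mul,
      mul_assoc (w * w), el (star ν), e1, ← mul_assoc (w * w), mul_assoc w w, wc (ee σ), ew, ← wc,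
      mul_add (ee σ), ← mul_assoc (ee σ) w, ew]
    linear_combination (norm := noncomm_ring) w2 * (ν + star ν) - sel_two (ee σ * ν) +
      sel_two (w * (ν + star ν))
  have nc : ν * t = t * ν := by
    have e1 : Commute ν ρ := hρ ▸ (Commute.one_right _).add_right
      ((Commute.refl ν).mul_right (wc ν).symm)
    exact ht ▸ (Commute.mul_right (Commute.mul_right (h.ee_cm ν).symm (Commute.refl ν))
      e1.units_inv_right).eq
  let a : Option T → GA Γ := fun i => i.elim (w * w) fun s => if s = q then ee σ else 0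
  refine ⟨of fun i j => a i * t * star (a j), Matrix.ext fun i j => by
    simp only [star_apply, of_apply, star_mul, star_star, t3, mul_assoc],
    Matrix.ext fun i j => by
      simp only [Matrix.smul_apply, of_apply, smul_eq_mul]
      rw [← mul_assoc, ← mul_assoc, h.ee_cm, mul_assoc _ (ee σ), t2], ?_, fun i => ?_,
    fun m hm ε ⟨l1, l2, l3, l4, l5⟩ => ?_⟩
  · simp only [of_apply, a, Option.elim, if_true, h.star_ee', t2]
    rw [← h.ee_cm, ← h.ee_cm, t2, ← t1, mul_add, mul_one, ← add_assoc, sel_two, zero_add,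
      ← mul_assoc, ← nc, ht, mul_assoc]
    exact mul_mem_I2 nN (by
      rw [← mul_assoc, ← mul_assoc, el, nN, mul_zero, zero_mul, zero_mul])
  · rw [of_apply, ← mul_assoc, ← mul_assoc, h.selNG_cm, mul_assoc _ _ t, ht, mul_assoc (ee σ), el,
      ← mul_assoc _ ν, nN]
    simp
  obtain ⟨s1, s2, s3, s4⟩ := sum_yt (ee σ) w ζ q m
  have m0 : ∀ i, ee σ * m i = m i := congrFun hm
  obtain ⟨γ, hγ⟩ : ∃ γ, γ = m none + m (some q) * w := ⟨_, rfl⟩
  have g0 : ee σ * γ = γ := by rw [hγ, mul_add, ← mul_assoc, m0, m0]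
  have hv : m ᵥ* (of fun i j => a i * t * star (a j)) = fun j => w * (w * (γ * t)) * star (a j) := by
    funext j
    have : ∑ i, m i * a i = w * (w * γ) := by
      simp only [Fintype.sum_option, a, Option.elim, mul_ite, mul_zero, Finset.sum_ite_eq',
        Finset.mem_univ, if_true]
      rw [hγ, mul_add, mul_add, wl (m none), ← wc (m none), ← wc (m (some q)), ← mul_assoc w w (w * _),
        ← mul_assoc (w * w), w3, h.ee_cm]
    simp only [vecMul, dotProduct, of_apply, ← mul_assoc, ← Finset.sum_mul, this]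
  obtain ⟨r1, r2, r3, r4⟩ := sum_zt (ee σ) w ζ (m ᵥ* (of fun i j => a i * t * star (a j)))
  simp only [Pi.add_apply, s1, s2, s3, s4, r1, r2, r3, r4, add_zero, ← h.ee_cm, m0] at l1 l2 l3 l4 l5
  obtain ⟨d, hd⟩ : ∃ d, d = γ * t := ⟨_, rfl⟩
  have d0 : ee σ * d = d := by rw [hd, ← mul_assoc, g0]
  have w4 : ∀ x, ee σ * x = x → w * (w * (w * x)) = x := fun x hx => by
    rw [← mul_assoc, ← mul_assoc, w3, hx]
  have ed : ∀ x, ee σ * x = x → ee σ * (w * x) = w * x := fun x hx => by rw [wl, hx]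
  have a0 : w * (w * d) * star (a none) * (w * w) = w * (w * d) := by
    rw [show star (a none) = w by
      rw [show a none = w * w from rfl, ← ws, star_star], mul_assoc, ← mul_assoc w w w, w3,
      ← h.ee_cm, ed _ (ed _ d0)]
  have a1 : ee σ * (w * (w * d) * star (a (some q))) = w * (w * d) := by
    rw [show a (some q) = ee σ from if_pos rfl, h.star_ee', ← h.ee_cm, ed _ (ed _ d0), ed _ (ed _ d0)]
  simp only [hv, ← hd, ← mul_assoc _ (w * w), a0, a1] at l1 l2 l4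
  have e5 : (γ + w * d) * gr g = γ + w * (w * d) := by
    have e6 : (γ + w * d) * (1 + ν * w) = γ := by
      rw [add_mul, mul_assoc w, hd, mul_assoc γ, t1, ← mul_assoc γ, ← h.ee_cm, g0, mul_add, mul_one,
        wc, mul_assoc γ, add_assoc, sel_two, add_zero]
    have e7 : Commute (1 + ν * w) (gr g) := (Commute.one_left _).add_left
      (Commute.mul_left (hν ▸ (Commute.one_left _).add_left (Commute.refl _)) (wc _))
    refine ρ.isUnit.mul_right_cancel ?_
    rw [hρ, mul_assoc, ← e7.eq, ← mul_assoc, e6, add_mul, mul_assoc w, mul_assoc w, hd, mul_assoc γ,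
      t1, ← mul_assoc γ, ← h.ee_cm, g0, mul_add, mul_one, ← mul_assoc γ, ← wc, ← mul_assoc w w,
      add_assoc, ← add_mul, ← w2, ← mul_assoc, g0, hν, mul_add, mul_one, ← add_assoc, sel_two,
      zero_add]
  obtain ⟨k1, k2⟩ := h.lx_zero z5 (a := m (some q)) (b := m none + w * d) (m0 _)
    (by rw [mul_add, m0, ed _ d0]) hg ε
    (by rwa [← w0 _ (m0 _), add_right_comm, ← hγ, e5, add_mul, hγ])
    (by rwa [← w0 _ (by rw [mul_add, mul_add, m0, m0, ed _ d0]), add_right_comm, add_mul, ← wc (w * d)])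
    l3 (by rwa [← w0 _ (by rw [mul_add, m0, ed _ d0]), add_mul, ← wc (w * d)])
  rw [k1, zero_mul, add_zero] at hγ
  have k3 : γ = 0 := by
    have := congrArg (· * (1 + ν * w)) (hγ ▸ k2 : γ + w * d = 0)
    simp only [zero_mul] at this
    rwa [add_mul, mul_assoc w, hd, mul_assoc γ, t1, ← mul_assoc γ, ← h.ee_cm, g0, mul_add, mul_one,
      wc, mul_assoc γ, add_assoc, sel_two, add_zero] at this
  funext i
  rcases i with _ | s
  · exact hγ.symm.trans k3
  · rcases eq_or_ne s q with rfl | ne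
    exacts [k1, l5 s ne]

end Pool.Agent.Lib.MP_775b3b_nt.CM
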