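import Pool.Agent.Lib.MP_775b3b_nt.CM.SelX2
import Pool.Agent.Lib.MP_775b3b_nt.CM.SelX3

/-! Selection of primes that kill the classes for all sign patterns. -/

set_option autoImplicit false

namespace Pool.Agent.Lib.MP_775b3b_nt.CM

open Matrix

variable {Γ : Type} [Group Γ] [Fintype Γ] {σ : Γ} {G : Subgroup Γ}

theorem Cub.factor (h : Cub σ G) {ι : Type} [Fintype ι] [DecidableEq ι] (q : ι)
    {C : Matrix ι ι (GA Γ)} (c1 : star C = C) (c2 : ee σ • C = C) (c3 : C q q ∈ I2 G)
    (c4 : ∀ i, selNG G * C i q = 0) : ∃ A : (ι ⊕ An G) ⊕ (ι ⊕ An G) → ι → GA Γ,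
      (∀ b j, ee σ * A b j = A b j) ∧ (∀ b, selNG G * A b q = 0) ∧
      ∀ i j, ∑ b, star (A b i) * A b.swap j = C i j := by
  obtain ⟨w, hw⟩ : ∃ w, w = gr σ * ee σ := ⟨_, rfl⟩
  have wc : ∀ x, w * x = x * w := fun x => hw ▸ (Commute.mul_left (h.gr_cm x) (h.ee_cm x)).eq
  have w1 : w + star w = ee σ := by
    rw [hw, star_mul, h.star_ee', sel_star_gr, h.inv_eq', h.ee_cm, ← add_mul]
    exact h.ee_mul_ee'
  have c5 : ∀ i j, ee σ * C i j = C i j := fun i j => congrFun (congrFun c2 i) j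
  have c6 : ∀ i j, star (C i j) = C j i := fun i j => congrFun (congrFun c1 j) i
  have c7 : ∀ i j, C i j * w + star (C j i * w) = C i j := fun i j => by
    rw [star_mul, c6, ← wc, ← add_mul, w1, c5]
  obtain ⟨f, f1, f2⟩ := I2_mul c3 w
  let A1 : ι ⊕ An G → ι → GA Γ := Sum.elim (fun i j => if i = j ∧ j ≠ q then ee σ else 0)
    fun x j => if j = q then ee σ * star x.1 else 0
  let A2 : ι ⊕ An G → ι → GA Γ := Sum.elim (fun i j => if j = q then C i j else C i j * w)
    fun x j => if j = q then ee σ * f x else 0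
  have el : ∀ x, selNG G * x = 0 → selNG G * (ee σ * x) = 0 := fun x hx => by
    rw [h.ee_cm, ← mul_assoc, hx, zero_mul]
  have d : ∀ i j, ∑ b, star (A1 b i) * A2 b j =
      if i = q then (if j = q then C i j * w else 0) else if j = q then C i j else C i j * w :=
    fun i j => by
      rw [Fintype.sum_sum_type]
      by_cases hi : i = q
      · subst hi
        by_cases hj : j = i
        · subst hj
          simp only [A1, A2, Sum.elim_inl, Sum.elim_inr, ne_eq, not_true, and_false, if_false,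
            if_true, star_zero, zero_mul, Finset.sum_const_zero, zero_add, star_mul, star_star,
            h.star_ee']
          rw [← c5, mul_assoc, f2, Finset.mul_sum]
          refine Finset.sum_congr rfl fun x _ => ?_
          rw [mul_assoc, ← mul_assoc (ee σ), h.ee_mul_ee', ← mul_assoc, ← h.ee_cm, mul_assoc]
        · simp [A1, A2, hj]
      · simp only [A1, A2, Sum.elim_inl, Sum.elim_inr, ne_eq, hi, not_false_eq_true, and_true,
          if_false, star_zero, zero_mul, Finset.sum_const_zero, add_zero]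
        rw [Finset.sum_eq_single i (fun b _ ne => by rw [if_neg ne, star_zero, zero_mul]) (by simp),
          if_pos rfl, h.star_ee']
        split_ifs
        exacts [c5 _ _, by rw [← mul_assoc, c5]]
  refine ⟨Sum.elim A1 A2, ?_, ?_, fun i j => ?_⟩
  · rintro ((i | x) | (i | x)) j <;> simp only [A1, A2, Sum.elim_inl, Sum.elim_inr] <;> split_ifs <;>
      simp only [mul_zero, ← mul_assoc, h.ee_mul_ee', c5]
  · rintro ((i | x) | (i | x)) <;>
      simp only [A1, A2, Sum.elim_inl, Sum.elim_inr, ne_eq, not_true, and_false, if_false, if_true,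
        mul_zero]
    exacts [el _ (h.an_star x.2), c4 i, el _ (f1 x)]
  · rw [Fintype.sum_sum_type]
    simp only [Sum.elim_inl, Sum.elim_inr, Sum.swap_inl, Sum.swap_inr]
    rw [show ∑ b, star (A2 b i) * A1 b j = star (∑ b, star (A1 b j) * A2 b i) by
      simp only [star_sum, star_mul, star_star], d, d]
    by_cases hi : i = q <;> by_cases hj : j = q <;> simp only [hi, hj, if_true, if_false, c7]
    · rw [zero_add, c6]
    · rw [star_zero, add_zero]

variable {T : Type} [Fintype T]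

theorem Cub.realize2 (hc : Cub σ G) {u : GA Γ} (hu : star u = u) {ι L : Type} [Fintype ι]
    [Nonempty ι] [Fintype L] {y z : ι → Ix T → GA Γ} (hy : Dub u (ee σ) y z) {s : L → L}
    (hs : Function.Involutive s) (A : L → ι → GA Γ) (a1 : ∀ b j, ee σ * A b j = A b j)
    (M : Matrix ι ι (GA Γ)) (m1 : star M = M) (m2 : ee σ • M = M) :
    ∃ (n : ℕ) (Y : Fin n → Ix T → GA Γ), (∀ i, ee σ • Y i = Y i) ∧
      (∀ i, (∃ j, Y i = y j) ∨ ∃ b, Y i = ∑ j, A b j • z j) ∧
      ∀ {Pr : Type} (Ind : Pr → Pr → Prop) (Ty : Fin n → Pr → Prop) (N : Pr → Pr → GA Γ),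
        Sup u (ee σ) Y Ind Ty N → ∃ (m : ℕ) (p : Fin m → Pr) (t : Fin m → Fin n),
          (∀ a b, a ≠ b → Ind (p a) (p b)) ∧ (∀ a, Ty (t a) (p a)) ∧
          ∀ (x : Ix T → GA Γ) (c : Fin m → GA Γ), (∀ a, ee σ * c a = c a) →
            (∀ b, hf u x (Y (t b)) = ∑ a, c a * N (p a) (p b)) →
            ∃ (m0 : ι → GA Γ) (μ : L → GA Γ), ee σ • m0 = m0 ∧
              (fun j => hf u x (y j)) = m0 ᵥ* M ∧
              (∀ b, hf u x (∑ j, A b j • z j) = ∑ i, m0 i * star (A b i) + μ (s b)) ∧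
              ∑ a, c a • Y (t a) = ∑ i, m0 i • y i + ∑ b, μ b • ∑ j, A b j • z j ∧
              (m0 = 0 → μ = 0 → c = 0) := by
  classical
  let Y : ι ⊕ L → Ix T → GA Γ := Sum.elim y fun b => ∑ j, A b j • z j
  let W : Matrix (ι ⊕ L) (ι ⊕ L) (GA Γ) := fromBlocks M (of fun i b => star (A b i)) 0
    (of fun a b => if a = s b then ee σ else 0)
  let g := (Fintype.equivFin (ι ⊕ L)).symm
  have yp : ∀ i b, hf u (∑ j, A b j • z j) (y i) = A b i := fun i b => by
    rw [hf_sum_left, Finset.sum_eq_single i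
      (fun j _ ne => by rw [hy.zy' _ _ ne, mul_zero]) (by simp), hy.zy, ← hc.ee_cm, a1]
  have pz : ∀ i b, hf u (z i) (∑ j, A b j • z j) = 0 := fun i b => by
    rw [← hf_star hu, hf_sum_left, Finset.sum_eq_zero fun j _ => by rw [hy.zz, mul_zero],
      star_zero]
  have w1 : ∀ i j, W i j + star (W j i) = hf u (Y i) (Y j) := by
    rintro (i | a) (j | b)
    · exact ((congrArg _ (congrFun (congrFun m1 i) j)).trans (sel_two _)).trans (hy.yy _ _).symm
    · simp only [W, Y, fromBlocks_apply₁₂, fromBlocks_apply₂₁, of_apply, Matrix.zero_apply,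
        star_zero, add_zero, Sum.elim_inl, Sum.elim_inr]
      rw [← hf_star hu, yp]
    · simp only [W, Y, fromBlocks_apply₁₂, fromBlocks_apply₂₁, of_apply, Matrix.zero_apply,
        star_star, zero_add, Sum.elim_inl, Sum.elim_inr, yp]
    · simp only [W, Y, fromBlocks_apply₂₂, of_apply, Sum.elim_inr, hf_sum_left, pz, mul_zero,
        Finset.sum_const_zero]
      by_cases e : a = s b
      · rw [if_pos e, if_pos (by rw [e, hs]), hc.star_ee', sel_two]
      · rw [if_neg e, if_neg fun e' => e (by rw [e', hs]), star_zero, add_zero]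
  have w2 : ∀ i j, ee σ * W i j = W i j := by
    rintro (i | a) (j | b)
    · exact congrFun (congrFun m2 i) j
    · exact (by rw [← hc.star_ee', ← star_mul, ← hc.ee_cm, a1] :
        ee σ * star (A b i) = star (A b i))
    · exact mul_zero _
    · simp only [W, fromBlocks_apply₂₂, of_apply, mul_ite, mul_zero, hc.ee_mul_ee']
  refine ⟨_, Y ∘ g, fun i => ?_, fun i => ?_, fun Ind Ty N hS => ?_⟩
  · rw [Function.comp_apply]
    rcases g i with j | b
    · exact hy.py j
    · simp only [Y, Sum.elim_inr, Finset.smul_sum, ← mul_smul, a1]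
  · rw [Function.comp_apply]
    rcases g i with j | b
    exacts [.inl ⟨j, rfl⟩, .inr ⟨b, rfl⟩]
  obtain ⟨m, p, t, p1, p2, p3⟩ := hc.realize Fintype.card_pos (Y ∘ g) (W.submatrix g g)
    (Matrix.ext fun i j => w1 _ _) (Matrix.ext fun i j => w2 _ _) hS
  refine ⟨m, p, t, p1, p2, fun x c c1 c2 => ?_⟩
  obtain ⟨v, v1, v2, v3, v4⟩ := p3 x c c1 c2
  have v5 : ∀ j, hf u x (Y j) = ∑ i, v (g.symm (.inl i)) * W (.inl i) j +
      ∑ a, v (g.symm (.inr a)) * W (.inr a) j := fun j => by
    have := congrFun v2 (g.symm j)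
    simp only [vecMul, dotProduct, submatrix_apply, Function.comp_apply, Equiv.apply_symm_apply]
      at this
    rw [this, ← g.symm.sum_comp, Fintype.sum_sum_type]
    simp only [Equiv.apply_symm_apply]
  refine ⟨fun i => v (g.symm (.inl i)), fun a => v (g.symm (.inr a)),
    funext fun i => congrFun v1 _, funext fun j => ?_, fun b => ?_, ?_, fun e1 e2 => v4 ?_⟩
  · exact (v5 (.inl j)).trans (by simp [W, vecMul, dotProduct])
  · refine (v5 (.inr b)).trans ?_
    simp only [W, fromBlocks_apply₁₂, fromBlocks_apply₂₂, of_apply, mul_ite, mul_zero,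
      Finset.sum_ite_eq', Finset.mem_univ, if_true, ← hc.ee_cm]
    exact congrArg _ (congrFun v1 _)
  · rw [v3, ← g.symm.sum_comp, Fintype.sum_sum_type]
    simp only [Function.comp_apply, Equiv.apply_symm_apply, Y, Sum.elim_inl, Sum.elim_inr]
  · funext i
    obtain ⟨j | b, rfl⟩ := g.symm.surjective i
    exacts [congrFun e1 j, congrFun e2 b]

theorem select2 (hc : Cub σ G) {u : GA Γ} (hu : SymU G u) (q : T)
    {k : Ix T → GA Γ} (hk : Kap σ G q k) {H : Submodule (GA Γ) (Ix T → GA Γ)}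
    (hL : Lag u (ee σ) H) (hF : Fre (ee σ) (1 + Fintype.card T) H) :
    ∃ (n : ℕ) (y : Fin n → Ix T → GA Γ), (∀ i, ee σ • y i = y i) ∧ (∀ i, hf u k (y i) = 0) ∧
      ∀ {Pr : Type} (Ind : Pr → Pr → Prop) (Ty : Fin n → Pr → Prop) (N : Pr → Pr → GA Γ),
        Sup u (ee σ) y Ind Ty N → ∃ (m : ℕ) (p : Fin m → Pr) (t : Fin m → Fin n),
          (∀ a b, a ≠ b → Ind (p a) (p b)) ∧ (∀ a, Ty (t a) (p a)) ∧
          ∀ x ∈ H, ∀ c : Fin m → GA Γ, (∀ a, ee σ * c a = c a) →
            (∀ b, hf u x (y (t b)) = ∑ a, c a * N (p a) (p b)) →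
            ∀ ε, Lx σ G q ε (x + ∑ a, c a • y (t a)) → x = 0 ∧ c = 0 := by
  classical
  obtain ⟨y, z, hy, hk0, ht⟩ := hc.target2 hu q hk
  obtain ⟨M, B, m1, m2, b1, b2, b3, m3⟩ := hc.move2' hu.sym hy hL
    (by rwa [Fintype.card_option, add_comm])
  have b4 : ∀ i j, B i j * ee σ = B i j := fun i j =>
    (hc.ee_cm _).symm.trans (congrFun (congrFun b2 i) j)
  obtain ⟨g, hg, g1, g2⟩ := hc.herm_form (b4 _ _) (b3 (some q) (some q)) (congrFun (congrFun b1 _) _)
  obtain ⟨B0, d1, d2, d3, d4, d5⟩ := ht g hg g1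
  obtain ⟨A, a1, a2, a3⟩ := hc.factor (some q) (C := B + B0) (by rw [star_add, b1, d1])
    (by rw [smul_add, b2, d2])
    (by
      have := add_mem g2 d3
      rwa [add_add_add_comm, sel_two, add_zero] at this)
    fun i => by
      obtain ⟨g, hg, k, hk, e⟩ := hc.an_of_nil (b4 i (some q)) (b3 _ _)
      have := I2_an e
      rw [mul_add, mul_add, ← mul_assoc _ (1 + _), ← mul_assoc _ (1 + _), an_one_add hg,
        an_one_add hk, zero_mul, zero_mul, add_zero, add_zero] at this
      rw [Matrix.add_apply, mul_add, this, d4, add_zero]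
  obtain ⟨n, Y, y1, y2, y3⟩ := hc.realize2 hu.sym hy Sum.swap_swap A a1 M m1 m2
  have zy : ∀ i j, hf u (y i) (z j) = if j = i then ee σ else 0 := fun i j => by
    rw [← hf_star hu.sym]
    split_ifs with e
    · rw [e, hy.zy, hc.star_ee']
    · rw [hy.zy' _ _ e, star_zero]
  have py : ∀ i b, hf u (y i) (∑ j, A b j • z j) = star (A b i) := fun i b => by
    rw [← hf_star hu.sym, hf_sum_left, Finset.sum_eq_single i
      (fun j _ ne => by rw [hy.zy' _ _ ne, mul_zero]) (by simp), hy.zy, ← hc.ee_cm, a1]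
  have pz : ∀ i b, hf u (z i) (∑ j, A b j • z j) = 0 := fun i b => by
    rw [← hf_star hu.sym, hf_sum_left, Finset.sum_eq_zero fun j _ => by rw [hy.zz, mul_zero],
      star_zero]
  refine ⟨n, Y, y1, fun i => ?_, fun Ind Ty N hS => ?_⟩
  · rw [hk0, hf_smul_left]
    rcases y2 i with ⟨j, e⟩ | ⟨b, e⟩
    · rw [e, hy.yy, mul_zero]
    · rw [e, py, hc.an_star (a2 b)]
  obtain ⟨m, p, t, p1, p2, p3⟩ := y3 Ind Ty N hS
  refine ⟨m, p, t, p1, p2, fun x hx c c1 c2 ε c3 => ?_⟩
  obtain ⟨m0, μ, e1, e2, e3, e4, e5⟩ := p3 x c c1 c2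
  obtain ⟨m', f1, f2, f3⟩ := m3 x hx m0 e1 e2
  have f4 : ∀ b, μ b.swap = ∑ i, m' i * star (A b i) := fun b => by
    have := congrArg (hf u · (∑ j, A b j • z j)) f2
    simp only [hf_add_left, hf_sum_left, py, pz, mul_zero, Finset.sum_const_zero, add_zero, e3]
      at this
    rwa [add_right_comm, sel_two, zero_add] at this
  have f5 : ∑ b, μ b • ∑ j, A b j • z j = ∑ j, (m' ᵥ* (B + B0)) j • z j := by
    rw [← (Equiv.sumComm _ _).sum_comp]
    simp only [Equiv.sumComm_apply, f4, Finset.smul_sum, ← mul_smul, vecMul, dotProduct,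
      ← a3, Finset.mul_sum, Finset.sum_mul, mul_assoc]
    rw [Finset.sum_comm]
    refine Finset.sum_congr rfl fun j _ => ?_
    rw [← Finset.sum_smul, Finset.sum_comm]
  have f6 : m' = 0 := d5 m' f1 ε (by
    rwa [e4, ← add_assoc, f2, f5, add_assoc, ← Finset.sum_add_distrib, Finset.sum_congr rfl
      fun j _ => show (m' ᵥ* B) j • z j + (m' ᵥ* (B + B0)) j • z j = (m' ᵥ* B0) j • z j by
        rw [← add_smul, vecMul_add, Pi.add_apply, ← add_assoc, sel_two, zero_add]] at c3)
  obtain ⟨f7, f8⟩ := f3 f6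
  refine ⟨f7, e5 f8 (funext fun b => ?_)⟩
  rw [← Sum.swap_swap b, f4, f6]
  simp

end Pool.Agent.Lib.MP_775b3b_nt.CM
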