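import Pool.Agent.Lib.MP_775b3b_nt.CM.C9a
import Pool.Agent.Lib.MP_775b3b_nt.CM.C6d
import Pool.Agent.Lib.MP_775b3b_nt.CM.SelX

namespace Pool.Agent.Lib.MP_775b3b_nt.CM

open Pool.Agent.Lib.MP_439fea_co NumberField WithZero

variable {K : Type} [Field K] [NumberField K] [IsGalois ℚ K]


omit [IsGalois ℚ K] in
theorem c9b_mono {S S' : Finset (P K)} (h : SPs S') (hS : S ⊆ S') : SPs S :=
  ⟨fun v hv => h.sp v (hS hv), fun v hv w hw => h.inj v (hS hv) w (hS hw)⟩

theorem Dat.core [DecidableEq (P K)] (D : Dat K) {S : Finset (P K)} (hS : SPs S) (hI : D.Inj S)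
    (B : Finset Kˣ) (hB : ∀ b ∈ B, D.σ • b = b) {κ : Kˣ} (hκ : κ ∈ D.Z S) (q : S)
    (hk : Kap D.σ D.G q (D.loc S κ)) :
    ∃ T : Finset (P K), Tw S B κ T ∧ ∀ x ∈ D.Z (S ∪ T), (∀ v ∈ T, co (sy v) x = 0) →
      ∀ ε, Lx D.σ D.G q ε (D.loc S x) → IsSquare x := by
  obtain rfl : ‹DecidableEq (P K)› = fun a b => Classical.propDecidable (a = b) :=
    Subsingleton.elim _ _
  classical
  obtain ⟨n, y, hy, hky, hsel⟩ := select2 D.cub D.hu q hk (D.lag hS hI).1 (D.fre hS hI)
  obtain ⟨m, p, t, hind, hty, main⟩ := hsel Ind (fun i p => D.Ty S B κ (y i) p)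
    (fun p q => ee D.σ * co (sy q.1) p.2) (D.sup hS hI hB hκ hy hky)
  set T : Finset (P K) := Finset.univ.image fun a => (p a).1 with hT
  have hmT : ∀ a, (p a).1 ∈ T := fun a => Finset.mem_image_of_mem _ (Finset.mem_univ a)
  have hTm : ∀ v ∈ T, ∃ a, (p a).1 = v := fun v hv => by
    obtain ⟨a, -, ha⟩ := Finset.mem_image.1 hv
    exact ⟨a, ha⟩
  have hsp : SPs (S ∪ T) := by
    refine ⟨fun v hv => ?_, fun v hv w hw e => ?_⟩
    · rcases Finset.mem_union.1 hv with h | h
      · exact hS.sp v h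
      · obtain ⟨a, rfl⟩ := hTm v h
        exact (hty a).sp
    · rcases Finset.mem_union.1 hv with h | h <;> rcases Finset.mem_union.1 hw with h' | h'
      · exact hS.inj v h w h' e
      · obtain ⟨a, rfl⟩ := hTm w h'
        exact absurd e ((hty a).ne v h)
      · obtain ⟨a, rfl⟩ := hTm v h
        exact absurd e.symm ((hty a).ne w h')
      · obtain ⟨a, rfl⟩ := hTm v h
        obtain ⟨b, rfl⟩ := hTm w h'
        by_cases hab : a = b
        · rw [hab]
        · exact absurd e (hind a b hab).ne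
  have hdj : Disjoint S T := Finset.disjoint_left.2 fun v hv h => by
    obtain ⟨a, rfl⟩ := hTm v h
    exact (hty a).ne _ hv rfl
  refine ⟨T, ⟨hsp, hdj, fun v hv w hw hne => ?_, fun v hv => ?_, fun v hv => ?_⟩,
    fun x hx hx0 ε hL => ?_⟩
  · obtain ⟨a, rfl⟩ := hTm v hv
    rcases Finset.mem_union.1 hw with h | h
    · exact (hty a).sq w h
    · obtain ⟨b, rfl⟩ := hTm w h
      exact (hind b a fun e => hne (by rw [e])).sq
  · obtain ⟨a, rfl⟩ := hTm v hv
    exact (hty a).sqB
  · obtain ⟨a, rfl⟩ := hTm v hv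
    exact (hty a).kap
  set c : Fin m → GA (Ga K) := fun a => co (od (p a).1) x with hc
  have hce : ∀ a, ee D.σ * c a = c a := fun a => D.ee_co (od_mul _) hx
  have hp2 : ∀ a, (p a).2 ∈ D.Z (S ∪ T) := fun a =>
    D.Z_mono (Finset.insert_subset (Finset.mem_union_right _ (hmT a)) Finset.subset_union_left)
      (hty a).mem
  have hz : ∀ a, pw (c a) (p a).2 ∈ D.Z (S ∪ T) := fun a => D.pw_mem (hp2 a) _
  have hpr : ∏ a, pw (c a) (p a).2 ∈ D.Z (S ∪ T) := prod_mem fun a _ => hz a
  set x' : Kˣ := x * ∏ a, pw (c a) (p a).2 with hx'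
  have hco : ∀ {φ : Kˣ → ZMod 2}, (∀ x y, φ (x * y) = φ x + φ y) →
      co φ x' = co φ x + ∑ a, c a * co φ (p a).2 := fun h => by
    rw [hx', co_mul h, co_prod h]
    simp only [co_pw h]
  have hod : ∀ b, co (od (p b).1) x' = 0 := fun b => by
    rw [hco (od_mul _), Finset.sum_eq_single b, (hty b).od, ← D.cub.ee_comm, hce]
    · exact add_self_ga _
    · intro a _ hab
      rw [D.co_od (hty a).mem, mul_zero]
      intro w hw
      rcases Finset.mem_insert.1 hw with h | h
      · exact h ▸ (hind a b hab).ne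
      · exact (hty b).ne w h
    · intro h
      exact absurd (Finset.mem_univ b) h
  have hxS : x' ∈ D.Z S := D.mem_of_od (mul_mem hx hpr) fun v hv => by
    obtain ⟨b, rfl⟩ := hTm v hv
    exact hod b
  have hloc : D.loc S x' + ∑ a, c a • y (t a) = D.loc S x := by
    rw [hx', D.loc_mul hS hsp hx hpr, D.loc_prod hS hsp _ fun a _ => hz a]
    simp only [fun a => D.loc_pw hS hsp (hp2 a) (c a), fun a => (hty a).loc]
    rw [add_assoc]
    exact add_eq_left.2 (funext fun i => add_self_ga _)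
  obtain ⟨h0, h1⟩ := main (D.loc S x') ((D.mem_HS hS).2 ⟨x', hxS, rfl⟩) c hce (fun b => by
    have hsub : ({(p b).1} : Finset (P K)) ⊆ T := Finset.singleton_subset_iff.2 (hmT b)
    rw [← (hty b).loc, D.pairT (T := {(p b).1})
      (c9b_mono hsp (Finset.union_subset_union_right hsub)) (hdj.mono_right hsub)
      (D.Z_mono Finset.subset_union_left hxS)
      (D.Z_mono (Finset.insert_subset (Finset.mem_union_right _ (Finset.mem_singleton_self _))
        Finset.subset_union_left) (hty b).mem),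
      Finset.sum_singleton, hod, zero_mul, zero_add, (hty b).od, D.cub.star_ee,
      hco (sy_mul (hty b).sp), hx0 _ (hmT b), zero_add, Finset.sum_mul]
    refine Finset.sum_congr rfl fun a _ => ?_
    rw [mul_assoc, D.cub.ee_comm]) ε (hloc ▸ hL)
  have e := hI x' hxS h0
  rw [hx', h1] at e
  simpa [pw_zero] using e

end Pool.Agent.Lib.MP_775b3b_nt.CM
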