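import Pool.Agent.Lib.MP_775b3b_nt.CM.C1a
import Pool.Agent.Lib.MP_775b3b_nt.CM.C1b

namespace Pool.Agent.Lib.MP_775b3b_nt.CM

open Pool.Agent.Lib.MP_439fea_co NumberField WithZero

variable {K : Type} [Field K] [NumberField K]


variable {v : P K} {x y z a b c : Kˣ}

theorem e1_min (h : (c : K) = x - y) : min (ord v (x : K)) (ord v (y : K)) ≤ ord v (c : K) := by
  have := (val v).map_sub (x : K) y
  rw [← h, val_eq_exp v c.ne_zero, val_eq_exp v x.ne_zero, val_eq_exp v y.ne_zero, le_max_iff,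
    exp_le_exp, exp_le_exp] at this
  omega

theorem e1_neg (x : Kˣ) : ord v ((-x : Kˣ) : K) = ord v (x : K) := by simp [ord]

theorem e1_ult (v : P K) (h : (c : K) = x - y) :
    min (ord v (x : K)) (ord v (y : K)) ≤ ord v (c : K) ∧
      min (ord v (x : K)) (ord v (c : K)) ≤ ord v (y : K) ∧
      min (ord v (c : K)) (ord v (y : K)) ≤ ord v (x : K) :=
  ⟨e1_min h, e1_min (by rw [h]; ring),
    e1_neg (v := v) y ▸ e1_min (y := -y) (by rw [h, Units.val_neg]; ring)⟩

theorem e1_val (v : P K) (h : (c : K) = x - y) :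
    val v (((x / y : Kˣ) : K) - 1) = exp (ord v (y : K) - ord v (c : K)) := by
  rw [Units.val_div_eq_div_val, div_sub_one y.ne_zero, ← h, map_div₀, val_eq_exp v c.ne_zero,
    val_eq_exp v y.ne_zero, ← exp_sub]
  congr 1
  ring

theorem e1_par (v : P K) (h : IsSquare (x * y * z)) :
    Even (ord v (x : K) + ord v (y : K) + ord v (z : K)) := by
  have := even_ord_of_mem_Sq (mem_Sq_of_isSquare v h)
  rwa [Units.val_mul, ord_mul v (Units.ne_zero _) z.ne_zero, Units.val_mul,
    ord_mul v x.ne_zero y.ne_zero] at this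

theorem e1_sq (h2 : val v (2 : K) = 1) (h : (c : K) = x - y)
    (hc : ord v (y : K) < ord v (c : K)) : x / y ∈ Sq (val v) :=
  Subgroup.mem_sup_right (by
    rw [mem_One, e1_val v h, local_val_four, h2, mul_one, ← exp_zero, exp_lt_exp]
    omega)

theorem e1_pry (h2 : val v (2 : K) = exp (-1 : ℤ)) (h : (c : K) = x - y)
    (hc : ord v (y : K) + 2 ≤ ord v (c : K)) : Pry v (x / y) :=
  ⟨1, by
    rw [Units.val_one, one_pow, mul_one, e1_val v h, local_val_four, h2, ← exp_add, exp_le_exp]
    omega⟩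

theorem e1_not (h2 : val v (2 : K) = exp (-1 : ℤ)) (h : (c : K) = x - y)
    (hc : ord v (y : K) + 1 = ord v (c : K)) : ¬ Pry v (x / y) := fun ⟨r, hr⟩ => by
  have h1 : val v ((((x / y : Kˣ) : K) - 1) / 2) = 1 := by
    rw [map_div₀, e1_val v h, h2, ← exp_sub, exp_eq_one]
    omega
  have := c1b_key h2 (h2 ▸ c1a_lt) (b := (x / y : Kˣ)) (r := r) (s := 0) (by simp) h1.le
    (by rwa [mul_zero, sub_zero, mul_comm]) (by rw [mul_div_cancel₀ _ two_ne_zero]; simp)
  rw [zero_sub, Valuation.map_neg, h1] at this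
  exact this.false

theorem e1_even (hv : val v (2 : K) < 1) (h : Pry v x) : Even (ord v (x : K)) := by
  obtain ⟨r, hr⟩ := h
  have h3 := (sunit_ord_eq_zero_iff v (mul_ne_zero x.ne_zero (pow_ne_zero 2 r.ne_zero))).2
    (c1b_one ((hr.trans (c1b_four_le_two _)).trans_lt hv))
  rw [ord_mul v x.ne_zero (pow_ne_zero 2 r.ne_zero), sq, ord_mul v r.ne_zero r.ne_zero] at h3
  exact ⟨-ord v (r : K), by omega⟩

theorem e1_div (hv : val v (2 : K) < 1) (h : Pry v x) (h' : Pry v y) : Pry v (x / y) := by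
  have := (h.mul hv h').mul hv (Pry.of_isSquare v ⟨y⁻¹, rfl⟩)
  rwa [← mul_assoc, mul_inv_cancel_right, ← div_eq_mul_inv] at this

theorem e1_sy (h : x ∈ Sq (val v)) : sy v x = 0 :=
  (sy_eq_ns (even_ord_of_mem_Sq h)).trans (ns_eq_zero.2 h)

theorem loc_good (h : IsSquare (x * y * z)) (ha : (a : K) = y - x) (hc : (c : K) = x - z)
    (h1 : ord v (a : K) = ord v (b : K)) (h2 : ord v (b : K) = ord v (c : K))
    (hb : (b : K) = z - y) (h3 : Even (ord v (a : K))) : Even (ord v (x : K)) := by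
  have e1 := e1_ult v ha
  have e2 := e1_ult v hc
  have e3 := e1_par v h
  rw [Int.even_iff] at *
  omega

theorem loc_two (h2 : Two K) (hv : val v (2 : K) < 1) (h : IsSquare (x * y * z))
    (ha : (a : K) = y - x) (hb : (b : K) = z - y) (h1 : Pry v (-a))
    (h3 : ord v (b : K) = ord v (a : K) + 4) :
    Pry v x ∧ Even (ord v (x : K)) ∧ Even (ord v (y : K)) ∧ Even (ord v (z : K)) := by
  have ha' : (y : K) = x - (-a : Kˣ) := by rw [Units.val_neg, ha]; ring
  have e1 := e1_ult v ha
  have e2 := e1_ult v hb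
  have e3 := e1_par v h
  have e4 := e1_even hv h1
  have e5 := e1_neg (v := v) a
  have s1 := Pry.of_isSquare v h
  have s2 : Pry v (y * y) := Pry.of_isSquare v ⟨y, rfl⟩
  have hx : Pry v x := by
    rcases le_or_gt (ord v (y : K) + 2) (ord v (b : K)) with h4 | h4
    · have := e1_div hv (e1_div hv s1 s2) (e1_pry (h2 v hv) hb h4)
      rwa [show x * y * z / (y * y) / (z / y) = x by ext; push_cast; field_simp] at this
    · exact div_mul_cancel x (-a) ▸ (e1_pry (h2 v hv) ha' (by omega)).mul hv h1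
  have e6 := e1_even hv hx
  have e7 : ord v ((-a : Kˣ) : K) + 1 ≠ ord v (y : K) := fun e =>
    e1_not (h2 v hv) ha' e (e1_div hv hx h1)
  have e8 : ord v (y : K) + 1 ≠ ord v (b : K) := fun e => e1_not (h2 v hv) hb e (by
    have := e1_div hv (e1_div hv s1 s2) hx
    rwa [show x * y * z / (y * y) / x = z / y by ext; push_cast; field_simp] at this)
  refine ⟨hx, e6, ?_⟩
  simp only [Int.even_iff] at *
  omega

theorem loc_tw (hv : SP v) (h : IsSquare (x * y * z)) (ha : (a : K) = y - x)
    (hb : (b : K) = z - y) (hc : (c : K) = x - z) (h1 : ord v (a : K) = ord v (b : K))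
    (h2 : ord v (b : K) = ord v (c : K)) (h3 : a * nu K (nm v) ∈ Sq (val v))
    (h4 : c * nu K (nm v) ∈ Sq (val v)) : sy v x = 0 := by
  have e1 := e1_ult v ha
  have e2 := e1_ult v hc
  have e3 := e1_par v h
  have e4 := even_ord_of_mem_Sq h3
  have e5 := e1_neg (v := v) a
  have e6 := e1_neg (v := v) c
  rw [Units.val_mul, ord_mul v a.ne_zero (Units.ne_zero _), hv.ord_nu] at e4
  rw [Int.even_iff] at e3 e4
  have s1 := mem_Sq_of_isSquare v h
  have s2 : ∀ u : Kˣ, u * u ∈ Sq (val v) := fun u => mem_Sq_of_isSquare v ⟨u, rfl⟩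
  have s3 : x * nu K (nm v) ∈ Sq (val v) → sy v x = 0 := fun h5 => by
    simpa [sy_mul hv, sy_nu hv] using e1_sy h5
  rcases lt_trichotomy (ord v (x : K)) (ord v (a : K)) with h5 | h5 | h5
  · have := div_mem (div_mem (div_mem s1 (s2 x)) (e1_sq hv.two ha h5))
      (e1_sq hv.two (c := -c) (x := z) (y := x) (by rw [Units.val_neg, hc]; ring) (by omega))
    exact e1_sy (by
      rwa [show x * y * z / (x * x) / (y / x) / (z / x) = x by ext; push_cast; field_simp] at this)
  · rcases lt_or_ge (ord v (a : K)) (ord v (y : K)) with h6 | h6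
    · have := mul_mem (mul_mem (e1_sq hv.two (c := y) (x := x) (y := -a)
        (by rw [Units.val_neg, ha]; ring) (by omega)) hv.neg_one) h3
      exact s3 (by rwa [show x / -a * -1 * (a * nu K (nm v)) = x * nu K (nm v) by
        ext; push_cast; field_simp] at this)
    · have := mul_mem (e1_sq hv.two (c := z) (x := x) (y := c) (by rw [hc]; ring) (by omega)) h4
      exact s3 (by rwa [← mul_assoc, div_mul_cancel] at this)
  · have := div_mem (div_mem (div_mem (div_mem (div_mem (mul_mem s1 (s2 (nu K (nm v)))) h3) h4)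
      hv.neg_one) (e1_sq hv.two (c := x) (x := y) (y := a) (by rw [ha]; ring) h5))
      (e1_sq hv.two (c := x) (x := z) (y := -c) (by rw [Units.val_neg, hc]; ring) (by omega))
    exact e1_sy (by
      rwa [show x * y * z * (nu K (nm v) * nu K (nm v)) / (a * nu K (nm v)) / (c * nu K (nm v)) /
        -1 / (y / a) / (z / -c) = x by ext; push_cast; field_simp] at this)

theorem loc_mult (h2 : val v (2 : K) = 1) (h : IsSquare (x * y * z)) (ha : (a : K) = y - x)
    (hb : (b : K) = z - y) (h1 : Even (ord v (a : K))) (h3 : ord v (b : K) = ord v (a : K) + 1) :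
    Even (ord v (x : K)) ∧ ns v x = od v z * ns v (-a) := by
  have e1 := e1_ult v ha
  have e2 := e1_ult v hb
  have e3 := e1_par v h
  have e5 := e1_neg (v := v) a
  rcases le_or_gt (ord v (y : K)) (ord v (a : K)) with h4 | h4
  · have := div_mem (div_mem (mem_Sq_of_isSquare v h) (mem_Sq_of_isSquare v ⟨y, rfl⟩))
      (e1_sq h2 hb (by omega))
    rw [show x * y * z / (y * y) / (z / y) = x by ext; push_cast; field_simp] at this
    have e4 := even_ord_of_mem_Sq this
    refine ⟨e4, ?_⟩
    rw [ns_eq_zero.2 this, od_eq_zero.2 (by rw [Int.even_iff] at *; omega), zero_mul]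
  · have := ns_mul_of_mem (-a) (e1_sq h2 (c := y) (x := x) (y := -a)
      (by rw [Units.val_neg, ha]; ring) (by omega))
    rw [mul_div_cancel] at this
    have e4 : od v z = 1 := (by decide : ∀ t : ZMod 2, t ≠ 0 → t = 1) _
      (mt od_eq_zero.1 (by rw [Int.even_iff] at *; omega))
    exact ⟨by rw [Int.even_iff] at *; omega, by rw [this, e4, one_mul]⟩

end Pool.Agent.Lib.MP_775b3b_nt.CM
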