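import Pool.Agent.Lib.MP_775b3b_nt.CM.EDef
import Pool.Agent.Lib.MP_775b3b_nt.CM.C1c
import Pool.Agent.Lib.MP_775b3b_nt.CM.C1b
import Pool.Agent.Lib.MP_775b3b_nt.CM.A1

namespace Pool.Agent.Lib.MP_775b3b_nt.CM

open Pool.Agent.Lib.MP_439fea_co NumberField WithZero

variable {K : Type} [Field K] [NumberField K]


theorem Rt.rot {R : Type} [CommRing R] {s Q : ℕ} {a b c : R} (h : Rt s Q a b c) :
    Rt s Q b c a := by
  exact ⟨by linear_combination h.e1, by linear_combination h.e2, by linear_combination h.e3,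
    by linear_combination h.di⟩

theorem Rt.prod {R : Type} [CommRing R] {s Q : ℕ} {a b c : R} (h : Rt s Q a b c) (d x : R) :
    (x - d * a) * (x - d * b) * (x - d * c) = cb s Q d x := by
  unfold cb
  linear_combination (-d * x ^ 2) * h.e1 + d ^ 2 * x * h.e2 - d ^ 3 * h.e3

theorem Rt.val_le {s Q : ℕ} {a b c : K} (h : Rt s Q a b c) (v : P K) : val v a ≤ 1 := by
  by_contra h0
  have h1 : 1 < val v a := not_le.1 h0
  have e : a ^ 3 = ((s : ℕ) : K) * a ^ 2 + ((576 * Q ^ 2 : ℕ) : K) * a ^ 1 -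
      ((64 * s * Q ^ 2 : ℕ) : K) * a ^ 0 := by
    have h2 := h.prod 1 a
    unfold cb at h2
    push_cast
    linear_combination -h2
  have k : ∀ n m : ℕ, m < 3 → val v ((n : K) * a ^ m) < val v a ^ 3 := fun n m hm => by
    rw [map_mul, map_pow]
    exact (mul_le_of_le_one_left' (val_natCast_le_one v n)).trans_lt (pow_lt_pow_right₀ h1 hm)
  have h3 := (val v).map_sub_lt ((val v).map_add_lt (k s 2 (by decide))
    (k (576 * Q ^ 2) 1 (by decide))) (k (64 * s * Q ^ 2) 0 (by decide))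
  rw [← e, map_pow] at h3
  exact lt_irrefl _ h3

theorem jj_ne {s Q : ℕ} (h : Q ≠ 0) : jj s Q ≠ 0 := by
  unfold jj
  positivity

theorem e2a_ne {s Q : ℕ} {a b c : K} (h : Rt s Q a b c) (hQ : Q ≠ 0) :
    a - b ≠ 0 ∧ b - c ≠ 0 ∧ c - a ≠ 0 := by
  have h1 : (a - b) * (b - c) * (c - a) ≠ 0 := by
    rw [h.di]
    exact mul_ne_zero (mul_ne_zero (by norm_num) (Nat.cast_ne_zero.2 hQ))
      (Nat.cast_ne_zero.2 (jj_ne hQ))
  exact ⟨left_ne_zero_of_mul (left_ne_zero_of_mul h1),
    right_ne_zero_of_mul (left_ne_zero_of_mul h1), right_ne_zero_of_mul h1⟩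

theorem e2a_di {s Q : ℕ} {a b c : K} (h : Rt s Q a b c) {v : P K} (h2 : val v (2 : K) = 1)
    (h3 : val v (Q : K) = 1) :
    val v ((a - b) * (b - c) * (c - a)) = val v ((jj s Q : ℕ) : K) := by
  rw [h.di, map_mul, map_mul, h3, show (16 : K) = 2 ^ 4 by norm_num, map_pow, h2, one_pow, one_mul,
    one_mul]

theorem e2a_le {s Q : ℕ} {a b c : K} (h : Rt s Q a b c) {v : P K}
    (h2 : val v (2 : K) = 1) (h3 : val v (Q : K) = 1) : val v (a - b) ≤ val v (c - a) := by
  refine not_lt.1 fun h4 => ?_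
  have n1 : 0 < val v (a - b) := zero_le.trans_lt h4
  have e1 : val v (b - c) = val v (a - b) := by
    rw [show b - c = -((a - b) + (c - a)) by ring, Valuation.map_neg,
      (val v).map_add_eq_of_lt_left h4]
  have e2 : ((jj s Q : ℕ) : K) = (a - b) * (a - b) - (b - c) * (c - a) := by
    unfold jj
    push_cast
    linear_combination (-(a + b + c + s)) * h.e1 + 3 * h.e2
  have e3 : val v ((jj s Q : ℕ) : K) = val v (a - b) * val v (a - b) := by
    rw [e2, (val v).map_sub_eq_of_lt_left (by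
      rw [map_mul, map_mul, e1]
      exact mul_lt_mul_of_pos_left h4 n1), map_mul]
  have e4 := e2a_di h h2 h3
  rw [e3, map_mul, map_mul, e1, mul_eq_left₀ (mul_pos n1 n1).ne'] at e4
  rw [e4] at h4
  exact h4.not_ge ((val v).map_sub_le (h.val_le v) (h.rot.val_le v))

theorem e2a_sub {a b : K} {v : P K} (ha : val v a = 1) (hb : val v b < 1) : val v (a - b) = 1 := by
  rw [(val v).map_sub_eq_of_lt_left (ha ▸ hb), ha]

theorem e2a_unit {s Q : ℕ} {a b c : K} (h : Rt s Q a b c) {v : P K} (h2 : val v (2 * Q : K) < 1)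
    (ha : val v a = 1) : val v b < 1 ∧ val v c < 1 := by
  have k : ∀ n : ℕ, val v (2 * Q * (n : K)) < 1 := fun n => by
    rw [map_mul]
    exact (mul_le_of_le_one_right' (val_natCast_le_one v n)).trans_lt h2
  have h3 : val v (b * c) < 1 := by
    have h4 := k (32 * s * Q)
    rwa [show 2 * Q * ((32 * s * Q : ℕ) : K) = -(a * (b * c)) by
      push_cast
      linear_combination h.e3, Valuation.map_neg, map_mul, ha, one_mul] at h4
  have h5 : val v (b + c) < 1 := by
    have h4 := (val v).map_add_lt (k (288 * Q)) h3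
    rwa [show 2 * Q * ((288 * Q : ℕ) : K) + b * c = -(a * (b + c)) by
      push_cast
      linear_combination h.e2, Valuation.map_neg, map_mul, ha, one_mul] at h4
  have hb : val v b < 1 := (h.rot.val_le v).lt_of_ne fun hb => by
    rw [map_mul, hb, one_mul] at h3
    rw [(val v).map_add_eq_of_lt_left (hb ▸ h3), hb] at h5
    exact lt_irrefl _ h5
  refine ⟨hb, ?_⟩
  rw [show c = b + c - b by ring]
  exact (val v).map_sub_lt h5 hb

/-- away from `2 Q` the three differences have the same order -/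
theorem Rt.ord_good {s Q : ℕ} {a b c : K} (h : Rt s Q a b c) (hQ : Q ≠ 0) {v : P K}
    (h2 : val v (2 : K) = 1) (h3 : val v (Q : K) = 1) :
    ord v (a - b) = ord v (b - c) ∧ ord v (b - c) = ord v (c - a) ∧
      3 * ord v (a - b) = ord v ((jj s Q : ℕ) : K) := by
  obtain ⟨n1, n2, n3⟩ := e2a_ne h hQ
  have l1 := e2a_le h h2 h3
  have l2 := e2a_le h.rot h2 h3
  have l3 := e2a_le h.rot.rot h2 h3
  have e1 : ord v (a - b) = ord v (b - c) := by
    rw [ord, ord, le_antisymm (l1.trans l3) l2]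
  have e2 : ord v (b - c) = ord v (c - a) := by
    rw [ord, ord, le_antisymm (l2.trans l1) l3]
  refine ⟨e1, e2, ?_⟩
  have e3 : ord v ((jj s Q : ℕ) : K) = ord v ((a - b) * (b - c) * (c - a)) := by
    rw [ord, ord, e2a_di h h2 h3]
  rw [e3, ord_mul v (mul_ne_zero n1 n2) n3, ord_mul v n1 n2]
  omega

/-- above `2 Q` exactly one root is a unit -/
theorem Rt.unit {s Q : ℕ} {a b c : K} (h : Rt s Q a b c) {v : P K} (hs : val v (s : K) = 1)
    (h2 : val v (2 * Q : K) < 1) : (val v a = 1 ∧ val v b < 1 ∧ val v c < 1) ∨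
      (val v b = 1 ∧ val v c < 1 ∧ val v a < 1) ∨ (val v c = 1 ∧ val v a < 1 ∧ val v b < 1) := by
  by_cases ha : val v a = 1
  · exact Or.inl ⟨ha, e2a_unit h h2 ha⟩
  by_cases hb : val v b = 1
  · exact Or.inr (Or.inl ⟨hb, e2a_unit h.rot h2 hb⟩)
  by_cases hc : val v c = 1
  · exact Or.inr (Or.inr ⟨hc, e2a_unit h.rot.rot h2 hc⟩)
  have h3 := (val v).map_add_lt ((val v).map_add_lt ((h.val_le v).lt_of_ne ha)
    ((h.rot.val_le v).lt_of_ne hb)) ((h.rot.rot.val_le v).lt_of_ne hc)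
  rw [h.e1, hs] at h3
  exact absurd h3 (lt_irrefl _)

theorem Rt.two {s Q : ℕ} {a b c : K} (h : Rt s Q a b c) (hs : s % 4 = 3) (hQ : Q % 4 = 1)
    (h2 : Two K) {v : P K} (hv : val v (2 : K) < 1) (ha : val v a = 1) :
    val v (a - b - 3) ≤ val v (4 : K) ∧ val v (c - a - 1) ≤ val v (4 : K) ∧ ord v (b - c) = 4 := by
  have odd : ∀ n : ℕ, n % 2 = 1 → val v (n : K) = 1 := fun n hn =>
    (val_natCast_le_one v n).eq_of_not_lt fun h1 => by
      have := (val_natCast_lt_one_iff v Nat.prime_two (by exact_mod_cast hv) n).1 h1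
      omega
  have hj : jj s Q % 2 = 1 := by
    have h1 : s ^ 2 % 2 = 1 := by rw [Nat.pow_mod, show s % 2 = 1 by omega]
    unfold jj
    omega
  have v2 := h2 v hv
  have pw : ∀ n : ℕ, val v ((2 : K) ^ n) = exp (-(n : ℤ)) := fun n => by
    rw [map_pow, v2, ← exp_nsmul]
    simp
  have hQ1 := odd Q (by omega)
  obtain ⟨hb, hc⟩ := e2a_unit h (by rwa [map_mul, hQ1, mul_one]) ha
  have e1 : val v (b - c) = exp (-4 : ℤ) := by
    have h3 := congrArg (val v) h.di
    rwa [map_mul, map_mul, e2a_sub ha hb, (val v).map_sub_swap c a, e2a_sub ha hc, one_mul, mul_one,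
      map_mul, map_mul, hQ1, odd _ hj, mul_one, mul_one, show (16 : K) = 2 ^ 4 by norm_num,
      pw] at h3
  have e2 : val v (b + c) ≤ exp (-4 : ℤ) := by
    have h3 : a * (a * (b + c)) =
        2 ^ 4 * (((4 * s * Q ^ 2 : ℕ) : K) - ((36 * Q ^ 2 : ℕ) : K) * a) := by
      push_cast
      linear_combination a * h.e2 - h.e3
    have h4 := congrArg (val v) h3
    rw [map_mul, map_mul, ha, one_mul, one_mul, map_mul, pw] at h4
    rw [h4]
    refine mul_le_of_le_one_right' ((val v).map_sub_le (val_natCast_le_one v _) ?_)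
    rw [map_mul, ha, mul_one]
    exact val_natCast_le_one v _
  have v4 : val v (4 : K) = exp (-2 : ℤ) := by
    rw [show (4 : K) = 2 ^ 2 by norm_num, pw]
    rfl
  have half : ∀ x : K, val v (2 * x) ≤ exp (-4 : ℤ) → val v x ≤ val v (4 : K) := fun x hx => by
    rw [map_mul, v2, ← le_inv_mul_iff₀ exp_pos, ← exp_neg, ← exp_add] at hx
    rw [v4]
    exact hx.trans (exp_le_exp.2 (by decide))
  have f1 := half b (by
    rw [show 2 * b = (b + c) + (b - c) by ring]
    exact (val v).map_add_le e2 e1.le)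
  have f2 := half c (by
    rw [show 2 * c = (b + c) - (b - c) by ring]
    exact (val v).map_sub_le e2 e1.le)
  have f3 : ∀ n : ℕ, val v (4 * (n : K)) ≤ val v (4 : K) := fun n => by
    rw [map_mul]
    exact mul_le_of_le_one_right' (val_natCast_le_one v n)
  have e3 : (s : K) = 4 * ((s / 4 : ℕ) : K) + 3 := by
    exact_mod_cast (by omega : s = 4 * (s / 4) + 3)
  refine ⟨?_, ?_, ?_⟩
  · rw [show a - b - 3 = 4 * ((s / 4 : ℕ) : K) - b - b - c by linear_combination h.e1 + e3]
    exact (val v).map_sub_le ((val v).map_sub_le ((val v).map_sub_le (f3 _) f1) f1) f2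
  · rw [show c - a - 1 = b + c + c - 4 * ((s / 4 + 1 : ℕ) : K) by
      push_cast
      linear_combination -h.e1 - e3]
    exact (val v).map_sub_le ((val v).map_add_le ((val v).map_add_le f1 f2) f2) (f3 _)
  · rw [ord, e1, log_exp]
    rfl

theorem Rt.mult {s : ℕ} {a b c : K} {v : P K} (h : Rt s (nm v) a b c) (hv : SP v)
    (hs : s % nm v = 1) (ha : val v a = 1) :
    val v (a - b - 1) < 1 ∧ val v (c - a + 1) < 1 ∧ ord v (b - c) = 1 ∧
      val v (((jj s (nm v) : ℕ) : K) - 1) < 1 := by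
  have hq : val v ((nm v : ℕ) : K) < 1 := hv.unr ▸ c1a_lt
  have k : ∀ x : K, val v x ≤ 1 → val v (((nm v : ℕ) : K) * x) < 1 := fun x hx => by
    rw [map_mul]
    exact (mul_le_of_le_one_right' hx).trans_lt hq
  have e3 : (s : K) - 1 = ((nm v : ℕ) : K) * ((s / nm v : ℕ) : K) := by
    have := Nat.div_add_mod s (nm v)
    rw [hs] at this
    rw [sub_eq_iff_eq_add]
    exact_mod_cast this.symm
  have hs1 : val v ((s : K) - 1) < 1 := e3 ▸ k _ (val_natCast_le_one v _)
  obtain ⟨hb, hc⟩ := e2a_unit h (by rwa [map_mul, hv.two, one_mul]) ha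
  have hj : val v (((jj s (nm v) : ℕ) : K) - 1) < 1 := by
    rw [show ((jj s (nm v) : ℕ) : K) - 1 = ((nm v : ℕ) : K) *
        (((s / nm v * (s + 1) + 1728 * nm v : ℕ) : K)) by
      unfold jj
      push_cast
      linear_combination ((s : K) + 1) * e3]
    exact k _ (val_natCast_le_one v _)
  refine ⟨?_, ?_, ?_, hj⟩
  · rw [show a - b - 1 = (s : K) - 1 - b - b - c by linear_combination h.e1]
    exact (val v).map_sub_lt ((val v).map_sub_lt ((val v).map_sub_lt hs1 hb) hb) hc
  · rw [show c - a + 1 = b + c + c - ((s : K) - 1) by linear_combination -h.e1]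
    exact (val v).map_sub_lt ((val v).map_add_lt ((val v).map_add_lt hb hc) hc) hs1
  · have h3 := congrArg (val v) h.di
    rw [map_mul, map_mul, e2a_sub ha hb, (val v).map_sub_swap c a, e2a_sub ha hc, one_mul, mul_one,
      map_mul, map_mul, c1b_one hj, mul_one, show (16 : K) = 2 ^ 4 by norm_num, map_pow, hv.two,
      one_pow, one_mul, hv.unr] at h3
    rw [ord, h3, log_exp]
    rfl

theorem jj_mod {s Q : ℕ} (hs : s % 4 = 3) : jj s Q % 4 = 1 := by
  have h1 : s ^ 2 % 4 = 1 := by rw [Nat.pow_mod, hs]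
  unfold jj
  omega

theorem pry_nu {n : ℕ} (h : n % 4 = 1) (w : P K) : Pry w (nu K n) := by
  refine ⟨1, ?_⟩
  have e : (n : K) = 4 * ((n / 4 : ℕ) : K) + 1 := by
    exact_mod_cast (by omega : n = 4 * (n / 4) + 1)
  rw [val_nu (by omega), Units.val_one, one_pow, mul_one, e, add_sub_cancel_right, map_mul]
  exact mul_le_of_le_one_right' (val_natCast_le_one w _)

variable {D : Dat K} (C : Cv D)

theorem e2a_three (x : K) : D.σ (D.σ (D.σ x)) = x := DFunLike.congr_fun D.cub.three x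

theorem Cv.smul_a : D.σ • C.a = C.b := by
  ext
  rw [val_smul_units, C.ha, C.hb, map_sub]

theorem Cv.smul_b : D.σ • C.b = C.c := by
  ext
  rw [val_smul_units, C.hb, C.hc, map_sub, e2a_three]

theorem Cv.smul_c : D.σ • C.c = C.a := by
  ext
  rw [val_smul_units, C.hc, C.ha, map_sub, e2a_three]

theorem Cv.fix_a {g : Ga K} (hg : g ∈ D.G) : g • C.a = C.a ∧ g • C.b = C.b ∧ g • C.c = C.c := by
  have k : ∀ x, g (D.σ x) = D.σ (g x) := fun x => DFunLike.congr_fun (D.cub.cen g) x
  refine ⟨?_, ?_, ?_⟩ <;> ext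
  · rw [val_smul_units, C.ha, map_sub, k, C.fix g hg]
  · rw [val_smul_units, C.hb, map_sub, k, k, k, C.fix g hg]
  · rw [val_smul_units, C.hc, map_sub, k, k, C.fix g hg]

theorem Cv.abc : C.a * C.b * C.c = nu K 16 * nu K (nm C.q) * nu K (jj C.s (nm C.q)) := by
  ext
  have h := C.sp.prime.ne_zero
  simp only [Units.val_mul]
  rw [C.ha, C.hb, C.hc, val_nu (by decide), val_nu h, val_nu (jj_ne h), C.rt.di]
  rfl

/-- the same data at a conjugate place -/
theorem Cv.val_t {g : Ga K} (hg : g ∈ D.G) (v : P K) : val (g • v) C.t = val v C.t := by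
  rw [← val_smul g v, AlgEquiv.smul_def, C.fix g hg]

end Pool.Agent.Lib.MP_775b3b_nt.CM
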