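import Pool.Agent.Lib.MP_775b3b_nt.CM.E2a
import Pool.Agent.Lib.MP_775b3b_nt.CM.C2

namespace Pool.Agent.Lib.MP_775b3b_nt.CM

open Pool.Agent.Lib.MP_439fea_co NumberField WithZero

variable {K : Type} [Field K] [NumberField K] [IsGalois ℚ K]


variable {D : Dat K} (C : Cv D)

omit [IsGalois ℚ K] in
theorem e2b_s1 : D.σ • (C.a * C.c) = C.b * C.a := by
  rw [smul_mul', C.smul_a, C.smul_c]

omit [IsGalois ℚ K] in
theorem e2b_s2 : (D.σ * D.σ) • (C.a * C.c) = C.c * C.b := by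
  rw [mul_smul, e2b_s1, smul_mul', C.smul_a, C.smul_b]

omit [IsGalois ℚ K] in
theorem e2b_tri (γ : Ga K) :
    (γ ∈ D.G ∧ γ * D.σ ∉ D.G ∧ γ⁻¹ • (C.a * C.c) = C.a * C.c) ∨
      (γ ∉ D.G ∧ γ * D.σ ∈ D.G ∧ γ⁻¹ • (C.a * C.c) = C.b * C.a) ∨
        (γ ∉ D.G ∧ γ * D.σ ∉ D.G ∧ γ⁻¹ • (C.a * C.c) = C.c * C.b) := by
  have f : ∀ g ∈ D.G, g⁻¹ • (C.a * C.c) = C.a * C.c := fun g hg => by
    rw [smul_mul', (C.fix_a (inv_mem hg)).1, (C.fix_a (inv_mem hg)).2.2]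
  have n : ∀ g ∈ D.G, g * D.σ ∉ D.G := fun g hg h =>
    D.cub.nmem ((Subgroup.mul_mem_cancel_left _ hg).1 h)
  rcases D.cub.dec γ with h | h | h
  · exact .inl ⟨h, n γ h, f γ h⟩
  · refine .inr (.inl ⟨fun e => n γ e h, h, ?_⟩)
    rw [← e2b_s1, ← congrArg (D.σ • ·) (f _ h), ← mul_smul, mul_inv_rev, mul_inv_cancel_left]
  · refine .inr (.inr ⟨fun e => D.cub.nmem2 ?_, fun e => n _ e h, ?_⟩)
    · rwa [mul_assoc, Subgroup.mul_mem_cancel_left _ e] at h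
    · rw [← e2b_s2, ← congrArg ((D.σ * D.σ) • ·) (f _ h), ← mul_smul, mul_assoc γ, mul_inv_rev γ,
        mul_inv_cancel_left]

omit [IsGalois ℚ K] in
theorem e2b_two : val D.w ((C.a : K) - 3) ≤ val D.w (4 : K) ∧
    val D.w ((C.c : K) - 1) ≤ val D.w (4 : K) ∧ ord D.w (C.b : K) = 4 := by
  rw [C.ha, C.hb, C.hc]
  exact C.rt.two C.s4 C.sp.one D.two D.hw C.w1

omit [IsGalois ℚ K] in
theorem e2b_pry : Pry D.w (-C.a) ∧ Pry D.w C.c := by
  obtain ⟨h1, h2, -⟩ := e2b_two C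
  refine ⟨⟨1, ?_⟩, 1, by simpa using h2⟩
  have e : ((-C.a : Kˣ) : K) * ((1 : Kˣ) : K) ^ 2 - 1 = -(((C.a : K) - 3) + 4) := by
    push_cast
    ring
  rw [e, Valuation.map_neg]
  exact Valuation.map_add_le _ h1 le_rfl

omit [IsGalois ℚ K] in
theorem e2b_even {w : P K} (hw : val w (2 : K) < 1) {x : Kˣ} (h : Pry w x) :
    Even (ord w (x : K)) := by
  obtain ⟨z, hz⟩ := h
  have h1 := c1b_one (hz.trans_lt ((c1b_four_le_two _).trans_lt hw))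
  rw [← sunit_ord_eq_zero_iff w (mul_ne_zero x.ne_zero (pow_ne_zero 2 z.ne_zero)), sq,
    ord_mul w x.ne_zero (mul_ne_zero z.ne_zero z.ne_zero), ord_mul w z.ne_zero z.ne_zero] at h1
  exact ⟨-ord w (z : K), by omega⟩

omit [IsGalois ℚ K] in
theorem e2b_neg {w : P K} (hw : val w (2 : K) < 1) {x : Kˣ} (h : Pry w (-x)) :
    Even (ord w (x : K)) := by
  have := e2b_even hw h
  rwa [Units.val_neg, ord, Valuation.map_neg] at this

omit [IsGalois ℚ K] in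
theorem e2b_sq : IsSquare (nu K 16) :=
  ⟨nu K 4, nu_mul (a := 4) (b := 4) (by decide) (by decide)⟩

omit [IsGalois ℚ K] in
theorem e2b_pry3 : Pry D.w (-(C.a * C.c)) ∧ Pry D.w (C.b * C.a) ∧ Pry D.w (-(C.c * C.b)) := by
  obtain ⟨h1, h2⟩ := e2b_pry C
  have h3 : Pry D.w (C.a * C.b * C.c) := C.abc ▸
    ((Pry.of_isSquare _ e2b_sq).mul D.hw (pry_nu C.sp.one _)).mul D.hw (pry_nu (jj_mod C.s4) _)
  refine ⟨neg_mul C.a C.c ▸ h1.mul D.hw h2, ?_, ?_⟩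
  · have := (h3.mul D.hw h2).mul D.hw (Pry.of_isSquare _ ⟨C.c⁻¹, rfl⟩)
    rwa [mul_assoc (C.a * C.b), mul_assoc, ← mul_inv, mul_inv_cancel, mul_one, mul_comm] at this
  · have := (h3.mul D.hw h1).mul D.hw (Pry.of_isSquare _ ⟨C.a⁻¹, rfl⟩)
    rwa [mul_neg, neg_mul, mul_assoc C.a, mul_comm C.a, mul_assoc (C.b * C.c), mul_assoc,
      ← mul_inv, mul_inv_cancel, mul_one, mul_comm] at this

theorem Cv.kap_mem : C.a * C.c ∈ D.Z {C.q} := by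
  refine ⟨⟨C.a * C.b * C.c, ?_⟩, fun w hw => ?_⟩
  · rw [e2b_s1, e2b_s2]
    ac_rfl
  by_cases h2 : val w (2 : K) < 1
  · obtain ⟨g, rfl⟩ := exists_smul_eq_of_prime Nat.prime_two D.hw h2
    obtain ⟨h1, h3, h4⟩ := e2b_pry3 C
    rw [← ord_smul']
    rcases e2b_tri C g with ⟨-, -, e⟩ | ⟨-, -, e⟩ | ⟨-, -, e⟩ <;> rw [e]
    · exact e2b_neg D.hw h1
    · exact e2b_even D.hw h3
    · exact e2b_neg D.hw h4
  · obtain ⟨h1, h3, -⟩ := C.rt.ord_good C.sp.prime.ne_zero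
      ((c1b_two_le_one _).antisymm (not_lt.1 h2))
      (C.sp.val_conj (hw _ (Finset.mem_singleton_self _)))
    rw [Units.val_mul, ord_mul w C.a.ne_zero C.c.ne_zero, C.ha, C.hc, h1, h3]
    exact ⟨_, rfl⟩

omit [IsGalois ℚ K] in
theorem Cv.kap_sg (γ : Ga K) : (co (sg D.ρ) (C.a * C.c)).coeff γ = 0 ↔ γ * D.σ ∈ D.G := by
  have ha : sg D.ρ C.a = 1 := if_pos (by rw [C.ha, map_sub]; exact sub_neg.2 C.r1)
  have hc : sg D.ρ C.c = 0 := if_neg (by rw [C.hc, map_sub]; exact (sub_pos.2 C.r2).not_gt)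
  have hn : ∀ n : ℕ, n ≠ 0 → sg D.ρ (nu K n) = 0 := fun n h =>
    if_neg (by rw [val_nu h, map_natCast]; exact (Nat.cast_nonneg n).not_gt)
  have hb := congrArg (sg D.ρ) C.abc
  rw [sg_mul, sg_mul, sg_mul, sg_mul, ha, hc, hn _ (by decide), hn _ C.sp.prime.ne_zero,
    hn _ (jj_ne C.sp.prime.ne_zero)] at hb
  replace hb : sg D.ρ C.b = 1 := by
    revert hb
    generalize sg D.ρ C.b = x
    revert x
    decide
  rw [co, coeff_mk]
  rcases e2b_tri C γ with ⟨-, h, e⟩ | ⟨-, h, e⟩ | ⟨-, h, e⟩ <;> rw [e, sg_mul]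
  · rw [ha, hc]
    exact iff_of_false (by decide) h
  · rw [ha, hb]
    exact iff_of_true (by decide) h
  · rw [hb, hc]
    exact iff_of_false (by decide) h

omit [IsGalois ℚ K] in
theorem e2b_q : C.a ∈ Sq (val C.q) ∧ C.c ∈ Sq (val C.q) ∧ od C.q C.b = 1 ∧
    nu K (jj C.s (nm C.q)) ∈ Sq (val C.q) := by
  obtain ⟨h1, h2, h3, h4⟩ := C.rt.mult C.sp C.sq C.q1
  rw [← C.ha] at h1
  rw [← C.hc] at h2
  refine ⟨mem_Sq_of_val C.sp.two h1, ?_, by rw [od, C.hb, h3, Int.cast_one],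
    mem_Sq_of_val C.sp.two (by rwa [val_nu (jj_ne C.sp.prime.ne_zero)])⟩
  have := mul_mem C.sp.neg_one (mem_Sq_of_val C.sp.two (x := -C.c) (by
    rwa [Units.val_neg, ← neg_add', Valuation.map_neg]))
  rwa [neg_mul_neg, one_mul] at this

theorem Cv.kap {S : Finset (P K)} (hS : SPs S) (hq : C.q ∈ S)
    (h : ∀ v ∈ S, v ≠ C.q → co (sy v) (C.a * C.c) = 0) :
    Kap D.σ D.G (⟨C.q, hq⟩ : S) (D.loc S (C.a * C.c)) := by
  obtain ⟨ha, hc, hb, hj⟩ := e2b_q C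
  refine ⟨fun b γ => ?_, fun γ => ?_, fun t => ?_, fun t ht => ?_⟩
  · cases b
    · obtain ⟨h1, h2, h3⟩ := e2b_pry3 C
      have hs := (D.sig_spec hS (D.Z_mono (Finset.singleton_subset_iff.2 hq) C.kap_mem)).smul γ⁻¹
      change tr2 ((γ⁻¹ • sig (C.a * C.c)) * D.α) = 0 ↔ _
      rcases e2b_tri C γ with ⟨-, h, e⟩ | ⟨-, h, e⟩ | ⟨-, h, e⟩ <;> rw [e] at hs
      · rw [D.one _ (hs.neg_pry D.two D.hw h1)]
        exact iff_of_false (by decide) h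
      · exact iff_of_true (D.zero _ ((hs.pry D.two D.hw).1 h2)) h
      · rw [D.one _ (hs.neg_pry D.two D.hw h3)]
        exact iff_of_false (by decide) h
    · exact C.kap_sg γ
  · have oa := od_eq_zero.2 (even_ord_of_mem_Sq ha)
    have oc := od_eq_zero.2 (even_ord_of_mem_Sq hc)
    change od C.q (γ⁻¹ • (C.a * C.c)) = 0 ↔ _
    rcases e2b_tri C γ with ⟨h, -, e⟩ | ⟨h, -, e⟩ | ⟨h, -, e⟩ <;> rw [e, od_mul]
    · rw [oa, oc]
      exact iff_of_true (by decide) h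
    · rw [oa, hb]
      exact iff_of_false (by decide) h
    · rw [oc, hb]
      exact iff_of_false (by decide) h
  · by_cases ht : t.1 = C.q
    · have k : ∀ x ∈ Sq (val C.q), sy C.q x = 0 := fun x hx =>
        (sy_eq_ns (even_ord_of_mem_Sq hx)).trans (ns_eq_zero.2 hx)
      have sb := congrArg (sy C.q) C.abc
      rw [sy_mul C.sp, sy_mul C.sp, sy_mul C.sp, sy_mul C.sp, k _ ha, k _ hc, k _ hj, sy_nu C.sp,
        k _ (mem_Sq_of_isSquare _ e2b_sq), zero_add, add_zero, add_zero, add_zero] at sb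
      refine ga_ext fun γ => ?_
      change sy t.1 (γ⁻¹ • (C.a * C.c)) = 0
      rw [ht]
      rcases e2b_tri C γ with ⟨-, -, e⟩ | ⟨-, -, e⟩ | ⟨-, -, e⟩ <;>
        simp only [e, sy_mul C.sp, k _ ha, k _ hc, sb, add_zero]
    · exact h _ t.2 ht
  · refine D.co_od C.kap_mem fun w hw e => ht (Subtype.ext ?_)
    rw [Finset.mem_singleton.1 hw] at e
    exact (hS.inj _ hq _ t.2 e).symm

end Pool.Agent.Lib.MP_775b3b_nt.CM
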