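import Pool.Agent.Lib.MP_775b3b_nt.CM.E2b
import Pool.Agent.Lib.MP_775b3b_nt.CM.E1

namespace Pool.Agent.Lib.MP_775b3b_nt.CM

open Pool.Agent.Lib.MP_439fea_co NumberField WithZero

variable {K : Type} [Field K] [NumberField K] [IsGalois ℚ K]


variable [DecidableEq (P K)] {D : Dat K} (C : Cv D) {S T : Finset (P K)} {B : Finset Kˣ}
  {η ξ : Kˣ} {X : K}


/-- the scaling factor of the roots -/
noncomputable def Cv.sc (T : Finset (P K)) (η : Kˣ) : Kˣ :=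
  nu K (∏ v ∈ T, nm v) * nu K (jj C.s (nm C.q)) * η

omit [IsGalois ℚ K] [DecidableEq (P K)] in
/-- a point of the curve, given by `ξ = X - c t` -/
structure Cv.Pt (T : Finset (P K)) (η : Kˣ) (X : K) (ξ : Kˣ) : Prop where
  fix : D.σ X = X
  eq : (ξ : K) = X - (C.sc T η : K) * C.t
  sq : IsSquare (ξ * D.σ • ξ * (D.σ * D.σ) • ξ)

variable {C}

omit [IsGalois ℚ K] [DecidableEq (P K)] in
theorem Cv.Pt.diff (hη : Eta D η) (h : C.Pt T η X ξ) :
    ((C.sc T η * C.a : Kˣ) : K) = (D.σ • ξ : Kˣ) - ξ ∧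
      ((C.sc T η * C.b : Kˣ) : K) = ((D.σ * D.σ) • ξ : Kˣ) - (D.σ • ξ : Kˣ) ∧
      ((C.sc T η * C.c : Kˣ) : K) = ξ - ((D.σ * D.σ) • ξ : Kˣ) := by
  have e : D.σ (C.sc T η : K) = C.sc T η := by
    rw [← val_smul_units, Cv.sc, smul_mul', smul_mul', smul_nu, smul_nu, hη.fix]
  simp only [val_smul_units, Units.val_mul, h.eq, C.ha, C.hb, C.hc, AlgEquiv.mul_apply, map_sub,
    map_mul, h.fix, e]
  exact ⟨by ring, by ring, by ring⟩

omit [IsGalois ℚ K] [DecidableEq (P K)] in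
theorem e2c_sp {κ : Kˣ} (hT : Tw S B κ T) {v : P K} (hv : v ∈ T) : SP v :=
  hT.sp.sp v (by simp [hv])

omit [IsGalois ℚ K] [DecidableEq (P K)] in
theorem e2c_ne (hT : Tw S B (C.a * C.c) T) : ∏ v ∈ T, nm v ≠ 0 :=
  Finset.prod_ne_zero_iff.2 fun _ hv => (e2c_sp hT hv).prime.ne_zero

omit [IsGalois ℚ K] [DecidableEq (P K)] in
theorem e2c_two (hT : Tw S B (C.a * C.c) T) (hη : Eta D η) (h : C.Pt T η X ξ) {g : Ga K}
    (hg : g ∈ D.G) : Pry (g • D.w) ξ ∧ Even (ord (g • D.w) (ξ : K)) ∧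
      Even (ord (g • D.w) ((D.σ • ξ : Kˣ) : K)) ∧
        Even (ord (g • D.w) (((D.σ * D.σ) • ξ : Kˣ) : K)) := by
  have hv : val (g • D.w) (2 : K) < 1 := by
    rw [← (c1b_smul_ofNat g).1, val_smul]
    exact D.hw
  obtain ⟨h1, -, h3⟩ := C.rt.two C.s4 C.sp.one D.two hv ((C.val_t hg D.w).trans C.w1)
  have h4 : val (g • D.w) (((-C.a : Kˣ) : K) - 1) ≤ val (g • D.w) (4 : K) := by
    rw [show ((-C.a : Kˣ) : K) - 1 = -(C.t - D.σ C.t - 3 + 4) by rw [Units.val_neg, C.ha]; ring,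
      Valuation.map_neg]
    exact Valuation.map_add_le _ h1 le_rfl
  have h5 := c1b_one (h4.trans_lt ((c1b_four_le_two _).trans_lt hv))
  rw [Units.val_neg, Valuation.map_neg, ← sunit_ord_eq_zero_iff _ C.a.ne_zero] at h5
  refine loc_two D.two hv h.sq (h.diff hη).1 (h.diff hη).2.1 ?_ ?_
  · rw [← mul_neg]
    refine (((pry_nu ?_ _).mul hv (pry_nu (jj_mod C.s4) _)).mul hv (hη.pry _ hv)).mul hv
      ⟨1, by simpa using h4⟩
    exact Finset.prod_induction _ (· % 4 = 1) (fun a b ha hb => by rw [Nat.mul_mod, ha, hb]) rfl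
      fun v hv => (e2c_sp hT hv).one
  · rw [Units.val_mul, Units.val_mul, ord_mul _ (Units.ne_zero _) C.b.ne_zero,
      ord_mul _ (Units.ne_zero _) C.a.ne_zero, h5, C.hb, h3, add_zero]

theorem Cv.Pt.two (hT : Tw S B (C.a * C.c) T) (hη : Eta D η) (h : C.Pt T η X ξ) :
    (∀ g ∈ D.G, Pry (g • D.w) ξ) ∧ ∀ w : P K, val w (2 : K) < 1 → Even (ord w (ξ : K)) := by
  refine ⟨fun g hg => (e2c_two hT hη h hg).1, fun w hw => ?_⟩
  obtain ⟨γ, rfl⟩ := exists_smul_eq_of_prime Nat.prime_two (w := D.w) (w' := w)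
    (by exact_mod_cast D.hw) (by exact_mod_cast hw)
  rcases D.cub.dec γ with hg | hg | hg
  · exact (e2c_two hT hη h hg).2.1
  · have := (e2c_two hT hη h hg).2.2.1
    rwa [D.cub.cen, mul_smul, c1b_coe, ord_smul] at this
  · have := (e2c_two hT hη h hg).2.2.2
    rwa [D.cub.cen γ, D.cub.cen, ← mul_assoc, mul_smul, c1b_coe, ord_smul] at this

theorem Cv.Pt.good (hT : Tw S B (C.a * C.c) T) (hη : Eta D η) (h : C.Pt T η X ξ) (w : P K)
    (h1 : ∀ g : Ga K, g • C.q ≠ w) (h2 : ∀ v ∈ T, ∀ g : Ga K, g • v ≠ w) :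
    Even (ord w (ξ : K)) := by
  rcases (c1b_two_le_one (val w)).lt_or_eq with hw | hw
  · exact (h.two hT hη).2 w hw
  rcases hη.ev w with e | e
  · have h3 := even_ord_of_mem_Sq (mem_Sq_of_isSquare w h.sq)
    have h4 := ord_smul D.σ w (ξ : K)
    have h5 := ord_smul (D.σ * D.σ) w (ξ : K)
    rw [mul_smul, e, e] at h5
    rw [e] at h4
    rw [Units.val_mul, Units.val_mul, ord_mul w (mul_ne_zero ξ.ne_zero (Units.ne_zero _))
      (Units.ne_zero _), ord_mul w ξ.ne_zero (Units.ne_zero _), c1b_coe, c1b_coe, h4, h5] at h3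
    exact (Int.even_add.1 h3).1 ⟨_, rfl⟩
  obtain ⟨a1, a2, a3⟩ := C.rt.ord_good C.sp.prime.ne_zero hw (C.sp.val_conj h1)
  rw [← C.ha, ← C.hb] at a1
  rw [← C.hb, ← C.hc] at a2
  rw [← C.ha, ← val_nu (jj_ne C.sp.prime.ne_zero)] at a3
  have a4 : ord w (nu K (∏ v ∈ T, nm v) : K) = 0 := by
    rw [sunit_ord_eq_zero_iff _ (Units.ne_zero _), val_nu (e2c_ne hT), Nat.cast_prod, map_prod]
    exact Finset.prod_eq_one fun v hv =>
      (e2c_sp hT hv).val_conj (h2 v hv)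
  have m : ∀ x y : Kˣ, ord w ((x * y : Kˣ) : K) = ord w (x : K) + ord w (y : K) :=
    fun x y => ord_mul w x.ne_zero y.ne_zero
  refine loc_good h.sq (h.diff hη).1 (h.diff hη).2.2 (by rw [m, m, a1]) (by rw [m, m, a2])
    (h.diff hη).2.1 ?_
  obtain ⟨k, e⟩ := e
  rw [m, Cv.sc, m, m, a4, ← a3, e]
  exact ⟨2 * ord w (C.a : K) + k, by ring⟩

theorem Cv.Pt.mem (hT : Tw S B (C.a * C.c) T) (hq : C.q ∈ S) (hη : Eta D η)
    (h : C.Pt T η X ξ) : ξ ∈ D.Z (S ∪ T) := by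
  exact ⟨h.sq, fun w hw => h.good hT hη w (hw _ (Finset.mem_union_left _ hq))
    fun v hv => hw v (Finset.mem_union_right _ hv)⟩

end Pool.Agent.Lib.MP_775b3b_nt.CM
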