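import Pool.Agent.Lib.MP_775b3b_nt.CM.E2c
import Pool.Agent.Lib.MP_775b3b_nt.CM.XDef

namespace Pool.Agent.Lib.MP_775b3b_nt.CM

open Pool.Agent.Lib.MP_439fea_co NumberField WithZero

variable {K : Type} [Field K] [NumberField K] [IsGalois ℚ K]


variable [DecidableEq (P K)] {D : Dat K} (C : Cv D) {S T : Finset (P K)} {B : Finset Kˣ}
  {η ξ : Kˣ} {X : K}


variable {C}

omit [IsGalois ℚ K] [DecidableEq (P K)] in
theorem e2d_sq {v : P K} {x y z Q J : Kˣ} (h : x * y * z = nu K 16 * Q * J)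
    (hQ : Q ∈ Sq (val v)) (hy : y * z ∈ Sq (val v)) : J * x ∈ Sq (val v) := by
  have e : nu K 16 = nu K 4 * nu K 4 := nu_mul (a := 4) (b := 4) (by decide) (by decide)
  refine (Subgroup.mul_mem_cancel_right _ (mul_mem hQ hy)).1 (mem_Sq_of_isSquare v ?_)
  refine ⟨nu K 4 * Q * J, ?_⟩
  calc J * x * (Q * (y * z)) = J * Q * (x * y * z) := by ac_rfl
    _ = _ := by rw [h, e]; ac_rfl

omit [IsGalois ℚ K] [DecidableEq (P K)] in
theorem e2d_nu {v : P K} {n : ℕ} (h : nu K n ∈ Sq (val v)) (g : Ga K) :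
    nu K n ∈ Sq (val (g • v)) := by
  rw [← Sq_smul, smul_nu]
  exact h

omit [IsGalois ℚ K] [DecidableEq (P K)] in
theorem e2d_sp {κ : Kˣ} (hT : Tw S B κ T) {v : P K} (h : v ∈ S ∨ v ∈ T) : SP v := by
  classical
  exact hT.sp.sp v (Finset.mem_union.2 h)

omit [IsGalois ℚ K] [DecidableEq (P K)] in
theorem e2d_inj {κ : Kˣ} (hT : Tw S B κ T) {v w : P K} (h : v ∈ S ∨ v ∈ T) (h' : w ∈ S ∨ w ∈ T)
    (e : nm v = nm w) : v = w := by
  classical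
  exact hT.sp.inj v (Finset.mem_union.2 h) w (Finset.mem_union.2 h') e

omit [IsGalois ℚ K] [DecidableEq (P K)] in
theorem e2d_ne {κ : Kˣ} (hT : Tw S B κ T) {v w : P K} (h : v ∈ S) (h' : w ∈ T) :
    nm v ≠ nm w := fun e =>
  Finset.disjoint_left.1 hT.disj h (e2d_inj hT (.inl h) (.inr h') e ▸ h')

omit [IsGalois ℚ K] [DecidableEq (P K)] in
theorem e2d_tsq {κ : Kˣ} (hT : Tw S B κ T) {v w : P K} (h : v ∈ T) (h' : w ∈ S ∨ w ∈ T)
    (e : w ≠ v) : nu K (nm w) ∈ Sq (val v) := by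
  classical
  exact hT.sq v h w (Finset.mem_union.2 h') e

omit [IsGalois ℚ K] [DecidableEq (P K)] in
theorem e2d_ord (v : P K) (x y : Kˣ) :
    ord v ((x * y : Kˣ) : K) = ord v (x : K) + ord v (y : K) := by
  rw [Units.val_mul, ord_mul v x.ne_zero y.ne_zero]

omit [IsGalois ℚ K] [DecidableEq (P K)] in
theorem e2d_inv (g : Ga K) (x : Kˣ) : (g * D.σ)⁻¹ • x = g⁻¹ • (D.σ * D.σ) • x := by
  rw [D.cub.cen g, mul_inv_rev, (a1_inv D.cub).1, mul_smul]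

omit [IsGalois ℚ K] [DecidableEq (P K)] in
theorem e2d_pos (ρ : K →+* ℝ) (n : ℕ) : 0 < ρ ((nu K n : Kˣ) : K) := by
  rcases eq_or_ne n 0 with rfl | h
  · simp [nu]
  · rw [val_nu h, map_natCast]
    exact Nat.cast_pos.2 (Nat.pos_of_ne_zero h)

omit [NumberField K] [IsGalois ℚ K] [DecidableEq (P K)] in
theorem e2d_pos' (ρ : K →+* ℝ) {x : Kˣ} (h : IsSquare x) : 0 < ρ (x : K) := by
  obtain ⟨r, rfl⟩ := h
  rw [Units.val_mul, map_mul]
  exact mul_self_pos.2 ((map_ne_zero ρ).2 r.ne_zero)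

theorem e2d_max {x y z : ℝ} (h : 0 < x * y * z) (h1 : y < x) (h2 : z < x) : ¬ x < 0 := fun h0 =>
  absurd h (not_lt.2 (mul_nonpos_of_nonneg_of_nonpos
    (mul_pos_of_neg_of_neg h0 (h1.trans h0)).le (h2.trans h0).le))

theorem Cv.Pt.tw (hT : Tw S B (C.a * C.c) T) (hq : C.q ∈ S) (hη : Eta D η)
    (hB : ∀ v ∈ T, ∀ g : Ga K, g • η ∈ Sq (val v)) (h : C.Pt T η X ξ) :
    ∀ v ∈ T, co (sy v) ξ = 0 := by
  have _ : IsGalois ℚ K := inferInstance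
  intro v hv
  refine ga_ext fun γ => ?_
  change sy v (γ⁻¹ • ξ) = 0
  rw [sy_smul]
  have sv := e2d_sp hT (.inr hv)
  have sw := sv.smul γ
  have hne := e2d_ne hT hq hv
  have hQ1 : val (γ • v) ((nm C.q : ℕ) : K) = 1 := sw.val_nat fun e => hne
    ((Nat.prime_dvd_prime_iff_eq sw.prime C.sp.prime).1 e ▸ nm_smul γ v)
  obtain ⟨o1, o2, -⟩ := C.rt.ord_good C.sp.prime.ne_zero sw.two hQ1
  rw [← C.ha, ← C.hb] at o1
  rw [← C.hb, ← C.hc] at o2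
  obtain ⟨d1, d2, d3⟩ := h.diff hη
  have hQ : nu K (nm C.q) ∈ Sq (val (γ • v)) :=
    e2d_nu (e2d_tsq hT hv (.inl hq) fun e => hne (congrArg nm e)) γ
  have hk : ∀ τ : Ga K, Even (ord (γ • v) ((τ • (C.a * C.c) : Kˣ) : K)) →
      τ • (C.a * C.c) ∈ Sq (val (γ • v)) := fun τ he => by
    have e : sy v ((τ⁻¹ * γ)⁻¹ • (C.a * C.c)) = 0 :=
      congrArg (fun m : GA (Ga K) => m.coeff (τ⁻¹ * γ)) (hT.kap v hv)
    rwa [mul_inv_rev, inv_inv, mul_smul, sy_smul, sy_eq_ns he, ns_eq_zero] at e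
  have k1 := hk D.σ
  have k2 := hk (D.σ * D.σ)
  rw [mul_smul] at k2
  simp only [smul_mul', C.smul_a, C.smul_b, C.smul_c, e2d_ord] at k1 k2
  replace k1 := k1 ⟨_, by rw [o1]⟩
  replace k2 := k2 ⟨_, by rw [o2]⟩
  have hd : nu K (∏ v ∈ T, nm v) * nu K (nm (γ • v)) * η ∈ Sq (val (γ • v)) := by
    refine mul_mem ?_ ((Sq_smul γ v η).1 (hB v hv _))
    rw [nu_prod _ _ fun w hw => (e2d_sp hT (.inr hw)).prime.ne_zero, nm_smul,
      ← Finset.prod_erase_mul _ _ hv, mul_assoc]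
    refine mul_mem (Subgroup.prod_mem _ fun w hw => ?_) (mem_Sq_of_isSquare _ ⟨_, rfl⟩)
    exact e2d_nu (e2d_tsq hT hv (.inr (Finset.mem_of_mem_erase hw)) (Finset.ne_of_mem_erase hw)) γ
  have key : ∀ x : Kˣ, nu K (jj C.s (nm C.q)) * x ∈ Sq (val (γ • v)) →
      C.sc T η * x * nu K (nm (γ • v)) ∈ Sq (val (γ • v)) := fun x hx => by
    have e : C.sc T η * x * nu K (nm (γ • v)) =
        nu K (∏ v ∈ T, nm v) * nu K (nm (γ • v)) * η * (nu K (jj C.s (nm C.q)) * x) := by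
      rw [Cv.sc]; ac_rfl
    exact e ▸ mul_mem hd hx
  refine loc_tw sw h.sq d1 d2 d3 (by rw [e2d_ord, e2d_ord, o1]) (by rw [e2d_ord, e2d_ord, o2])
    (key _ (e2d_sq (y := C.c) (z := C.b) (by rw [← C.abc]; ac_rfl) hQ k2))
    (key _ (e2d_sq (y := C.b) (z := C.a) (by rw [← C.abc]; ac_rfl) hQ k1))

theorem Cv.Pt.mult (hT : Tw S B (C.a * C.c) T) (hq : C.q ∈ S) (hη : Eta D η)
    (h : C.Pt T η X ξ) : Zc D.G 1 (co (od C.q) ξ) ∧ ∀ g ∈ D.G,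
      (co (sy C.q) ξ).coeff g = (co (od C.q) ξ).coeff (g * D.σ) * ns C.q (g⁻¹ • η) := by
  have _ : IsGalois ℚ K := inferInstance
  have _ : DecidableEq (P K) := inferInstance
  have key : ∀ g ∈ D.G, Even (ord (g • C.q) (ξ : K)) ∧
      ns (g • C.q) ξ = od (g • C.q) ((D.σ * D.σ) • ξ) * ns C.q (g⁻¹ • η) := fun g hg => by
    have sw := C.sp.smul g
    have hr : Rt C.s (nm (g • C.q)) C.t (D.σ C.t) (D.σ (D.σ C.t)) := by
      rw [nm_smul]; exact C.rt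
    obtain ⟨m1, -, m3, m4⟩ := hr.mult sw (by rw [nm_smul]; exact C.sq)
      ((C.val_t hg C.q).trans C.q1)
    rw [← C.ha] at m1
    rw [← C.hb] at m3
    rw [nm_smul, ← val_nu (jj_ne C.sp.prime.ne_zero)] at m4
    have ha := mem_Sq_of_val sw.two m1
    have hJ := mem_Sq_of_val sw.two m4
    have hd : nu K (∏ v ∈ T, nm v) ∈ Sq (val (g • C.q)) := by
      rw [nu_prod _ _ fun w hw => (e2d_sp hT (.inr hw)).prime.ne_zero]
      refine Subgroup.prod_mem _ fun w hw => e2d_nu ?_ g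
      have hne := e2d_ne hT hq hw
      exact nu_recip C.sp (e2d_sp hT (.inr hw)) hne
        (e2d_tsq hT hw (.inl hq) fun e => hne (congrArg nm e))
    have he : Even (ord (g • C.q) (η : K)) :=
      (hη.ev _).resolve_left fun e => D.cub.ne_one (sw.free _ e)
    have oa : ord (g • C.q) (C.a : K) = 0 :=
      (sunit_ord_eq_zero_iff _ C.a.ne_zero).2 (c1b_one m1)
    obtain ⟨d1, d2, -⟩ := h.diff hη
    have hev : Even (ord (g • C.q) ((C.sc T η * C.a : Kˣ) : K)) := by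
      rw [e2d_ord, oa, add_zero, Cv.sc, e2d_ord]
      exact (even_ord_of_mem_Sq (mul_mem hd hJ)).add he
    obtain ⟨l1, l2⟩ := loc_mult sw.two h.sq d1 d2 hev (by rw [e2d_ord, e2d_ord, oa, m3, add_zero])
    refine ⟨l1, l2.trans (congrArg _ ?_)⟩
    have e : -(C.sc T η * C.a) =
        η * (-1 * (nu K (∏ v ∈ T, nm v) * nu K (jj C.s (nm C.q))) * C.a) := by
      rw [Cv.sc, ← neg_one_mul]; ac_rfl
    rw [e, ns_mul_of_mem _ (mul_mem (mul_mem sw.neg_one (mul_mem hd hJ)) ha)]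
    classical
    rw [ns, ns]
    exact if_congr (Sq_smul _ _ _).symm rfl rfl
  refine ⟨fun g hg => ?_, fun g hg => ?_⟩
  · change od C.q ((g * 1)⁻¹ • ξ) = 0
    rw [mul_one, od_eq_zero, ord_smul']
    exact (key g hg).1
  · change sy C.q (g⁻¹ • ξ) = od C.q ((g * D.σ)⁻¹ • ξ) * _
    rw [sy_smul, sy_eq_ns (key g hg).1, (key g hg).2, e2d_inv, od, od, ord_smul']

omit [IsGalois ℚ K] in
theorem Cv.Pt.inf (hT : Tw S B (C.a * C.c) T) (hη : Eta D η) (h : C.Pt T η X ξ) :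
    ∀ g ∈ D.G, (co (sg D.ρ) ξ).coeff (if sg D.ρ (g⁻¹ • η) = 0 then g else g * D.σ) = 0 := by
  have _ := hT
  have _ : DecidableEq (P K) := inferInstance
  have sa : D.ρ (C.a : K) < 0 := by rw [C.ha, map_sub, sub_neg]; exact C.r1
  have sc : 0 < D.ρ (C.c : K) := by rw [C.hc, map_sub, sub_pos]; exact C.r2
  have sb : D.ρ (C.b : K) < 0 := by
    have e : 0 < D.ρ ((C.a * C.b * C.c : Kˣ) : K) := by
      rw [C.abc, Units.val_mul, Units.val_mul, map_mul, map_mul]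
      exact mul_pos (mul_pos (e2d_pos _ _) (e2d_pos _ _)) (e2d_pos _ _)
    rw [Units.val_mul, Units.val_mul, map_mul, map_mul] at e
    exact neg_of_mul_pos_right ((pos_iff_pos_of_mul_pos e).2 sc) sa.le
  obtain ⟨d1, d2, d3⟩ := h.diff hη
  have key : ∀ g ∈ D.G, ∃ k x y z : ℝ, 0 < k * D.ρ ((g⁻¹ • η : Kˣ) : K) ∧ 0 < x * y * z ∧
      k * D.ρ (C.a : K) = y - x ∧ k * D.ρ (C.b : K) = z - y ∧ k * D.ρ (C.c : K) = x - z ∧
      x = D.ρ ((g⁻¹ • ξ : Kˣ) : K) ∧ z = D.ρ ((g⁻¹ • (D.σ * D.σ) • ξ : Kˣ) : K) := fun g hg => by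
    obtain ⟨f1, f2, f3⟩ := C.fix_a (inv_mem hg)
    have t : ∀ x y z : Kˣ, g⁻¹ • x = x → ((C.sc T η * x : Kˣ) : K) = y - z →
        D.ρ ((g⁻¹ • C.sc T η : Kˣ) : K) * D.ρ (x : K) =
          D.ρ ((g⁻¹ • y : Kˣ) : K) - D.ρ ((g⁻¹ • z : Kˣ) : K) := fun x y z hx e => by
      rw [← map_mul, ← map_sub, ← Units.val_mul, ← hx, ← smul_mul', val_smul_units, e, map_sub]
      rfl
    refine ⟨D.ρ ((g⁻¹ • C.sc T η : Kˣ) : K), _, D.ρ ((g⁻¹ • D.σ • ξ : Kˣ) : K), _, ?_, ?_,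
      t _ _ _ f1 d1, t _ _ _ f2 d2, t _ _ _ f3 d3, rfl, rfl⟩
    · have e := e2d_pos' D.ρ (IsSquare.mul_self (g⁻¹ • η))
      rw [Units.val_mul, map_mul] at e
      rw [Cv.sc, smul_mul', smul_mul', smul_nu, smul_nu, Units.val_mul, Units.val_mul, map_mul,
        map_mul, mul_assoc]
      exact mul_pos (mul_pos (e2d_pos _ _) (e2d_pos _ _)) e
    · obtain ⟨r, hr⟩ := h.sq
      rw [← map_mul, ← map_mul, ← Units.val_mul, ← Units.val_mul, ← smul_mul', ← smul_mul', hr]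
      exact e2d_pos' _ ⟨g⁻¹ • r, smul_mul' _ _ _⟩
  intro g hg
  rcases ((map_ne_zero D.ρ).2 (g⁻¹ • η).ne_zero).lt_or_gt.symm with h0 | h0
  · obtain ⟨k, x, y, z, k1, k2, k3, -, k5, k6, -⟩ := key g hg
    have hk : 0 < k := (pos_iff_pos_of_mul_pos k1).2 h0
    rw [if_pos (show sg D.ρ (g⁻¹ • η) = 0 from if_neg h0.not_gt)]
    change sg D.ρ (g⁻¹ • ξ) = 0
    rw [sg, ← k6]
    exact if_neg (e2d_max k2 (sub_neg.1 (k3 ▸ mul_neg_of_pos_of_neg hk sa))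
      (sub_pos.1 (k5 ▸ mul_pos hk sc)))
  · obtain ⟨k, x, y, z, k1, k2, -, k4, k5, -, k7⟩ := key g hg
    have hk : k < 0 := neg_of_mul_pos_left k1 h0.le
    rw [if_neg (by rw [sg, if_pos h0]; exact one_ne_zero)]
    change sg D.ρ ((g * D.σ)⁻¹ • ξ) = 0
    rw [e2d_inv, sg, ← k7]
    exact if_neg (e2d_max (y := x) (z := y) (by rwa [mul_rotate])
      (sub_neg.1 (k5 ▸ mul_neg_of_neg_of_pos hk sc)) (sub_pos.1 (k4 ▸ mul_pos_of_neg_of_neg hk sb)))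

theorem e2d_two (hT : Tw S B (C.a * C.c) T) (hη : Eta D η) (h : C.Pt T η X ξ) :
    Zc D.G 1 (cz D.α (sig ξ)) := fun g hg => by
  obtain ⟨t1, t2⟩ := h.two hT hη
  change tr2 (((g * 1)⁻¹ • sig ξ) * D.α) = 0
  rw [mul_one]
  exact D.zero _ ((((sig_spec D.two t2).smul g⁻¹).pry D.two D.hw).1 (Pry.smul g (t1 g hg)))

theorem e2d_aux (hT : Tw S B (C.a * C.c) T) (hq : C.q ∈ S) (hη : Eta D η) (h : C.Pt T η X ξ)
    (t : S) (ht : t ≠ ⟨C.q, hq⟩) : co (od t.1) ξ = 0 := by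
  refine ga_ext fun g => ?_
  change od t.1 (g⁻¹ • ξ) = 0
  rw [od_eq_zero, ord_smul']
  refine h.good hT hη _ (fun g' e => ht (Subtype.ext ?_)) fun v hv g' e => e2d_ne hT t.2 hv ?_
  · exact e2d_inj hT (.inl t.2) (.inl hq) (by rw [← nm_smul g t.1, ← e, nm_smul])
  · rw [← nm_smul g t.1, ← e, nm_smul]

theorem Cv.Pt.lx (hT : Tw S B (C.a * C.c) T) (hq : C.q ∈ S) (hη : Eta D η)
    (hs : ∀ g : Ga K, ns C.q (g • η) = sg D.ρ (g • η)) (h : C.Pt T η X ξ) :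
    Lx D.σ D.G (⟨C.q, hq⟩ : S) (fun g => sg D.ρ (g⁻¹ • η)) (D.loc S ξ) := by
  obtain ⟨m1, m2⟩ := h.mult hT hq hη
  exact ⟨e2d_two hT hη h, h.inf hT hη, m1, fun g hg => hs g⁻¹ ▸ m2 g hg, e2d_aux hT hq hη h⟩

end Pool.Agent.Lib.MP_775b3b_nt.CM
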