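import Pool.Agent.Lib.MP_775b3b_nt.CM.E2d
import Pool.Agent.Lib.MP_775b3b_nt.CM.C9b
import Pool.Agent.Lib.MP_775b3b_nt.CM.C8

namespace Pool.Agent.Lib.MP_775b3b_nt.CM

open Pool.Agent.Lib.MP_439fea_co NumberField WithZero

variable {K : Type} [Field K] [NumberField K] [IsGalois ℚ K]

omit [IsGalois ℚ K] in
theorem e2e_pt {D : Dat K} (C : Cv D) (T : Finset (P K)) {η : Kˣ} (hη : Eta D η) {X : K}
    (hX : D.σ X = X) (h : IsSquare (cb C.s (nm C.q) (C.sc T η : K) X)) : ∃ ξ, C.Pt T η X ξ := by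
  have h1 : D.σ (C.sc T η : K) = C.sc T η := congrArg Units.val
    (show D.σ • C.sc T η = C.sc T η by rw [Cv.sc, smul_mul', smul_mul', smul_nu, smul_nu, hη.fix])
  have h2 : D.σ (X - C.sc T η * C.t) = X - C.sc T η * D.σ C.t := by rw [map_sub, map_mul, hX, h1]
  have h3 : X - C.sc T η * C.t ≠ 0 := fun e => (C.sc T η * C.a).ne_zero (by
    rw [e, map_zero] at h2
    rw [Units.val_mul, C.ha]
    linear_combination -e - h2)
  refine ⟨Units.mk0 _ h3, hX, rfl, isSquare_units.2 ?_⟩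
  rw [← C.rt.prod] at h
  change IsSquare ((X - C.sc T η * C.t) * D.σ (X - C.sc T η * C.t) *
    D.σ (D.σ (X - C.sc T η * C.t)))
  rwa [h2, map_sub, map_mul, hX, h1]

theorem Cv.main {D : Dat K} (C : Cv D) {B : Finset Kˣ} (hη : ∀ η ∈ B, Eta D η)
    (hs : ∀ η ∈ B, ∀ g : Ga K, ns C.q (g • η) = sg D.ρ (g • η)) : ∃ d : ℕ, 0 < d ∧
    ∀ η ∈ B, ∀ X : K, D.σ X = X →
      IsSquare (cb C.s (nm C.q) (((d * jj C.s (nm C.q) : ℕ) : K) * η) X) →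
      IsSquare (X - ((d * jj C.s (nm C.q) : ℕ) : K) * η * C.t) := by
  classical
  obtain ⟨S, hq, hS, hI, hk⟩ := D.exists_aux C.sp C.kap_mem
    (fun g hg => by rw [smul_mul', (C.fix_a hg).1, (C.fix_a hg).2.2]) C.kap_sg
  obtain ⟨T, hT, h⟩ := D.core hS hI B (fun b hb => (hη b hb).fix)
    (D.Z_mono (Finset.singleton_subset_iff.2 hq) C.kap_mem) ⟨C.q, hq⟩ (C.kap hS hq hk)
  have hd : ∏ v ∈ T, nm v ≠ 0 := Finset.prod_ne_zero_iff.2 fun v hv =>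
    (hT.sp.sp v (Finset.mem_union_right _ hv)).prime.ne_zero
  have e : ∀ η : Kˣ, (C.sc T η : K) = (((∏ v ∈ T, nm v) * jj C.s (nm C.q) : ℕ) : K) * η :=
    fun η => by
      rw [Cv.sc, Units.val_mul, Units.val_mul, val_nu hd, val_nu (jj_ne C.sp.prime.ne_zero),
        Nat.cast_mul]
  refine ⟨_, Nat.pos_of_ne_zero hd, fun η hB X hX h1 => ?_⟩
  obtain ⟨ξ, hξ⟩ := e2e_pt C T (hη η hB) hX (e η ▸ h1)
  rw [← e η, ← hξ.eq]
  exact isSquare_units.1 (h ξ (hξ.mem hT hq (hη η hB)) (hξ.tw hT hq (hη η hB)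
    fun v hv => hT.sqB v hv η hB) _ (hξ.lx hT hq (hη η hB) (hs η hB)))

end Pool.Agent.Lib.MP_775b3b_nt.CM
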