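import Pool.Agent.Lib.MP_775b3b_nt.CM.EDef

namespace Pool.Agent.Lib.MP_775b3b_nt.CM

open Pool.Agent.Lib.MP_439fea_co NumberField WithZero

/-- the rotation of the roots -/
def e3a_R {K : Type} [Field K] (Q : ℕ) (u : K) : K := 8 * Q * (u + 24 * Q) / (8 * Q - u)

theorem e3a_map {K L : Type} [Field K] [Field L] (φ : K →+* L) (Q : ℕ) (u : K) :
    φ (e3a_R Q u) = e3a_R Q (φ u) := by
  simp [e3a_R, map_ofNat]

theorem e3a_cb {K L : Type} [Field K] [Field L] (φ : K →+* L) (s Q : ℕ) (u : K) :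
    φ (cb s Q 1 u) = cb s Q 1 (φ u) := by
  simp [cb, map_ofNat]

theorem e3a_rt {K : Type} [Field K] [CharZero K] {s Q : ℕ} (hQ : Q ≠ 0) {t : K}
    (h : cb s Q 1 t = 0) : Rt s Q t (e3a_R Q t) (e3a_R Q (e3a_R Q t)) ∧
      e3a_R Q (e3a_R Q (e3a_R Q t)) = t := by
  have hq : (Q : K) ≠ 0 := Nat.cast_ne_zero.2 hQ
  have h3 : (4096 : K) * Q ^ 3 ≠ 0 := mul_ne_zero (by norm_num) (pow_ne_zero _ hq)
  rw [cb] at h
  have h1 : 8 * (Q : K) - t ≠ 0 := fun e => h3 (by
    rw [← sub_eq_zero.1 e] at h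
    linear_combination -h)
  have h2 : t + 8 * (Q : K) ≠ 0 := fun e => h3 (by
    rw [eq_neg_of_add_eq_zero_left e] at h
    linear_combination h)
  have e2 : e3a_R Q (e3a_R Q t) = 8 * Q * (t - 24 * Q) / (t + 8 * Q) := by
    have : 8 * (Q : K) - 8 * Q * (t + 24 * Q) / (8 * Q - t) =
        -(16 * Q * (t + 8 * Q)) / (8 * Q - t) := by
      field_simp
      ring
    rw [e3a_R, e3a_R, this]
    field_simp
    ring
  have e3 : e3a_R Q (8 * Q * (t - 24 * Q) / (t + 8 * Q)) = t := by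
    have : 8 * (Q : K) - 8 * Q * (t - 24 * Q) / (t + 8 * Q) = 256 * Q ^ 2 / (t + 8 * Q) := by
      field_simp
      ring
    rw [e3a_R, this]
    field_simp
    ring
  have hs : (s : K) = (576 * Q ^ 2 * t - t ^ 3) / ((8 * Q - t) * (t + 8 * Q)) := by
    rw [eq_div_iff (mul_ne_zero h1 h2)]
    linear_combination h
  have hj : ((jj s Q : ℕ) : K) = s ^ 2 + 1728 * Q ^ 2 := by simp [jj]
  rw [e2, e3a_R]
  refine ⟨⟨?_, ?_, ?_, ?_⟩, e3⟩
  all_goals
    try rw [hj]
    try rw [hs]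
    field_simp
    ring

theorem e3a_fac {K : Type} [CommRing K] {s Q : ℕ} {a b c : K} (h : Rt s Q a b c) (x : K) :
    cb s Q 1 x = (x - a) * (x - b) * (x - c) := by
  rw [cb]
  linear_combination x ^ 2 * h.e1 - x * h.e2 + h.e3

open Polynomial in
/-- the cubic as a polynomial -/
noncomputable def e3a_f (F : Type) [Field F] (s Q : ℕ) : F[X] :=
  X ^ 3 - C (s : F) * X ^ 2 - C (576 * (Q : F) ^ 2) * X + C (64 * s * (Q : F) ^ 2)

open Polynomial in
theorem e3a_eval {F K : Type} [Field F] [Field K] (ι : F →+* K) (s Q : ℕ) (x : K) :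
    (e3a_f F s Q).eval₂ ι x = cb s Q 1 x := by
  simp [e3a_f, cb, eval₂_sub, eval₂_add, eval₂_mul, eval₂_pow, map_ofNat]

open Polynomial in
theorem exists_cubic (F : Type) [Field F] [NumberField F] [IsGalois ℚ F] {s Q : ℕ} (hQ : Q ≠ 0)
    (h : ∀ x : F, cb s Q 1 x ≠ 0) :
    ∃ (K : Type) (_ : Field K) (_ : NumberField K) (_ : Algebra F K) (_ : IsGalois ℚ K)
      (t : K) (σ : Ga K), CE s Q F t σ := by
  have hm : (e3a_f F s Q).Monic := by
    unfold e3a_f
    monicity!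
  have hd : (e3a_f F s Q).natDegree = 3 := by
    unfold e3a_f
    compute_degree!
  have : Fact (Irreducible (e3a_f F s Q)) := ⟨by
    rw [hm.irreducible_iff_roots_eq_zero_of_degree_le_three (by omega) hd.le]
    refine Multiset.eq_zero_of_forall_notMem fun x hx => h x ?_
    rw [← e3a_eval (RingHom.id F), eval₂_id]
    exact (mem_roots hm.ne_zero).1 hx⟩
  let K := AdjoinRoot (e3a_f F s Q)
  let t : K := AdjoinRoot.root _
  have : CharZero K := charZero_of_injective_algebraMap (algebraMap F K).injective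
  have : IsScalarTower ℚ F K := IsScalarTower.of_algebraMap_eq' (Subsingleton.elim _ _)
  have : FiniteDimensional F K := (AdjoinRoot.powerBasis hm.ne_zero).finite
  have : FiniteDimensional ℚ K := Module.Finite.trans F K
  have : NumberField K := {}
  have ht : cb s Q 1 t = 0 := by
    rw [← e3a_eval (AdjoinRoot.of (e3a_f F s Q))]
    exact AdjoinRoot.eval₂_root _
  have hl : ∀ (Ω : Type) [Field Ω] (ι : F →+* Ω) (t' : Ω), cb s Q 1 t' = 0 →
      ∃ φ : K →+* Ω, φ t = t' ∧ ∀ y : F, φ (algebraMap F K y) = ι y := fun Ω _ ι t' h' =>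
    ⟨AdjoinRoot.lift ι t' ((e3a_eval ι s Q t').trans h'), AdjoinRoot.lift_root _,
      fun _ => AdjoinRoot.lift_of _⟩
  have hx : ∀ a b : K →+* K, (∀ y : F, a (algebraMap F K y) = b (algebraMap F K y)) →
      a t = b t → ∀ x, a x = b x := fun a b h1 h2 =>
    DFunLike.congr_fun (AdjoinRoot.ringHom_ext (RingHom.ext h1) h2)
  obtain ⟨hr, h3⟩ := e3a_rt hQ ht
  obtain ⟨φ, hφ, hφ'⟩ := hl K (algebraMap F K) (e3a_R Q t) (by rw [e3a_fac hr]; ring)
  have p3 : ∀ x, φ (φ (φ x)) = x := hx (φ.comp (φ.comp φ)) (RingHom.id K)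
    (fun y => by simp [hφ']) (by simp [hφ, e3a_map, h3])
  obtain ⟨p, hp, hs⟩ := IsGalois.is_separable_splitting_field ℚ F
  have hg : (e3a_f ℚ s Q).map (algebraMap ℚ F) = e3a_f F s Q := by simp [e3a_f]
  have : IsSplittingField F K ((e3a_f ℚ s Q).map (algebraMap ℚ F)) := by
    rw [hg]
    refine ⟨?_, eq_top_iff.2 ?_⟩
    · rw [show (e3a_f F s Q).map (algebraMap F K) =
        (X - C t) * (X - C (e3a_R Q t)) * (X - C (e3a_R Q (e3a_R Q t))) from
        Polynomial.funext fun x => by rw [eval_map, e3a_eval, e3a_fac hr]; simp]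
      exact ((Splits.X_sub_C _).mul (Splits.X_sub_C _)).mul (Splits.X_sub_C _)
    · rw [← AdjoinRoot.adjoinRoot_eq_top]
      exact Algebra.adjoin_mono (Set.singleton_subset_iff.2
        (mem_rootSet.2 ⟨hm.ne_zero, (e3a_eval _ s Q t).trans ht⟩))
  have := IsSplittingField.mul (K := F) (L := K) p (e3a_f ℚ s Q) hp.ne_zero
    (fun e => hm.ne_zero (by rw [← hg, e, Polynomial.map_zero]))
  have : Normal ℚ K := Normal.of_isSplittingField (p * e3a_f ℚ s Q)
  have : IsGalois ℚ K := {}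
  have := IsGalois.tower_top_of_isGalois ℚ F K
  obtain ⟨σ, hσ⟩ : ∃ σ : Ga K, ∀ x, σ x = φ x := ⟨AlgEquiv.ofBijective φ.toRatAlgHom
    ⟨φ.injective, fun x => ⟨φ (φ x), p3 x⟩⟩, fun _ => rfl⟩
  have s1 : σ t = e3a_R Q t := (hσ t).trans hφ
  have s2 : σ (σ t) = e3a_R Q (e3a_R Q t) := by rw [hσ, s1, e3a_map, hφ]
  have gx : ∀ a b : Ga K, (∀ y : F, a (algebraMap F K y) = b (algebraMap F K y)) →
      a t = b t → a = b := fun a b h1 h2 => AlgEquiv.ext (hx (a : K →+* K) (b : K →+* K) h1 h2)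
  have rt : ∀ g : Ga K, g t = t ∨ g t = σ t ∨ g t = σ (σ t) := fun g => by
    have h1 := e3a_cb (g : K →+* K) s Q t
    rw [ht, map_zero, e3a_fac hr, ← s2, ← s1] at h1
    simpa only [RingHom.coe_coe, zero_eq_mul, mul_eq_zero, sub_eq_zero, or_assoc] using h1
  have cen : ∀ g : Ga K, g * σ = σ * g := fun g => gx _ _ (fun y => by
      rw [AlgEquiv.mul_apply, AlgEquiv.mul_apply, hσ, hσ, hφ',
        ← AlgEquiv.restrictNormal_commutes, hφ']) (by
      have h1 := e3a_map (g : K →+* K) Q t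
      rw [AlgEquiv.mul_apply, AlgEquiv.mul_apply, s1]
      refine h1.trans ?_
      rcases rt g with e | e | e <;> simp [e, hσ, hφ, e3a_map])
  have res : ∀ g : Ga K, (∀ y : F, g (algebraMap F K y) = algebraMap F K y) →
      g = 1 ∨ g = σ ∨ g = σ * σ := fun g hy =>
    (rt g).imp (gx _ _ hy) (Or.imp (gx _ _ fun y => by rw [hy, hσ, hφ'])
      (gx _ _ fun y => by rw [hy, AlgEquiv.mul_apply, hσ, hσ, hφ', hφ']))
  have c1 : ∀ (g : Ga K) x, g (σ x) = σ (g x) := fun g x => DFunLike.congr_fun (cen g) x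
  refine ⟨K, inferInstance, inferInstance, inferInstance, inferInstance, t, σ,
    ⟨AlgEquiv.ext fun x => by simp [hσ, p3], fun e => ?_, cen, fun g => ?_⟩,
    by rw [s2, s1]; exact hr, fun x => ⟨fun e => ?_, ?_⟩, res, hl⟩
  · have h1 := hr.di
    rw [← s1, show σ t = t from e, sub_self, zero_mul, zero_mul] at h1
    have := Nat.pos_of_ne_zero hQ
    exact mul_ne_zero (mul_ne_zero (by norm_num) (Nat.cast_ne_zero.2 hQ))
      (Nat.cast_ne_zero.2 (by unfold jj; positivity)) h1.symm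
  · simp only [MulAction.mem_stabilizer_iff, AlgEquiv.smul_def, AlgEquiv.mul_apply, c1]
    rcases rt g with e | e | e <;> simp [e, hσ, p3]
  · refine (IsGalois.mem_range_algebraMap_iff_fixed x).2 fun τ => ?_
    rcases res (τ.restrictScalars ℚ) τ.commutes with a | a | a <;>
      simpa [e] using DFunLike.congr_fun a x
  · rintro ⟨y, rfl⟩
    rw [hσ, hφ']

end Pool.Agent.Lib.MP_775b3b_nt.CM
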