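import Pool.Agent.Lib.MP_775b3b_nt.CM.E2a
import Pool.Agent.Lib.MP_775b3b_nt.CM.C6b

namespace Pool.Agent.Lib.MP_775b3b_nt.CM

open Pool.Agent.Lib.MP_439fea_co NumberField WithZero

variable {F K : Type} [Field F] [NumberField F] [Field K] [NumberField K] [Algebra F K]
  {s Q : ℕ} {t : K} {σ : Ga K}

/-- the automorphisms that fix the subfield -/
def e3b_N (F K : Type) [Field F] [Field K] [NumberField K] [Algebra F K] : Subgroup (Ga K) where
  carrier := {g | ∀ y : F, g (algebraMap F K y) = algebraMap F K y}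
  one_mem' _ := rfl
  mul_mem' {a b} ha hb y := by rw [AlgEquiv.mul_apply, hb, ha]
  inv_mem' {a} ha y := a.injective (by rw [ha, ← AlgEquiv.mul_apply, mul_inv_cancel]; rfl)

omit [NumberField F] in
theorem e3b_mem (h : CE s Q F t σ) : σ ∈ e3b_N F K := fun y => (h.fix _).2 ⟨y, rfl⟩

omit [NumberField F] in
theorem e3b_one (h : CE s Q F t σ) {w : P K} (hw : σ • w ≠ w) {g : Ga K} (hg : g ∈ e3b_N F K)
    (h1 : g • w = w) : g = 1 := by
  rcases h.res g hg with rfl | rfl | rfl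
  · rfl
  · exact absurd h1 hw
  · refine absurd ?_ hw
    have := congrArg (fun v : P K => σ • v) h1
    rw [← mul_smul, ← mul_assoc, h.cub.three, one_smul] at this
    exact this.symm

omit [NumberField F] in
theorem e3b_near (h : CE s Q F t σ) {w : P K} (hw : σ • w ≠ w) (y : K) (n : ℤ) :
    ∃ z : F, val w (y - algebraMap F K z) ≤ exp n := by
  obtain ⟨x, hx, hx'⟩ := avg (e3b_N F K) w y (exp n) exp_ne_zero fun g hg h1 => by
    rw [e3b_one h hw hg h1, one_smul, sub_self, map_zero]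
    exact zero_le
  obtain ⟨z, rfl⟩ := (h.fix x).1 (hx σ (e3b_mem h))
  exact ⟨z, by rwa [Valuation.map_sub_swap]⟩

theorem e3b_und {g : Ga K} (hg : g ∈ e3b_N F K) (w : P K) : und F (g • w) = und F w := by
  apply IsDedekindDomain.HeightOneSpectrum.ext
  ext x
  change algebraMap (𝓞 F) (𝓞 K) x ∈ (g • w).asIdeal ↔ algebraMap (𝓞 F) (𝓞 K) x ∈ w.asIdeal
  have : g • algebraMap (𝓞 F) (𝓞 K) x = algebraMap (𝓞 F) (𝓞 K) x := by
    apply RingOfIntegers.ext
    exact hg (x : F)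
  rw [smul_asIdeal, ← Ideal.smul_mem_pointwise_smul_iff (a := g) (S := w.asIdeal), this]

omit [NumberField K] in
theorem e3b_le {v : Valuation K ℤᵐ⁰} {y z : K} (hy : v y ≤ 1) (h : v (y - z) < 1) : v z ≤ 1 := by
  have := v.map_sub_le hy h.le
  rwa [sub_sub_cancel] at this

theorem e3b_three (h : Cub σ (MulAction.stabilizer (Ga K) t)) (x : K) : σ (σ (σ x)) = x := by
  rw [← AlgEquiv.mul_apply, ← AlgEquiv.mul_apply, h.three]
  rfl

theorem e3b_nm {w : P K} {p : ℕ} (hp : p.Prime) (h : val w (p : K) < 1)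
    (hr : ∀ y : K, val w y ≤ 1 → ∃ n : ℤ, val w (y - n) < 1) : nm w = p := by
  have := Fact.mk hp
  have := w.isPrime
  have hc : CharP (𝓞 K ⧸ w.asIdeal) p := by
    rw [CharP.charP_iff_prime_eq_zero hp, ← map_natCast (Ideal.Quotient.mk w.asIdeal),
      Ideal.Quotient.eq_zero_iff_mem, ← Val_lt_iff_mem]
    exact h
  rw [nm, Ideal.absNorm_apply, Submodule.cardQuot_apply]
  refine (Nat.card_eq_of_bijective (ZMod.castHom (dvd_refl p) (𝓞 K ⧸ w.asIdeal))
    ⟨RingHom.injective _, fun x => ?_⟩).symm.trans (Nat.card_zmod p)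
  obtain ⟨x, rfl⟩ := Ideal.Quotient.mk_surjective x
  obtain ⟨n, hn⟩ := hr x (w.valuation_le_one x)
  refine ⟨n, ?_⟩
  rw [map_intCast, ← map_intCast (Ideal.Quotient.mk w.asIdeal), eq_comm, Ideal.Quotient.eq,
    ← Val_lt_iff_mem]
  exact hn

theorem e3b_root (s Q : ℕ) : ∃ x : ℝ, cb s Q 1 x = 0 := by
  have hc : Continuous fun x : ℝ => cb s Q 1 x := by
    unfold cb
    fun_prop
  have hQ : (0 : ℝ) ≤ 4096 * Q ^ 3 := by positivity
  have h1 : cb s Q 1 (8 * Q : ℝ) ≤ 0 := by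
    rw [show cb s Q 1 (8 * Q : ℝ) = -(4096 * Q ^ 3) by unfold cb; ring]
    exact neg_nonpos.2 hQ
  have h2 : 0 ≤ cb s Q 1 (-(8 * Q) : ℝ) := by
    rwa [show cb s Q 1 (-(8 * Q) : ℝ) = 4096 * Q ^ 3 by unfold cb; ring]
  exact intermediate_value_univ _ _ hc ⟨h1, h2⟩

theorem CE.split (h : CE s Q F t σ) {w : P K} (hw : σ • w ≠ w) :
    (∀ x : F, val w (algebraMap F K x) = val (und F w) x) ∧
      ∀ y : K, val w y ≤ 1 → ∃ z : F, val w (y - algebraMap F K z) < 1 := by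
  refine ⟨?_, fun y _ => (e3b_near h hw y (-1)).imp fun z hz => hz.trans_lt c1a_lt⟩
  obtain ⟨e, -, he⟩ := val_algebraMap F w
  obtain ⟨p, hp⟩ := w.valuation_surjective K (exp (-1 : ℤ))
  replace hp : val w p = exp (-1 : ℤ) := hp
  obtain ⟨z, hz⟩ := e3b_near h hw p (-2)
  have h1 : val w (algebraMap F K z) = exp (-1 : ℤ) := by
    rw [← hp]
    refine Valuation.map_eq_of_sub_lt _ ?_
    rw [Valuation.map_sub_swap, hp]
    exact hz.trans_lt (exp_lt_exp.2 (by decide))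
  have z0 : z ≠ 0 := fun h0 => exp_ne_zero (by rw [← h1, h0, map_zero, map_zero])
  rw [he, val_eq_exp _ z0, ← exp_nsmul, exp_inj, smul_neg, neg_inj, nsmul_eq_mul] at h1
  have h2 : e = 1 := by exact_mod_cast Int.eq_one_of_mul_eq_one_right (Nat.cast_nonneg e) h1
  intro x
  rw [he, h2, pow_one]

theorem CE.move (h : CE s Q F t σ) {w : P K} (hs : val w (s : K) = 1)
    (h2 : val w (2 * Q : K) < 1) : σ • w ≠ w := by
  intro hw
  have k : ∀ x : K, val w (σ x) = val w x := (mem_stabilizer_iff_val σ w).1 hw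
  have := h.rt.unit hs h2
  simp only [k] at this
  rcases this with ⟨a, b, -⟩ | ⟨a, b, -⟩ | ⟨a, b, -⟩ <;> exact b.ne a

theorem CE.choose (h : CE s Q F t σ) {w : P K} (hs : val w (s : K) = 1)
    (h2 : val w (2 * Q : K) < 1) : ∃ w' : P K, und F w' = und F w ∧ val w' t = 1 ∧
      ∀ g : Ga K, g • w' = w' → g ∈ MulAction.stabilizer (Ga K) t := by
  have key : ∀ a ∈ e3b_N F K, val w (a t) = 1 → ∃ w' : P K, und F w' = und F w ∧ val w' t = 1 ∧
      ∀ g : Ga K, g • w' = w' → g ∈ MulAction.stabilizer (Ga K) t := by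
    intro a ha h1
    have k : ∀ x : K, val (a⁻¹ • w) x = val w (a x) := fun x => by
      rw [← val_smul a, smul_inv_smul, AlgEquiv.smul_def]
    have h3 : val (a⁻¹ • w) t = 1 := (k t).trans h1
    refine ⟨a⁻¹ • w, e3b_und (inv_mem ha) w, h3, fun g hg => ?_⟩
    have k2 : ∀ x : K, val (a⁻¹ • w) (g x) = val (a⁻¹ • w) x := (mem_stabilizer_iff_val g _).1 hg
    have h4 := h.rt.unit (v := a⁻¹ • w) (by rwa [k, map_natCast])
      (by rwa [k, map_mul, map_natCast, map_ofNat])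
    have h5 : val (a⁻¹ • w) (σ t) < 1 ∧ val (a⁻¹ • w) (σ (σ t)) < 1 := by
      rcases h4 with ⟨-, b⟩ | ⟨-, -, b⟩ | ⟨-, b, -⟩
      · exact b
      · exact absurd h3 b.ne
      · exact absurd h3 b.ne
    rcases h.cub.dec g with h6 | h6 | h6
    · exact h6
    · replace h6 : g (σ t) = t := h6
      exact absurd (by rw [← k2, h6, h3]) h5.1.ne
    · replace h6 : g (σ (σ t)) = t := h6
      exact absurd (by rw [← k2, h6, h3]) h5.2.ne
  rcases h.rt.unit hs h2 with ⟨a, -⟩ | ⟨a, -⟩ | ⟨a, -⟩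
  · exact key 1 (one_mem _) a
  · exact key σ (e3b_mem h) a
  · exact key (σ * σ) (mul_mem (e3b_mem h) (e3b_mem h)) a

theorem CE.root (h : CE s Q F t σ) {w : P K} (hw : σ • w ≠ w) :
    ∃ x : F, val (und F w) x ≤ 1 ∧ val (und F w) (cb s Q 1 x) < 1 := by
  obtain ⟨h1, h2⟩ := h.split hw
  obtain ⟨z, hz⟩ := h2 t (h.rt.val_le w)
  have h3 := e3b_le (h.rt.val_le w) hz
  refine ⟨z, h1 z ▸ h3, ?_⟩
  have h4 : algebraMap F K (cb s Q 1 z) = cb s Q 1 (algebraMap F K z) := by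
    simp only [cb, map_add, map_sub, map_mul, map_pow, map_natCast, map_ofNat, map_one]
  rw [← h1, h4, ← h.rt.prod, one_mul, one_mul, one_mul, map_mul, map_mul, Valuation.map_sub_swap]
  exact (mul_le_of_le_one_right' (Valuation.map_sub_le _ h3 (h.rt.rot.rot.val_le w))).trans_lt
    ((mul_le_of_le_one_right' (Valuation.map_sub_le _ h3 (h.rt.rot.val_le w))).trans_lt hz)

theorem CE.real (h : CE s Q F t σ) (hQ : Q ≠ 0) (ρ : F →+* ℝ) :
    ∃ ρ' : K →+* ℝ, (∀ x : F, ρ' (algebraMap F K x) = ρ x) ∧ ρ' t < ρ' (σ t) ∧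
      ρ' t < ρ' (σ (σ t)) := by
  obtain ⟨x, hx⟩ := e3b_root s Q
  obtain ⟨φ, -, hφ⟩ := h.lift ℝ ρ x hx
  have key : ∀ a ∈ e3b_N F K, φ (a t) < φ (a (σ t)) → φ (a t) < φ (a (σ (σ t))) →
      ∃ ρ' : K →+* ℝ, (∀ x : F, ρ' (algebraMap F K x) = ρ x) ∧ ρ' t < ρ' (σ t) ∧
        ρ' t < ρ' (σ (σ t)) := fun a ha h1 h2 =>
    ⟨φ.comp (a : K →+* K), fun y => (congrArg φ (ha y)).trans (hφ y), h1, h2⟩
  have h0 : (t - σ t) * (σ t - σ (σ t)) * (σ (σ t) - t) ≠ 0 := by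
    rw [h.rt.di]
    exact mul_ne_zero (mul_ne_zero (by norm_num) (Nat.cast_ne_zero.2 hQ))
      (Nat.cast_ne_zero.2 (jj_ne hQ))
  have h1 := φ.injective.ne (sub_ne_zero.1 (left_ne_zero_of_mul (left_ne_zero_of_mul h0)))
  have h2 := φ.injective.ne (sub_ne_zero.1 (right_ne_zero_of_mul (left_ne_zero_of_mul h0)))
  have h3 := φ.injective.ne (sub_ne_zero.1 (right_ne_zero_of_mul h0))
  have k1 := key 1 (one_mem _)
  have k2 := key σ (e3b_mem h)
  have k3 := key (σ * σ) (mul_mem (e3b_mem h) (e3b_mem h))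
  simp only [AlgEquiv.one_apply, AlgEquiv.mul_apply, e3b_three h.cub] at k1 k2 k3
  rcases h1.lt_or_gt with a | a <;> rcases h2.lt_or_gt with b | b <;>
    rcases h3.lt_or_gt with c | c
  exacts [k3 c (c.trans a), k1 a c, k3 c b, k1 a c, k2 b a, k2 b a, k3 c b, k1 (c.trans b) c]

theorem CE.sp [IsGalois ℚ F] (h : CE s Q F t σ) {w : P K} (hw : σ • w ≠ w)
    (hv : SP (und F w)) : SP w ∧ nm w = nm (und F w) := by
  obtain ⟨h1, h2⟩ := h.split hw
  have h3 : val w ((nm (und F w) : ℕ) : K) = exp (-1 : ℤ) := by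
    rw [← hv.unr, ← h1, map_natCast (algebraMap F K)]
  have h4 : ∀ y : K, val w y ≤ 1 → ∃ n : ℤ, val w (y - n) < 1 := fun y hy => by
    obtain ⟨z, hz⟩ := h2 y hy
    obtain ⟨n, hn⟩ := hv.res z (h1 z ▸ e3b_le hy hz)
    rw [← h1, map_sub, map_intCast] at hn
    exact ⟨n, sub_add_sub_cancel y (algebraMap F K z) n ▸ Valuation.map_add_lt _ hz hn⟩
  have h5 := e3b_nm hv.prime (h3.trans_lt c1a_lt) h4
  refine ⟨⟨h5 ▸ hv.prime, h5 ▸ hv.one, h5 ▸ h3, fun g hg => e3b_one h hw (fun y => ?_) hg, h4⟩, h5⟩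
  have h6 : g.restrictNormal F = 1 := hv.free _ ((mem_stabilizer_iff_val _ _).2 fun x => by
    rw [← h1, ← h1, AlgEquiv.smul_def, AlgEquiv.restrictNormal_commutes]
    exact (mem_stabilizer_iff_val g w).1 hg _)
  rw [← AlgEquiv.restrictNormal_commutes, h6]
  rfl

end Pool.Agent.Lib.MP_775b3b_nt.CM
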