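import Pool.Agent.Lib.MP_775b3b_nt.CM.E3a
import Pool.Agent.Lib.MP_775b3b_nt.CM.E3b
import Pool.Agent.Lib.MP_775b3b_nt.CM.E2e
import Pool.Agent.Lib.MP_775b3b_nt.CM.C10b

namespace Pool.Agent.Lib.MP_775b3b_nt.CM

open Pool.Agent.Lib.MP_439fea_co NumberField WithZero

variable {F : Type} [Field F] [NumberField F] [IsGalois ℚ F]

theorem e3c_map {R S : Type} [CommRing R] [CommRing S] (f : R →+* S) (s Q : ℕ) (c x : R) :
    f (cb s Q c x) = cb s Q (f c) (f x) := by
  simp only [cb, map_add, map_sub, map_mul, map_pow, map_natCast, map_ofNat]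

theorem Base.main {s : ℕ} {q : P F} {ρ0 : F →+* ℝ} {B : Finset Fˣ} (h : Base s q ρ0 B) :
    ∃ d : ℕ, 0 < d ∧ ∀ (Ω : Type) [Field Ω] (ι : F →+* Ω) (t : Ω), cb s (nm q) 1 t = 0 →
      ∀ η ∈ B, ∀ X : F, IsSquare (cb s (nm q) (((d * jj s (nm q) : ℕ) : F) * η) X) →
        IsSquare (ι X - ((d * jj s (nm q) : ℕ) : Ω) * ι η * t) := by
  classical
  have hQ : nm q ≠ 0 := h.sp.prime.ne_zero
  obtain ⟨K, _, _, _, _, t, σ, E⟩ := exists_cubic F hQ h.irr
  have lt : ∀ (w : P K) (n : ℕ), val w (n : K) < 1 ↔ val (und F w) (n : F) < 1 := fun w n => by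
    have := val_algebraMap_lt_iff (K := F) w n 1
    rwa [map_natCast, map_one, map_one, map_one] at this
  have hs2 : ∀ w : P K, val w (2 : K) < 1 → val w (s : K) = 1 ∧ val w (2 * nm q : K) < 1 :=
    fun w hw => ⟨(val_natCast_le_one w s).antisymm (not_lt.1 fun c => by
      have := Val_dvd_of_lt w Nat.prime_two hw c
      have := h.s4
      omega), by
      rw [map_mul]
      exact (mul_le_of_le_one_right' (val_natCast_le_one _ _)).trans_lt hw⟩
  have two : Two K := fun w hw => by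
    have e := (E.split (E.move (hs2 w hw).1 (hs2 w hw).2)).1 2
    rw [map_ofNat] at e
    rw [e] at hw ⊢
    exact h.two _ hw
  obtain ⟨w0, hw0⟩ := exists_over_prime K Nat.prime_two
  obtain ⟨w, e1, w1, hG⟩ := E.choose (hs2 w0 hw0).1 (hs2 w0 hw0).2
  have hw : val w (2 : K) < 1 := (lt w 2).2 (e1 ▸ (lt w0 2).1 hw0)
  obtain ⟨α, u, hu, f1, f2, f3⟩ := exists_nb two hw hG
  obtain ⟨ρ, r0, r1, r2⟩ := E.real hQ ρ0
  have ram : ∀ w : P K, σ • w = w ∨
      (∃ n : ℕ, Odd (ord w (n : K))) ∧ ∀ η ∈ B, Even (ord w (algebraMap F K η)) := fun w =>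
    or_iff_not_imp_left.2 fun hw => by
      obtain ⟨x, x1, x2⟩ := E.root hw
      obtain ⟨⟨n, hn⟩, he⟩ := (h.ram _).resolve_right fun c => c x x1 x2
      have o : ∀ x, ord w (algebraMap F K x) = ord (und F w) x := fun x =>
        congrArg (fun z => -log z) ((E.split hw).1 x)
      exact ⟨⟨n, by rwa [← map_natCast (algebraMap F K), o]⟩, fun η hη => o η ▸ he η hη⟩
  have hsq : ∀ w : P K, und F w = q → val w (s : K) = 1 ∧ val w (2 * nm q : K) < 1 :=
    fun w e => ⟨by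
      rw [← map_natCast (algebraMap F K), val_algebraMap_eq_one_iff, e]
      refine h.sp.val_nat fun c => ?_
      have := h.sq
      rw [Nat.mod_eq_zero_of_dvd c] at this
      omega, by
      rw [map_mul]
      refine (mul_le_of_le_one_left' (val_natCast_le_one _ 2)).trans_lt ((lt w _).2 ?_)
      rw [e, h.sp.unr, ← exp_zero, exp_lt_exp]
      decide⟩
  obtain ⟨q0, hq0⟩ := exists_over K q
  obtain ⟨q1, e2, q1t, -⟩ := E.choose (hsq q0 hq0).1 (hsq q0 hq0).2
  rw [hq0] at e2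
  have mv := E.move (hsq q1 e2).1 (hsq q1 e2).2
  obtain ⟨sp1, nm1⟩ := E.sp mv (e2 ▸ h.sp)
  rw [e2] at nm1
  have ne : (t - σ t) * (σ t - σ (σ t)) * (σ (σ t) - t) ≠ 0 := by
    rw [E.rt.di]
    exact mul_ne_zero (mul_ne_zero (by norm_num) (Nat.cast_ne_zero.2 hQ))
      (Nat.cast_ne_zero.2 (jj_ne hQ))
  let D : Dat K := ⟨σ, _, E.cub, ρ, two, fun w => (ram w).imp_right And.left, w, hw, α, u, hu,
    f1, f2, f3⟩
  let C : Cv D := ⟨s, q1, t, .mk0 _ (left_ne_zero_of_mul (left_ne_zero_of_mul ne)),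
    .mk0 _ (right_ne_zero_of_mul (left_ne_zero_of_mul ne)), .mk0 _ (right_ne_zero_of_mul ne), sp1,
    h.s4, nm1 ▸ h.sq, fun _ hg => hg, nm1 ▸ E.rt, rfl, rfl, rfl, w1, q1t, r1, r2⟩
  have fx : ∀ X : F, σ (algebraMap F K X) = algebraMap F K X := fun X => (E.fix _).2 ⟨X, rfl⟩
  have hη : ∀ η ∈ B, Eta D (um K η) := fun η hη => ⟨Units.ext (fx η),
    fun w => (ram w).imp_right fun e => e.2 η hη, fun w hw => (h.pry η hη _ ((lt w 2).1 hw)).map⟩
  have hs : ∀ η ∈ B, ∀ g : Ga K, ns q1 (g • um K η) = sg ρ (g • um K η) := fun η hη g => by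
    have e : g • um K η = um K (g.restrictNormal F • η) :=
      Units.ext (g.restrictNormal_commutes F η).symm
    rw [e, ns_map sp1.two sp1.unr (E.split mv).2, e2, h.sgn η hη, sg, sg, ← r0]
    rfl
  obtain ⟨d, hd, m2⟩ := C.main (B := B.image (um K)) (Finset.forall_mem_image.2 hη)
    (Finset.forall_mem_image.2 hs)
  rw [show nm C.q = nm q from nm1] at m2
  refine ⟨d, hd, fun Ω _ ι t' ht η hB X hX => ?_⟩
  obtain ⟨φ, p1, p2⟩ := E.lift Ω ι t' ht
  have := (m2 _ (Finset.mem_image_of_mem _ hB) _ (fx X) (by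
    have := hX.map (algebraMap F K)
    rwa [e3c_map, map_mul, map_natCast] at this)).map φ
  rwa [map_sub, map_mul, map_mul, map_natCast, p2, show φ C.t = t' from p1,
    show φ (um K η : Kˣ) = ι η from p2 η] at this

end Pool.Agent.Lib.MP_775b3b_nt.CM
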