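import Pool.Agent.Lib.MP_775b3b_nt.CM.EDef
import Pool.Agent.Lib.MP_651af7_nt.MW

namespace Pool.Agent.Lib.MP_775b3b_nt.CM

open Pool.Agent.Lib.MP_439fea_co NumberField WithZero

/-- the curve -/
def crv (s Q n : ℕ) : WeierstrassCurve ℚ :=
  ⟨0, -(n * s), 0, -(576 * Q ^ 2 * n ^ 2), 64 * s * Q ^ 2 * n ^ 3⟩

theorem e4_jj (s : ℕ) {Q : ℕ} (hQ : Q ≠ 0) : jj s Q ≠ 0 := by
  unfold jj
  positivity

theorem e4_disc (s Q n : ℕ) : (crv s Q n).Δ = 4096 * n ^ 6 * Q ^ 2 * (jj s Q : ℚ) ^ 2 := by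
  simp only [crv, jj, WeierstrassCurve.Δ, WeierstrassCurve.b₂, WeierstrassCurve.b₄,
    WeierstrassCurve.b₆, WeierstrassCurve.b₈]
  push_cast
  ring

theorem crv_ell (s : ℕ) {Q n : ℕ} (hQ : Q ≠ 0) (hn : n ≠ 0) : (crv s Q n).IsElliptic := by
  have := e4_jj s hQ
  refine ⟨IsUnit.mk0 _ ?_⟩
  rw [e4_disc]
  positivity

theorem crv_j (s : ℕ) {Q n : ℕ} (hQ : Q ≠ 0) (hn : n ≠ 0) [(crv s Q n).IsElliptic] :
    (crv s Q n).j = (jj s Q : ℚ) / Q ^ 2 := by
  have := e4_jj s hQ
  have h4 : (crv s Q n).c₄ = 16 * n ^ 2 * (jj s Q : ℚ) := by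
    simp only [crv, jj, WeierstrassCurve.c₄, WeierstrassCurve.b₂, WeierstrassCurve.b₄]
    push_cast
    ring
  rw [WeierstrassCurve.j, Units.val_inv_eq_inv_val, WeierstrassCurve.coe_Δ', e4_disc, h4]
  field_simp
  norm_num

theorem e4_nak {M N : Type} [AddCommGroup M] [Module.Finite ℤ M] [AddCommGroup N] (f : M →+ N)
    (h2 : ∀ x : N, x + x = 0 → x = 0) (H : ∀ x, f x = 0 → ∃ y, y + y = x) :
    ∃ r : ℤ, r ≠ 0 ∧ ∀ x, f x = 0 → r • x = 0 := by
  obtain ⟨r, h3, h4⟩ := Submodule.exists_sub_one_mem_and_smul_eq_zero_of_fg_of_le_smul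
    (Ideal.span {(2 : ℤ)}) (LinearMap.ker f.toIntLinearMap) (IsNoetherian.noetherian _)
    fun x hx => by
      obtain ⟨y, rfl⟩ := H x hx
      rw [← two_zsmul]
      exact Submodule.smul_mem_smul (Ideal.mem_span_singleton_self _)
        (h2 (f y) ((map_add f y y).symm.trans hx))
  rw [Ideal.mem_span_singleton] at h3
  exact ⟨r, by omega, h4⟩

theorem e4_grp {M ι : Type} [AddCommGroup M] [Module.Finite ℤ M] [Finite ι] (c : ι → M →+ M)
    (hc : ∀ i x, c i (c i x) = x) (hcm : ∀ i j x, c i (c j x) = c j (c i x))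
    (h2 : ∀ x : M, x + x = 0 → x = 0)
    (H : ∀ x, (∀ i, c i x = x ∨ c i x = -x) → ∃ y, y + y = x) : Finite M := by
  classical
  have := Fintype.ofFinite ι
  have key : ∀ s : Finset ι, ∀ x : M, (∀ i ∉ s, c i x = x ∨ c i x = -x) →
      ∃ r : ℤ, r ≠ 0 ∧ r • x = 0 := fun s => by
    induction s using Finset.induction_on with
    | empty =>
      intro x hx
      let f : M →+ ι → M := AddMonoidHom.pi fun i =>
        if c i x = x then c i - AddMonoidHom.id M else c i + AddMonoidHom.id M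
      have f1 : ∀ y, f y = 0 ↔ ∀ i, if c i x = x then c i y = y else c i y = -y := fun y => by
        rw [funext_iff]
        refine forall_congr' fun i => ?_
        by_cases e : c i x = x
        · simp [f, e, sub_eq_zero]
        · simp [f, e, add_eq_zero_iff_eq_neg]
      obtain ⟨r, r0, hr⟩ := e4_nak f (fun y hy => funext fun i => h2 _ (congrFun hy i))
        fun y hy => H y fun i => by
          have := (f1 y).1 hy i
          split_ifs at this
          exacts [.inl this, .inr this]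
      refine ⟨r, r0, hr x ((f1 x).2 fun i => ?_)⟩
      split_ifs with e
      exacts [e, (hx i (by simp)).resolve_left e]
    | insert j s _ ih =>
      intro x hx
      obtain ⟨r, r0, hr⟩ := ih (x + c j x) fun i hi => by
        rcases eq_or_ne i j with rfl | ne
        · exact .inl (by rw [map_add, hc, add_comm])
        · exact (hx i (by simp [ne, hi])).imp (fun e => by rw [map_add, hcm, e])
            fun e => by rw [map_add, hcm, e, map_neg, neg_add]
      obtain ⟨u, u0, hu⟩ := ih (x - c j x) fun i hi => by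
        rcases eq_or_ne i j with rfl | ne
        · exact .inr (by rw [map_sub, hc, neg_sub])
        · exact (hx i (by simp [ne, hi])).imp (fun e => by rw [map_sub, hcm, e])
            fun e => by rw [map_sub, hcm, e, map_neg, neg_sub']
      refine ⟨r * u * 2, mul_ne_zero (mul_ne_zero r0 u0) two_ne_zero, ?_⟩
      linear_combination (norm := module) u • hr + r • hu
  refine Module.finite_of_fg_torsion M fun x => ?_
  obtain ⟨r, r0, hr⟩ := key Finset.univ x fun i hi => absurd (Finset.mem_univ i) hi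
  exact ⟨⟨r, mem_nonZeroDivisors_of_ne_zero r0⟩, hr⟩

section curve

open WeierstrassCurve WeierstrassCurve.Affine Pool.Agent.MP_651af7_nt

theorem e4_eqn {L : Type} [Field L] [CharZero L] {s Q n : ℕ} {x y : L}
    (h : ((crv s Q n).toAffine.baseChange L).Nonsingular x y) : y ^ 2 = cb s Q (n : L) x := by
  have h1 := (equation_iff x y).1 h.1
  simp only [crv, Affine.baseChange, WeierstrassCurve.baseChange, map_a₁, map_a₂, map_a₃, map_a₄,
    map_a₆, map_zero, map_neg, map_mul, map_pow, map_natCast, map_ofNat] at h1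
  unfold cb
  linear_combination h1

theorem e4_neg {L : Type} [Field L] [CharZero L] (s Q n : ℕ) (x y : L) :
    ((crv s Q n).toAffine.baseChange L).negY x y = -y := by
  simp [negY, crv, Affine.baseChange, WeierstrassCurve.baseChange]

variable {F K : Type} [Field F] [NumberField F] [Field K] [NumberField K] [Algebra F K]
  {s Q n : ℕ} {t : K} {σ : Ga K}

theorem e4_three (h : CE s Q F t σ) (x : K) : σ (σ (σ x)) = x :=
  congrArg (fun g : Ga K => g x) h.cub.three

theorem e4_split (h : CE s Q F t σ) : MW.Split ((crv s Q n).toAffine.baseChange K)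
    (n * t) (n * σ t) (n * σ (σ t)) := by
  refine ⟨?_, ?_, ?_⟩ <;>
    simp only [crv, Affine.baseChange, WeierstrassCurve.baseChange, b₂, b₄, b₆, map_a₁, map_a₂,
      map_a₃, map_a₄, map_a₆, map_zero, map_neg, map_mul, map_pow, map_natCast, map_ofNat]
  · linear_combination 4 * n * h.rt.e1
  · linear_combination -2 * n ^ 2 * h.rt.e2
  · linear_combination 4 * n ^ 3 * h.rt.e3

theorem e4_root (h : CE s Q F t σ) (hQ : Q ≠ 0) (hn : n ≠ 0) (x : F) : cb s Q (n : F) x ≠ 0 := by
  intro h0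
  have h1 : (algebraMap F K x - n * t) * (algebraMap F K x - n * σ t) *
      (algebraMap F K x - n * σ (σ t)) = 0 := by
    have h2 := congrArg (algebraMap F K) h0
    simp only [cb, map_add, map_sub, map_mul, map_pow, map_natCast, map_ofNat, map_zero] at h2
    linear_combination h2 - n * algebraMap F K x ^ 2 * h.rt.e1 +
      n ^ 2 * algebraMap F K x * h.rt.e2 - n ^ 3 * h.rt.e3
  have h2 : ∀ u : K, algebraMap F K x - n * u = 0 → u - σ u = 0 := fun u hu => by
    have h3 := congrArg σ hu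
    rw [map_sub, map_mul, map_natCast, map_zero, (h.fix _).2 ⟨x, rfl⟩] at h3
    exact (mul_eq_zero.1 (by linear_combination h3 - hu : (n : K) * (u - σ u) = 0)).resolve_left
      (Nat.cast_ne_zero.2 hn)
  have h3 : (16 * Q * jj s Q : K) ≠ 0 := by
    exact_mod_cast mul_ne_zero (mul_ne_zero (by norm_num) hQ) (e4_jj s hQ)
  refine h3 (h.rt.di.symm.trans ?_)
  rcases mul_eq_zero.1 h1 with h4 | h4
  · rcases mul_eq_zero.1 h4 with h4 | h4
    · rw [h2 _ h4, zero_mul, zero_mul]
    · rw [h2 _ h4, mul_zero, zero_mul]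
  · have h5 := h2 _ h4
    rw [e4_three h] at h5
    rw [h5, mul_zero]

theorem crv_finite (h : CE s Q F t σ) (hQ : Q ≠ 0) (hn : n ≠ 0) (A : Set (F ≃ₐ[ℚ] F))
    (hc : ∀ c ∈ A, ∀ x, c (c x) = x) (hcm : ∀ c ∈ A, ∀ d ∈ A, ∀ x, c (d x) = d (c x))
    (H : ∀ x y : F, y ^ 2 = cb s Q (n : F) x → (∀ c ∈ A, c x = x) →
      (∀ c ∈ A, c y = y ∨ c y = -y) → IsSquare (algebraMap F K x - n * t)) :
    Finite ((crv s Q n).toAffine.baseChange F).Point := by
  classical
  have := crv_ell s hQ hn
  have : ((crv s Q n).toAffine.baseChange F).IsElliptic :=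
    inferInstanceAs ((crv s Q n).map (algebraMap ℚ F)).IsElliptic
  have : ((crv s Q n).toAffine.baseChange K).IsElliptic :=
    inferInstanceAs ((crv s Q n).map (algebraMap ℚ K)).IsElliptic
  have : Module.Finite ℤ ((crv s Q n).toAffine.baseChange F).Point :=
    Module.Finite.iff_addGroup_fg.2 (MW.fg ((crv s Q n).toAffine.baseChange F))
  refine e4_grp (fun c : A => Point.map (W' := (crv s Q n).toAffine) (c.1 : F →ₐ[ℚ] F)) ?_ ?_ ?_ ?_
  · rintro c (_ | ⟨x, y, hp⟩)
    · rfl
    · simp only [Point.map_some, Point.some.injEq]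
      exact ⟨hc _ c.2 x, hc _ c.2 y⟩
  · rintro c d (_ | ⟨x, y, hp⟩)
    · rfl
    · simp only [Point.map_some, Point.some.injEq]
      exact ⟨hcm _ c.2 _ d.2 x, hcm _ c.2 _ d.2 y⟩
  · rintro (_ | ⟨x, y, hp⟩) h1
    · rfl
    · have h2 := (Point.some.inj (add_eq_zero_iff_eq_neg.1 h1)).2
      rw [e4_neg] at h2
      refine absurd ((e4_eqn hp).symm.trans ?_) (e4_root h hQ hn x)
      linear_combination y / 2 * h2
  rintro (_ | ⟨x, y, hp⟩) h1
  · exact ⟨0, add_zero _⟩
  obtain ⟨r, hr⟩ : IsSquare (algebraMap F K x - n * t) := by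
    refine H x y (e4_eqn hp) (fun c hc => ?_) fun c hc => ?_ <;> rcases h1 ⟨c, hc⟩ with h1 | h1
    exacts [(Point.some.inj h1).1, (Point.some.inj h1).1, .inl (Point.some.inj h1).2,
      .inr ((Point.some.inj h1).2.trans (e4_neg s Q n x y))]
  let ι : F →ₐ[ℚ] K := (algebraMap F K).toRatAlgHom
  let j := Point.map (W' := (crv s Q n).toAffine) ι
  let g := Point.map (W' := (crv s Q n).toAffine) (σ : K →ₐ[ℚ] K)
  have fx : ∀ z : F, σ (algebraMap F K z) = algebraMap F K z := fun z => (h.fix _).2 ⟨z, rfl⟩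
  have r1 := congrArg σ hr
  rw [map_sub, map_mul, map_natCast, fx, map_mul] at r1
  have r2 := congrArg σ r1
  rw [map_sub, map_mul, map_natCast, fx, map_mul] at r2
  obtain ⟨R, hR⟩ := (e4_split (n := n) h).halve
    ((baseChange_nonsingular _ ι.injective x y).2 hp) (hr.trans (sq r).symm)
    (r1.trans (sq _).symm) (r2.trans (sq _).symm)
  have hR' : R + R = j (.some x y hp) := hR
  have g1 : ∀ P, g (j P) = j P := by
    rintro (_ | ⟨a, b, hab⟩)
    · rfl
    · simp only [g, j, Point.map_some, Point.some.injEq]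
      exact ⟨fx a, fx b⟩
  have g3 : ∀ P, g (g (g P)) = P := by
    rintro (_ | ⟨a, b, hab⟩)
    · rfl
    · simp only [g, Point.map_some, Point.some.injEq]
      exact ⟨e4_three h a, e4_three h b⟩
  have g4 : ∀ P, g P = P → ∃ P', j P' = P := by
    rintro (_ | ⟨a, b, hab⟩) h2
    · exact ⟨0, rfl⟩
    · obtain ⟨a, rfl⟩ := (h.fix a).1 (Point.some.inj h2).1
      obtain ⟨b, rfl⟩ := (h.fix b).1 (Point.some.inj h2).2
      exact ⟨.some a b ((baseChange_nonsingular _ ι.injective a b).1 hab), rfl⟩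
  obtain ⟨S, hS⟩ := g4 (R + g R + g (g R)) (by rw [map_add, map_add, g3]; abel)
  have h2 := congrArg g hR'
  rw [map_add, g1] at h2
  have h3 := congrArg g h2
  rw [map_add, g1] at h3
  refine ⟨S - .some x y hp, Point.map_injective (W' := (crv s Q n).toAffine) ι ?_⟩
  change j _ = j _
  rw [map_add, map_sub, hS]
  linear_combination (norm := abel1) hR' + h2 + h3

end curve

end Pool.Agent.Lib.MP_775b3b_nt.CM
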