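import Pool.Agent.Lib.MP_775b3b_nt.CM.EDef
import Pool.Agent.Lib.MP_775b3b_nt.CM.C1c
import Pool.Agent.Lib.MP_775b3b_nt.IntP2
import Pool.Agent.Lib.MP_775b3b_nt.CM.C6b

namespace Pool.Agent.Lib.MP_775b3b_nt.CM

open Pool.Agent.Lib.MP_439fea_co NumberField WithZero

theorem exists_noroot {p Q : ℕ} (hp : p.Prime) (h2 : p ≠ 2) (hQ : ¬ p ∣ Q) :
    ∃ s : ℕ, ∀ x : ZMod p, cb s Q 1 x ≠ 0 := by
  have := Fact.mk hp
  have hq : (Q : ZMod p) ≠ 0 := fun h => hQ ((ZMod.natCast_eq_zero_iff _ _).1 h)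
  have h2' : (2 : ZMod p) ≠ 0 := fun h => h2 ((Nat.prime_dvd_prime_iff_eq hp Nat.prime_two).1
    ((ZMod.natCast_eq_zero_iff 2 p).1 h))
  let g : ZMod p → ZMod p := fun x => (x ^ 3 - 576 * Q ^ 2 * x) / (x ^ 2 - 64 * Q ^ 2)
  have hg : ¬ Function.Surjective g := by
    rw [← Finite.injective_iff_surjective]
    intro hi
    have e : g (8 * Q) = g (-(8 * Q)) := by
      simp only [g]
      rw [show (8 * (Q : ZMod p)) ^ 2 - 64 * Q ^ 2 = 0 by ring,
        show (-(8 * (Q : ZMod p))) ^ 2 - 64 * Q ^ 2 = 0 by ring, div_zero, div_zero]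
    have := hi e
    exact mul_ne_zero (pow_ne_zero 4 h2') hq (by linear_combination this)
  obtain ⟨s, hs⟩ := not_forall.1 hg
  refine ⟨s.val, fun x hx => hs ⟨x, ?_⟩⟩
  rw [cb, ZMod.natCast_zmod_val] at hx
  by_cases h0 : x ^ 2 - 64 * (Q : ZMod p) ^ 2 = 0
  · exfalso
    refine mul_ne_zero (pow_ne_zero 24 h2') (pow_ne_zero 6 hq) ?_
    have e : x * (512 * (Q : ZMod p) ^ 2) = 0 := by linear_combination (x - s) * h0 - hx
    linear_combination (512 * x * (Q : ZMod p) ^ 2) * e - 262144 * (Q : ZMod p) ^ 4 * h0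
  · simp only [g]
    rw [div_eq_iff h0]
    linear_combination hx

theorem exists_s {Q : ℕ} (hQ : Q.Prime) (h4 : Q % 4 = 1) (A : Finset ℕ)
    (hA : ∀ p ∈ A, p.Prime ∧ p ≠ 2 ∧ p ≠ Q) (N : ℕ) :
    ∃ s : ℕ, N < s ∧ s % 4 = 3 ∧ s % Q = 1 ∧ ∀ p ∈ A, ∀ x : ZMod p, cb s Q 1 x ≠ 0 := by
  classical
  have h1 : ∀ p : ℕ, ∃ s : ℕ, p ∈ A → ∀ x : ZMod p, cb s Q 1 x ≠ 0 := by
    intro p
    by_cases h : p ∈ A
    · obtain ⟨a, b, c⟩ := hA p h
      obtain ⟨s, hs⟩ := exists_noroot a b fun d => c ((Nat.prime_dvd_prime_iff_eq a hQ).1 d)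
      exact ⟨s, fun _ => hs⟩
    · exact ⟨0, fun h' => absurd h' h⟩
  choose c hc using h1
  have hQ2 : Q ≠ 2 := by omega
  have hQ4 : Q ≠ 4 := by omega
  have hodd : ∀ p ∈ insert Q A, p.Prime ∧ p ≠ 2 := by
    intro p hp
    rcases Finset.mem_insert.1 hp with rfl | h
    · exact ⟨hQ, hQ2⟩
    · exact ⟨(hA p h).1, (hA p h).2.1⟩
  have hc4 : ∀ p ∈ insert Q A, Nat.Coprime 4 p := fun p hp =>
    Nat.Coprime.pow_left 2 ((Nat.coprime_primes Nat.prime_two (hodd p hp).1).2 (hodd p hp).2.symm)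
  have h0 : ∀ p ∈ insert 4 (insert Q A), id p ≠ 0 := by
    intro p hp
    rcases Finset.mem_insert.1 hp with rfl | h
    · decide
    · exact (hodd p h).1.ne_zero
  obtain ⟨k, hk⟩ := Nat.chineseRemainderOfFinset
    (fun m => if m = 4 then 3 else if m = Q then 1 else c m) id (insert 4 (insert Q A)) h0 (by
      intro a ha b hb hab
      rcases Finset.mem_insert.1 ha with rfl | ha' <;> rcases Finset.mem_insert.1 hb with rfl | hb'
      · exact absurd rfl hab
      · exact hc4 b hb'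
      · exact (hc4 a ha').symm
      · exact (Nat.coprime_primes (hodd a ha').1 (hodd b hb').1).2 hab)
  have hM : 0 < ∏ p ∈ insert 4 (insert Q A), p :=
    Finset.prod_pos fun p hp => Nat.pos_of_ne_zero (h0 p hp)
  have hk' : ∀ m ∈ insert 4 (insert Q A), k + (N + 1) * ∏ p ∈ insert 4 (insert Q A), p ≡
      (if m = 4 then 3 else if m = Q then 1 else c m) [MOD m] := fun m hm => by
    have := (hk m hm).add ((Nat.modEq_zero_iff_dvd.2
      (Finset.dvd_prod_of_mem (fun p => p) hm)).mul_left (N + 1))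
    simpa using this
  refine ⟨k + (N + 1) * ∏ p ∈ insert 4 (insert Q A), p, by nlinarith, ?_, ?_, fun p hp x => ?_⟩
  · have := hk' 4 (Finset.mem_insert_self _ _)
    rwa [if_pos rfl] at this
  · have := hk' Q (Finset.mem_insert_of_mem (Finset.mem_insert_self _ _))
    rw [if_neg hQ4, if_pos rfl] at this
    exact Eq.trans this (Nat.mod_eq_of_lt hQ.one_lt)
  · have := hk' p (Finset.mem_insert_of_mem (Finset.mem_insert_of_mem hp))
    have h4' : p ≠ 4 := by
      rintro rfl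
      exact absurd (hA 4 hp).1 (by decide)
    rw [if_neg h4', if_neg (hA p hp).2.2, ← ZMod.natCast_eq_natCast_iff] at this
    have e := hc p hp x
    rw [cb] at e ⊢
    rwa [this]

variable {F : Type} [Field F] [NumberField F]

theorem ord_eq_ram {p : ℕ} (hp : p.Prime) {w : P F} (hw : val w (p : F) < 1) :
    ord w (p : F) = (w.asIdeal.ramificationIdx ℤ : ℕ) := by
  have := w.isPrime
  have := (liesOver_iff_val hp w).2 hw
  have hp0 : (p : F) ≠ 0 := Nat.cast_ne_zero.2 hp.ne_zero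
  have h1 := val_eq_exp w hp0
  have h2 : 0 < ord w (p : F) := by
    rw [h1, ← exp_zero, exp_lt_exp] at hw
    omega
  have key : ∀ n : ℕ, Ideal.map (algebraMap ℤ (𝓞 F)) (Ideal.span {(p : ℤ)}) ≤ w.asIdeal ^ n ↔
      (n : ℤ) ≤ ord w (p : F) := by
    intro n
    rw [Ideal.map_span, Set.image_singleton, Ideal.span_singleton_le_iff_mem, ← Val_le_iff_mem]
    have e : ((algebraMap ℤ (𝓞 F) (p : ℤ) : 𝓞 F) : F) = (p : F) := by simp
    rw [e, h1, exp_le_exp, neg_le_neg_iff]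
  rw [← Ideal.ramificationIdx'_eq_ramificationIdx (Ideal.span {(p : ℤ)}) w.asIdeal
    (by simpa using hp.ne_zero), Ideal.ramificationIdx'_spec (n := (ord w (p : F)).toNat)
    ((key _).2 (by omega)) (fun h => by have := (key _).1 h; omega)]
  omega

theorem e5a_cong {s Q : ℕ} {w : P F} {x y : F} (hy : val w y ≤ 1) (hx : val w x ≤ 1)
    (h : val w (y - x) < 1) (h0 : val w (cb s Q 1 x) < 1) : val w (cb s Q 1 y) < 1 := by
  have e : cb s Q 1 y = cb s Q 1 x + (y - x) *
      (y * y + y * x + x * x - (s : ℕ) * (y + x) - ((576 * Q ^ 2 : ℕ) : F)) := by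
    simp only [cb]
    push_cast
    ring
  have m : ∀ {a b : F}, val w a ≤ 1 → val w b ≤ 1 → val w (a * b) ≤ 1 := fun ha hb => by
    rw [map_mul]
    exact mul_le_one' ha hb
  rw [e]
  refine Valuation.map_add_lt _ h0 ?_
  rw [map_mul]
  exact mul_lt_one_of_lt_of_le h (Valuation.map_sub_le _ (Valuation.map_sub_le _
    (Valuation.map_add_le _ (Valuation.map_add_le _ (m hy hy) (m hy hx)) (m hx hx))
    (m (val_natCast_le_one w _) (Valuation.map_add_le _ hy hx))) (val_natCast_le_one w _))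

theorem noroot_up {s Q p : ℕ} (hp : p.Prime) (h : ∀ x : ZMod p, cb s Q 1 x ≠ 0) {w : P F}
    (hw : val w (p : F) < 1) (h3 : ¬ 3 ∣ w.asIdeal.inertiaDeg ℤ) (x : F) (hx : val w x ≤ 1) :
    ¬ val w (cb s Q 1 x) < 1 := by
  intro hlt
  have := w.isPrime
  have := w.isMaximal
  have := (liesOver_iff_val hp w).2 hw
  have := Fact.mk hp
  obtain ⟨y, hy1, hy2⟩ := approx {w} (fun _ => x) (exp (-1 : ℤ)) exp_ne_zero
  have hyx : val w (y - x) < 1 := (hy1 w (Finset.mem_singleton_self w)).trans_lt c1a_lt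
  have hy : val w y ≤ 1 := by
    rw [show y = (y - x) + x by ring]
    exact Valuation.map_add_le _ hyx.le hx
  obtain ⟨z, rfl⟩ := exists_int_of_val_le_one (x := y) fun v => by
    by_cases e : v = w
    · rw [e]; exact hy
    · exact hy2 v (by simpa using e)
  have hz : cb s Q 1 z ∈ w.asIdeal := by
    rw [← Val_lt_iff_mem]
    have e : ((cb s Q 1 z : 𝓞 F) : F) = cb s Q 1 (z : F) := by simp [cb, map_ofNat]
    rw [e]
    exact e5a_cong hy hx hyx hlt
  let κ := 𝓞 F ⧸ w.asIdeal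
  let : Field κ := Ideal.Quotient.field _
  have : Finite κ := Ideal.finiteQuotientOfFreeOfNeBot _ w.ne_bot
  have hp0 : (p : κ) = 0 := by
    have : ((p : ℕ) : 𝓞 F) ∈ w.asIdeal := by
      rw [← Val_lt_iff_mem]
      simpa using hw
    simpa using Ideal.Quotient.eq_zero_iff_mem.2 this
  have : CharP κ p := (CharP.charP_iff_prime_eq_zero hp).2 hp0
  let := ZMod.algebra κ p
  have hf : Module.finrank (ZMod p) κ = w.asIdeal.inertiaDeg ℤ := by
    apply Nat.pow_right_injective hp.two_le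
    have e := Module.natCard_eq_pow_finrank (K := ZMod p) (V := κ)
    rw [Nat.card_zmod] at e
    simp only
    rw [← e, Ideal.pow_inertiaDeg, Ideal.absNorm_apply, Submodule.cardQuot_apply]
  let f : Polynomial (ZMod p) := Polynomial.X ^ 3 - Polynomial.C (s : ZMod p) * Polynomial.X ^ 2 -
    Polynomial.C (576 * (Q : ZMod p) ^ 2) * Polynomial.X + Polynomial.C (64 * s * (Q : ZMod p) ^ 2)
  have hd : f.natDegree = 3 := by
    simp only [f]
    compute_degree!
  have hi : Irreducible f := Polynomial.irreducible_of_degree_le_three_of_not_isRoot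
    (by rw [hd]; decide) fun a ha => h a (by simpa [f, cb] using ha)
  have hr : Polynomial.aeval (Ideal.Quotient.mk w.asIdeal z : κ) f = 0 := by
    have := Ideal.Quotient.eq_zero_iff_mem.2 hz
    simpa [f, cb, map_ofNat] using this
  have hm := minpoly.eq_of_irreducible hi hr
  have h4 := minpoly.degree_dvd (K := ZMod p) (x := (Ideal.Quotient.mk w.asIdeal z : κ))
    (IsIntegral.of_finite _ _)
  rw [← hm, Polynomial.natDegree_mul_C (inv_ne_zero (Polynomial.leadingCoeff_ne_zero.2 hi.ne_zero)),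
    hd, hf] at h4
  exact h3 h4

theorem noroot_sp {s Q : ℕ} {w : P F} (hw : SP w) (h : ∀ x : ZMod (nm w), cb s Q 1 x ≠ 0)
    (x : F) : cb s Q 1 x ≠ 0 := by
  intro h0
  have hx : val w x ≤ 1 := by
    by_contra hlt
    rw [not_le] at hlt
    have hx0 : x ≠ 0 := by
      rintro rfl
      simp at hlt
    have hi : val w x⁻¹ < 1 := by
      rw [map_inv₀]
      exact inv_lt_one_of_one_lt₀ hlt
    have e : (1 : F) = x⁻¹ * ((s : ℕ) + ((576 * Q ^ 2 : ℕ) : F) * x⁻¹ -
        ((64 * s * Q ^ 2 : ℕ) : F) * (x⁻¹ * x⁻¹)) := by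
      rw [cb] at h0
      push_cast
      field_simp
      linear_combination h0
    have h1 : val w (((s : ℕ) : F) + ((576 * Q ^ 2 : ℕ) : F) * x⁻¹ -
        ((64 * s * Q ^ 2 : ℕ) : F) * (x⁻¹ * x⁻¹)) ≤ 1 := by
      refine Valuation.map_sub_le _ (Valuation.map_add_le _ (val_natCast_le_one w _) ?_) ?_
      · rw [map_mul]
        exact mul_le_one' (val_natCast_le_one w _) hi.le
      · rw [map_mul, map_mul]
        exact mul_le_one' (val_natCast_le_one w _) (mul_le_one' hi.le hi.le)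
    have h2 := congrArg (val w) e
    rw [map_one, map_mul] at h2
    exact absurd h2.symm (mul_lt_one_of_lt_of_le hi h1).ne
  obtain ⟨n, hn⟩ := hw.res x hx
  have hn1 : val w (n : F) ≤ 1 := by
    rw [show (n : F) = x - (x - n) by ring]
    exact Valuation.map_sub_le _ hx hn.le
  have h1 : val w (cb s Q 1 (n : F)) < 1 :=
    e5a_cong hn1 hx (by rwa [Valuation.map_sub_swap]) (by rw [h0, map_zero]; exact zero_lt_one)
  have e : cb s Q 1 (n : F) = ((cb s Q 1 n : ℤ) : F) := by simp [cb]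
  have h2 : nm w ∣ (cb s Q 1 n).natAbs := by
    refine Val_dvd_of_lt w hw.prime (hw.unr ▸ c1a_lt) ?_
    rw [e] at h1
    rcases Int.natAbs_eq (cb s Q 1 n) with h3 | h3
    · rwa [h3, Int.cast_natCast] at h1
    · rwa [h3, Int.cast_neg, Int.cast_natCast, Valuation.map_neg] at h1
  refine h (n : ZMod (nm w)) ?_
  have e' : cb s Q 1 (n : ZMod (nm w)) = ((cb s Q 1 n : ℤ) : ZMod (nm w)) := by simp [cb]
  rw [e', ZMod.intCast_zmod_eq_zero_iff_dvd]
  exact Int.natCast_dvd.2 h2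

theorem finite_bad (F : Type) [Field F] [NumberField F] :
    {p : ℕ | p.Prime ∧ ∃ w : P F, val w (p : F) < 1 ∧ Even (ord w (p : F))}.Finite := by
  obtain ⟨N, hN, h⟩ := exists_unr F
  refine (Set.finite_le_nat N).subset fun p ⟨hp, w, h1, h2⟩ => ?_
  refine Nat.le_of_dvd (Nat.pos_of_ne_zero hN) (by_contra fun hd => ?_)
  have h3 : val w (p : F) = exp (-1 : ℤ) := h N dvd_rfl w ⟨p, hp⟩ hd h1
  rw [val_eq_exp w (Nat.cast_ne_zero.2 hp.ne_zero), exp_inj, neg_inj] at h3
  rw [h3] at h2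
  exact Int.not_even_one h2

end Pool.Agent.Lib.MP_775b3b_nt.CM
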