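import Pool.Agent.Lib.MP_775b3b_nt.CM.E5a
import Pool.Agent.Lib.MP_775b3b_nt.CM.Sym
import Pool.Agent.Lib.MP_775b3b_nt.ZPrime

namespace Pool.Agent.Lib.MP_775b3b_nt.CM

open Pool.Agent.Lib.MP_439fea_co NumberField WithZero

variable {k F : Type} [Field k] [NumberField k] [IsGalois ℚ k] [Field F] [NumberField F]
  [IsGalois ℚ F] [Algebra k F]

omit [IsGalois ℚ F] in
theorem e5b_unr {p : ℕ} (hp : p.Prime) (h : ¬ (p : ℤ) ∣ discr F) (w : P F)
    (hw : val w (p : F) < 1) : val w (p : F) = exp (-1 : ℤ) := by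
  have h1 := val_eq_exp w (Nat.cast_ne_zero.2 hp.ne_zero : (p : F) ≠ 0)
  have hv := hw
  rw [h1, ← exp_zero, exp_lt_exp] at hv
  rw [h1]
  congr 1
  by_contra hne
  have h2 : (p : 𝓞 F) ∈ w.asIdeal ^ 2 := by
    rw [← Val_le_iff_mem]
    have e : ((p : 𝓞 F) : F) = p := map_natCast (algebraMap (𝓞 F) F) p
    rw [e, h1, exp_le_exp]
    push_cast
    omega
  have hpz : Prime (p : ℤ) := Nat.prime_iff_prime_int.mp hp
  have hmax : (Ideal.span {(p : ℤ)}).IsMaximal := hpz.isMaximal_span_singleton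
  have hb : Ideal.span {(p : ℤ)} ≠ ⊥ := by simpa using hp.ne_zero
  let := FractionRing.liftAlgebra ℤ (FractionRing (𝓞 F))
  have h3 := pow_sub_one_dvd_differentIdeal ℤ w.asIdeal 2 hb (by
    rw [Ideal.map_span, Set.image_singleton, Ideal.dvd_span_singleton]
    simpa using h2)
  have h4 := Ideal.dvd_iff_le.1 h3 (discr_mem_differentIdeal F (𝓞 F))
  have h5 : (((discr F).natAbs : ℕ) : 𝓞 F) ∈ w.asIdeal := by
    have h6 : ((discr F : ℤ) : 𝓞 F) ∈ w.asIdeal := by simpa using h4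
    rcases Int.natAbs_eq (discr F) with e | e
    · rw [e] at h6
      simpa using h6
    · rw [e] at h6
      simpa using h6
  have h7 : val w (((discr F).natAbs : ℕ) : F) < 1 := by
    have := (Val_lt_iff_mem w _).2 h5
    simpa using this
  exact h (Int.natCast_dvd.2 (Val_dvd_of_lt w hp hw h7))

omit [NumberField k] [NumberField F] [IsGalois ℚ k] [IsGalois ℚ F] in
theorem e5b_cb (s Q : ℕ) (x : k) : algebraMap k F (cb s Q 1 x) = cb s Q 1 (algebraMap k F x) := by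
  simp [cb, map_ofNat]

omit [IsGalois ℚ k] [IsGalois ℚ F] in
theorem e5b_lt (w : P F) (x : k) : val w (algebraMap k F x) < 1 ↔ val (und k w) x < 1 := by
  simpa using val_algebraMap_lt_iff w x 1

omit [IsGalois ℚ k] [IsGalois ℚ F] in
theorem e5b_le (w : P F) {x : k} (h : val (und k w) x ≤ 1) : val w (algebraMap k F x) ≤ 1 := by
  refine not_lt.1 fun h1 => h.not_gt ?_
  have := val_algebraMap_lt_iff w (1 : k) x
  simp only [map_one] at this
  exact this.1 h1

omit [IsGalois ℚ k] [IsGalois ℚ F] in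
theorem e5b_even {η : kˣ} {θ : F} (hθ : θ ^ 2 = algebraMap k F η) (w : P F) {n : ℕ}
    (hn : Odd (ord w (n : F))) : Odd (ord (und k w) (n : k)) ∧ Even (ord (und k w) (η : k)) := by
  obtain ⟨e, -, he⟩ := ord_map k w
  have h0 : θ ≠ 0 := fun h => η.ne_zero ((map_eq_zero (algebraMap k F)).1 (by
    rw [← hθ, h, zero_pow two_ne_zero]))
  rw [← map_natCast (algebraMap k F), he, Int.odd_mul] at hn
  have h1 : Even ((e : ℤ) * ord (und k w) (η : k)) := by
    rw [← he, ← hθ, sq, ord_mul w h0 h0]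
    exact ⟨_, rfl⟩
  exact ⟨hn.2, (Int.even_mul.1 h1).resolve_left (Int.not_even_iff_odd.2 hn.1)⟩

omit [IsGalois ℚ k] [IsGalois ℚ F] in
theorem e5b_pry (h2 : Two F) {η : kˣ} {θ : F} (hθ : θ ^ 2 = algebraMap k F η) (v : P k)
    (hv : val v (2 : k) < 1) : Pry v η := by
  have hup : ∀ w : P F, val (und k w) (2 : k) < 1 → val w (2 : F) < 1 := fun w hw => by
    have := (e5b_lt w 2).2 hw
    rwa [map_ofNat] at this
  obtain ⟨s, hs⟩ := exists_sig (h2.down : Two k) (x := η) fun v hv => by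
    obtain ⟨w, rfl⟩ := exists_over F v
    refine (e5b_even hθ w (n := 2) ?_).2
    have h1 := val_eq_exp w (two_ne_zero : (2 : F) ≠ 0)
    rw [h2 w (hup w hv), exp_inj, neg_inj] at h1
    rw [Nat.cast_ofNat, ← h1]
    exact odd_one
  obtain ⟨w, rfl⟩ := exists_over F v
  have h1 : IsSquare (um F η) := isSquare_units.2 ⟨θ, by rw [← sq, hθ]; rfl⟩
  have h3 := ((hs.map (K := F)).pry h2 (hup w hv)).1 (Pry.of_isSquare w h1)
  exact (hs.pry h2.down hv).2 ((e5b_lt w _).1 h3)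

theorem exists_base (hodd : Odd (discr F))
    (h3 : ∀ I : Ideal (𝓞 F), I.IsMaximal → Even (I.ramificationIdx ℤ) → ¬ 3 ∣ I.inertiaDeg ℤ)
    (ρ : k →+* ℝ) (B : Finset kˣ) (hθ : ∀ η ∈ B, ∃ θ : F, θ ^ 2 = algebraMap k F η) {q : P k}
    (hc : ∀ η ∈ B, ∀ g : Ga k, ns q (g • η) = sg ρ (g • η)) (hq : SP q)
    (hq' : ¬ (nm q : ℤ) ∣ discr F) (N : ℕ) :
    ∃ s : ℕ, N < s ∧ Base s q ρ B ∧ ∀ x : F, cb s (nm q) 1 x ≠ 0 := by
  classical
  have h2 : Two F := val_two_of_odd hodd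
  obtain ⟨w0, hw0, hY, -⟩ := exists_sym (K := F) (ι := Empty) (fun i => i.elim) (fun i => i.elim)
    (fun _ _ _ => by simp) (nm q)
  have hodd' : ∀ p : ℕ, p.Prime → ∀ w : P F, val w (p : F) = exp (-1 : ℤ) →
      ¬ Even (ord w (p : F)) := fun p hp w hw => by
    have h1 := val_eq_exp w (Nat.cast_ne_zero.2 hp.ne_zero : (p : F) ≠ 0)
    rw [hw, exp_inj, neg_inj] at h1
    rw [← h1]
    decide
  obtain ⟨s, hN, hs4, hsq, hA⟩ := exists_s hq.prime hq.one
    (insert (nm w0) (finite_bad F).toFinset) (fun p hp => by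
      rw [Finset.mem_insert, Set.Finite.mem_toFinset] at hp
      rcases hp with rfl | ⟨hp, w, hw, he⟩
      · have := hw0.one
        exact ⟨hw0.prime, by omega, hY.ne'⟩
      · refine ⟨hp, ?_, ?_⟩
        · rintro rfl
          exact hodd' 2 hp w (by exact_mod_cast h2 w (by exact_mod_cast hw)) he
        · rintro rfl
          exact hodd' _ hp w (e5b_unr hp hq' w hw) he) N
  have hF : ∀ x : F, cb s (nm q) 1 x ≠ 0 := noroot_sp hw0 (hA _ (Finset.mem_insert_self _ _))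
  refine ⟨s, hN, ⟨h2.down, hq, hs4, hsq, fun x hx => hF (algebraMap k F x) ?_, fun v => ?_, hc,
    fun η hη => (hθ η hη).elim fun _ e => e5b_pry h2 e⟩, hF⟩
  · rw [← e5b_cb, hx, map_zero]
  · obtain ⟨w, rfl⟩ := exists_over F v
    obtain ⟨p, hp, hw⟩ := exists_prime_under w
    rcases Int.even_or_odd (ord w (p : F)) with he | he
    · refine Or.inr fun x hx h => noroot_up hp (hA p (Finset.mem_insert_of_mem
        ((finite_bad F).mem_toFinset.2 ⟨hp, w, hw, he⟩))) hw (h3 _ w.isMaximal ?_) _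
        (e5b_le w hx) ?_
      · rwa [ord_eq_ram hp hw, Int.even_coe_nat] at he
      · rw [← e5b_cb]
        exact (e5b_lt w _).2 h
    · exact Or.inl ⟨⟨p, (e5b_even (η := 1) (θ := 1) (by simp) w he).1⟩,
        fun η hη => (hθ η hη).elim fun _ e => (e5b_even e w he).2⟩

end Pool.Agent.Lib.MP_775b3b_nt.CM
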