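import Pool.Agent.Lib.MP_775b3b_nt.CM.E5b
import Pool.Agent.Lib.MP_775b3b_nt.CM.E3c
import Pool.Agent.Lib.MP_775b3b_nt.CM.E4

namespace Pool.Agent.Lib.MP_775b3b_nt.CM

open Pool.Agent.Lib.MP_439fea_co NumberField WithZero

theorem infinite_j {r : ℚ → Prop} {Q : ℕ} (hQ : Q ≠ 0)
    (h : ∀ N : ℕ, ∃ s : ℕ, N < s ∧ r ((jj s Q : ℚ) / Q ^ 2)) : {j | r j}.Infinite := by
  refine Set.infinite_of_forall_exists_gt fun a => ?_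
  have hQ' : (0 : ℚ) < (Q : ℚ) ^ 2 := by positivity
  obtain ⟨s, hs, hr⟩ := h ⌈a * (Q : ℚ) ^ 2⌉₊
  refine ⟨_, hr, ?_⟩
  rw [lt_div_iff₀ hQ']
  have h1 : a * (Q : ℚ) ^ 2 ≤ (⌈a * (Q : ℚ) ^ 2⌉₊ : ℚ) := Nat.le_ceil _
  have h2 : ((⌈a * (Q : ℚ) ^ 2⌉₊ : ℕ) : ℚ) < (s : ℚ) := by exact_mod_cast hs
  have h3 : s ≤ jj s Q := by
    unfold jj
    nlinarith [Nat.zero_le (1728 * Q ^ 2), Nat.le_self_pow two_ne_zero s]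
  have h4 : (s : ℚ) ≤ (jj s Q : ℚ) := by exact_mod_cast h3
  linarith

theorem e5c_root {R : Type} [CommRing R] {s Q : ℕ} {a b c : R} (h : Rt s Q a b c) :
    cb s Q 1 a = 0 := by
  unfold cb
  linear_combination a ^ 2 * h.e1 - a * h.e2 + h.e3

theorem e5c_jj_ne (s : ℕ) {Q : ℕ} (hQ : Q ≠ 0) : jj s Q ≠ 0 := by
  unfold jj
  positivity

end Pool.Agent.Lib.MP_775b3b_nt.CM
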