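import Pool.Agent.Lib.MP_775b3b_nt.CM.E5c

namespace Pool.Agent.Lib.MP_775b3b_nt.CM

open Pool.Agent.Lib.MP_439fea_co NumberField WithZero

variable (F : Type) [Field F] [NumberField F] [IsGalois ℚ F]

/-- the complex conjugations -/
def Cj : Set (F ≃ₐ[ℚ] F) := {c | ∃ φ : F →+* ℂ, ComplexEmbedding.IsConj φ c}

theorem kum_data : ∃ (k : Type) (_ : Field k) (_ : NumberField k) (_ : IsGalois ℚ k)
    (_ : Algebra k F) (_ : k →+* ℝ) (B : Finset kˣ),
      (∀ x : F, (∀ c ∈ Cj F, c x = x) → ∃ y : k, algebraMap k F y = x) ∧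
      (∀ η ∈ B, ∃ θ : F, θ ^ 2 = algebraMap k F η) ∧
      ∀ y : F, (∀ c ∈ Cj F, c y = y ∨ c y = -y) → ∃ η ∈ B, ∃ (θ : F) (Y : k),
        θ ^ 2 = algebraMap k F η ∧ y = θ * algebraMap k F Y := by
  classical
  obtain ⟨φ₀⟩ : Nonempty (F →+* ℂ) := inferInstance
  have hn : (Subgroup.closure (Cj F)).Normal := ⟨fun n hn g => by
    induction hn using Subgroup.closure_induction with
    | mem c hc =>
      obtain ⟨φ, hφ⟩ := hc
      refine Subgroup.subset_closure ⟨φ.comp (g⁻¹ : F ≃ₐ[ℚ] F), ?_⟩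
      simpa using hφ.comp g⁻¹
    | one => simp
    | mul a b _ _ ha hb => simpa using mul_mem ha hb
    | inv a _ ha => simpa [mul_assoc] using inv_mem ha⟩
  let k := IntermediateField.fixedField (Subgroup.closure (Cj F))
  have hk : ∀ y : F, y ∈ k ↔ ∀ c ∈ Cj F, c y = y := fun y => by
    rw [IntermediateField.mem_fixedField_iff]
    refine ⟨fun h c hc => h c (Subgroup.subset_closure hc), fun h g hg => ?_⟩
    exact ((Subgroup.closure_le (MulAction.stabilizer (F ≃ₐ[ℚ] F) y)).2 h) hg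
  have hr : ComplexEmbedding.IsReal (φ₀.comp (algebraMap k F)) := by
    obtain ⟨c, hc⟩ := ComplexEmbedding.exists_comp_symm_eq_of_comp_eq (k := ℚ) φ₀
      (ComplexEmbedding.conjugate φ₀) (Subsingleton.elim _ _)
    ext y
    exact (RingHom.congr_fun hc (y : F)).symm.trans
      (congrArg φ₀ ((hk _).1 y.2 c.symm ⟨φ₀, hc.symm⟩))
  have ex : ∀ χ : (F ≃ₐ[ℚ] F) → Bool, ∃ θ : F, θ ≠ 0 ∧ θ ^ 2 ∈ k ∧ ∀ y : F,
      (∀ c ∈ Cj F, c y = if χ c then y else -y) → y / θ ∈ k := fun χ => by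
    by_cases h : ∃ θ : F, θ ≠ 0 ∧ ∀ c ∈ Cj F, c θ = if χ c then θ else -θ
    · obtain ⟨θ, h0, h1⟩ := h
      refine ⟨θ, h0, (hk _).2 fun c hc => ?_, fun y hy => (hk _).2 fun c hc => ?_⟩
      · rw [map_pow, h1 c hc]
        split_ifs
        exacts [rfl, neg_sq θ]
      · rw [map_div₀, h1 c hc, hy c hc]
        split_ifs
        exacts [rfl, neg_div_neg_eq y θ]
    · refine ⟨1, one_ne_zero, by simp, fun y hy => ?_⟩
      obtain rfl : y = 0 := by_contra fun h0 => h ⟨y, h0, hy⟩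
      simp
  choose θ h0 h2 h3 using ex
  let η : ((F ≃ₐ[ℚ] F) → Bool) → kˣ := fun χ => Units.mk0 ⟨θ χ ^ 2, h2 χ⟩
    fun h => pow_ne_zero 2 (h0 χ) (congrArg Subtype.val h)
  refine ⟨k, inferInstance, inferInstance, IsGalois.of_fixedField_normal_subgroup _,
    inferInstance, hr.embedding, Finset.univ.image η, fun x hx => ⟨⟨x, (hk x).2 hx⟩, rfl⟩,
    Finset.forall_mem_image.2 fun χ _ => ⟨θ χ, rfl⟩, fun y hy => ?_⟩
  refine ⟨η fun c => c y = y, Finset.mem_image_of_mem _ (Finset.mem_univ _), θ _,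
    ⟨_, h3 (fun c => c y = y) y fun c hc => ?_⟩, rfl, (mul_div_cancel₀ y (h0 _)).symm⟩
  by_cases e : c y = y
  · simp [e]
  · simp [e, (hy c hc).resolve_left e]

omit [IsGalois ℚ F] in
theorem e5d_no_i (hodd : Odd (discr F)) (i : F) : i ^ 2 ≠ -1 := by
  intro h
  obtain ⟨w, hw⟩ := exists_over_prime F Nat.prime_two
  have h2 := val_two_of_odd hodd w (by exact_mod_cast hw)
  have h0 : i ≠ 0 := by
    rintro rfl
    simp at h
  have h1 : 1 + i ≠ 0 := by
    intro e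
    have e2 : i = -1 := by linear_combination e
    rw [e2] at h
    norm_num at h
  have o1 : ord w (-1 : F) = 0 := by simp [ord]
  have o2 : ord w (2 : F) = 1 := by simp [ord, h2]
  have o3 := ord_mul w h0 h0
  rw [← sq, h, o1] at o3
  have o4 := ord_mul w h1 h1
  have e : (1 + i) * (1 + i) = 2 * i := by linear_combination h
  rw [e, ord_mul w two_ne_zero h0, o2] at o4
  omega

theorem e5d_cb {R : Type} [CommRing R] (s Q : ℕ) (n e x : R) :
    cb s Q (n * e) (e * x) = e ^ 3 * cb s Q n x := by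
  simp only [cb]
  ring

theorem e5d_map {R S : Type} [CommRing R] [CommRing S] (f : R →+* S) (s Q : ℕ) (c x : R) :
    f (cb s Q c x) = cb s Q (f c) (f x) := by
  simp only [cb, map_add, map_sub, map_mul, map_pow, map_natCast, map_ofNat]

theorem e5d_root {R : Type} [CommRing R] {s Q : ℕ} {a b c : R} (h : Rt s Q a b c) :
    cb s Q 1 a = 0 := by
  simp only [cb]
  linear_combination a ^ 2 * h.e1 - a * h.e2 + h.e3

omit [IsGalois ℚ F] in
theorem e5d_sg {ι : Type} (ρ : F →+* ℝ) (s : Finset ι) (x : ι → Fˣ) (a : ι → ℕ) :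
    sg ρ (∏ i ∈ s, x i ^ a i) = ∑ i ∈ s, (a i : ZMod 2) * sg ρ (x i) := by
  classical
  have h1 : sg ρ 1 = 0 := if_neg (by simp)
  have h2 : ∀ (y : Fˣ) (n : ℕ), sg ρ (y ^ n) = (n : ZMod 2) * sg ρ y := fun y n => by
    induction n with
    | zero => simp [h1]
    | succ n ih => rw [pow_succ, sg_mul, ih, Nat.cast_succ, add_mul, one_mul]
  induction s using Finset.induction_on with
  | empty => simp [h1]
  | insert i s hi ih => rw [Finset.prod_insert hi, Finset.sum_insert hi, sg_mul, ih, h2]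

theorem main_comm (hF : ∀ c ∈ Cj F, ∀ d ∈ Cj F, Commute c d) (hodd : Odd (discr F))
    (h3 : ∀ I : Ideal (𝓞 F), I.IsMaximal → Even (I.ramificationIdx ℤ) → ¬ 3 ∣ I.inertiaDeg ℤ) :
    {j : ℚ | ∃ (E : WeierstrassCurve ℚ) (_ : E.IsElliptic), E.j = j ∧
      Finite (E.toAffine.baseChange F).Point}.Infinite := by
  obtain ⟨k, _, _, _, _, ρ, B, hfix, hθ, hy⟩ := kum_data F
  obtain ⟨q, hq, hY, hs⟩ := exists_sym (K := k) (ι := B × Ga k) (fun p => p.2 • p.1.1)
    (fun p => sg ρ (p.2 • p.1.1)) (by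
    intro a j hsq
    rw [← e5d_sg]
    have e1 : IsSquare (um F (∏ p : B × Ga k, (p.2 • p.1.1) ^ a p)) := by
      rw [map_prod]
      refine Finset.isSquare_prod _ fun p _ => ?_
      obtain ⟨θ, e⟩ := hθ _ p.1.2
      rw [map_pow]
      refine (isSquare_units.2 ⟨p.2.liftNormal F θ, ?_⟩).pow _
      rw [← map_mul, ← sq, e, p.2.liftNormal_commutes]
      rfl
    generalize ∏ p : B × Ga k, (p.2 • p.1.1) ^ a p = x at *
    rcases Nat.even_or_odd j with hj | hj
    · rw [hj.neg_one_pow, one_mul] at hsq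
      exact if_neg (e2d_pos' ρ hsq).not_gt
    · rw [hj.neg_one_pow] at hsq
      have e2 := (hsq.map (um F)).mul e1.inv
      rw [map_mul, mul_inv_cancel_right] at e2
      obtain ⟨r, hr⟩ := isSquare_units.1 e2
      refine absurd ?_ (e5d_no_i F hodd r)
      rw [sq, ← hr]
      exact (map_neg (algebraMap k F) 1).trans (congrArg _ (map_one _))) (discr F).natAbs
  have hq' : ¬ (nm q : ℤ) ∣ discr F := fun h =>
    absurd (Nat.le_of_dvd (Int.natAbs_pos.2 (discr_ne_zero F)) (Int.natCast_dvd.1 h)) (not_le.2 hY)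
  have hQ : nm q ≠ 0 := hq.prime.ne_zero
  refine infinite_j hQ fun N => ?_
  obtain ⟨s, hN, hb, hirr⟩ := exists_base hodd h3 ρ B hθ (fun η hη g => (hs (⟨η, hη⟩, g)).2) hq hq' N
  refine ⟨s, hN, ?_⟩
  obtain ⟨d, hd, hm⟩ := hb.main
  obtain ⟨K, _, _, _, _, t, σ, hce⟩ := exists_cubic F hQ hirr
  have hn : d * jj s (nm q) ≠ 0 := mul_ne_zero hd.ne' (by rw [jj]; positivity)
  have m2 := hm K ((algebraMap F K).comp (algebraMap k F)) t (e5d_root hce.rt)
  have := crv_ell s hQ hn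
  refine ⟨crv s (nm q) (d * jj s (nm q)), this, crv_j s hQ hn,
    crv_finite hce hQ hn (Cj F) (fun c ⟨φ, hc⟩ x => ComplexEmbedding.isConj_apply_apply hc x)
      (fun c hc e he x => DFunLike.congr_fun (hF c hc e he).eq x) fun x y h1 hx hc => ?_⟩
  obtain ⟨X, rfl⟩ := hfix x hx
  generalize d * jj s (nm q) = n at *
  obtain ⟨η, hη, θ, Y, e, rfl⟩ := hy y hc
  have h0 : θ ≠ 0 := fun h => (map_ne_zero (algebraMap k F)).2 η.ne_zero (by
    rw [← e, h, zero_pow two_ne_zero])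
  obtain ⟨r, hr⟩ := m2 η hη (η * X) ⟨η ^ 2 * Y, (algebraMap k F).injective (by
    rw [e5d_cb, map_mul, e5d_map, map_natCast, ← h1, map_mul, map_mul, map_pow, map_pow, ← e]
    ring)⟩
  have h1 : algebraMap F K θ ≠ 0 := (map_ne_zero _).2 h0
  refine ⟨r / algebraMap F K θ, ?_⟩
  rw [map_mul, RingHom.comp_apply, RingHom.comp_apply, ← e, map_pow] at hr
  field_simp
  linear_combination hr

end Pool.Agent.Lib.MP_775b3b_nt.CM
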