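import Pool.Agent.Lib.MP_775b3b_nt.CM.NDef

namespace Pool.Agent.Lib.MP_775b3b_nt.CM

open Pool.Agent.Lib.MP_439fea_co NumberField WithZero

/-- the numerator of the invariant -/
def jj (s Q : ℕ) : ℕ := s ^ 2 + 1728 * Q ^ 2

/-- the cubic with roots `c t`, `t` a root for `c = 1` -/
def cb {R : Type} [CommRing R] (s Q : ℕ) (c x : R) : R :=
  x ^ 3 - c * s * x ^ 2 - 576 * Q ^ 2 * c ^ 2 * x + 64 * s * Q ^ 2 * c ^ 3

/-- the three roots, with their orientation -/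
structure Rt {R : Type} [CommRing R] (s Q : ℕ) (a b c : R) : Prop where
  e1 : a + b + c = s
  e2 : a * b + b * c + c * a = -576 * Q ^ 2
  e3 : a * b * c = -64 * s * Q ^ 2
  di : (a - b) * (b - c) * (c - a) = 16 * Q * jj s Q

/-- the cyclic cubic extension generated by a root -/
structure CE (s Q : ℕ) (F : Type) [Field F] {K : Type} [Field K] [NumberField K] [Algebra F K]
    (t : K) (σ : Ga K) : Prop where
  cub : Cub σ (MulAction.stabilizer (Ga K) t)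
  rt : Rt s Q t (σ t) (σ (σ t))
  fix : ∀ x : K, σ x = x ↔ ∃ y : F, algebraMap F K y = x
  res : ∀ g : Ga K, (∀ y : F, g (algebraMap F K y) = algebraMap F K y) →
    g = 1 ∨ g = σ ∨ g = σ * σ
  lift : ∀ (Ω : Type) [Field Ω] (ι : F →+* Ω) (t' : Ω), cb s Q 1 t' = 0 →
    ∃ φ : K →+* Ω, φ t = t' ∧ ∀ y : F, φ (algebraMap F K y) = ι y

variable {K : Type} [Field K] [NumberField K]

/-- the curve data -/
structure Cv (D : Dat K) where
  s : ℕ
  q : P K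
  t : K
  a : Kˣ
  b : Kˣ
  c : Kˣ
  sp : SP q
  s4 : s % 4 = 3
  sq : s % nm q = 1
  fix : ∀ g ∈ D.G, g t = t
  rt : Rt s (nm q) t (D.σ t) (D.σ (D.σ t))
  ha : (a : K) = t - D.σ t
  hb : (b : K) = D.σ t - D.σ (D.σ t)
  hc : (c : K) = D.σ (D.σ t) - t
  w1 : val D.w t = 1
  q1 : val q t = 1
  r1 : D.ρ t < D.ρ (D.σ t)
  r2 : D.ρ t < D.ρ (D.σ (D.σ t))

/-- an admissible twisting element -/
structure Eta (D : Dat K) (η : Kˣ) : Prop where
  fix : D.σ • η = η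
  ev : ∀ w : P K, D.σ • w = w ∨ Even (ord w (η : K))
  pry : ∀ w : P K, val w (2 : K) < 1 → Pry w η

/-- the hypotheses on the totally real field -/
structure Base (s : ℕ) (q : P K) (ρ : K →+* ℝ) (B : Finset Kˣ) : Prop where
  two : Two K
  sp : SP q
  s4 : s % 4 = 3
  sq : s % nm q = 1
  irr : ∀ x : K, cb s (nm q) 1 x ≠ 0
  ram : ∀ v : P K, ((∃ n : ℕ, Odd (ord v (n : K))) ∧ ∀ η ∈ B, Even (ord v (η : K))) ∨
    ∀ x : K, val v x ≤ 1 → ¬ val v (cb s (nm q) 1 x) < 1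
  sgn : ∀ η ∈ B, ∀ g : Ga K, ns q (g • η) = sg ρ (g • η)
  pry : ∀ η ∈ B, ∀ w : P K, val w (2 : K) < 1 → Pry w η

end Pool.Agent.Lib.MP_775b3b_nt.CM
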