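import Pool.Agent.Lib.MP_775b3b_nt.CM.Fr0

namespace Pool.Agent.Lib.MP_775b3b_nt.CM.Fr

open scoped Classical

theorem Fr1_bot {G : Type} [Group G] [Finite G] (hG : IsPGroup 2 G) {V : Type} [AddCommGroup V]
    [Module (ZMod 2) V] [Finite V] (σ : G → V →ₗ[ZMod 2] V) (h1 : ∀ w, σ 1 w = w)
    (hm : ∀ g h w, σ (g * h) w = σ g (σ h w)) (K : Submodule (ZMod 2) V)
    (hK : ∀ g, ∀ w ∈ K, σ g w ∈ K) (hf : ∀ w ∈ K, (∀ g, σ g w = w) → w = 0) : K = ⊥ := by
  let _ : MulAction G K :=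
    { smul := fun g w => ⟨σ g w, hK g w w.2⟩
      one_smul := fun w => Subtype.ext (h1 w)
      mul_smul := fun g h w => Subtype.ext (hm g h w) }
  have _ : Fact (Nat.Prime 2) := ⟨Nat.prime_two⟩
  have hc := hG.card_modEq_card_fixedPoints K
  have hfix : MulAction.fixedPoints G K = {0} := by
    ext w
    simp only [MulAction.mem_fixedPoints, Set.mem_singleton_iff]
    constructor
    · intro h
      exact Subtype.ext (hf w w.2 fun g => congrArg Subtype.val (h g))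
    · rintro rfl g
      exact Subtype.ext (map_zero (σ g))
  rw [hfix] at hc
  simp only [Nat.card_unique] at hc
  by_contra hne
  obtain ⟨w, hw, hw0⟩ := Submodule.exists_mem_ne_zero_of_ne_bot hne
  have h2 : addOrderOf (⟨w, hw⟩ : K) = 2 := by
    apply addOrderOf_eq_prime
    · apply Subtype.ext
      show (2 : ℕ) • w = 0
      rw [← Nat.cast_smul_eq_nsmul (ZMod 2)]
      have : ((2 : ℕ) : ZMod 2) = 0 := ZMod.natCast_self 2
      rw [this, zero_smul]
    · intro h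
      exact hw0 (congrArg Subtype.val h)
  have h3 := addOrderOf_dvd_natCard (⟨w, hw⟩ : K)
  rw [h2] at h3
  have h4 : Nat.card K % 2 = 0 := Nat.mod_eq_zero_of_dvd h3
  unfold Nat.ModEq at hc
  omega

variable {Γ : Type} [Group Γ] [Fintype Γ] {W : Type} [AddCommGroup W] [Module (ZMod 2) W]

/-- right translation of functions on a subgroup -/
def Fr1_tr (P : Subgroup Γ) (M : Type) [AddCommGroup M] [Module (ZMod 2) M] (h : P) :
    (P → M) →ₗ[ZMod 2] (P → M) :=
  LinearMap.pi fun v => LinearMap.proj (v * h)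

omit [Fintype Γ] in
theorem Fr1_tr_apply (P : Subgroup Γ) (M : Type) [AddCommGroup M] [Module (ZMod 2) M] (h : P)
    (f : P → M) (v : P) : Fr1_tr P M h f v = f (v * h) := rfl

theorem Fr1_phi [Finite W] (ρ : Representation (ZMod 2) Γ W) (P : Subgroup Γ)
    (hP : IsPGroup 2 P) : ∃ Φ : W →ₗ[ZMod 2] (P → fx ρ P), Function.Injective Φ ∧
      (∀ (g : P) w, Φ (ρ g w) = Fr1_tr P _ g (Φ w)) ∧ ∀ c : fx ρ P, Φ c = fun _ => c := by
  obtain ⟨lam, hlam⟩ := LinearMap.exists_leftInverse_of_injective (fx ρ P).subtype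
    (Submodule.ker_subtype _)
  have hl : ∀ c : fx ρ P, lam c = c := fun c => LinearMap.congr_fun hlam c
  let Φ : W →ₗ[ZMod 2] (P → fx ρ P) := LinearMap.pi fun v => lam ∘ₗ ρ v
  have hΦ : ∀ w v, Φ w v = lam (ρ v w) := fun _ _ => rfl
  have heq : ∀ (g : P) w, Φ (ρ g w) = Fr1_tr P _ g (Φ w) := by
    intro g w
    funext v
    rw [Fr1_tr_apply, hΦ, hΦ, Subgroup.coe_mul, map_mul, Module.End.mul_apply]
  have hc : ∀ c : fx ρ P, Φ c = fun _ => c := by
    intro c
    funext v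
    rw [hΦ, c.2 v v.2, hl]
  refine ⟨Φ, ?_, heq, hc⟩
  rw [← LinearMap.ker_eq_bot]
  refine Fr1_bot hP (fun g : P => ρ g) (fun w => by simp) (fun g h w => by simp) _ ?_ ?_
  · intro g w hw
    rw [LinearMap.mem_ker] at hw ⊢
    rw [heq, hw, map_zero]
  · intro w hw hfix
    have hw' : w ∈ fx ρ P := fun g hg => hfix ⟨g, hg⟩
    rw [LinearMap.mem_ker] at hw
    have h := congrFun (hc ⟨w, hw'⟩) 1
    have h0 : Φ w 1 = 0 := by rw [hw]; rfl
    have h' : (⟨w, hw'⟩ : fx ρ P) = 0 := h.symm.trans h0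
    exact congrArg Subtype.val h'

theorem hig_of_card [Finite W] (ρ : Representation (ZMod 2) Γ W) (P : Subgroup Γ)
    (hP : IsPGroup 2 P) (h : Nat.card (fx ρ P) ^ Nat.card P ≤ Nat.card W) : Hig ρ P := by
  obtain ⟨Φ, hinj, heq, -⟩ := Fr1_phi ρ P hP
  have hbij : Function.Bijective Φ := by
    apply hinj.bijective_of_nat_card_le
    rw [Nat.card_fun]
    exact h
  let e : W ≃ₗ[ZMod 2] (P → fx ρ P) := LinearEquiv.ofBijective Φ hbij
  have he : ∀ f, Φ (e.symm f) = f := fun f => e.apply_symm_apply f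
  let δ : (P → fx ρ P) →ₗ[ZMod 2] (P → fx ρ P) :=
    LinearMap.single (ZMod 2) (fun _ : P => fx ρ P) 1 ∘ₗ LinearMap.proj 1
  refine ⟨e.symm.toLinearMap ∘ₗ δ ∘ₗ Φ, ?_⟩
  ext w
  apply hinj
  rw [LinearMap.sum_apply, map_sum]
  funext v
  rw [Finset.sum_apply, Finset.sum_eq_single v⁻¹]
  · simp only [Module.End.mul_apply, LinearMap.comp_apply, LinearEquiv.coe_coe]
    rw [heq, he, Fr1_tr_apply, mul_inv_cancel]
    have : ρ ((v⁻¹ : P) : Γ)⁻¹ w = ρ (v : Γ) w := by simp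
    rw [this, heq]
    simp [δ, Fr1_tr_apply]
  · intro g _ hg
    simp only [Module.End.mul_apply, LinearMap.comp_apply, LinearEquiv.coe_coe]
    rw [heq, he, Fr1_tr_apply]
    have hne : v * g ≠ 1 := fun h1 => hg (eq_inv_of_mul_eq_one_right h1)
    simp [δ, hne]
  · intro hv
    exact absurd (Finset.mem_univ _) hv

theorem card_of_hig [Finite W] (ρ : Representation (ZMod 2) Γ W) (P : Subgroup Γ)
    (hP : IsPGroup 2 P) (h : Hig ρ P) : Nat.card W = Nat.card (fx ρ P) ^ Nat.card P := by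
  obtain ⟨Φ, hinj, heq, hc⟩ := Fr1_phi ρ P hP
  obtain ⟨θ, hθ⟩ := h
  obtain ⟨ψ, hψ⟩ := LinearMap.exists_leftInverse_of_injective Φ (LinearMap.ker_eq_bot.2 hinj)
  have hψ' : ∀ w, ψ (Φ w) = w := fun w => LinearMap.congr_fun hψ w
  let Ψ : (P → fx ρ P) →ₗ[ZMod 2] W := ∑ g : P, ρ g ∘ₗ θ ∘ₗ ψ ∘ₗ Fr1_tr P _ g⁻¹
  have hΨ : ∀ f, Ψ f = ∑ g : P, ρ g (θ (ψ (Fr1_tr P _ g⁻¹ f))) := by
    intro f
    simp only [Ψ, LinearMap.sum_apply, LinearMap.comp_apply]
  have h1 : ∀ w, Ψ (Φ w) = w := by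
    intro w
    rw [hΨ]
    have h2 := LinearMap.congr_fun hθ w
    rw [LinearMap.sum_apply] at h2
    refine Eq.trans (Finset.sum_congr rfl fun g _ => ?_) h2
    rw [← heq, hψ']
    simp
  have hmul : ∀ (g h : P) (f : P → fx ρ P),
      Fr1_tr P _ (g * h) f = Fr1_tr P _ g (Fr1_tr P _ h f) := by
    intro g h f
    funext v
    simp only [Fr1_tr_apply, mul_assoc]
  have h3 : ∀ (k : P) f, Ψ (Fr1_tr P _ k f) = ρ k (Ψ f) := by
    intro k f
    rw [hΨ, hΨ, map_sum]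
    symm
    refine Fintype.sum_equiv (Equiv.mulLeft k) _ _ fun g => ?_
    rw [← hmul]
    simp
  have hΨinj : Function.Injective Ψ := by
    rw [← LinearMap.ker_eq_bot]
    refine Fr1_bot hP (Fr1_tr P _) (fun f => by funext v; rw [Fr1_tr_apply, mul_one]) hmul _ ?_ ?_
    · intro g f hf
      rw [LinearMap.mem_ker] at hf ⊢
      rw [h3, hf, map_zero]
    · intro f hf hfix
      rw [LinearMap.mem_ker] at hf
      have hf1 : f = Φ (f 1) := by
        rw [hc]
        funext v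
        have := congrFun (hfix v) 1
        rw [Fr1_tr_apply, one_mul] at this
        exact this
      have h0 : ((f 1 : fx ρ P) : W) = 0 := by
        rw [← h1 (f 1), ← hf1, hf]
      rw [hf1, h0, map_zero]
  have a1 := Nat.card_le_card_of_injective Φ hinj
  have a2 := Nat.card_le_card_of_injective Ψ hΨinj
  rw [Nat.card_fun] at a1 a2
  exact le_antisymm a1 a2

end Pool.Agent.Lib.MP_775b3b_nt.CM.Fr
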