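import Pool.Agent.Lib.MP_775b3b_nt.CM.Fr1

namespace Pool.Agent.Lib.MP_775b3b_nt.CM.Fr

open scoped Classical

variable {Γ : Type} [Group Γ] [Fintype Γ] {W : Type} [AddCommGroup W] [Module (ZMod 2) W]

theorem fr2_sum {M : Type} [AddCommMonoid M] (Q : Subgroup Γ) (f : Γ → M) :
    ∑ g : (⊤ : Subgroup Γ), f g = ∑ t : Γ ⧸ Q, ∑ q : Q, f (t.out * q) := by
  rw [← Fintype.sum_prod_type']
  refine (Fintype.sum_bijective (fun p : (Γ ⧸ Q) × Q => (⟨p.1.out * p.2, trivial⟩ : (⊤ : Subgroup Γ)))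
    ⟨fun p p' h => ?_, fun g => ?_⟩ _ _ fun _ => rfl).symm
  · have e : p.1.out * p.2 = p'.1.out * p'.2 := congrArg Subtype.val h
    have e1 : p.1 = p'.1 := by simpa using congrArg (QuotientGroup.mk (s := Q)) e
    rw [e1] at e
    exact Prod.ext e1 (Subtype.ext (mul_left_cancel e))
  · obtain ⟨h, hh⟩ := QuotientGroup.mk_out_eq_mul Q g.1
    exact ⟨(g.1, h⁻¹), Subtype.ext (by simp [hh])⟩

theorem fr2_odd {M : Type} [AddCommGroup M] [Module (ZMod 2) M] {n : ℕ} (h : Odd n) (w : M) :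
    n • w = w := by
  rw [← Nat.cast_smul_eq_nsmul (ZMod 2), (ZMod.natCast_eq_one_iff_odd).2 h, one_smul]

theorem hig_top_of_odd (ρ : Representation (ZMod 2) Γ W) (Q : Subgroup Γ) (hi : Odd Q.index)
    (h : Hig ρ Q) : Hig ρ ⊤ := by
  obtain ⟨θ, hθ⟩ := h
  refine ⟨θ, ?_⟩
  rw [fr2_sum Q fun g => ρ g * θ * ρ g⁻¹]
  have : ∀ t : Γ, ∑ q : Q, ρ (t * q) * θ * ρ (t * q)⁻¹ = 1 := fun t => by
    calc _ = ρ t * (∑ q : Q, ρ q * θ * ρ (q : Γ)⁻¹) * ρ t⁻¹ := by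
          simp only [Finset.mul_sum, Finset.sum_mul, mul_inv_rev, map_mul, mul_assoc]
      _ = 1 := by rw [hθ, mul_one, ← map_mul, mul_inv_cancel, map_one]
  simp only [this, Finset.sum_const, Finset.card_univ, ← Nat.card_eq_fintype_card]
  exact fr2_odd hi _

theorem hig_of_top (ρ : Representation (ZMod 2) Γ W) (P : Subgroup Γ) (h : Hig ρ ⊤) :
    Hig ρ P := by
  obtain ⟨θ, hθ⟩ := h
  refine ⟨∑ t : Γ ⧸ P, ρ t.out⁻¹ * θ * ρ t.out, ?_⟩
  rw [← hθ, ← Equiv.sum_comp (Equiv.inv (⊤ : Subgroup Γ)), ← Equiv.sum_comp (Equiv.inv P)]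
  simp only [Equiv.inv_apply, Subgroup.coe_inv, inv_inv]
  rw [fr2_sum P fun g => ρ g⁻¹ * θ * ρ g, Finset.sum_comm]
  simp only [Finset.mul_sum, Finset.sum_mul, mul_inv_rev, map_mul, mul_assoc]

theorem cyc_red (x : Γ) : ∃ s : Γ, ∃ m : ℕ, Odd (Nat.card (Subgroup.zpowers s)) ∧ m ≠ 0 ∧
    ∀ (W : Type) [AddCommGroup W] [Module (ZMod 2) W] [Finite W]
      (ρ : Representation (ZMod 2) Γ W), Hig ρ ⊤ →
      Nat.card (fx ρ (Subgroup.zpowers s)) = Nat.card (fx ρ (Subgroup.zpowers x)) ^ m := by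
  obtain ⟨j, n, hn, e⟩ := Nat.exists_eq_two_pow_mul_odd (orderOf_pos x).ne'
  have ho : Odd (Nat.card (Subgroup.zpowers (x ^ 2 ^ j))) := by
    rw [Nat.card_zpowers]
    exact hn.of_dvd_nat (orderOf_dvd_of_pow_eq_one (by rw [← pow_mul, ← e, pow_orderOf_eq_one]))
  have hP : IsPGroup 2 (Subgroup.zpowers (x ^ n)) := by
    obtain ⟨i, -, hi⟩ := (Nat.dvd_prime_pow Nat.prime_two).1 (orderOf_dvd_of_pow_eq_one
      (show (x ^ n) ^ 2 ^ j = 1 by rw [← pow_mul, mul_comm, ← e, pow_orderOf_eq_one]))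
    exact IsPGroup.of_card ((Nat.card_zpowers _).trans hi)
  have hx : ∃ a ∈ Subgroup.zpowers (x ^ 2 ^ j), ∃ b ∈ Subgroup.zpowers (x ^ n), x = a * b := by
    have hc : Nat.Coprime (2 ^ j) n := (Nat.coprime_two_left.2 hn).pow_left j
    have := congrArg (x ^ ·) (Nat.gcd_eq_gcd_ab (2 ^ j) n)
    simp only [hc.gcd_eq_one, Nat.cast_one, zpow_one, zpow_add, zpow_mul, zpow_natCast] at this
    exact ⟨_, ⟨_, rfl⟩, _, ⟨_, rfl⟩, this⟩
  have h1 : ∀ k, Subgroup.zpowers (x ^ k) ≤ Subgroup.zpowers x := fun k =>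
    Subgroup.zpowers_le_of_mem (Subgroup.npow_mem_zpowers x k)
  have hc : ∀ g ∈ Subgroup.zpowers (x ^ n), ∀ c ∈ Subgroup.zpowers (x ^ 2 ^ j),
      c * g = g * c := fun g hg c hc => by
    obtain ⟨a, rfl⟩ := h1 _ hg
    obtain ⟨b, rfl⟩ := h1 _ hc
    exact zpow_mul_comm x b a
  have h2 := h1 (2 ^ j)
  have h3 := h1 n
  refine ⟨x ^ 2 ^ j, Nat.card (⊤ : Subgroup (Subgroup.zpowers (x ^ n))), ho, Nat.card_pos.ne', ?_⟩
  generalize Subgroup.zpowers (x ^ 2 ^ j) = S at *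
  generalize Subgroup.zpowers (x ^ n) = P at *
  intro W _ _ _ ρ h
  obtain ⟨θ, hθ⟩ := hig_of_top ρ P h
  have cm : ∀ g ∈ P, ∀ c ∈ S, ∀ w, ρ c (ρ g w) = ρ g (ρ c w) := fun g hg c hs w => by
    rw [← Module.End.mul_apply, ← map_mul, hc g hg c hs, map_mul, Module.End.mul_apply]
  have st : ∀ g : P, ∀ w ∈ fx ρ S, ρ g w ∈ fx ρ S := fun g w hw c hs => by
    rw [cm g g.2 c hs, hw c hs]
  let ρ0 : Representation (ZMod 2) P (fx ρ S) :=
    { toFun := fun g => (ρ g).restrict (st g)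
      map_one' := by ext; simp
      map_mul' := fun a b => by ext; simp }
  have p1 : ∀ w, (∑ c : S, ρ c) w ∈ fx ρ S := fun w d hd => by
    simp only [LinearMap.sum_apply, map_sum, ← Module.End.mul_apply, ← map_mul]
    exact Equiv.sum_comp (Equiv.mulLeft (⟨d, hd⟩ : S)) fun c : S => ρ c w
  have p2 : ∀ w ∈ fx ρ S, (∑ c : S, ρ c) w = w := fun w hw => by
    simp only [LinearMap.sum_apply, fun c : S => hw c c.2, Finset.sum_const, Finset.card_univ,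
      ← Nat.card_eq_fintype_card]
    exact fr2_odd ho w
  have hH : Hig ρ0 ⊤ := by
    refine ⟨((∑ c : S, ρ c) * θ).restrict fun w _ => p1 _, ?_⟩
    ext w
    have := p2 w w.2
    conv_rhs => rw [Module.End.one_apply, ← this, ← Module.End.one_apply (R := ZMod 2) w.1, ← hθ]
    rw [LinearMap.sum_apply, Submodule.coe_sum, LinearMap.sum_apply _ _ w.1, map_sum]
    refine Fintype.sum_equiv Subgroup.topEquiv.toEquiv _ _ fun g => ?_
    change ρ g.1 ((∑ c : S, ρ c) (θ (ρ (g.1 : Γ)⁻¹ w))) = (∑ c : S, ρ c) (ρ g.1 (θ (ρ (g.1 : Γ)⁻¹ w)))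
    simp only [LinearMap.sum_apply, map_sum, fun c : S => cm _ g.1.2 c c.2]
  rw [card_of_hig ρ0 ⊤ (hP.to_subgroup ⊤) hH]
  congr 1
  refine Nat.card_congr ⟨fun w => ⟨w.1.1, fun g hg => ?_⟩, fun w =>
    ⟨⟨w.1, fun g hg => w.2 g (h2 hg)⟩, fun g _ => Subtype.ext (w.2 g (h3 g.2))⟩,
      fun _ => rfl, fun _ => rfl⟩
  obtain ⟨a, ha, b, hb, hx⟩ := hx
  have k : ρ x w.1.1 = w.1.1 := by
    rw [hx, map_mul, Module.End.mul_apply,
      show ρ b w.1.1 = w.1.1 from congrArg Subtype.val (w.2 ⟨b, hb⟩ trivial), w.1.2 a ha]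
  obtain ⟨i, rfl⟩ := mem_powers_iff_mem_zpowers.2 hg
  induction i with
  | zero => simp
  | succ i ih =>
    simp only [pow_succ, map_mul, Module.End.mul_apply, k]
    exact ih (Subgroup.npow_mem_zpowers x i)

end Pool.Agent.Lib.MP_775b3b_nt.CM.Fr
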