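import Pool.Agent.Lib.MP_775b3b_nt.CM.Fr0

namespace Pool.Agent.Lib.MP_775b3b_nt.CM.Fr

open scoped Classical
open Matrix Kronecker

section Lift

variable {R : Type} [CommRing R] {k : ℕ}

theorem nil_two {B : Type} [Ring B] [Algebra R B] (h2 : (2 : R) ^ k = 0) (y : B) :
    IsNilpotent ((2 : R) • y) :=
  ⟨k, by rw [_root_.smul_pow, h2, zero_smul]⟩

theorem mat_ker (f : R →+* ZMod 2) (hk : ∀ x, f x = 0 → ∃ y, x = 2 * y) {m n : Type}
    (A : Matrix m n R) (h : A.map f = 0) : ∃ B : Matrix m n R, A = (2 : R) • B := by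
  have : ∀ i j, ∃ y, A i j = 2 * y := fun i j => hk _ (congrFun (congrFun h i) j)
  choose B hB using this
  exact ⟨Matrix.of B, by ext i j; simp [hB]⟩

theorem mat_lift (f : R →+* ZMod 2) (hf : Function.Surjective f) {m n : Type}
    (A : Matrix m n (ZMod 2)) : ∃ B : Matrix m n R, B.map f = A := by
  have : ∀ i j, ∃ y, f y = A i j := fun i j => hf _
  choose B hB using this
  exact ⟨Matrix.of B, by ext i j; simp [hB]⟩

theorem trace_idem (f : R →+* ZMod 2) (hf : Function.Surjective f)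
    (hk : ∀ x, f x = 0 → ∃ y, x = 2 * y) (h2 : (2 : R) ^ k = 0) {m r : Type} [Fintype m]
    [DecidableEq m] [Fintype r] [DecidableEq r] (E : Matrix m m R) (hE : E * E = E)
    (a : Matrix m r (ZMod 2)) (b : Matrix r m (ZMod 2)) (hab : a * b = E.map f)
    (hba : b * a = 1) : E.trace = Fintype.card r := by
  obtain ⟨a0, rfl⟩ := mat_lift f hf a
  obtain ⟨b0, rfl⟩ := mat_lift f hf b
  have hv : ((b0 * E) * (E * a0)).map f = 1 := by
    rw [Matrix.mul_assoc, ← Matrix.mul_assoc E, hE, Matrix.map_mul, Matrix.map_mul, ← hab,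
      Matrix.mul_assoc, hba, Matrix.mul_one, hba]
  have hu : IsUnit ((b0 * E) * (E * a0)) := by
    obtain ⟨y, hy⟩ := mat_ker f hk ((b0 * E) * (E * a0) - 1) (by
      rw [Matrix.map_sub _ (map_sub f), hv, Matrix.map_one _ (map_zero f) (map_one f), sub_self])
    have := (nil_two h2 y).isUnit_add_one
    rwa [← hy, sub_add_cancel] at this
  obtain ⟨v, hv'⟩ := hu
  obtain ⟨w, hw⟩ : ∃ w : Matrix r r R, w = (v⁻¹ : (Matrix r r R)ˣ) := ⟨_, rfl⟩
  have hw1 : w * ((b0 * E) * (E * a0)) = 1 := by rw [hw, ← hv']; exact v.inv_mul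
  have hwf : w.map f = 1 := by
    have : (w * ((b0 * E) * (E * a0))).map f = (1 : Matrix r r R).map f := by rw [hw1]
    rwa [Matrix.map_mul, hv, Matrix.mul_one, Matrix.map_one _ (map_zero f) (map_one f)] at this
  obtain ⟨E', hE'⟩ : ∃ E', E' = (E * a0) * (w * (b0 * E)) := ⟨_, rfl⟩
  have e1 : E * E' = E' := by rw [hE', ← Matrix.mul_assoc, ← Matrix.mul_assoc E E, hE]
  have e2 : E' * E = E' := by
    rw [hE', Matrix.mul_assoc, Matrix.mul_assoc w, Matrix.mul_assoc b0, hE]
  have e3 : E' * E' = E' := by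
    have : (w * (b0 * E)) * (E * a0) = 1 := by rw [Matrix.mul_assoc, hw1]
    rw [hE', Matrix.mul_assoc, ← Matrix.mul_assoc (w * (b0 * E)), this, Matrix.one_mul]
  have hid : IsIdempotentElem (E - E') := by
    show (E - E') * (E - E') = E - E'
    rw [sub_mul, mul_sub, mul_sub, hE, e1, e2, e3, sub_self, sub_zero]
  obtain ⟨y, hy⟩ := mat_ker f hk (E - E') (by
    rw [Matrix.map_sub _ (map_sub f), hE']
    simp only [Matrix.map_mul, hwf, Matrix.one_mul, ← hab]
    rw [Matrix.mul_assoc (a0.map f) (b0.map f) (a0.map f), hba, Matrix.mul_one,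
      ← Matrix.mul_assoc (b0.map f), hba, Matrix.one_mul, sub_self])
  have h0 : E - E' = 0 := by
    obtain ⟨n, hn⟩ := hy ▸ nil_two h2 y
    rcases n with _ | n
    · rw [pow_zero] at hn
      rw [← mul_one (E - E'), hn, mul_zero]
    · rw [hid.pow_succ_eq] at hn; exact hn
  rw [sub_eq_zero] at h0
  rw [h0, hE', Matrix.trace_mul_comm, Matrix.mul_assoc, hw1, Matrix.trace_one]

theorem trace_rank (f : R →+* ZMod 2) (hf : Function.Surjective f)
    (hk : ∀ x, f x = 0 → ∃ y, x = 2 * y) (h2 : (2 : R) ^ k = 0) {m : Type} [Fintype m]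
    [DecidableEq m] (E : Matrix m m R) (hE : E * E = E) {U : Type} [AddCommGroup U]
    [Module (ZMod 2) U] (B : Module.Basis m (ZMod 2) U) (φ : Module.End (ZMod 2) U)
    (hφ : LinearMap.toMatrix B B φ = E.map f) :
    ((Module.finrank (ZMod 2) (LinearMap.range φ) : ℕ) : R) = E.trace := by
  have : Module.Finite (ZMod 2) U := Module.Finite.of_basis B
  have hφ2 : φ ∘ₗ φ = φ := by
    apply (LinearMap.toMatrix B B).injective
    rw [LinearMap.toMatrix_comp B B B, hφ, ← Matrix.map_mul, hE]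
  let c := Module.finBasis (ZMod 2) (LinearMap.range φ)
  rw [trace_idem f hf hk h2 E hE (LinearMap.toMatrix c B (LinearMap.range φ).subtype)
    (LinearMap.toMatrix B c φ.rangeRestrict), Fintype.card_fin]
  · rw [← LinearMap.toMatrix_comp B c B, ← hφ]
    rfl
  · rw [← LinearMap.toMatrix_comp c B c, ← LinearMap.toMatrix_id c]
    congr 1
    ext ⟨_, u, rfl⟩
    exact LinearMap.congr_fun hφ2 u

variable {Γ : Type} [Group Γ] [Fintype Γ]

theorem conv_lift (f : R →+* ZMod 2) (hf : Function.Surjective f)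
    (hk : ∀ x, f x = 0 → ∃ y, x = 2 * y) (h2 : (2 : R) ^ k = 0) {D : Type} [Fintype D]
    [DecidableEq D] (q : Γ → Matrix D D (ZMod 2)) (hq : ∀ x, ∑ g, q g * q (g⁻¹ * x) = q x) :
    ∃ p : Γ → Matrix D D R, (∀ x, ∑ g, p g * p (g⁻¹ * x) = p x) ∧ ∀ g, (p g).map f = q g := by
  have cm : ∀ {S : Type} [Ring S] (x y : MonoidAlgebra S Γ) (g : Γ),
      (x * y).coeff g = ∑ h, x.coeff h * y.coeff (h⁻¹ * g) := by
    intro S _ x y g
    rw [MonoidAlgebra.coeff_mul_apply_left, Finsupp.sum_fintype]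
    intro h
    exact zero_mul _
  let F := MonoidAlgebra.mapRingHom Γ (f.mapMatrix (m := D))
  let e : MonoidAlgebra (Matrix D D (ZMod 2)) Γ :=
    MonoidAlgebra.ofCoeff (Finsupp.equivFunOnFinite.symm q)
  have he : ∀ g, e.coeff g = q g := fun g => rfl
  obtain ⟨e', h1, h3⟩ := exists_isIdempotentElem_eq_of_ker_isNilpotent F (fun x hx => by
      have : ∀ g, ∃ y, x.coeff g = (2 : R) • y := fun g => mat_ker f hk _ (by
        have h := congrArg (fun z => z.coeff g) (RingHom.mem_ker.1 hx)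
        simp only [F, MonoidAlgebra.coeff_mapRingHom] at h
        exact h)
      choose y hy using this
      have hx' : x = (2 : R) • MonoidAlgebra.ofCoeff (Finsupp.equivFunOnFinite.symm y) :=
        MonoidAlgebra.coeff_injective (Finsupp.ext fun g => hy g)
      rw [hx']
      exact nil_two h2 _) e
    (by
      choose p hp using fun g => mat_lift f hf (q g)
      refine ⟨MonoidAlgebra.ofCoeff (Finsupp.equivFunOnFinite.symm p), ?_⟩
      refine MonoidAlgebra.coeff_injective (Finsupp.ext fun g => ?_)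
      simp only [F, MonoidAlgebra.coeff_mapRingHom]
      exact hp g)
    (MonoidAlgebra.coeff_injective (Finsupp.ext fun g => by
      rw [cm]; exact hq g))
  refine ⟨fun g => e'.coeff g, fun x => ?_, fun g => ?_⟩
  · rw [← cm, h1.eq]
  · have h := congrArg (fun z => z.coeff g) h3
    simp only [F, MonoidAlgebra.coeff_mapRingHom] at h
    exact h

end Lift

variable {Γ : Type} [Group Γ] [Fintype Γ] {W : Type} [AddCommGroup W] [Module (ZMod 2) W]

theorem tr_lift [Finite W] (q : Γ → Module.End (ZMod 2) W)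
    (hq : ∀ x, ∑ g, q g * q (g⁻¹ * x) = q x) (k : ℕ) :
    ∃ t : Γ → ZMod (2 ^ k), ∀ (N : Type) [Fintype N] [DecidableEq N] (τ : Γ →* Matrix N N ℤ),
      ((Module.finrank (ZMod 2) (LinearMap.range (act q τ)) : ℕ) : ZMod (2 ^ k)) =
        ∑ g, t g * (((τ g).trace : ℤ) : ZMod (2 ^ k)) := by
  rcases k with _ | k
  · have : Subsingleton (ZMod (2 ^ 0)) := by rw [pow_zero]; infer_instance
    exact ⟨fun _ => 0, fun _ _ _ _ => Subsingleton.elim _ _⟩
  let f : ZMod (2 ^ (k + 1)) →+* ZMod 2 := ZMod.castHom (dvd_pow_self 2 k.succ_ne_zero) _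
  have hf : Function.Surjective f := ZMod.castHom_surjective _
  have hk : ∀ x, f x = 0 → ∃ y, x = 2 * y := by
    intro x hx
    obtain ⟨n, rfl⟩ := ZMod.intCast_surjective x
    rw [map_intCast, ZMod.intCast_zmod_eq_zero_iff_dvd] at hx
    obtain ⟨c, rfl⟩ := hx
    exact ⟨c, by push_cast; ring⟩
  have h2 : (2 : ZMod (2 ^ (k + 1))) ^ (k + 1) = 0 := by
    have := ZMod.natCast_self (2 ^ (k + 1))
    exact_mod_cast this
  have : Module.Finite (ZMod 2) W := Module.Finite.of_finite
  let b := Module.finBasis (ZMod 2) W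
  obtain ⟨p, hp1, hp2⟩ := conv_lift f hf hk h2 (fun g => LinearMap.toMatrix b b (q g)) (fun x => by
    simp only [← LinearMap.toMatrix_mul]
    rw [← map_sum, hq])
  refine ⟨fun g => (p g).trace, fun N _ _ τ => ?_⟩
  let c := Int.castRingHom (ZMod (2 ^ (k + 1)))
  let κ := Matrix.kroneckerBilinear (R := ZMod (2 ^ (k + 1))) (α := ZMod (2 ^ (k + 1)))
    (l := N) (m := N) (n := Fin (Module.finrank (ZMod 2) W))
    (p := Fin (Module.finrank (ZMod 2) W))
  have hκ : ∀ A B, κ A B = A ⊗ₖ B := fun A B => rfl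
  let E := ∑ g, κ ((τ g).map c) (p g)
  have hE : E * E = E := by
    simp only [E]
    rw [Finset.sum_mul_sum]
    have : ∀ g, ∑ h, κ ((τ g).map c) (p g) * κ ((τ h).map c) (p h) =
        ∑ x, κ ((τ x).map c) (p g * p (g⁻¹ * x)) := by
      intro g
      refine Fintype.sum_equiv (Equiv.mulLeft g) _ _ fun h => ?_
      simp only [hκ, Equiv.coe_mulLeft, inv_mul_cancel_left]
      rw [← Matrix.mul_kronecker_mul, map_mul, Matrix.map_mul]
    simp only [this]
    rw [Finset.sum_comm]
    refine Finset.sum_congr rfl fun x _ => ?_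
    rw [← map_sum, hp1]
  let B := (Pi.basis fun _ : N => b).reindex (Equiv.sigmaEquivProd N _)
  rw [trace_rank f hf hk h2 E hE B (act q τ)]
  · simp only [E, Matrix.trace_sum, hκ, Matrix.trace_kronecker]
    refine Finset.sum_congr rfl fun g _ => ?_
    rw [mul_comm]
    congr 1
    exact (AddMonoidHom.map_trace c.toAddMonoidHom (τ g)).symm
  · ext ⟨x, i⟩ ⟨y, j⟩
    have e1 : E.map f (x, i) (y, j) = ∑ g, (τ g x y : ZMod 2) * LinearMap.toMatrix b b (q g) i j := by
      simp only [E, Matrix.map_apply, Matrix.sum_apply, hκ, Matrix.kronecker_apply, map_sum,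
        map_mul]
      refine Finset.sum_congr rfl fun g _ => ?_
      rw [← hp2 g]
      simp [c]
    rw [e1, LinearMap.toMatrix_apply]
    simp only [B, Module.Basis.reindex_apply, Module.Basis.repr_reindex_apply,
      Equiv.sigmaEquivProd_symm_apply, Pi.basis_apply, Pi.basis_repr, act_apply, map_sum,
      Finsupp.finsetSum_apply, map_smul, Finsupp.smul_apply, smul_eq_mul]
    refine Finset.sum_congr rfl fun g _ => ?_
    rw [Finset.sum_eq_single y]
    · simp [LinearMap.toMatrix_apply]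
    · intro z _ hz
      simp [Pi.single_eq_of_ne hz]
    · simp

end Pool.Agent.Lib.MP_775b3b_nt.CM.Fr
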