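import Pool.Agent.Lib.MP_775b3b_nt.CM.ADef
import Pool.Agent.Lib.MP_439fea_co.SUnit

/-! Local symbols and the localisation map. -/

namespace Pool.Agent.Lib.MP_775b3b_nt.CM

open Pool.Agent.Lib.MP_439fea_co NumberField WithZero

section Loc

variable {K : Type} [Field K] [NumberField K]

open Classical in
/-- sign at a real embedding -/
noncomputable def sg (ρ : K →+* ℝ) (x : Kˣ) : ZMod 2 := if ρ (x : K) < 0 then 1 else 0

/-- parity of the order -/
noncomputable def od (v : P K) (x : Kˣ) : ZMod 2 := ((ord v (x : K) : ℤ) : ZMod 2)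

open Classical in
/-- zero for local squares -/
noncomputable def ns (v : P K) (x : Kˣ) : ZMod 2 := if x ∈ Sq (val v) then 0 else 1

/-- a natural number as a unit (one for zero) -/
noncomputable def nu (K : Type) [Field K] [NumberField K] (n : ℕ) : Kˣ :=
  if h : n = 0 then 1 else Units.mk0 (n : K) (Nat.cast_ne_zero.2 h)

/-- the norm of a prime -/
noncomputable abbrev nm (v : P K) : ℕ := Ideal.absNorm v.asIdeal

/-- residue symbol of `x / p ^ ord x`, `p` the norm of `v` -/
noncomputable def sy (v : P K) (x : Kˣ) : ZMod 2 := ns v (x * nu K (nm v) ^ (-ord v (x : K)))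

/-- the tame symbol -/
noncomputable def tm (v : P K) (x y : Kˣ) : ZMod 2 :=
  ns v ((-1) ^ (ord v (x : K) * ord v (y : K)) * x ^ ord v (y : K) * y ^ (-ord v (x : K)))

/-- up to a square, `x` is `1 + 2 s` modulo four -/
def Sig (x : Kˣ) (s : 𝓞 K) : Prop := ∃ z : Kˣ, ∀ w : P K, val w (2 : K) < 1 →
  val w ((x : K) * (z : K) ^ 2 - 1 - 2 * (s : K)) ≤ val w (4 : K)

open Classical in
/-- the dyadic signature -/
noncomputable def sig (x : Kˣ) : 𝓞 K := if h : ∃ s, Sig x s then h.choose else 0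

/-- the trace modulo two -/
noncomputable def tr2 (s : 𝓞 K) : ZMod 2 := ((Algebra.trace ℤ (𝓞 K) s : ℤ) : ZMod 2)

/-- two is unramified -/
def Two (K : Type) [Field K] [NumberField K] : Prop :=
  ∀ w : P K, val w (2 : K) < 1 → val w (2 : K) = exp (-1 : ℤ)

/-- up to a square, `x` is one modulo four at `w` -/
def Pry (w : P K) (x : Kˣ) : Prop :=
  ∃ z : Kˣ, val w ((x : K) * (z : K) ^ 2 - 1) ≤ val w (4 : K)

end Loc

section Gal

/-- the Galois group -/
abbrev Ga (K : Type) [Field K] [NumberField K] := K ≃ₐ[ℚ] K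

variable {K : Type} [Field K] [NumberField K]

/-- a prime of degree one above a completely split prime number that is one modulo four -/
structure SP (v : P K) : Prop where
  prime : (nm v).Prime
  one : nm v % 4 = 1
  unr : val v ((nm v : ℕ) : K) = exp (-1 : ℤ)
  free : ∀ g : Ga K, g • v = v → g = 1
  res : ∀ y : K, val v y ≤ 1 → ∃ n : ℤ, val v (y - n) < 1

/-- such primes above distinct prime numbers -/
structure SPs (S : Finset (P K)) : Prop where
  sp : ∀ v ∈ S, SP v
  inj : ∀ v ∈ S, ∀ w ∈ S, nm v = nm w → v = w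

/-- the values of a local symbol at all conjugates -/
noncomputable def co (φ : Kˣ → ZMod 2) (x : Kˣ) : GA (Ga K) := mk fun g => φ (g⁻¹ • x)

/-- the action of the group ring on units -/
noncomputable def pw (m : GA (Ga K)) (x : Kˣ) : Kˣ := ∏ g, (g • x) ^ (m.coeff g).val

/-- coordinates modulo two -/
noncomputable def cz (α s : 𝓞 K) : GA (Ga K) := mk fun g => tr2 ((g⁻¹ • s) * α)

/-- the data attached to the field -/
structure Dat (K : Type) [Field K] [NumberField K] where
  σ : Ga K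
  G : Subgroup (Ga K)
  cub : Cub σ G
  ρ : K →+* ℝ
  two : Two K
  ram : ∀ w : P K, σ • w = w ∨ ∃ n : ℕ, Odd (ord w (n : K))
  w : P K
  hw : val w (2 : K) < 1
  α : 𝓞 K
  u : GA (Ga K)
  hu : SymU G u
  form : ∀ s s' : 𝓞 K, (cz α s * u * star (cz α s')).coeff 1 = tr2 (s * s')
  zero : ∀ s : 𝓞 K, val w (s : K) < 1 → tr2 (s * α) = 0
  one : ∀ s : 𝓞 K, val w ((s : K) - 1) < 1 → tr2 (s * α) = 1

variable (D : Dat K)

/-- the elements whose norm is a square and whose order is even outside the conjugates of `S` -/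
def Dat.Z (S : Finset (P K)) : Subgroup Kˣ where
  carrier := {x | IsSquare (x * D.σ • x * (D.σ * D.σ) • x) ∧
    ∀ w : P K, (∀ v ∈ S, ∀ g : Ga K, g • v ≠ w) → Even (ord w (x : K))}
  one_mem' := ⟨by simp, fun w _ => by rw [Units.val_one, ord_one]; exact Even.zero⟩
  mul_mem' := by
    rintro x y ⟨h1, h2⟩ ⟨h3, h4⟩
    refine ⟨?_, fun w hw => ?_⟩
    · have := h1.mul h3
      rw [smul_mul', smul_mul']
      rwa [mul_mul_mul_comm, mul_mul_mul_comm x] at this
    · rw [Units.val_mul, ord_mul w x.ne_zero y.ne_zero]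
      exact (h2 w hw).add (h4 w hw)
  inv_mem' := by
    rintro x ⟨h1, h2⟩
    refine ⟨?_, fun w hw => ?_⟩
    · have := h1.inv
      rwa [mul_inv, mul_inv, ← smul_inv', ← smul_inv'] at this
    · rw [Units.val_inv_eq_inv_val, ord_inv]
      exact (h2 w hw).neg

theorem Dat.mem_Z {S : Finset (P K)} {x : Kˣ} : x ∈ D.Z S ↔
    IsSquare (x * D.σ • x * (D.σ * D.σ) • x) ∧
      ∀ w : P K, (∀ v ∈ S, ∀ g : Ga K, g • v ≠ w) → Even (ord w (x : K)) := Iff.rfl

/-- the localisation map -/
noncomputable def Dat.loc (S : Finset (P K)) (x : Kˣ) : Ix S → GA (Ga K)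
  | .inl false => cz D.α (sig x)
  | .inl true => co (sg D.ρ) x
  | .inr (false, v) => co (od v.1) x
  | .inr (true, v) => co (sy v.1) x

/-- the localisation map is injective modulo squares -/
def Dat.Inj (S : Finset (P K)) : Prop := ∀ x ∈ D.Z S, D.loc S x = 0 → IsSquare x

open Classical in
/-- twisting primes: the elements of `B`, the class `κ` and the other primes are squares -/
structure Tw (S : Finset (P K)) (B : Finset Kˣ) (κ : Kˣ) (T : Finset (P K)) : Prop where
  sp : SPs (S ∪ T)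
  disj : Disjoint S T
  sq : ∀ v ∈ T, ∀ w ∈ S ∪ T, w ≠ v → nu K (nm w) ∈ Sq (val v)
  sqB : ∀ v ∈ T, ∀ b ∈ B, ∀ g : Ga K, g • b ∈ Sq (val v)
  kap : ∀ v ∈ T, co (sy v) κ = 0

end Gal

end Pool.Agent.Lib.MP_775b3b_nt.CM
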