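import Pool.Agent.Lib.MP_775b3b_nt.CM.C1a
import Pool.Agent.Lib.MP_775b3b_nt.HasseR

/-! The tame symbol. -/

namespace Pool.Agent.Lib.MP_775b3b_nt.CM

open Pool.Agent.Lib.MP_439fea_co NumberField WithZero

variable {k : Type} [Field k] [NumberField k] {v : P k}

theorem rec1_mul (v : P k) (x y : kˣ) :
    ord v ((x * y : kˣ) : k) = ord v (x : k) + ord v (y : k) := by
  rw [Units.val_mul, ord_mul v x.ne_zero y.ne_zero]

theorem rec1_neg_one (v : P k) : ord v ((-1 : kˣ) : k) = 0 := by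
  simp [ord]

theorem rec1_unit (v : P k) (x y : kˣ) :
    ord v (((-1) ^ (ord v (x : k) * ord v (y : k)) * x ^ ord v (y : k) * y ^ (-ord v (x : k)) : kˣ) :
      k) = 0 := by
  rw [rec1_mul, rec1_mul, c1a_zpow, c1a_zpow, c1a_zpow, rec1_neg_one]
  ring

theorem rec1_sq (v : P k) (z : kˣ) : z * z ∈ Sq (val v) := mem_Sq_of_isSquare v ⟨z, rfl⟩

theorem rec1_even (v : P k) (z : kˣ) {n : ℤ} (h : Even n) : z ^ n ∈ Sq (val v) := by
  obtain ⟨m, rfl⟩ := h
  rw [zpow_add]
  exact rec1_sq v _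

theorem tm_comm (v : P k) (x y : kˣ) : tm v x y = tm v y x := by
  have e : (-1) ^ (ord v (x : k) * ord v (y : k)) * x ^ ord v (y : k) * y ^ (-ord v (x : k)) =
      (-1) ^ (ord v (y : k) * ord v (x : k)) * y ^ ord v (x : k) * x ^ (-ord v (y : k)) *
        ((x ^ ord v (y : k) * y ^ (-ord v (x : k))) * (x ^ ord v (y : k) * y ^ (-ord v (x : k)))) := by
    rw [mul_comm (ord v (y : k))]
    simp only [zpow_neg]
    apply Additive.ofMul.injective
    simp only [ofMul_mul, ofMul_inv]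
    abel
  rw [tm, e, ns_mul_of_mem _ (rec1_sq v _), tm]

theorem tm_mul_right (h2 : val v (2 : k) = 1) (x y y' : kˣ) :
    tm v x (y * y') = tm v x y + tm v x y' := by
  rw [tm, tm, tm, ← ns_mul h2 (by rw [rec1_unit]; exact Even.zero)
    (by rw [rec1_unit]; exact Even.zero), rec1_mul]
  congr 1
  rw [mul_add, zpow_add, zpow_add, mul_zpow]
  apply Additive.ofMul.injective
  simp only [ofMul_mul]
  abel

theorem tm_mul_left (h2 : val v (2 : k) = 1) (x x' y : kˣ) :
    tm v (x * x') y = tm v x y + tm v x' y := by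
  rw [tm_comm, tm_mul_right h2, tm_comm v y, tm_comm v y]

theorem tm_even {x y : kˣ} (hx : Even (ord v (x : k))) (hy : Even (ord v (y : k))) :
    tm v x y = 0 :=
  ns_eq_zero.2 (mul_mem (mul_mem (rec1_even v _ (hx.mul_right _)) (rec1_even v _ hy))
    (rec1_even v _ hx.neg))

theorem tm_of_Sq (x : kˣ) {y : kˣ} (hy : y ∈ Sq (val v)) : tm v x y = 0 :=
  ns_eq_zero.2 (mul_mem (mul_mem (rec1_even v _ ((even_ord_of_mem_Sq hy).mul_left _))
    (rec1_even v _ (even_ord_of_mem_Sq hy))) (zpow_mem hy _))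

theorem tm_neg (v : P k) (x : kˣ) : tm v x (-x) = 0 := by
  have e : ord v ((-x : kˣ) : k) = ord v (x : k) := by simp [ord]
  have e2 : (-1) ^ (ord v (x : k) * ord v (x : k)) * x ^ ord v (x : k) * (-x) ^ (-ord v (x : k)) =
      (-1) ^ (ord v (x : k) * (ord v (x : k) - 1)) := by
    rw [← neg_one_mul x, mul_zpow, mul_sub, mul_one, zpow_sub]
    simp only [zpow_neg]
    apply Additive.ofMul.injective
    simp only [ofMul_mul, ofMul_inv]
    abel
  rw [tm, e, e2]
  exact ns_eq_zero.2 (rec1_even v _ (Int.even_mul_pred_self _))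

theorem rec1_One (h2 : val v (2 : k) = 1) {x : kˣ} (h : val v ((x : k) - 1) < 1) :
    x ∈ Sq (val v) :=
  Subgroup.mem_sup_right (mem_One.2 (by rwa [local_val_four, h2, one_mul]))

theorem tm_one_sub (h2 : val v (2 : k) = 1) {x y : kˣ} (h : (y : k) = 1 - x) : tm v x y = 0 := by
  rcases lt_trichotomy (val v (x : k)) 1 with hx | hx | hx
  · exact tm_of_Sq x (rec1_One h2 (by rwa [h, sub_sub_cancel_left, Valuation.map_neg]))
  · by_cases hy : val v (y : k) = 1
    · exact tm_even (by simp [ord, hx]) (by simp [ord, hy])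
    · rw [tm_comm]
      refine tm_of_Sq y (rec1_One h2 ?_)
      rw [Valuation.map_sub_swap, ← h]
      refine lt_of_le_of_ne ?_ hy
      rw [h]
      exact Valuation.map_sub_le _ (map_one _).le hx.le
  · rw [← mul_div_cancel (-x) y, tm_mul_right h2, tm_neg, zero_add]
    refine tm_of_Sq x (rec1_One h2 ?_)
    have e : ((y / -x : kˣ) : k) - 1 = -(x : k)⁻¹ := by
      rw [Units.val_div_eq_div_val, h, Units.val_neg]
      field_simp
      ring
    rw [e, Valuation.map_neg, map_inv₀]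
    exact inv_lt_one_of_one_lt₀ hx

theorem tm_Ng (h2 : val v (2 : k) = 1) {x y : kˣ} (h : y ∈ Ng x) : tm v x y = 0 := by
  obtain ⟨a, b, h⟩ := h
  by_cases hb : b = 0
  · refine tm_of_Sq x (mem_Sq_of_isSquare v (isSquare_units.2 ⟨a, ?_⟩))
    rw [h, hb]
    ring
  by_cases ha : a = 0
  · have e : y = -x * (Units.mk0 b hb * Units.mk0 b hb) := Units.ext (by
      simp only [h, ha, Units.val_mul, Units.val_neg, Units.val_mk0]
      ring)
    rw [e, tm_mul_right h2, tm_neg, tm_of_Sq x (rec1_sq v _), add_zero]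
  obtain ⟨A, rfl⟩ : ∃ A : kˣ, (A : k) = a := ⟨Units.mk0 a ha, rfl⟩
  obtain ⟨B, rfl⟩ : ∃ B : kˣ, (B : k) = b := ⟨Units.mk0 b hb, rfl⟩
  have h1 := tm_one_sub h2 (x := x * (B / A * (B / A))) (y := y * (A⁻¹ * A⁻¹)) (by
    simp only [h, Units.val_mul, Units.val_div_eq_div_val, Units.val_inv_eq_inv_val]
    field_simp)
  rwa [tm_mul_left h2, tm_mul_right h2, tm_of_Sq x (rec1_sq v _), add_zero, tm_comm v (_ * _),
    tm_of_Sq _ (rec1_sq v _), add_zero] at h1

theorem rec1_nonsq (h2 : val v (2 : k) = 1) : ∃ n : kˣ, ord v (n : k) = 0 ∧ n ∉ Sq (val v) := by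
  obtain ⟨ρ, h1, h3⟩ := exists_rho v
  have h4 := local_D (val v) ρ h1 h3
  simp only [local_val_four, h2, one_mul] at h4
  have h5 : val v (1 + 4 * ρ) = 1 := by
    refine le_antisymm (Valuation.map_add_le _ (map_one _).le
      ((local_four_mul_le _ h1).trans (val_four_le_one _))) (not_lt.1 fun h => h4 0 ?_)
    rwa [show (0 : k) ^ 2 - 1 - 4 * ρ = -(1 + 4 * ρ) by ring, Valuation.map_neg]
  have h6 : (1 + 4 * ρ : k) ≠ 0 := fun h => by simp [h] at h5
  refine ⟨Units.mk0 _ h6, by simp [ord, h5], fun h => ?_⟩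
  obtain ⟨z, o, ho, e⟩ := mem_Sq.1 h
  have e' : 1 + 4 * ρ = (z : k) ^ 2 * o := by simpa using congrArg Units.val e
  have h7 : val v ((z : k) ^ 2) = 1 := by
    rwa [e', map_mul, mem_Un.1 (One_le_Un _ ho), mul_one] at h5
  refine h4 z ?_
  rw [sub_sub, e', show (z : k) ^ 2 - z ^ 2 * o = -(z ^ 2 * (o - 1)) by ring, Valuation.map_neg,
    map_mul, h7, one_mul]
  have := mem_One.1 ho
  rwa [local_val_four, h2, one_mul] at this

theorem rec1_unif (v : P k) : ∃ π : kˣ, ord v (π : k) = 1 := by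
  obtain ⟨x, hx⟩ := v.valuation_surjective k (exp (-1))
  have hx0 : x ≠ 0 := by
    rintro rfl
    rw [map_zero] at hx
    exact exp_ne_zero hx.symm
  exact ⟨Units.mk0 x hx0, by simp [ord, hx]⟩

theorem tm_unit {y : kˣ} (hy : ord v (y : k) = 0) (x : kˣ) : tm v x y = od v x * ns v y := by
  rw [tm, hy, mul_zero, zpow_zero, zpow_zero, one_mul, one_mul, c1a_ns, od, Int.cast_neg,
    ZMod.neg_eq_self_mod_two]

theorem tm_nondeg (h2 : val v (2 : k) = 1) {x : kˣ} (hx : x ∉ Sq (val v)) :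
    ∃ y, tm v x y ≠ 0 := by
  rcases Int.even_or_odd (ord v (x : k)) with h | h
  · obtain ⟨π, hπ⟩ := rec1_unif v
    refine ⟨π, fun h0 => hx ?_⟩
    rw [tm, hπ, mul_one, zpow_one, mul_right_comm, mul_comm,
      ns_mul_of_mem _ (mul_mem (rec1_even v _ h) (rec1_even v _ h.neg))] at h0
    exact ns_eq_zero.1 h0
  · obtain ⟨n, h1, h3⟩ := rec1_nonsq h2
    refine ⟨n, ?_⟩
    rw [tm_unit h1]
    exact mul_ne_zero (mt od_eq_zero.1 (Int.not_even_iff_odd.2 h)) (mt ns_eq_zero.1 h3)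

omit [NumberField k] in
theorem sg_eq_zero {ρ : k →+* ℝ} {x : kˣ} : sg ρ x = 0 ↔ x ∈ PosR ρ := by
  change _ ↔ 0 < ρ (x : k)
  rcases ((map_ne_zero ρ).2 x.ne_zero).lt_or_gt with h | h
  · simp [sg, h, h.le]
  · simp [sg, h, h.le]

open Classical in
/-- the local symbol at an odd prime or a real place -/
noncomputable def hl (x y : kˣ) : P k ⊕ (k →+* ℝ) → ZMod 2
  | .inl v => if val v (2 : k) = 1 then tm v x y else 0
  | .inr ρ => sg ρ x * sg ρ y

/-- local squares -/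
noncomputable def Ql : P k ⊕ (k →+* ℝ) → Subgroup kˣ := Sum.elim (fun v => Sq (val v)) PosR

theorem hl_comm (x y : kˣ) (i : P k ⊕ (k →+* ℝ)) : hl x y i = hl y x i := by
  rcases i with v | ρ
  · simp only [hl, tm_comm v x]
  · exact mul_comm _ _

theorem hl_mul_right (x y y' : kˣ) (i : P k ⊕ (k →+* ℝ)) :
    hl x (y * y') i = hl x y i + hl x y' i := by
  rcases i with v | ρ
  · simp only [hl]
    split_ifs with h
    · exact tm_mul_right h _ _ _
    · rfl
  · simp only [hl, sg_mul, mul_add]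

theorem hl_of_Ql (x : kˣ) {y : kˣ} {i : P k ⊕ (k →+* ℝ)} (h : y ∈ Ql i) : hl x y i = 0 := by
  rcases i with v | ρ
  · simp only [hl, tm_of_Sq x h, ite_self]
  · simp only [hl, sg_eq_zero.2 h, mul_zero]

theorem hl_Ng {x y : kˣ} (h : y ∈ Ng x) (i : P k ⊕ (k →+* ℝ)) : hl x y i = 0 := by
  rcases i with v | ρ
  · simp only [hl]
    split_ifs with h2
    · exact tm_Ng h2 h
    · rfl
  · rcases ((map_ne_zero ρ).2 x.ne_zero).lt_or_gt with h1 | h1
    · simp only [hl, sg_eq_zero.2 (hasser_Ng_le h1 h), mul_zero]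
    · simp only [hl, (sg_eq_zero (ρ := ρ) (x := x)).2 h1, zero_mul]

end Pool.Agent.Lib.MP_775b3b_nt.CM
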