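import Pool.Agent.Lib.MP_775b3b_nt.CM.Sel5

/-! The target meets the local conditions trivially and is orthogonal to the fixed class. -/

set_option autoImplicit false

namespace Pool.Agent.Lib.MP_775b3b_nt.CM

variable {Γ : Type} [Group Γ] [Fintype Γ] {σ : Γ} {G : Subgroup Γ}

/-- the elements supported on `G` -/
def selSG (G : Subgroup Γ) : Subring (GA Γ) where
  carrier := {x | ∀ g ∉ G, x.coeff g = 0}
  zero_mem' _ _ := rfl
  one_mem' g hg := Finsupp.single_eq_of_ne fun e => hg (e ▸ one_mem G)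
  add_mem' ha hb g hg := by simp [ha g hg, hb g hg]
  neg_mem' ha g hg := by simp [ha g hg]
  mul_mem' {a b} ha hb g hg := by
    rw [coeff_mul']
    refine Finset.sum_eq_zero fun h _ => ?_
    by_cases hh : h ∈ G
    · rw [hb _ fun e => hg (mul_inv_cancel_left h g ▸ mul_mem hh e), mul_zero]
    · rw [ha h hh, zero_mul]

theorem Zc.mul {x b : GA Γ} (hx : Zc G 1 x) (hb : b ∈ selSG G) : Zc G 1 (x * b) := fun g hg => by
  rw [coeff_mul', mul_one]
  refine Finset.sum_eq_zero fun h _ => ?_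
  by_cases hh : h ∈ G
  · rw [← mul_one h, hx h hh, zero_mul]
  · rw [hb _ fun e => hh (by simpa using mul_mem hg (inv_mem e)), mul_zero]

omit [Fintype Γ] in
theorem sel_coeff_gr_mul (g h : Γ) (x : GA Γ) : (gr g * x).coeff h = x.coeff (g⁻¹ * h) := by simp

omit [Fintype Γ] in
theorem Zc.add {c : Γ} {x y : GA Γ} (hx : Zc G c x) (hy : Zc G c y) : Zc G c (x + y) :=
  fun g hg => by simp [hx g hg, hy g hg]

omit [Fintype Γ] in
theorem Zc.smul {c g : Γ} {x : GA Γ} (hx : Zc G c x) (hg : g ∈ G) : Zc G c (gr g * x) :=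
  fun h hh => by rw [sel_coeff_gr_mul, ← mul_assoc, hx _ (mul_mem (inv_mem hg) hh)]

omit [Fintype Γ] in
theorem Cub.sel_zc (h : Cub σ G) (x : GA Γ) : Zc G σ (gr σ * x) ↔ Zc G 1 x := by
  simp only [Zc, sel_coeff_gr_mul, h.cen, inv_mul_cancel_left, mul_one]

omit [Fintype Γ] in
theorem Cub.sel_zero (h : Cub σ G) {x : GA Γ} (he : ee σ * x = x) (h1 : Zc G 1 x) (h2 : Zc G σ x) :
    x = 0 := ga_ext fun γ => by
  have k1 : ∀ γ, γ * σ * σ ∈ G → x.coeff γ = 0 := fun γ e => by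
    have := h2 _ e
    rwa [mul_assoc, mul_assoc, ← mul_assoc σ, h.three, mul_one] at this
  have k0 : ∀ γ ∈ G, x.coeff γ = 0 := fun γ e => mul_one γ ▸ h1 γ e
  rcases h.dec γ with e | e | e
  · exact k0 γ e
  · rw [← he, ee, add_mul, MonoidAlgebra.coeff_add, Finsupp.add_apply, sel_coeff_gr_mul, sel_coeff_gr_mul,
      k1 _ (by rwa [mul_assoc σ⁻¹, h.cen γ, inv_mul_cancel_left]), ← h.inv_eq', inv_inv, ← h.cen, k0 _ e, add_zero]
    rfl
  · exact k1 γ e

open Classical in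
/-- the sum of the elements of `G` -/
noncomputable def selNG (G : Subgroup Γ) : GA Γ := mk fun γ => if γ ∈ G then 1 else 0

theorem selNG_mul {b : GA Γ} (hb : b ∈ selSG G) : selNG G * b = 0 ∨ selNG G * b = selNG G := by
  have h1 : selNG G * b = (∑ g, b.coeff g) • selNG G := by
    conv_lhs => rw [← b.sum_coeff_single, Finsupp.sum_fintype _ _ (by simp), Finset.mul_sum]
    rw [Finset.sum_smul]
    refine Finset.sum_congr rfl fun g _ => ga_ext fun γ => ?_
    by_cases hg : g ∈ G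
    · have := G.mul_mem_cancel_right (y := γ) (G.inv_mem hg)
      by_cases hγ : γ ∈ G <;> simp [selNG, hγ, this]
    · simp [hb g hg]
  rcases (by decide : ∀ r : ZMod 2, r = 0 ∨ r = 1) (∑ g, b.coeff g) with e | e <;> simp [h1, e]

theorem selNG_ne : selNG G ≠ 0 := fun e => by simpa [selNG] using congrArg (·.coeff 1) e

theorem Cub.exists_zeta (h : Cub σ G) {u : GA Γ} (hu : SymU G u) : ∃ ζ : GA Γ, ee σ * ζ = ζ ∧
    ζ * u * star ζ = ee σ ∧ (∀ v, ee σ * v = v → v * u * star ζ = 0 → v = 0) ∧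
    selNG G * ζ = selNG G * ee σ ∧
    ∀ b, ee σ * b = b → Zc G 1 (gr σ * b * ζ) → Zc G 1 b → b = 0 := by
  obtain ⟨w, hw, s, hs, hw1, hs1, e⟩ := exists_as sel_two hu.unit
  have k1 : Subring.closure {u} ≤ selSG G := Subring.closure_le.2 (Set.singleton_subset_iff.2 hu.supp)
  have := Subring.isMulCommutative_closure (s := {u}) (by simp)
  have k2 : ∀ x ∈ Subring.closure {u}, ∀ y ∈ Subring.closure {u}, x * y = y * x :=
    fun x hx y hy => setLike_mul_comm hx hy
  have k3 : ∀ x ∈ Subring.closure {u}, star x = x := fun x hx => by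
    induction hx using Subring.closure_induction with
    | mem x hx => exact hx ▸ hu.sym
    | zero => exact star_zero _
    | one => exact star_one _
    | add x y _ _ a b => rw [star_add, a, b]
    | neg x _ a => rw [star_neg, a]
    | mul x y hx hy a b => rw [star_mul, a, b, k2 y hy x hx]
  obtain ⟨θ, hθ⟩ := hw1.mul ((Commute.isNilpotent_mul_left (h.gr_cm s) hs1).isUnit_one_add)
  have k4 : ee σ * u = ee σ * (θ * star (θ : GA Γ)) := by
    have c1 : ∀ x y, x * (gr σ * y) = gr σ * (x * y) := fun x y => by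
      rw [← mul_assoc, ← h.gr_cm, mul_assoc]
    have c2 : ∀ y, gr σ * (gr σ * (gr σ * y)) = y := fun y => by
      rw [← mul_assoc, ← mul_assoc, h.gr_three', one_mul]
    have c3 : ∀ y, s * (w * y) = w * (s * y) := fun y => by
      rw [← mul_assoc, k2 s hs w hw, mul_assoc]
    rw [hθ, star_mul, star_add, star_one, star_mul, k3 s hs, k3 w hw, sel_star_gr, h.inv_eq', sel_gr_mul, e,
      sel_ee_eq]
    simp only [mul_add, add_mul, mul_assoc, one_mul, mul_one, c1 s, c1 w, c2, c3, k2 s hs w hw]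
    linear_combination (norm := abel) -sel_two (w * (w * s))
  have k5 : selNG G * θ = selNG G := by
    rw [hθ, ← mul_assoc, (selNG_mul (k1 hw)).resolve_left fun e => selNG_ne (hw1.mul_left_eq_zero.1 e),
      mul_add, mul_one, ← mul_assoc, ← h.gr_cm, mul_assoc, (selNG_mul (k1 hs)).resolve_right fun e =>
        selNG_ne (G := G) ?_, mul_zero, add_zero]
    rw [← hs1.isUnit_one_sub.mul_left_eq_zero, mul_sub, mul_one, e, sub_self]
  refine ⟨ee σ * ↑θ⁻¹, by rw [← mul_assoc, h.ee_mul_ee'], ?_, fun v hv h0 => ?_, ?_,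
    fun b hb h1 h2 => ?_⟩
  · rw [h.ee_cm, mul_assoc _ (ee σ), k4, h.ee_cm (_ * _), mul_assoc (θ : GA Γ),
      θ.inv_mul_cancel_left, ← h.ee_cm, mul_assoc, ← star_mul, ← h.ee_cm,
      θ.inv_mul_cancel_right, h.star_ee', h.ee_mul_ee']
  · rw [star_mul, h.star_ee', ← mul_assoc, ← h.ee_cm, ← mul_assoc, ← mul_assoc, hv] at h0
    exact hu.unit.mul_left_eq_zero.1 ((θ⁻¹.isUnit.star).mul_left_eq_zero.1 h0)
  · rw [← mul_assoc, ← h.ee_cm, mul_assoc, ← k5, θ.mul_inv_cancel_right, k5]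
  · obtain ⟨x, hx⟩ : ∃ x, x = gr σ * b * (ee σ * ↑θ⁻¹) := ⟨_, rfl⟩
    rw [← hx] at h1
    have e1 : ee σ * x = x := by
      rw [hx, ← mul_assoc, h.ee_cm, mul_assoc _ (ee σ), ← mul_assoc (ee σ), h.ee_mul_ee']
    have e2 : x * w + gr σ * (x * w * s) = gr σ * b := by
      rw [← mul_assoc, h.gr_cm (x * w), mul_assoc _ _ s, ← mul_one_add, mul_assoc, ← hθ, hx,
        mul_assoc, θ.inv_mul_cancel_right, mul_assoc, ← h.ee_cm, hb]
    have e3 : x * w = 0 := h.sel_zero (by rw [← mul_assoc, e1]) (h1.mul (k1 hw)) (by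
      rw [← add_zero (x * w), ← sel_two (gr σ * (x * w * s)), ← add_assoc, e2]
      exact ((h.sel_zc _).2 h2).add ((h.sel_zc _).2 ((h1.mul (k1 hw)).mul (k1 hs))))
    rw [e3, zero_mul, mul_zero, add_zero] at e2
    rw [← one_mul b, ← h.gr_three', mul_assoc, ← e2, mul_zero]

/-- the local conditions as subgroups -/
def LpS {T : Type} (G : Subgroup Γ) (q : T) : AddSubgroup (Ix T → GA Γ) where
  carrier := {z | Lp G q z}
  zero_mem' := ⟨fun _ _ => rfl, fun _ _ => rfl, fun _ _ => rfl, fun _ _ => rfl, fun _ _ => rfl⟩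
  add_mem' ha hb := ⟨ha.1.add hb.1, ha.2.add hb.2, ha.3.add hb.3, ha.4.add hb.4, fun t ht => by
    rw [Pi.add_apply, ha.5 t ht, hb.5 t ht, add_zero]⟩
  neg_mem' {a} ha := by rwa [neg_eq_iff_add_eq_zero.2 (funext fun i => sel_two (a i))]

/-- the local conditions as subgroups -/
def LmS {T : Type} (σ : Γ) (G : Subgroup Γ) (q : T) : AddSubgroup (Ix T → GA Γ) where
  carrier := {z | Lm σ G q z}
  zero_mem' := ⟨fun _ _ => rfl, fun _ _ => rfl, fun _ _ => rfl, fun _ _ => rfl, fun _ _ => rfl⟩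
  add_mem' ha hb := ⟨ha.1.add hb.1, ha.2.add hb.2, ha.3.add hb.3, fun g hg => by
    simp [ha.4 g hg, hb.4 g hg], fun t ht => by rw [Pi.add_apply, ha.5 t ht, hb.5 t ht, add_zero]⟩
  neg_mem' {a} ha := by rwa [neg_eq_iff_add_eq_zero.2 (funext fun i => sel_two (a i))]

theorem Cub.target (h : Cub σ G) {T : Type} [Fintype T] {u : GA Γ} (hu : SymU G u) (q : T)
    {k : Ix T → GA Γ} (hk : Kap σ G q k) : ∃ y z : Option T → Ix T → GA Γ, Dub u (ee σ) y z ∧
      (∀ i, hf u k (y i) = 0) ∧ ∀ m : Option T → GA Γ, ee σ • m = m →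
        Lp G q (∑ i, m i • y i) ∨ Lm σ G q (∑ i, m i • y i) → m = 0 := by
  classical
  obtain ⟨ζ, z1, z2, z3, z4, z5⟩ := h.exists_zeta hu
  have c1 : ∀ x y, x * (gr σ * y) = gr σ * (x * y) := fun x y => by
    rw [← mul_assoc, ← h.gr_cm, mul_assoc]
  have c2 : ∀ y, gr σ * (gr σ * (gr σ * y)) = y := fun y => by
    rw [← mul_assoc, ← mul_assoc, h.gr_three', one_mul]
  obtain ⟨w, hw⟩ : ∃ w, w = gr σ * (gr σ * ee σ) := ⟨_, rfl⟩
  have w0 : ∀ x, ee σ * x = x → x * w = gr σ * (gr σ * x) := fun x hx => by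
    rw [hw, c1, c1 x, ← h.ee_cm, hx]
  have w1 : w * w = gr σ * ee σ := by
    rw [w0 w (by rw [hw, c1, c1 (ee σ), h.ee_mul_ee']), hw, c2]
  have w2 : ∀ x, ee σ * x = x → gr σ * (gr σ * x) = x + gr σ * x := fun x hx => by
    rw [sel_ee_eq, add_mul, mul_assoc] at hx
    linear_combination (norm := abel) hx - sel_two (gr σ * x)
  have hy := hyp_yt sel_two (u := u) (e := ee σ) (w := w) (ζ := ζ) q
    (fun x => hw ▸ (Commute.mul_left (h.gr_cm x)
      (Commute.mul_left (h.gr_cm x) (h.ee_cm x))).eq)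
    (by rw [w1, hw, ← mul_assoc, ← add_mul, add_comm, ← sel_ee_eq, h.ee_mul_ee'])
    (by rw [w1, mul_assoc, w0 _ h.ee_mul_ee', c2])
    (by rw [w1, hw, ← mul_assoc, ← sel_gr_mul, star_mul, h.star_ee', sel_star_gr, ← h.inv_eq', inv_inv,
      h.ee_cm]) z1 z2 z3
  refine ⟨_, _, hy, fun i => ?_, fun m hm hL => ?_⟩
  · suffices k = selNG G • yt (ee σ) w ζ q (some q) by rw [this, hf_smul_left, hy.yy, mul_zero]
    have b0 : ∀ a b : ZMod 2, (a = 0 ↔ b = 0) → a = b := by decide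
    have n1 : ∀ γ, γ ∈ G → γ * σ ∉ G := fun γ a b => h.nmem ((G.mul_mem_cancel_left a).1 b)
    have n2 : ∀ γ, γ ∈ G → γ * σ * σ ∉ G := fun γ a b => h.nmem (G.inv_mem_iff.1 (by
      rwa [mul_assoc, G.mul_mem_cancel_left a, ← h.inv_eq'] at b))
    have e0 : ∀ γ, (selNG G * ee σ).coeff γ = 0 ↔ γ ∈ G := fun γ => by
      have : (selNG G * ee σ).coeff γ =
          (if γ * σ * σ ∈ G then 1 else 0) + if γ * σ ∈ G then 1 else 0 := by
        rw [ee, mul_assoc γ, ← h.inv_eq']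
        simp [mul_add, selNG]
      rw [this]
      rcases h.dec γ with e | e | e
      · simp [e, n1 γ e, n2 γ e]
      · simp [e, n1 _ e, mt (n1 γ) (not_not.2 e)]
      · simp [e, mt (n1 _) (not_not.2 e), mt (n2 γ) (not_not.2 e)]
    have e1 : ∀ γ, (selNG G * w).coeff γ = 0 ↔ γ * σ ∈ G := fun γ => by
      rw [hw, c1, c1 (selNG G), ← mul_assoc, ← sel_gr_mul, ← h.inv_eq', sel_coeff_gr_mul, inv_inv, e0, h.cen]
    funext j
    rcases j with (_ | _) | ⟨_ | _, t⟩
    · refine ga_ext fun γ => b0 _ _ ?_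
      rw [hk.two, ← e1]
      simp only [Pi.smul_apply, yt, if_true, smul_eq_mul, hw, mul_assoc, z1, c1 (selNG G), z4]
    · exact ga_ext fun γ => b0 _ _ (by rw [hk.two, ← e1]; simp [yt])
    · rcases eq_or_ne t q with rfl | ne
      · exact ga_ext fun γ => b0 _ _ (by rw [hk.bin, ← e0]; simp [yt])
      · simp [yt, ne, hk.od t ne]
    · simp [yt, hk.sy]
  · obtain ⟨s1, s2, s3, s4⟩ := sum_yt (ee σ) w ζ q m
    have m0 : ∀ i, ee σ * m i = m i := congrFun hm
    simp only [← h.ee_cm, m0] at s3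
    rw [w0 _ (m0 _)] at s1 s4
    rw [w0 _ (by rw [mul_add, m0, m0])] at s2
    have fin : (∀ t, t ≠ q → m (some t) = 0) → m (some q) = 0 → m none = 0 → m = 0 :=
      fun a b c => funext fun i => by
        rcases i with _ | t
        · exact c
        · rcases eq_or_ne t q with rfl | ne
          exacts [b, a t ne]
    have ee2 : ∀ x, ee σ * x = x → ee σ * (gr σ * x) = gr σ * x := fun x hx => by rw [c1, hx]
    rcases hL with ⟨l1, l2, l3, l4, l5⟩ | ⟨l1, l2, l3, l4, l5⟩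
    · rw [s1] at l1
      rw [s2, mul_add, mul_add] at l2
      rw [s3] at l3
      rw [s4] at l4
      have a1 : m (some q) = 0 := h.sel_zero (m0 _) l3 (by
        have := (h.sel_zc _).2 (l4.add l2)
        rwa [← add_assoc, sel_two, zero_add, c2] at this)
      rw [a1, mul_zero, mul_zero, add_zero, ← c2 (m none)] at l1
      have a2 := z5 _ (ee2 _ (ee2 _ (m0 _))) l1 l4
      exact fin (fun t ht => (s3 t).symm.trans (l5 t ht)) a1 (by rw [← c2 (m none), a2, mul_zero])
    · rw [s1] at l1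
      rw [s2, h.sel_zc] at l2
      rw [s3] at l3
      rw [s3, s4] at l4
      have a1 : m none + m (some q) = 0 := by
        have b1 : Zc G 1 (gr σ * (gr σ * (m none + m (some q)))) := fun g hg => by
          rw [mul_one, mul_add, mul_add, MonoidAlgebra.coeff_add, Finsupp.add_apply, l4 g hg,
            ← mul_assoc, ← sel_gr_mul, ← h.inv_eq', sel_coeff_gr_mul, inv_inv, h.cen, CharTwo.add_self_eq_zero]
        have b2 := h.sel_zero (ee2 _ (ee2 _ (by rw [mul_add, m0, m0]))) b1 ((h.sel_zc _).2 l2)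
        rw [← c2 (m none + _), b2, mul_zero]
      have a2 : m none = m (some q) :=
        (eq_neg_of_add_eq_zero_left a1).trans (neg_eq_iff_add_eq_zero.2 (sel_two _))
      rw [a2, w2 _ (m0 _), ← add_assoc, sel_two, zero_add] at l1
      have a3 := z5 _ (m0 _) l1 l3
      exact fin (fun t ht => (s3 t).symm.trans (l5 t ht)) a3 (a2.trans a3)

end Pool.Agent.Lib.MP_775b3b_nt.CM
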