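import Pool.Agent.Lib.MP_775b3b_nt.CM.Sel2
import Pool.Agent.Lib.MP_775b3b_nt.CM.Sel6

namespace Pool.Agent.Lib.MP_775b3b_nt.CM

open Matrix

variable {Γ T : Type} [Group Γ] [Fintype Γ] [Fintype T]

theorem select {σ : Γ} {G : Subgroup Γ} (hc : Cub σ G) {u : GA Γ} (hu : SymU G u) (q : T)
    {k : Ix T → GA Γ} (hk : Kap σ G q k) {H : Submodule (GA Γ) (Ix T → GA Γ)}
    (hL : Lag u (ee σ) H) (hF : Fre (ee σ) (1 + Fintype.card T) H) :
    ∃ (n : ℕ) (y : Fin n → Ix T → GA Γ), (∀ i, ee σ • y i = y i) ∧ (∀ i, hf u k (y i) = 0) ∧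
      ∀ {Pr : Type} (Ind : Pr → Pr → Prop) (Ty : Fin n → Pr → Prop) (N : Pr → Pr → GA Γ),
        Sup u (ee σ) y Ind Ty N → ∃ (m : ℕ) (p : Fin m → Pr) (t : Fin m → Fin n),
          (∀ a b, a ≠ b → Ind (p a) (p b)) ∧ (∀ a, Ty (t a) (p a)) ∧
          ∀ x ∈ H, ∀ c : Fin m → GA Γ, (∀ a, ee σ * c a = c a) →
            (∀ b, hf u x (y (t b)) = ∑ a, c a * N (p a) (p b)) →
            Lp G q (x + ∑ a, c a • y (t a)) ∨ Lm σ G q (x + ∑ a, c a • y (t a)) →
            x = 0 ∧ c = 0 := by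
  obtain ⟨y0, z0, hy0, hk0, hL0⟩ := hc.target hu q hk
  let f : Fin (1 + Fintype.card T) ≃ Option T :=
    Fintype.equivOfCardEq (by rw [Fintype.card_fin, Fintype.card_option, add_comm])
  have hy := hy0.comp f
  obtain ⟨M, m1, m2, m3⟩ := hc.move' hu.sym hy hL hF
  have hL1 : ∀ m : Fin (1 + Fintype.card T) → GA Γ, ee σ • m = m →
      Lp G q (∑ i, m i • (y0 ∘ f) i) ∨ Lm σ G q (∑ i, m i • (y0 ∘ f) i) → m = 0 := fun m hm h => by
    have := hL0 (m ∘ f.symm) (funext fun i => congrFun hm _) (by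
      rwa [← f.sum_comp, show (fun i => (m ∘ f.symm) (f i) • y0 (f i)) =
        fun i => m i • (y0 ∘ f) i from funext fun i => by simp])
    exact funext fun i => by simpa using congrFun this (f i)
  refine ⟨_, y0 ∘ f, hy.py, fun i => hk0 _, fun Ind Ty N hS => ?_⟩
  have hn : 0 < 1 + Fintype.card T := by omega
  generalize y0 ∘ f = y at *
  generalize z0 ∘ f = z at *
  clear hL0 hk0 hy0 hF f
  generalize 1 + Fintype.card T = n at *
  have hE : ∀ r : GA Γ, ee σ * r = r → ee σ • scalar (Fin n) r = scalar (Fin n) r := fun r hr => by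
    rw [smul_eq_diagonal_mul, ← scalar_apply, ← map_mul, hr]
  have hv : ∀ r : GA Γ, (∀ x, r * x = x * r) → ∀ c : Fin n → GA Γ, c ᵥ* scalar (Fin n) r = r • c :=
    fun r hr c => funext fun i => (vecMul_diagonal c _ i).trans (hr _).symm
  obtain ⟨P, p1, p2, p3, p4, p5, p6, p7⟩ := hS.triple hn
    (fun S => ee σ • S + scalar _ (ee σ)) (fun _ => M) (fun _ => M + scalar _ (gr σ * ee σ))
    (fun S => by rw [smul_add, ← mul_smul, hc.ee_mul_ee', hE _ hc.ee_mul_ee']) (fun _ => m2)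
    fun _ => by rw [smul_add, m2, hE _ (by rw [hc.ee_cm, mul_assoc, hc.ee_mul_ee'])]
  have hst : ∀ a b, NM N (P a) (P b) = star (NM N (P b) (P a)) := fun a b =>
    Matrix.ext fun i j => by
      have := hS.recip _ _ _ _ (p1 a i) (p1 b j) ((eq_or_ne (a, i) (b, j)).symm.imp
        (fun ne => p2 ne) fun e => by cases e; rfl)
      rw [hy.yy] at this
      exact (eq_neg_of_add_eq_zero_left this).trans (neg_eq_iff_add_eq_zero.2 (sel_two _))
  have hS0 : ee σ • NM N (P 0) (P 0) = NM N (P 0) (P 0) :=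
    Matrix.ext fun i j => hS.part i _ _ (p1 0 i)
  have hss : ∀ r : GA Γ, star (scalar (Fin n) r) = scalar _ (star r) := fun r =>
    diagonal_conjTranspose _
  have p8 := hst 0 1
  have p9 := hst 0 2
  have p10 := hst 1 2
  simp only [hS0] at p5
  rw [p5, star_add, ← hst, hss, hc.star_ee'] at p8
  rw [p6, m1] at p9
  rw [p7, star_add, m1, hss] at p10
  let g := (Fintype.equivFin (Fin 3 × Fin n)).symm
  refine ⟨_, fun a => P (g a).1 (g a).2, fun a => (g a).2, fun a b ne => p2 (g.injective.ne ne),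
    fun a => p1 _ _, fun x hx c c1 c2 c3 => ?_⟩
  let m : Fin 3 → Fin n → GA Γ := fun a i => c (g.symm (a, i))
  have m0 : ∀ a, ee σ • m a = m a := fun a => funext fun i => c1 _
  have s1 : ∑ a, c a • y (g a).2 = ∑ i, (m 0 + m 1 + m 2) i • y i := by
    rw [← g.symm.sum_comp, Fintype.sum_prod_type, Fin.sum_univ_three]
    simp only [Equiv.apply_symm_apply, Pi.add_apply, add_smul, Finset.sum_add_distrib, m]
  have s2 : ∀ b, (fun j => hf u x (y j)) = m 0 ᵥ* NM N (P 0) (P b) + m 1 ᵥ* NM N (P 1) (P b) +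
      m 2 ᵥ* NM N (P 2) (P b) := fun b => funext fun j => by
    have := c2 (g.symm (b, j))
    rw [← g.symm.sum_comp, Fintype.sum_prod_type, Fin.sum_univ_three] at this
    simp only [Equiv.apply_symm_apply] at this
    exact this
  have co : ∀ x, gr σ * ee σ * x = x * (gr σ * ee σ) := fun x =>
    (Commute.mul_left (hc.gr_cm x) (hc.ee_cm x)).eq
  have w2 : ∀ a, gr σ • gr σ • m a = m a + gr σ • m a := fun a => by
    have := m0 a
    rw [sel_ee_eq, add_smul, mul_smul] at this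
    rw [← this, add_right_comm, this, show gr σ • m a + gr σ • m a = 0 from
      funext fun i => sel_two _, zero_add]
  obtain ⟨k1, k2⟩ := gadget (fun x : Fin n → GA Γ => funext fun i => sel_two (x i)) (gr σ)
    (NM N (P 0) (P 0)).vecMulLinear M.vecMulLinear (a := m 0) (φ := fun j => hf u x (y j))
    (w2 1) (w2 2)
    (by rw [s2 0, p5, p6, vecMul_add, hv _ hc.ee_cm, m0]; rfl)
    (by rw [s2 1, p8, p3, p7, vecMul_add, vecMul_add, hv _ hc.ee_cm, hv _ co, mul_smul, m0, m0]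
        rfl)
    (by rw [s2 2, p9, p10, p4, vecMul_add, star_mul, hc.star_ee', sel_star_gr, hc.inv_eq', sel_gr_mul, hv _
          fun x => (Commute.mul_left (hc.ee_cm x)
            (Commute.mul_left (hc.gr_cm x) (hc.gr_cm x))).eq, hc.ee_cm, mul_smul, m0, mul_smul]
        rfl)
  have m4 : ee σ • (m 0 + m 1 + m 2) = m 0 + m 1 + m 2 := by rw [smul_add, smul_add, m0, m0, m0]
  rw [s1] at c3
  have k3 : x = 0 ∧ m 0 + m 1 + m 2 = 0 := c3.elim
    (m3 (LpS G q) (fun g hg v hv => ⟨hv.1.smul hg, hv.2.smul hg, hv.3.smul hg, hv.4.smul hg,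
      fun t ht => by rw [Pi.smul_apply, hv.5 t ht, smul_zero]⟩)
      (fun m hm h => hL1 m hm (.inl h)) x hx _ m4 k1)
    (m3 (LmS σ G q) (fun g hg v hv => ⟨hv.1.smul hg, hv.2.smul hg, hv.3.smul hg, fun a ha => by
      simp only [Pi.smul_apply, smul_eq_mul, sel_coeff_gr_mul, ← mul_assoc,
        hv.4 _ (mul_mem (inv_mem hg) ha)], fun t ht => by rw [Pi.smul_apply, hv.5 t ht, smul_zero]⟩)
      (fun m hm h => hL1 m hm (.inr h)) x hx _ m4 k1)
  obtain ⟨a0, a1, a2⟩ := k2 k3.2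
  refine ⟨k3.1, funext fun a => ?_⟩
  obtain ⟨⟨b, i⟩, rfl⟩ := g.symm.surjective a
  fin_cases b
  exacts [congrFun a0 i, congrFun a1 i, congrFun a2 i]

end Pool.Agent.Lib.MP_775b3b_nt.CM
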