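import Mathlib

/-! Hermitian stable range for finite rings with involution in characteristic two. -/

set_option autoImplicit false

namespace Pool.Agent.Lib.MP_775b3b_nt.CM

section Semisimple

variable {S : Type} [Ring S] [IsSemisimpleRing S]

theorem exists_lann (a : S) : ∃ p : S, p * a = 0 ∧ ∀ x, x * a = 0 → x * p = x := by
  obtain ⟨p, hp, h⟩ := IsSemisimpleRing.ideal_eq_span_idempotent
    (LinearMap.ker (LinearMap.toSpanSingleton S S a))
  have h1 : ∀ x, x * a = 0 ↔ x ∈ Ideal.span {p} := fun x => h ▸ Iff.rfl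
  refine ⟨p, (h1 p).2 (Ideal.subset_span rfl), fun x hx => ?_⟩
  obtain ⟨y, rfl⟩ := Ideal.mem_span_singleton'.1 ((h1 x).1 hx)
  rw [mul_assoc, hp.eq]

theorem exists_reg (x : S) : ∃ v, x * v * x = x := by
  obtain ⟨p, hp, h⟩ := IsSemisimpleRing.ideal_eq_span_idempotent (Ideal.span {x})
  obtain ⟨v, hv⟩ := Ideal.mem_span_singleton'.1 (h ▸ Ideal.subset_span rfl : p ∈ Ideal.span {x})
  obtain ⟨w, hw⟩ := Ideal.mem_span_singleton'.1 (h ▸ Ideal.subset_span rfl : x ∈ Ideal.span {p})
  exact ⟨v, by rw [mul_assoc, hv, ← hw, mul_assoc, hp.eq]⟩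

variable [StarRing S] [Finite S]

theorem balanced {a b c d q : S} (hab : a * star b = b * star a) (hu : a * c + b * d = 1)
    (hq : q * a = 0) (hq' : ∀ x, x * a = 0 → x * q = x) (h0 : ∀ r, q * r * star q = 0) :
    q = 0 := by
  have hbd : q * b * d = q := by
    rw [mul_assoc, eq_sub_of_add_eq' hu, mul_sub, ← mul_assoc, hq, zero_mul, mul_one,
      sub_zero]
  let I : Type := {x : S // ∀ r, q * r * x = 0}
  let f : I → I := fun x => ⟨x.1 * a, fun r => by rw [← mul_assoc, x.2, zero_mul]⟩
  have hf : Function.Injective f := fun x y e => by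
    have h1 : (x.1 - y.1) * a = 0 := by rw [sub_mul, sub_eq_zero]; exact congrArg Subtype.val e
    obtain ⟨v, hv⟩ := exists_reg (x.1 - y.1)
    refine Subtype.ext (sub_eq_zero.1 ?_)
    rw [← hv]
    nth_rw 1 [← hq' _ h1]
    rw [mul_assoc _ q, mul_assoc, mul_sub, x.2, y.2, sub_zero, mul_zero]
  obtain ⟨v, hv⟩ := exists_reg (star b * star q)
  obtain ⟨w, hw⟩ := Finite.injective_iff_surjective.1 hf ⟨star b * star q * v, fun r => by
    rw [← mul_assoc, ← mul_assoc, mul_assoc q, h0, zero_mul]⟩
  have h1 : star b * star q = 0 := by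
    have hw' : w.1 * a = star b * star q * v := congrArg Subtype.val hw
    rw [← hv, ← hw', mul_assoc, ← mul_assoc a, hab,
      mul_assoc, ← star_mul, hq, star_zero, mul_zero, mul_zero]
  rw [← hbd, ← star_star (q * b), star_mul, h1, star_zero, zero_mul]

theorem hsr (h2 : ∀ x : S, x + x = 0) {a b c d : S} (hab : a * star b = b * star a)
    (hu : a * c + b * d = 1) : ∃ t q, star t = t ∧ IsUnit (a + b * t) ∧ q * a = 0 ∧
      t = q * (a + b * t) := by
  obtain ⟨p, hp, hp'⟩ := exists_lann a
  have hbd : ∀ x, x * a = 0 → x * b * d = x := fun x hx => by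
    rw [mul_assoc, eq_sub_of_add_eq' hu, mul_sub, ← mul_assoc, hx, zero_mul, mul_one,
      sub_zero]
  let K : S → Ideal S := fun s => LinearMap.ker (LinearMap.toSpanSingleton S S a) ⊓
    LinearMap.ker (LinearMap.toSpanSingleton S S s)
  have hK : ∀ s x, x ∈ K s ↔ x * a = 0 ∧ x * s = 0 := fun _ _ => Iff.rfl
  obtain ⟨s, ⟨hs, hps⟩, hmin⟩ := exists_minimalFor_of_wellFoundedLT
    (fun s : S => star s = s ∧ p * s = s) K ⟨0, star_zero _, mul_zero _⟩
  have ht : star (d * s * star d) = d * s * star d := by
    rw [star_mul, star_mul, star_star, hs, mul_assoc]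
  have h1 : ∀ x, x * (a + b * (d * s * star d)) = 0 → x * a = 0 ∧ x * s = 0 := fun x hx => by
    have e1 : (a + b * (d * s * star d)) * (star b * star p) = b * d * s := by
      rw [add_mul, ← mul_assoc a, hab, mul_assoc b (star a), ← star_mul p a, hp, star_zero,
        mul_zero, zero_add, ← star_mul, mul_assoc, mul_assoc _ (star d), ← star_mul, hbd p hp,
        mul_assoc d, ← hs, ← star_mul, hps, mul_assoc]
    have e2 : x * (b * d * s) = 0 := by rw [← e1, ← mul_assoc, hx, zero_mul]
    have e3 : x * a = 0 := by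
      rw [← hx, mul_add, ← mul_assoc b, ← mul_assoc b, ← mul_assoc x (_ * s), e2, zero_mul,
        add_zero]
    exact ⟨e3, by rw [← hbd x e3, mul_assoc x, mul_assoc x, e2]⟩
  have h3 : ∀ x, x * a = 0 → x * (a + b * (d * s * star d)) = x * s * star d := fun x hx => by
    rw [mul_add, hx, zero_add, ← mul_assoc, ← mul_assoc, ← mul_assoc, hbd x hx]
  obtain ⟨q0, hq0, hq0'⟩ := exists_lann (a + b * (d * s * star d))
  have hq : p * q0 * (a + b * (d * s * star d)) = 0 := by rw [mul_assoc, hq0, mul_zero]
  have hq' : ∀ x, x * (a + b * (d * s * star d)) = 0 → x * (p * q0) = x := fun x hx => by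
    rw [← mul_assoc, hp' x (h1 x hx).1, hq0' x hx]
  have hpq : p * (p * q0) = p * q0 := by rw [← mul_assoc, hp' p hp]
  generalize p * q0 = q at hq hq' hpq
  have key : ∀ z, star z = z → q * z = z → z = 0 := fun z hz hqz => by
    have e1 : z * star q = z := by rw [← hz, ← star_mul, hqz]
    have e2 : s * star q = 0 := by rw [← hs, ← star_mul, (h1 q hq).2, star_zero]
    have hle : K (s + z) ≤ K s := fun x hx => by
      obtain ⟨x1, x2⟩ := (hK _ _).1 hx
      have e3 : x * z = 0 := by
        have := congrArg (· * star q) x2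
        simpa only [mul_assoc, add_mul, e1, e2, zero_add, zero_mul] using this
      exact (hK _ _).2 ⟨x1, by rwa [mul_add, e3, add_zero] at x2⟩
    have := ((hK _ _).1 (hmin ⟨by rw [star_add, hs, hz], by
      rw [mul_add, hps, ← hqz, ← mul_assoc, hpq]⟩ hle ((hK _ _).2 (h1 q hq)))).2
    rwa [mul_add, (h1 q hq).2, zero_add, hqz] at this
  have hq0 : q = 0 := by
    refine balanced (b := b) (c := c) (d := d - d * s * star d * c) ?_ ?_ hq hq' fun r => ?_
    · rw [star_add, star_mul b, ht, add_mul, mul_add, hab, mul_assoc b]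
    · rw [← hu, add_mul, mul_sub, mul_assoc b]
      abel
    · have e1 : q * (q * r * star q) = q * r * star q := by
        rw [← mul_assoc, ← mul_assoc, hq' q hq]
      have e2 : q * star (q * r * star q) = star (q * r * star q) := by
        rw [star_mul, star_star, ← mul_assoc, hq' q hq]
      have e3 := key (q * r * star q + star (q * r * star q))
        (by rw [star_add, star_star, add_comm]) (by rw [mul_add, e1, e2])
      exact key _ (by rw [eq_neg_of_add_eq_zero_right e3, neg_eq_iff_add_eq_zero, h2]) e1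
  refine ⟨_, d * p, ht, IsRightRegular.isUnit_of_finite (isRightRegular_iff_left_eq_zero_of_mul.2
    fun x hx => by rw [← hq' x hx, hq0, mul_zero]), by rw [mul_assoc, hp, mul_zero], ?_⟩
  rw [mul_assoc d p, h3 p hp, hps, mul_assoc]

end Semisimple

section Radical

variable {R : Type} [Ring R] [Finite R]

theorem mem_jac_iff {x : R} : x ∈ Ring.jacobson R ↔ ∀ y, IsNilpotent (y * x) := by
  have : IsArtinianRing R := isArtinian_of_finite
  constructor
  · intro hx y
    obtain ⟨n, hn⟩ := IsSemiprimaryRing.isNilpotent (R := R)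
    exact ⟨n, by simpa [hn] using Ideal.pow_mem_pow (Ideal.mul_mem_left _ y hx) n⟩
  · intro h
    rw [← Ideal.jacobson_bot, Ideal.mem_jacobson_iff]
    intro y
    obtain ⟨u, hu⟩ := (h y).isUnit_add_one
    exact ⟨↑u⁻¹, by rw [mul_assoc, ← mul_add_one, ← hu, u.inv_mul, sub_self]; exact zero_mem _⟩

theorem jac_nil {x : R} (hx : x ∈ Ring.jacobson R) : IsNilpotent x :=
  one_mul x ▸ mem_jac_iff.1 hx 1

variable [StarRing R]

theorem star_mem_jac {x : R} (hx : x ∈ Ring.jacobson R) : star x ∈ Ring.jacobson R :=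
  mem_jac_iff.2 fun y => by
    obtain ⟨n, hn⟩ := jac_nil (Ideal.mul_mem_right (star y) _ hx)
    exact ⟨n, by rw [← star_star y, ← star_mul, ← star_pow, hn, star_zero]⟩

/-- The involution on the quotient by the radical. -/
@[reducible] noncomputable def quotStar : StarRing (R ⧸ Ring.jacobson R) where
  star := Quotient.map' star fun a b h => by
    rw [Submodule.quotientRel_def] at h ⊢
    exact star_sub a b ▸ star_mem_jac h
  star_involutive x := Quotient.inductionOn' x fun a =>
    congrArg (Ideal.Quotient.mk _) (star_star a)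
  star_mul x y := Quotient.inductionOn₂' x y fun a b =>
    congrArg (Ideal.Quotient.mk _) (star_mul a b)
  star_add x y := Quotient.inductionOn₂' x y fun a b =>
    congrArg (Ideal.Quotient.mk _) (star_add a b)

/-- Hermitian stable range with a complement modulo the radical. -/
theorem hsr_mod (h2 : ∀ x : R, x + x = 0) {a b c d w k : R} (hab : a * star b = b * star a)
    (hu : a * c + b * d = 1) (hw : ∀ x, w * x = x * w) (hk : a * k = 1 - (w + star w))
    (he : (w + star w) * w = w) :
    ∃ (t : R) (u : Rˣ), star t = t ∧ (w + star w) * t = t ∧ ↑u = a + b * t ∧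
      t * ↑u⁻¹ * a ∈ Ring.jacobson R := by
  have : IsArtinianRing R := isArtinian_of_finite
  let _ := quotStar (R := R)
  have : Finite (R ⧸ Ring.jacobson R) := Finite.of_surjective _ Ideal.Quotient.mk_surjective
  set π := Ideal.Quotient.mk (Ring.jacobson R) with hπ
  have hs : ∀ x, π (star x) = star (π x) := fun _ => rfl
  have hw' : ∀ x, star w * x = x * star w := fun x => by
    rw [← star_star x, ← star_mul, ← hw, star_mul]
  obtain ⟨t, q, h1, h3, h4, h5⟩ := hsr (S := R ⧸ Ring.jacobson R) (a := π a) (b := π b) (c := π c)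
    (d := π d) (fun x => by
      obtain ⟨x, rfl⟩ := Ideal.Quotient.mk_surjective x
      rw [← map_add, h2, map_zero])
    (by rw [← hs, ← hs, ← map_mul, hab, map_mul]) (by rw [← map_mul, ← map_mul, ← map_add, hu, map_one])
  obtain ⟨t, rfl⟩ := Ideal.Quotient.mk_surjective t
  obtain ⟨q, rfl⟩ := Ideal.Quotient.mk_surjective q
  have e0 : π (w + star w) * π q = π q := by
    rw [eq_sub_of_add_eq' (eq_sub_iff_add_eq.1 hk), ← map_mul, sub_mul, one_mul, map_sub,
      sub_eq_self, hk, show (1 - (w + star w)) * q = q * (1 - (w + star w)) by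
        rw [sub_mul, mul_sub, add_mul, mul_add, hw, hw', one_mul, mul_one],
      ← hk, ← mul_assoc, map_mul, map_mul, h4, zero_mul]
  have e1 : π (w * t + star (w * t)) = π t := by
    rw [star_mul, map_add, map_mul π (star t), hs t, h1, ← map_mul, ← hw', ← map_add, ← add_mul,
      map_mul, h5, ← mul_assoc, e0]
  have hT : IsUnit (a + b * (w * t + star (w * t))) := by
    obtain ⟨v, hv⟩ := h3.exists_left_inv
    obtain ⟨v, rfl⟩ := Ideal.Quotient.mk_surjective v
    have e2 : v * (a + b * (w * t + star (w * t))) - 1 ∈ Ring.jacobson R := by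
      rw [← Ideal.Quotient.eq_zero_iff_mem, map_sub, map_mul, map_add, map_mul, ← hπ, e1, hv,
        map_one, sub_self]
    have e3 := (jac_nil e2).isUnit_add_one
    rw [sub_add_cancel] at e3
    obtain ⟨z, hz⟩ := e3.exists_left_inv
    exact IsUnit.of_mul_eq_one_right (z * v) (by rw [mul_assoc, hz])
  refine ⟨_, hT.unit, by rw [star_add, star_star, add_comm], ?_, rfl, ?_⟩
  · have he' : (w + star w) * star w = star w := by
      have := congrArg star he
      rwa [star_mul, star_add, star_star, add_comm, hw'] at this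
    rw [star_mul, ← hw', mul_add, ← mul_assoc, ← mul_assoc, he, he']
  · have e2 : π (a + b * (w * t + star (w * t))) * π ↑hT.unit⁻¹ = 1 := by
      rw [← map_mul, hT.mul_val_inv, map_one]
    rw [map_add, map_mul, e1] at e2
    rw [← Ideal.Quotient.eq_zero_iff_mem, map_mul, map_mul, ← hπ, e1, h5, mul_assoc (π q), e2,
      mul_one, h4]

end Radical

end Pool.Agent.Lib.MP_775b3b_nt.CM
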