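import Pool.Agent.Lib.MP_775b3b_nt.CM.ADef

/-! Three tuples of primes of the same colour with prescribed mutual symbols. -/

set_option autoImplicit false

namespace Pool.Agent.Lib.MP_775b3b_nt.CM

theorem pigeon {P C : Type} [Finite C] (col : P → C) (Q : P → P → Prop)
    (h : ∀ S : Set P, S.Finite → (S.Pairwise fun a b => Q a b ∨ Q b a) → ∃ q, ∀ p ∈ S, Q p q) :
    ∃ p q, Q p q ∧ col p = col q := by
  classical
  have := Fintype.ofFinite C
  have : Std.Symm fun a b => Q a b ∨ Q b a := ⟨fun _ _ => Or.symm⟩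
  have h1 : ∀ k, ∃ l : List P, l.length = k ∧ l.Pairwise fun a b => Q b a := fun k => by
    induction k with
    | zero => exact ⟨[], rfl, .nil⟩
    | succ k ih =>
      obtain ⟨l, hl, hp⟩ := ih
      obtain ⟨q, hq⟩ := h _ l.finite_toSet (hp.imp Or.inr).set_pairwise
      exact ⟨q :: l, by rw [List.length_cons, hl], .cons hq hp⟩
  obtain ⟨l, hl, hp⟩ := h1 (Fintype.card C + 1)
  by_contra! hc
  have h2 : (l.map col).Nodup := List.pairwise_map.2 (hp.imp fun hq => (hc _ _ hq).symm)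
  have h3 := h2.length_le_card
  rw [List.length_map, hl] at h3
  omega

theorem triple {P C : Type} [Finite C] {Ind : P → P → Prop} (sy : ∀ p q, Ind p q → Ind q p)
    (irr : ∀ p, ¬ Ind p p) (N : P → P → C) (ok : C → Prop)
    (ex : ∀ S : Set P, S.Finite → S.Pairwise Ind → ∀ c : P → C, (∀ p, ok (c p)) →
      ∃ q, ∀ p ∈ S, Ind p q ∧ N q p = c p)
    (f g h : C → C) (hf : ∀ x, ok (f x)) (hg : ∀ x, ok (g x)) (hh : ∀ x, ok (h x)) :
    ∃ p q r, Ind p q ∧ Ind p r ∧ Ind q r ∧ N q q = N p p ∧ N r r = N p p ∧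
      N q p = f (N p p) ∧ N r p = g (N p p) ∧ N r q = h (N p p) := by
  classical
  have : Std.Symm Ind := ⟨sy⟩
  have h1 : ∀ S : Set P, S.Finite → S.Pairwise Ind → ∀ c : P → C, (∀ p, ok (c p)) →
      ∃ p q, (∀ s ∈ S, (Ind s p ∧ N p s = c s) ∧ Ind s q) ∧ Ind p q ∧ N q p = f (N p p) ∧
        N q q = N p p := fun S hS hp c hc => by
    obtain ⟨p, q, ⟨e1, e2⟩, e3⟩ := pigeon (P := {q // ∀ p ∈ S, Ind p q ∧ N q p = c p})
      (fun p => N p p) (fun p q => Ind p q ∧ N q p = f (N p p)) fun l hl hl' => by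
        obtain ⟨q, hq⟩ := ex (S ∪ Subtype.val '' l) (hS.union (hl.image _))
          (Set.pairwise_union_of_symm.2 ⟨hp, by
            rintro _ ⟨a, ha, rfl⟩ _ ⟨b, hb, rfl⟩ e
            exact (hl' ha hb fun e' => e (e' ▸ rfl)).elim (·.1) (sy _ _ ·.1), by
            rintro a ha _ ⟨b, -, rfl⟩ -
            exact (b.2 a ha).1⟩) (fun x => if x ∈ S then c x else f (N x x))
          (fun x => by split_ifs; exacts [hc x, hf _])
        refine ⟨⟨q, fun p hp => by simpa [hp] using hq p (Or.inl hp)⟩, fun p hp => ?_⟩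
        simpa [show p.1 ∉ S from fun e => irr _ (p.2 _ e).1] using hq p (Or.inr ⟨p, hp, rfl⟩)
    exact ⟨p, q, fun s hs => ⟨p.2 s hs, (q.2 s hs).1⟩, e1, e2, e3.symm⟩
  obtain ⟨a, b, ⟨e1, e2, e3, e4, -⟩, e5⟩ := pigeon
    (P := {x : P × P // Ind x.1 x.2 ∧ N x.2 x.1 = f (N x.1 x.1) ∧ N x.2 x.2 = N x.1 x.1})
    (fun x => N x.1.1 x.1.1) (fun x y => Ind x.1.1 y.1.1 ∧ Ind x.1.2 y.1.1 ∧
      N y.1.1 x.1.1 = g (N x.1.1 x.1.1) ∧ N y.1.1 x.1.2 = h (N x.1.2 x.1.2) ∧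
      Ind x.1.1 y.1.2 ∧ Ind x.1.2 y.1.2) fun l hl hl' => by
      have k1 : ∀ a ∈ l, ∀ b ∈ l, Ind a.1.1 b.1.2 := fun a ha b hb => by
        rcases eq_or_ne a b with rfl | e
        · exact a.2.1
        · exact (hl' ha hb e).elim (·.2.2.2.2.1) (sy _ _ ·.2.1)
      obtain ⟨p, q, hq, hpq⟩ := h1 ((·.1.1) '' l ∪ (·.1.2) '' l) ((hl.image _).union (hl.image _))
        (Set.pairwise_union_of_symm.2 ⟨by
          rintro _ ⟨a, ha, rfl⟩ _ ⟨b, hb, rfl⟩ e
          exact (hl' ha hb fun e' => e (e' ▸ rfl)).elim (·.1) (sy _ _ ·.1), by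
          rintro _ ⟨a, ha, rfl⟩ _ ⟨b, hb, rfl⟩ e
          exact (hl' ha hb fun e' => e (e' ▸ rfl)).elim (·.2.2.2.2.2) (sy _ _ ·.2.2.2.2.2), by
          rintro _ ⟨a, ha, rfl⟩ _ ⟨b, hb, rfl⟩ -
          exact k1 a ha b hb⟩) (fun x => if x ∈ (·.1.1) '' l then g (N x x) else h (N x x))
        (fun x => by split_ifs; exacts [hg _, hh _])
      refine ⟨⟨(p, q), hpq⟩, fun a ha => ?_⟩
      have k2 := hq a.1.1 (Or.inl ⟨a, ha, rfl⟩)
      have k3 := hq a.1.2 (Or.inr ⟨a, ha, rfl⟩)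
      rw [if_pos ⟨a, ha, rfl⟩] at k2
      rw [if_neg fun ⟨b, hb, e⟩ => irr _ (e ▸ k1 b hb a ha : Ind a.1.2 a.1.2)] at k3
      exact ⟨k2.1.1, k3.1.1, k2.1.2, k3.1.2, k2.2, k3.2⟩
  exact ⟨a.1.1, a.1.2, b.1.1, a.2.1, e1, e2, a.2.2.2, e5.symm, a.2.2.1, e3, a.2.2.2 ▸ e4⟩

variable {R T : Type} [Ring R] [StarRing R] [Fintype T] {u e : R} {n : ℕ} {y : Fin n → Ix T → R}
  {Pr : Type} {Ind : Pr → Pr → Prop} {Ty : Fin n → Pr → Prop} {N : Pr → Pr → R}

theorem Sup.exI (h : Sup u e y Ind Ty N) {κ : Type} [Finite κ] (a : κ → Pr)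
    (ha : Pairwise fun k l => Ind (a k) (a l)) (ht : ∀ k, ∃ j, Ty j (a k)) (i : Fin n)
    (v : κ → R) (hv : ∀ k, e * v k = v k) :
    ∃ q, Ty i q ∧ ∀ k, Ind (a k) q ∧ N q (a k) = v k := by
  have := Fintype.ofFinite κ
  have hi : Function.Injective a := fun k l e' => by_contra fun ne =>
    h.irr (a l) (by have : Ind (a k) (a l) := ha ne; rwa [e'] at this)
  obtain ⟨q, h1, h2⟩ := h.ex (Finset.univ.toList.map a) i (Function.extend a v 0)
    (List.pairwise_map.2 ((Finset.nodup_toList _).imp fun ne => ha ne))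
    (fun p hp => by obtain ⟨k, -, rfl⟩ := List.mem_map.1 hp; exact ht k) fun p => by
      by_cases hp : ∃ k, a k = p
      · obtain ⟨k, rfl⟩ := hp
        rw [hi.extend_apply, hv]
      · rw [Function.extend_apply' _ _ _ hp, Pi.zero_apply, mul_zero]
  exact ⟨q, h1, fun k => hi.extend_apply v 0 k ▸ h2 _ (List.mem_map_of_mem (by simp))⟩

theorem Sup.tuple (h : Sup u e y Ind Ty N) {κ : Type} [Finite κ] (a : κ → Pr)
    (ha : Pairwise fun k l => Ind (a k) (a l)) (ht : ∀ k, ∃ j, Ty j (a k))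
    (v : Fin n → κ → R) (hv : ∀ i k, e * v i k = v i k) :
    ∃ p : Fin n → Pr, (∀ i, Ty i (p i) ∧ ∀ k, Ind (a k) (p i) ∧ N (p i) (a k) = v i k) ∧
      Pairwise fun i j => Ind (p i) (p j) := by
  suffices ∀ s : Finset (Fin n), ∃ p : Fin n → Pr,
      (∀ i, Ty i (p i) ∧ ∀ k, Ind (a k) (p i) ∧ N (p i) (a k) = v i k) ∧
      ∀ i ∈ s, ∀ j ∈ s, i ≠ j → Ind (p i) (p j) by
    obtain ⟨p, h1, h2⟩ := this Finset.univ
    exact ⟨p, h1, fun i j => h2 i (Finset.mem_univ _) j (Finset.mem_univ _)⟩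
  intro s
  induction s using Finset.induction_on with
  | empty =>
    choose p hp using fun i => h.exI a ha ht i (v i) (hv i)
    exact ⟨p, hp, by simp⟩
  | insert i s hi ih =>
    obtain ⟨p, h1, h2⟩ := ih
    obtain ⟨q, h3, h4⟩ := h.exI (Sum.elim a fun j : s => p j) (by
      rintro (k | k) (l | l) ne
      · exact ha fun e' => ne (e' ▸ rfl)
      · exact ((h1 l).2 k).1
      · exact h.symm _ _ ((h1 k).2 l).1
      · exact h2 _ k.2 _ l.2 fun e' => ne (congrArg _ (Subtype.ext e')))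
      (by rintro (k | k); exacts [ht k, ⟨_, (h1 k).1⟩]) i (Sum.elim (v i) 0)
      (by rintro (k | k); exacts [hv i k, mul_zero _])
    refine ⟨Function.update p i q, fun j => ?_, fun j hj k hk ne => ?_⟩
    · rcases eq_or_ne j i with rfl | ne
      · rw [Function.update_self]
        exact ⟨h3, fun k => h4 (.inl k)⟩
      · rw [Function.update_of_ne ne]
        exact h1 j
    · rcases Finset.mem_insert.1 hj with rfl | hj' <;> rcases Finset.mem_insert.1 hk with rfl | hk'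
      · exact absurd rfl ne
      · rw [Function.update_self, Function.update_of_ne ne.symm]
        exact h.symm _ _ (h4 (.inr ⟨k, hk'⟩)).1
      · rw [Function.update_self, Function.update_of_ne ne]
        exact (h4 (.inr ⟨j, hj'⟩)).1
      · rw [Function.update_of_ne (ne_of_mem_of_not_mem hj' hi),
          Function.update_of_ne (ne_of_mem_of_not_mem hk' hi)]
        exact h2 j hj' k hk' ne

/-- The matrix of symbols of two tuples. -/
def NM (N : Pr → Pr → R) (p q : Fin n → Pr) : Matrix (Fin n) (Fin n) R :=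
  Matrix.of fun i j => N (p i) (q j)

theorem Sup.triple [Finite R] (h : Sup u e y Ind Ty N) (hn : 0 < n)
    (f g k : Matrix (Fin n) (Fin n) R → Matrix (Fin n) (Fin n) R) (hf : ∀ x, e • f x = f x)
    (hg : ∀ x, e • g x = g x) (hk : ∀ x, e • k x = k x) :
    ∃ P : Fin 3 → Fin n → Pr, (∀ a i, Ty i (P a i)) ∧
      (Pairwise fun a b : Fin 3 × Fin n => Ind (P a.1 a.2) (P b.1 b.2)) ∧
      NM N (P 1) (P 1) = NM N (P 0) (P 0) ∧ NM N (P 2) (P 2) = NM N (P 0) (P 0) ∧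
      NM N (P 1) (P 0) = f (NM N (P 0) (P 0)) ∧ NM N (P 2) (P 0) = g (NM N (P 0) (P 0)) ∧
      NM N (P 2) (P 1) = k (NM N (P 0) (P 0)) := by
  obtain ⟨p, q, r, e1, e2, e3, e4⟩ := CM.triple
    (P := {p : Fin n → Pr // (∀ i, Ty i (p i)) ∧ Pairwise fun i j => Ind (p i) (p j)})
    (Ind := fun p q => ∀ i j, Ind (p.1 i) (q.1 j)) (fun p q hpq i j => h.symm _ _ (hpq j i))
    (fun p hp => h.irr _ (hp ⟨0, hn⟩ ⟨0, hn⟩)) (fun p q => NM N p.1 q.1) (fun x => e • x = x)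
    (fun S hS hp c hc => by
      have := hS.to_subtype
      obtain ⟨p, h1, h2⟩ := h.tuple (fun x : S × Fin n => x.1.1.1 x.2) (by
        rintro ⟨s, i⟩ ⟨t, j⟩ ne
        rcases eq_or_ne s t with rfl | ne'
        · exact s.1.2.2 fun e' => ne (Prod.ext rfl e')
        · exact hp s.2 t.2 (fun e' => ne' (Subtype.ext e')) i j) (fun x => ⟨_, x.1.1.2.1 x.2⟩)
        (fun i x => c x.1 i x.2) fun i x => congrFun (congrFun (hc x.1) i) x.2
      exact ⟨⟨p, fun i => (h1 i).1, h2⟩, fun s hs => ⟨fun i j => ((h1 j).2 (⟨s, hs⟩, i)).1,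
        Matrix.ext fun i j => ((h1 i).2 (⟨s, hs⟩, j)).2⟩⟩) f g k hf hg hk
  refine ⟨![p.1, q.1, r.1], fun a i => ?_, ?_, e4⟩
  · fin_cases a
    exacts [p.2.1 i, q.2.1 i, r.2.1 i]
  · rintro ⟨a, i⟩ ⟨b, j⟩ ne
    fin_cases a <;> fin_cases b
    exacts [p.2.2 fun e' => ne (Prod.ext rfl e'), e1 i j, e2 i j, h.symm _ _ (e1 j i),
      q.2.2 fun e' => ne (Prod.ext rfl e'), e3 i j, h.symm _ _ (e2 j i), h.symm _ _ (e3 j i),
      r.2.2 fun e' => ne (Prod.ext rfl e')]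

end Pool.Agent.Lib.MP_775b3b_nt.CM
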