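import Pool.Agent.Lib.MP_775b3b_nt.CM.ADef
import Pool.Agent.Lib.MP_775b3b_nt.CM.Sel1

/-! The group ring: basic rules, the Frobenius property, the socle argument. -/

set_option autoImplicit false

namespace Pool.Agent.Lib.MP_775b3b_nt.CM

theorem unimod {R : Type} [Ring R] [Algebra (ZMod 2) R] [Finite R] (τ : R →ₗ[ZMod 2] ZMod 2)
    (hτ : ∀ x, (∀ r, τ (x * r) = 0) → x = 0) {a b : R}
    (h : ∀ z, z * a = 0 → z * b = 0 → z = 0) : ∃ c d, a * c + b * d = 1 := by
  by_contra hc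
  have h1 : LinearMap.range (LinearMap.mulLeft (ZMod 2) a) ⊔
      LinearMap.range (LinearMap.mulLeft (ZMod 2) b) < ⊤ := lt_top_iff_ne_top.2 fun e => by
    obtain ⟨_, ⟨c, rfl⟩, _, ⟨d, rfl⟩, e⟩ := Submodule.mem_sup.1 (e ▸ Submodule.mem_top : (1 : R) ∈ _)
    exact hc ⟨c, d, e⟩
  obtain ⟨f, hf, h2⟩ := Submodule.exists_le_ker_of_lt_top _ h1
  have h3 : Function.Injective ((LinearMap.mul (ZMod 2) R).compr₂ τ) :=
    (injective_iff_map_eq_zero _).2 fun x hx => hτ x fun r => LinearMap.congr_fun hx r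
  obtain ⟨z, rfl⟩ := (LinearMap.injective_iff_surjective_of_finrank_eq_finrank
    (Subspace.dual_finrank_eq (K := ZMod 2) (V := R)).symm).1 h3 f
  have h4 := h z (hτ _ fun r => mul_assoc z a r ▸ h2 (Submodule.mem_sup_left ⟨r, rfl⟩))
    (hτ _ fun r => mul_assoc z b r ▸ h2 (Submodule.mem_sup_right ⟨r, rfl⟩))
  exact hf (by rw [h4, map_zero])

theorem entry_mem_jac {A n : Type} [Ring A] [Finite A] [Fintype n] [DecidableEq n]
    {B : Matrix n n A} (hB : B ∈ Ring.jacobson (Matrix n n A)) (i j : n) :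
    B i j ∈ Ring.jacobson A := mem_jac_iff.2 fun y => by
  obtain ⟨k, hk⟩ := jac_nil (Ideal.mul_mem_right (Matrix.single j i 1) _
    (Ideal.mul_mem_left _ (Matrix.single i i y) hB))
  rw [Matrix.single_mul_mul_single, mul_one] at hk
  have h1 : ∀ (x : A) (k : ℕ), Matrix.single i i x ^ (k + 1) = Matrix.single i i (x ^ (k + 1)) :=
    fun x k => by
      induction k with
      | zero => rw [zero_add, pow_one, pow_one]
      | succ k ih => rw [pow_succ, ih, Matrix.single_mul_single_same, ← pow_succ]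
  have h2 := h1 (y * B i j) k
  rw [pow_succ, hk, zero_mul] at h2
  exact ⟨k + 1, by simpa using (congrFun (congrFun h2 i) i).symm⟩

variable {Γ : Type} [Group Γ]

theorem sel_ind {P : GA Γ → Prop} (x : GA Γ) (h0 : P 0) (hg : ∀ g, P (gr g))
    (ha : ∀ x y, P x → P y → P (x + y)) : P x := by
  induction x using MonoidAlgebra.induction_linear with
  | zero => exact h0
  | add x y hx hy => exact ha x y hx hy
  | single g r =>
    rcases (by decide : ∀ r : ZMod 2, r = 0 ∨ r = 1) r with rfl | rfl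
    · rwa [MonoidAlgebra.single_zero]
    · exact hg g

theorem sel_gr_mul (g h : Γ) : gr (g * h) = gr g * gr h := by
  rw [MonoidAlgebra.single_mul_single, one_mul]

theorem sel_two (x : GA Γ) : x + x = 0 := by
  ext g
  simpa using CharTwo.add_self_eq_zero (x.coeff g)

theorem sel_coeff_one_comm (x y : GA Γ) : (x * y).coeff 1 = (y * x).coeff 1 := by
  induction x using sel_ind with
  | h0 => simp
  | hg g => simp
  | ha a b ha hb => simp [add_mul, mul_add, ha, hb]

theorem sel_eq_zero {x : GA Γ} (h : ∀ r, (x * r).coeff 1 = 0) : x = 0 := by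
  ext g
  simpa using h (gr g⁻¹)

variable {σ : Γ} {G : Subgroup Γ}

theorem Cub.gr_cm (h : Cub σ G) (x : GA Γ) : gr σ * x = x * gr σ := by
  induction x using sel_ind with
  | h0 => simp
  | hg g => rw [← sel_gr_mul, ← h.cen, sel_gr_mul]
  | ha a b ha hb => rw [mul_add, add_mul, ha, hb]

theorem Cub.gr_three' (h : Cub σ G) : gr σ * gr σ * gr σ = 1 := by
  rw [← sel_gr_mul, ← sel_gr_mul, h.three]
  rfl

theorem sel_ee_eq (σ : Γ) : ee σ = gr σ + gr σ * gr σ := by rw [ee, sel_gr_mul]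

theorem Cub.ee_cm (h : Cub σ G) (x : GA Γ) : ee σ * x = x * ee σ :=
  sel_ee_eq σ ▸ (Commute.add_left (h.gr_cm x) (Commute.mul_left (h.gr_cm x) (h.gr_cm x))).eq

theorem Cub.ee_mul_ee' (h : Cub σ G) : ee σ * ee σ = ee σ := by
  have : ee σ * ee σ = gr σ * gr σ * gr σ * gr σ + gr σ * gr σ +
      (gr σ * gr σ * gr σ + gr σ * gr σ * gr σ) := by
    rw [sel_ee_eq]; noncomm_ring
  rw [this, sel_two, h.gr_three', one_mul, add_zero, sel_ee_eq]

theorem Cub.inv_eq' (h : Cub σ G) : σ⁻¹ = σ * σ := inv_eq_of_mul_eq_one_left h.three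

theorem Cub.exists_conj (h : Cub σ G) : ∃ c : Γ →* Γ, Function.Surjective c ∧ (∀ g ∈ G, c g = g) ∧
    c σ = σ * σ := by
  have hc : ∀ (s : Γ), (∀ g, g * s = s * g) → ∀ (g : G) (i : Multiplicative ℤ),
      Commute (G.subtype g) (zpowersHom Γ s i) := fun s hs g i =>
    Commute.zpow_right (hs g) _
  have h' : ∀ g, g * σ⁻¹ = σ⁻¹ * g := fun g => (Commute.inv_right (h.cen g)).eq
  have sur : ∀ s hs, σ ∈ Subgroup.zpowers s → Function.Surjective
      (G.subtype.noncommCoprod (zpowersHom Γ s) (hc s hs)) := fun s hs ⟨k, hk⟩ γ => by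
    have k1 : ∀ j : ℤ, γ * σ ^ j ∈ G → ∃ a, G.subtype.noncommCoprod (zpowersHom Γ s) (hc s hs) a = γ :=
      fun j hj => ⟨(⟨_, hj⟩, .ofAdd (k * -j)), by
        change γ * σ ^ j * s ^ (k * -j) = γ
        rw [zpow_mul, show s ^ k = σ from hk, zpow_neg, mul_inv_cancel_right]⟩
    rcases h.dec γ with e | e | e
    · exact k1 0 (by rwa [zpow_zero, mul_one])
    · exact k1 1 (by rwa [zpow_one])
    · exact k1 2 (by rwa [zpow_two, ← mul_assoc])
  have h3 : ∀ i : ℤ, σ ^ i ∈ G → σ ^ i = 1 := fun i hi => by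
    have e3 : σ ^ (3 : ℤ) = 1 := by
      rw [show (3 : ℤ) = 1 + 1 + 1 from rfl, zpow_add_one, zpow_add_one, zpow_one, h.three]
    have e : σ ^ i = σ ^ (i % 3) := zpow_eq_zpow_emod i e3
    rw [e] at hi ⊢
    rcases (by omega : i % 3 = 0 ∨ i % 3 = 1 ∨ i % 3 = 2) with e' | e' | e' <;> rw [e'] at hi ⊢
    · exact zpow_zero _
    · exact absurd (zpow_one σ ▸ hi) h.nmem
    · rw [zpow_two, ← h.inv_eq'] at hi
      exact absurd (inv_mem_iff.1 hi) h.nmem
  let c := (G.subtype.noncommCoprod _ (hc σ h.cen)).liftOfSurjective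
    (sur σ h.cen (Subgroup.mem_zpowers σ)) ⟨G.subtype.noncommCoprod _ (hc σ⁻¹ h'), by
      rintro ⟨g, i⟩ e
      change (g : Γ) * σ ^ i.toAdd = 1 at e
      change (g : Γ) * σ⁻¹ ^ i.toAdd = 1
      have e1 := h3 i.toAdd (eq_inv_of_mul_eq_one_right e ▸ inv_mem g.2)
      rw [e1] at e
      rw [inv_zpow, e1, inv_one, e]⟩
  have hcc : ∀ a, c (G.subtype.noncommCoprod _ (hc σ h.cen) a) =
      G.subtype.noncommCoprod _ (hc σ⁻¹ h') a := fun a =>
    MonoidHom.liftOfRightInverse_comp_apply ..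
  refine ⟨c, fun γ => ?_, fun g hg => by simpa using hcc (⟨g, hg⟩, 1), ?_⟩
  · obtain ⟨a, rfl⟩ := sur σ⁻¹ h' ⟨-1, by simp⟩ γ
    exact ⟨_, hcc a⟩
  · simpa [h.inv_eq'] using hcc (1, .ofAdd 1)

variable [Fintype Γ]

theorem sel_star_gr (g : Γ) : star (gr g) = gr g⁻¹ := by
  classical
  refine ga_ext fun h => ?_
  simp only [coeff_star, MonoidAlgebra.coeff_single, Finsupp.single_apply, inv_eq_iff_eq_inv]

theorem Cub.star_ee' (h : Cub σ G) : star (ee σ) = ee σ := by
  rw [ee, star_add, sel_star_gr, sel_star_gr, h.inv_eq', ← h.inv_eq', inv_inv, add_comm]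

/-- A set of rows that is stable under `G` and nonzero contains a nonzero row that the radical
kills. -/
theorem Cub.socle (h : Cub σ G) {n : Type} [Finite n] (W : AddSubgroup (n → GA Γ))
    (he : ∀ m ∈ W, ee σ • m = m) (hG : ∀ g ∈ G, ∀ m ∈ W, gr g • m ∈ W)
    (h0 : ∀ m ∈ W, (∀ i, ∀ y ∈ Ring.jacobson (GA Γ), m i * y = 0) → m = 0) : ∀ m ∈ W, m = 0 := by
  obtain ⟨c, hc, hcG, hcσ⟩ := h.exists_conj
  let κ := MonoidAlgebra.mapDomainRingHom (ZMod 2) c
  have hκ : ∀ g, κ (gr g) = gr (c g) := fun g => MonoidAlgebra.mapDomain_single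
  have : RingHomSurjective κ := ⟨fun y => by
    induction y using sel_ind with
    | h0 => exact ⟨0, map_zero _⟩
    | hg g => obtain ⟨g, rfl⟩ := hc g; exact ⟨_, hκ g⟩
    | ha a b ha hb => obtain ⟨a, rfl⟩ := ha; obtain ⟨b, rfl⟩ := hb; exact ⟨_, map_add ..⟩⟩
  have hW : ∀ y, ∀ m ∈ W, (y + κ y) • m ∈ W := fun y m hm => by
    induction y using sel_ind with
    | h0 => simp
    | ha a b ha hb =>
      rw [map_add, add_add_add_comm, add_smul]
      exact add_mem ha hb
    | hg γ =>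
      rw [hκ]
      rcases h.dec γ with e | e | e
      · rw [hcG γ e, sel_two, zero_smul]
        exact zero_mem _
      · have e1 : γ = γ * σ * (σ * σ) := by rw [mul_assoc, ← mul_assoc σ, h.three, mul_one]
        have e2 : c γ = γ * σ * σ := by
          rw [e1, map_mul, hcG _ e, map_mul, hcσ, ← e1, ← mul_assoc (σ * σ), h.three, one_mul]
        rw [e2, e1, sel_gr_mul (γ * σ) (σ * σ), ← e1, sel_gr_mul (γ * σ) σ, ← mul_add, add_comm, ← ee,
          mul_smul, he m hm]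
        exact hG _ e m hm
      · have e1 : γ = γ * σ * σ * σ := by rw [mul_assoc, mul_assoc, ← mul_assoc σ, h.three, mul_one]
        have e2 : c γ = γ * σ * σ * (σ * σ) := by rw [e1, map_mul, hcG _ e, hcσ, ← e1]
        rw [e2, sel_gr_mul _ (σ * σ), e1, sel_gr_mul (γ * σ * σ) σ, ← e1, ← mul_add, ← ee, mul_smul,
          he m hm]
        exact hG _ e m hm
  by_contra! hne
  obtain ⟨m, ⟨hm, hm0⟩, hmin⟩ := exists_minimalFor_of_wellFoundedLT (fun m => m ∈ W ∧ m ≠ 0)
    (fun m => Submodule.span (GA Γ) {m}) hne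
  have k1 : ∀ y ∈ Ring.jacobson (GA Γ), (y + κ y) • m = 0 := fun y hy => by
    by_contra ne
    obtain ⟨a, ha⟩ := Submodule.mem_span_singleton.1 (hmin ⟨hW y m hm, ne⟩
      (Submodule.span_le.2 (Set.singleton_subset_iff.2
        (Submodule.smul_mem _ _ (Submodule.mem_span_singleton_self m))))
      (Submodule.mem_span_singleton_self m))
    obtain ⟨k, hk⟩ := mem_jac_iff.1 (add_mem hy (Ring.le_comap_jacobson κ hy)) a
    have : ∀ j : ℕ, (a * (y + κ y)) ^ j • m = m := fun j => by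
      induction j with
      | zero => rw [pow_zero, one_smul]
      | succ j ih => rw [pow_succ, mul_smul, mul_smul, ha, ih]
    exact hm0 (by rw [← this k, hk, zero_smul])
  refine hm0 (h0 m hm fun i y hy => sel_eq_zero fun r => ?_)
  have k2 : ∀ y ∈ Ring.jacobson (GA Γ), y • m = 0 := fun y hy => by
    have e1 := k1 _ (Ideal.mul_mem_left _ (gr σ) hy)
    have e2 := congrArg ((gr σ * gr σ) • ·) (k1 y hy)
    simp only [smul_zero, ← mul_smul] at e2
    rw [map_mul, hκ, hcσ, sel_gr_mul] at e1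
    have e3 : y * ee σ = gr σ * y + gr σ * gr σ * κ y + gr σ * gr σ * (y + κ y) := by
      rw [← h.ee_cm, sel_ee_eq, add_mul, mul_add, add_add_add_comm, sel_two, add_zero]
    rw [← he m hm, ← mul_smul, e3, add_smul, e1, e2, add_zero]
  rw [mul_assoc, sel_coeff_one_comm]
  exact congrArg (fun x : GA Γ => x.coeff 1)
    (congrFun (k2 _ (Ideal.mul_mem_right r _ hy)) i)

end Pool.Agent.Lib.MP_775b3b_nt.CM
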