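import Pool.Agent.Lib.MP_775b3b_nt.CM.Sel3

/-! One move reaches the target modulo the radical; three primes act as one. -/

set_option autoImplicit false

namespace Pool.Agent.Lib.MP_775b3b_nt.CM

open Matrix

theorem gadget {R M : Type} [Ring R] [AddCommGroup M] [Module R M] (h2 : ∀ x : M, x + x = 0) (o : R)
    (s t : M →ₗ[R] M) {a b c φ : M} (hb : o • o • b = b + o • b) (hc : o • o • c = c + o • c)
    (e1 : φ = s a + (s b + b) + t c) (e2 : φ = s a + a + s b + (t c + o • c))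
    (e3 : φ = t a + (t b + o • o • b) + s c) :
    φ = t (a + b + c) ∧ (a + b + c = 0 → a = 0 ∧ b = 0 ∧ c = 0) := by
  obtain rfl : a = b + o • c := by linear_combination (norm := abel) e1 - e2 - h2 (o • c)
  have hs := congrArg s hc
  have ht := congrArg t hc
  simp only [map_add, map_smul] at e1 e3 hs ht ⊢
  have k1 : o • (b + o • s c + o • t c) = 0 := by
    rw [smul_add, smul_add]
    linear_combination (norm := abel) e1 - e3 - hb + hs + ht + h2 (o • s c) + h2 (t c) +
      h2 (s b) - h2 (t b)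
  have k2 : b + o • s c + o • t c = 0 := by
    have := congrArg (o • ·) k1
    have hs' := congrArg (o • ·) hs
    have ht' := congrArg (o • ·) ht
    simp only [smul_add, smul_zero] at this k1 hs' ht'
    linear_combination (norm := abel) this - k1 - hb - hs' - ht'
  refine ⟨by linear_combination (norm := abel) e1 + k2 + h2 (s b) - h2 (t b) - h2 (o • t c),
    fun h => ?_⟩
  have k3 : c + o • c = 0 := by linear_combination (norm := abel) h - h2 b
  have k4 : o • c = 0 := by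
    have := congrArg (o • ·) k3
    simp only [smul_add, smul_zero] at this
    linear_combination (norm := abel) this - hc - k3
  obtain rfl : c = 0 := by rwa [k4, add_zero] at k3
  obtain rfl : b = 0 := by simpa using k2
  simp

section Form

variable {R T : Type} [Ring R] [StarRing R] [Fintype T]

/-- the form as a linear map in the first argument -/
def hfL (u : R) (y : Ix T → R) : (Ix T → R) →ₗ[R] R where
  toFun x := hf u x y
  map_add' x x' := hf_add_left u x x' y
  map_smul' r x := hf_smul_left u r x y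

theorem hf_sum_left {ι : Type} [Fintype ι] (u : R) (c : ι → R) (x : ι → Ix T → R) (y : Ix T → R) :
    hf u (∑ i, c i • x i) y = ∑ i, c i * hf u (x i) y :=
  (map_sum (hfL u y) _ _).trans (Finset.sum_congr rfl fun _ _ => hf_smul_left u _ _ _)

/-- a pair of dual isotropic bases -/
structure Dub (u e : R) {ι : Type} (y z : ι → Ix T → R) : Prop where
  py : ∀ i, e • y i = y i
  pz : ∀ i, e • z i = z i
  yy : ∀ i j, hf u (y i) (y j) = 0
  zz : ∀ i j, hf u (z i) (z j) = 0
  zy : ∀ i, hf u (z i) (y i) = e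
  zy' : ∀ i j, i ≠ j → hf u (z i) (y j) = 0
  nd : ∀ v, e • v = v → (∀ j, hf u v (y j) = 0) → (∀ j, hf u v (z j) = 0) → v = 0

theorem Dub.comp {u e : R} {ι κ : Type} {y z : ι → Ix T → R} (h : Dub u e y z) (f : κ ≃ ι) :
    Dub u e (y ∘ f) (z ∘ f) :=
  ⟨fun _ => h.py _, fun _ => h.pz _, fun _ _ => h.yy _ _, fun _ _ => h.zz _ _, fun _ => h.zy _,
    fun _ _ ne => h.zy' _ _ (f.injective.ne ne), fun v hv h1 h2 =>
      h.nd v hv (f.surjective.forall.2 h1) (f.surjective.forall.2 h2)⟩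

theorem Dub.expand {u e : R} {ι : Type} [Fintype ι] {y z : ι → Ix T → R} (h : Dub u e y z)
    (hu : star u = u) (he : star e = e) (hc : ∀ x, e * x = x * e) {v : Ix T → R} (hv : e • v = v) :
    v = ∑ i, hf u v (z i) • y i + ∑ i, hf u v (y i) • z i := by
  have h1 : ∀ w, hf u v w * e = hf u v w := fun w => by rw [← hc, ← hf_smul_left, hv]
  refine sub_eq_zero.1 (h.nd _ ?_ (fun j => ?_) fun j => ?_)
  · simp only [smul_sub, smul_add, Finset.smul_sum, ← mul_smul, hc, h1, hv]
  · refine (map_sub (hfL u (y j)) _ _).trans (sub_eq_zero.2 ?_)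
    change hf u v _ = hf u _ _
    rw [hf_add_left, hf_sum_left, hf_sum_left, Finset.sum_eq_zero fun i _ => by rw [h.yy, mul_zero],
      zero_add, Finset.sum_eq_single j (fun i _ ne => by rw [h.zy' i j ne, mul_zero]) (by simp),
      h.zy, h1]
  · refine (map_sub (hfL u (z j)) _ _).trans (sub_eq_zero.2 ?_)
    change hf u v _ = hf u _ _
    rw [hf_add_left, hf_sum_left, hf_sum_left,
      Finset.sum_eq_zero (f := fun i => _ * hf u (z i) (z j)) fun i _ => by rw [h.zz, mul_zero],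
      add_zero, Finset.sum_eq_single j (fun i _ ne => by
        rw [← hf_star hu (z j), h.zy' j i ne.symm, star_zero, mul_zero]) (by simp),
      ← hf_star hu (z j) (y j), h.zy, he, h1]

end Form

variable {Γ : Type} [Group Γ] [Fintype Γ] {σ : Γ} {G : Subgroup Γ}

theorem Cub.om_add (h : Cub σ G) : gr σ * ee σ + star (gr σ * ee σ) = ee σ := by
  rw [star_mul, h.star_ee', sel_star_gr, h.inv_eq', h.ee_cm, ← add_mul, ← ee, h.ee_mul_ee']

theorem Cub.move (h : Cub σ G) {n : Type} [Fintype n] [DecidableEq n] (X Y : Matrix n n (GA Γ))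
    (hX : ee σ • X = X) (hY : ee σ • Y = Y) (hXY : Y * star X = X * star Y)
    (hi : ∀ c : n → GA Γ, ee σ • c = c → c ᵥ* X = 0 → c ᵥ* Y = 0 → c = 0) :
    ∃ T : Matrix n n (GA Γ), star T = T ∧ ee σ • T = T ∧
      ∀ L : AddSubgroup ((n → GA Γ) × (n → GA Γ)), (∀ g ∈ G, ∀ v ∈ L, gr g • v ∈ L) →
        (∀ m, ee σ • m = m → (m, 0) ∈ L → m = 0) → ∀ c m, ee σ • c = c → ee σ • m = m →
          c ᵥ* Y = m ᵥ* T → (c ᵥ* X + m, c ᵥ* Y) ∈ L → c = 0 ∧ m = 0 := by
  have h2 : ∀ x : Matrix n n (GA Γ), x + x = 0 := fun x => Matrix.ext fun i j => sel_two _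
  have hs : ∀ r : GA Γ, star (scalar n r) = scalar n (star r) := fun r =>
    diagonal_conjTranspose _
  have hE : ∀ x : Matrix n n (GA Γ), scalar n (ee σ) * x = ee σ • x := fun x =>
    (smul_eq_diagonal_mul x _).symm
  have hc : ∀ x, scalar n (ee σ) * x = x * scalar n (ee σ) := fun x =>
    (scalar_commute _ h.ee_cm x).eq
  have hv : ∀ c : n → GA Γ, c ᵥ* scalar n (ee σ) = ee σ • c := fun c => funext fun i =>
    (vecMul_diagonal c _ i).trans (h.ee_cm _).symm
  have hw : scalar n (gr σ * ee σ) + star (scalar n (gr σ * ee σ)) = scalar n (ee σ) := by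
    rw [hs, ← map_add, h.om_add]
  have hEE : scalar n (ee σ) * scalar n (ee σ) = scalar n (ee σ) := by rw [← map_mul, h.ee_mul_ee']
  have hsE : star (scalar n (ee σ)) = scalar n (ee σ) := by rw [hs, h.star_ee']
  rw [← hE] at hX hY
  set E := scalar n (ee σ) with hEd
  have hk : (Y + (1 - E)) * (1 - E) = 1 - E := by
    rw [add_mul, mul_sub Y, ← hc, hY, mul_one, sub_self, zero_add, mul_sub, mul_one, sub_mul,
      one_mul, hEE, sub_self, sub_zero]
  obtain ⟨C, D, hu⟩ := unimod (R := Matrix n n (GA Γ)) (a := Y + (1 - E)) (b := X)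
    { toFun x := (trace x).coeff 1
      map_add' x y := by simp
      map_smul' r x := by simp } (fun x hx => Matrix.ext fun i j => sel_eq_zero fun r => by
        simpa [trace_mul_single] using hx (single j i r)) fun z h3 h4 => by
      have h5 : z * E = z := by
        have := congrArg (· * (1 - E)) h3
        simp only [mul_assoc, hk, zero_mul] at this
        rw [mul_sub, mul_one, sub_eq_zero] at this
        exact this.symm
      rw [mul_add, mul_sub, mul_one, h5, sub_self, add_zero] at h3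
      exact funext fun i => hi (z i) ((hv _).symm.trans (congrFun h5 i)) (congrFun h4 i)
        (congrFun h3 i)
  obtain ⟨T, u, t1, t2, t3, t4⟩ := hsr_mod h2 (a := Y + (1 - E)) (b := X) (k := 1 - E)
    (w := scalar n (gr σ * ee σ)) (by
      rw [add_mul, star_add, mul_add, hXY, star_sub, star_one, hsE, mul_sub X, ← hc, hX, mul_one,
        sub_self, sub_mul, one_mul, hc, ← hsE, ← star_mul, hX, sub_self]) hu
    (fun x => (scalar_commute _ (fun r => Commute.mul_left (h.gr_cm r) (h.ee_cm r)) x).eq)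
    (by rw [hw, hk]) (by rw [hw, hEd, ← map_mul, h.ee_cm, mul_assoc, h.ee_mul_ee'])
  rw [hw] at t2
  refine ⟨T, t1, (hE T).symm.trans t2, fun L hG hL c m h3 h4 h5 h6 => ?_⟩
  obtain ⟨v, t5, t6⟩ : ∃ v, (Y + (1 - E) + X * T) * v = 1 ∧
      T * v * (Y + (1 - E)) ∈ Ring.jacobson (Matrix n n (GA Γ)) := ⟨_, t3 ▸ u.mul_inv, t4⟩
  obtain ⟨B, hB⟩ : ∃ B, B = T * v * (Y + (1 - E)) := ⟨_, rfl⟩
  rw [← hB] at t6
  have k0 : c ᵥ* (Y + (1 - E)) = c ᵥ* Y := by
    rw [vecMul_add, vecMul_sub, vecMul_one, hv, h3, sub_self, add_zero]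
  have k1 : (c ᵥ* X + m) ᵥ* (T * v) = c := by
    rw [← vecMul_vecMul, add_vecMul, ← h5, ← k0, vecMul_vecMul, ← vecMul_add, add_comm,
      vecMul_vecMul, t5, vecMul_one]
  have k2 : c ᵥ* X + m = 0 := by
    let Ψ := (LinearMap.id.prod B.vecMulLinear).toAddMonoidHom
    have hΨ : ∀ m, m ∈ L.comap Ψ ↔ (m, m ᵥ* B) ∈ L := fun _ => Iff.rfl
    refine h.socle (((DistribSMul.toAddMonoidHom _ (ee σ)).eqLocus (AddMonoidHom.id _)) ⊓ L.comap Ψ)
      (fun m hm => hm.1) (fun g hg m hm => ⟨?_, (hΨ _).2 ?_⟩) (fun m hm h0 => hL m hm.1 ?_) _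
      ⟨?_, (hΨ _).2 ?_⟩
    · have : ee σ • m = m := hm.1
      change ee σ • _ = gr g • m
      rw [← mul_smul, h.ee_cm, mul_smul, this]
    · rw [smul_vecMul, ← Prod.smul_mk]
      exact hG g hg _ ((hΨ _).1 hm.2)
    · have : m ᵥ* B = 0 := funext fun j =>
        Finset.sum_eq_zero fun i _ => h0 i _ (entry_mem_jac t6 i j)
      exact this ▸ (hΨ _).1 hm.2
    · change ee σ • _ = c ᵥ* X + m
      rw [smul_add, ← smul_vecMul, h3, h4]
    · rwa [hB, ← vecMul_vecMul, k1, k0]
  rw [k2, zero_vecMul] at k1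
  rw [← k1, zero_vecMul, zero_add] at k2
  exact ⟨k1.symm, k2⟩

theorem Cub.move' (h : Cub σ G) {T : Type} [Fintype T] {u : GA Γ} (hu : star u = u) {n : ℕ}
    {y z : Fin n → Ix T → GA Γ} (hy : Dub u (ee σ) y z) {H : Submodule (GA Γ) (Ix T → GA Γ)}
    (hL : Lag u (ee σ) H) (hF : Fre (ee σ) n H) :
    ∃ M : Matrix (Fin n) (Fin n) (GA Γ), star M = M ∧ ee σ • M = M ∧
      ∀ L : AddSubgroup (Ix T → GA Γ), (∀ g ∈ G, ∀ v ∈ L, gr g • v ∈ L) →
        (∀ m : Fin n → GA Γ, ee σ • m = m → ∑ i, m i • y i ∈ L → m = 0) →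
        ∀ x ∈ H, ∀ m : Fin n → GA Γ, ee σ • m = m →
          (fun j => hf u x (y j)) = m ᵥ* M → x + ∑ i, m i • y i ∈ L → x = 0 ∧ m = 0 := by
  obtain ⟨x, hx, hx1, hx2⟩ := hF
  have ex : ∀ {v}, ee σ • v = v → _ := hy.expand hu h.star_ee' h.ee_cm
  have hp : ∀ c : Fin n → GA Γ, ee σ • ∑ i, c i • x i = ∑ i, c i • x i := fun c =>
    hL.part _ (H.sum_mem fun i _ => H.smul_mem _ (hx i))
  have hv : ∀ (c : Fin n → GA Γ) (w : Fin n → Ix T → GA Γ),
      c ᵥ* (of fun i j => hf u (x i) (w j)) = fun j => hf u (∑ i, c i • x i) (w j) :=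
    fun c w => funext fun j => (hf_sum_left u c x (w j)).symm
  obtain ⟨M, m1, m2, m3⟩ := h.move (of fun i j => hf u (x i) (z j)) (of fun i j => hf u (x i) (y j))
    (Matrix.ext fun i j => (hf_smul_left ..).symm.trans (by rw [hL.part _ (hx i)]; rfl))
    (Matrix.ext fun i j => (hf_smul_left ..).symm.trans (by rw [hL.part _ (hx i)]; rfl))
    (Matrix.ext fun i j => by
      have e := hL.iso _ (hx i) _ (hx j)
      rw [ex (hL.part _ (hx i)), hf_add_left, hf_sum_left, hf_sum_left] at e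
      simp only [mul_apply, star_apply, of_apply, hf_star hu]
      rw [eq_neg_of_add_eq_zero_left e, neg_eq_iff_add_eq_zero.2 (sel_two _)]) fun c hc h1 h2 => hx2 c (congrFun hc) (by
      rw [hv] at h1 h2
      rw [ex (hp c)]
      simp [congrFun h1, congrFun h2])
  refine ⟨M, m1, m2, fun L hG hL' v hv' m hm h1 h2 => ?_⟩
  obtain ⟨c, rfl⟩ := hx1 v hv'
  have e1 : ∑ i, (ee σ • c) i • x i = ∑ i, c i • x i := by
    rw [← hp c, Finset.smul_sum]
    simp only [Pi.smul_apply, smul_eq_mul, mul_smul]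
  let Φ : (Fin n → GA Γ) × (Fin n → GA Γ) →ₗ[GA Γ] (Ix T → GA Γ) :=
    (Fintype.linearCombination (GA Γ) y).coprod (Fintype.linearCombination (GA Γ) z)
  have hΦ : ∀ a b, Φ (a, b) = ∑ i, a i • y i + ∑ i, b i • z i := fun _ _ => rfl
  obtain ⟨k1, k2⟩ := m3 (L.comap Φ.toAddMonoidHom)
    (fun g hg v hv => by
      change Φ _ ∈ L
      rw [map_smul]
      exact hG g hg _ hv)
    (fun m hm h0 => hL' m hm (by simpa [hΦ] using (h0 : Φ _ ∈ L))) (ee σ • c) m
    (by rw [← mul_smul, h.ee_mul_ee']) hm (by rw [hv, e1, h1]) (by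
      change Φ _ ∈ L
      rw [hΦ, hv, hv, e1]
      simp only [Pi.add_apply, add_smul, Finset.sum_add_distrib]
      rwa [add_right_comm, ← ex (hp c)])
  exact ⟨by rw [← e1, k1]; simp, k2⟩

end Pool.Agent.Lib.MP_775b3b_nt.CM
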