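import Pool.Agent.Lib.MP_775b3b_nt.CM.Sel4

/-! The target Lagrangian. -/

set_option autoImplicit false

namespace Pool.Agent.Lib.MP_775b3b_nt.CM

section Ring

variable {R T : Type} [Ring R] [DecidableEq T]

/-- the basis of the target -/
def yt (e w ζ : R) (q : T) : Option T → Ix T → R
  | none, .inl false => ζ
  | none, .inl true => w
  | none, .inr (false, _) => 0
  | none, .inr (true, t) => if t = q then w else 0
  | some s, .inl false => if s = q then w * ζ else 0
  | some s, .inl true => if s = q then w else 0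
  | some s, .inr (false, t) => if t = s then e else 0
  | some _, .inr (true, _) => 0

/-- the dual basis -/
def zt (e w ζ : R) : Option T → Ix T → R
  | none, .inl false => w * w * ζ
  | none, .inl true => w * w
  | none, .inr _ => 0
  | some _, .inl _ => 0
  | some _, .inr (false, _) => 0
  | some s, .inr (true, t) => if t = s then e else 0

variable [StarRing R] [Fintype T]

theorem hyp_yt (h2 : ∀ x : R, x + x = 0) {u e w ζ : R} (q : T) (hw : ∀ x, w * x = x * w)
    (he : e = w + w * w) (h3 : w * w * w = e) (hs : star w = w * w) (h1 : e * ζ = ζ)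
    (hz : ζ * u * star ζ = e) (hn : ∀ v, e * v = v → v * u * star ζ = 0 → v = 0) :
    Dub u e (yt e w ζ q) (zt e w ζ) := by
  have hew : e * w = w := by rw [he, add_mul, h3, he, add_comm w, ← add_assoc, h2, zero_add]
  have hwe : w * e = w := (hw e).trans hew
  have hee : e * e = e := by rw [he, add_mul, mul_assoc, ← he, hwe, ← he]
  have h4 : w * w * (w * w) = w := by rw [← mul_assoc, h3, hew]
  have hse : star e = e := by rw [he, star_add, star_mul, hs, h4, add_comm]
  have k1 : ∀ v, hf u v (yt e w ζ q none) = v (.inl false) * u * star ζ + v (.inl true) * (w * w) +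
      v (.inr (false, q)) * (w * w) := fun v => by
    simp [hf, yt, hs, apply_ite star]
  have k2 : ∀ v s, hf u v (yt e w ζ q (some s)) = (if s = q then
      (v (.inl false) * u * star ζ + v (.inl true)) * (w * w) else 0) + v (.inr (true, s)) * e :=
    fun v s => by
      by_cases h : s = q <;> simp [hf, yt, hs, hse, h, apply_ite star, add_mul, mul_assoc]
  have k3 : ∀ v, hf u v (zt e w ζ (none : Option T)) =
      (v (.inl false) * u * star ζ + v (.inl true)) * w := fun v => by
    simp [hf, zt, hs, h4, add_mul, mul_assoc]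
  have k4 : ∀ v (s : T), hf u v (zt e w ζ (some s)) = v (.inr (false, s)) * e := fun v s => by
    simp [hf, zt, hse, apply_ite star]
  have hz1 : w * ζ * u * star ζ = w := by rw [mul_assoc w, mul_assoc w, hz, hwe]
  have hz2 : w * w * ζ * u * star ζ = w * w := by
    rw [mul_assoc _ ζ, mul_assoc (w * w), hz, mul_assoc, hwe]
  refine ⟨?_, ?_, ?_, ?_, ?_, ?_, fun v hv a1 a2 => ?_⟩
  · rintro (_ | s) <;> funext i <;> rcases i with (_ | _) | ⟨_ | _, t⟩ <;>
      simp [yt, h1, hew, hee, ← mul_assoc]
  · rintro (_ | s) <;> funext i <;> rcases i with (_ | _) | ⟨_ | _, t⟩ <;>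
      simp [zt, hew, hee, ← mul_assoc]
  · rintro (_ | s) (_ | t)
    · rw [k1]
      simp [yt, hz, ← mul_assoc, h3, h2]
    · rw [k2]
      by_cases h : t = q
      · simp only [yt, hz, h, if_true, add_mul, ← mul_assoc, h3, hew, hwe]
        rw [he, add_comm w, ← add_assoc, h2, zero_add, h2]
      · simp [yt, h]
    · rw [k1]
      by_cases h : s = q
      · simp only [yt, hz1, h, if_true, ← mul_assoc, h3, hew]
        rw [he, ← add_assoc, h2, zero_add, h2]
      · simp [yt, h, Ne.symm h]
    · rw [k2]
      by_cases h : s = q <;> simp [yt, h, hz1, h2]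
  · rintro (_ | s) (_ | t)
    · rw [k3]
      simp [zt, hz2, h2]
    · rw [k4]
      simp [zt]
    · rw [k3]
      simp [zt]
    · rw [k4]
      simp [zt]
  · rintro (_ | s)
    · rw [k1]
      simp [zt, hz2, h4, he, add_comm]
    · rw [k2]
      simp [zt, hee]
  · rintro (_ | s) (_ | t) ne
    · exact absurd rfl ne
    · rw [k2]
      simp [zt, hz2, h2]
    · rw [k1]
      simp [zt]
    · rw [k2]
      simp [zt, show t ≠ s from fun e => ne (e ▸ rfl)]
  · have hv' : ∀ i, v i * e = v i := fun i =>
      (he ▸ (Commute.add_left (hw _) (Commute.mul_left (hw _) (hw _))).eq.symm :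
        v i * e = e * v i).trans (congrFun hv i)
    have b1 : ∀ s, v (.inr (false, s)) = 0 := fun s => by rw [← hv', ← k4, a2]
    have b2 := (k3 v).symm.trans (a2 _)
    have b3 : ∀ s, v (.inr (true, s)) = 0 := fun s => by
      have := (k2 v s).symm.trans (a1 _)
      rwa [← mul_assoc, b2, zero_mul, ite_self, zero_add, hv'] at this
    have b4 := (k1 v).symm.trans (a1 _)
    rw [b1, zero_mul, add_zero] at b4
    have b5 : v (.inl true) = 0 := by
      rw [eq_neg_of_add_eq_zero_left b4, neg_eq_iff_add_eq_zero.2 (h2 _), add_mul, mul_assoc, h3,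
        he, mul_add, add_right_comm, h2, zero_add] at b2
      rw [← hv', ← h3, ← mul_assoc, b2, zero_mul]
    rw [b5, zero_mul, add_zero] at b4
    funext i
    rcases i with (_ | _) | ⟨_ | _, t⟩
    exacts [hn _ (congrFun hv _) b4, b5, b1 t, b3 t]

omit [StarRing R] in
theorem sum_yt (e w ζ : R) (q : T) (m : Option T → R) :
    (∑ i, m i • yt e w ζ q i) (.inl false) = (m none + m (some q) * w) * ζ ∧
    (∑ i, m i • yt e w ζ q i) (.inl true) = (m none + m (some q)) * w ∧
    (∀ t, (∑ i, m i • yt e w ζ q i) (.inr (false, t)) = m (some t) * e) ∧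
    (∑ i, m i • yt e w ζ q i) (.inr (true, q)) = m none * w := by
  simp [Fintype.sum_option, yt, add_mul, mul_assoc]

/-- A unit of a finite ring of characteristic two is `w ^ 2 (1 + s + s ^ 2)`. -/
theorem exists_as {R : Type} [Ring R] [Finite R] (h2 : ∀ x : R, x + x = 0) {u : R}
    (hu : IsUnit u) : ∃ w ∈ Subring.closure {u}, ∃ s ∈ Subring.closure {u}, IsUnit w ∧
      IsNilpotent s ∧ u = w * w * (1 + s + s * s) := by
  obtain ⟨v, rfl⟩ := hu
  obtain ⟨a, m, ⟨j, hj⟩, h⟩ := Nat.exists_eq_two_pow_mul_odd (orderOf_pos v).ne'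
  have : IsMulCommutative (Subring.closure {(v : R)}) := Subring.isMulCommutative_closure (by simp)
  let _ : CommRing (Subring.closure {(v : R)}) := { (inferInstance : Ring _) with
    mul_comm := mul_comm' }
  let x : Subring.closure {(v : R)} := ⟨v, Subring.subset_closure rfl⟩
  have hx : x ^ (2 ^ a * m) = 1 := Subtype.ext (by
    rw [← h]
    exact congrArg Units.val (pow_orderOf_eq_one v))
  rcases subsingleton_or_nontrivial (Subring.closure {(v : R)}) with hs | hs
  · exact ⟨1, one_mem _, 0, zero_mem _, isUnit_one, .zero, by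
      rw [show (v : R) = 1 from congrArg Subtype.val (Subsingleton.elim x 1)]; simp⟩
  have : CharP (Subring.closure {(v : R)}) 2 :=
    CharTwo.of_one_ne_zero_of_two_eq_zero one_ne_zero (one_add_one_eq_two.symm.trans
      (Subtype.ext (h2 1)))
  let y := (x ^ m) ^ (2 ^ (a + 1) - 1) + 1
  have hy : y ^ 2 ^ a = 0 := by
    rw [add_pow_char_pow, one_pow, ← pow_mul, mul_comm, pow_mul, ← pow_mul x, mul_comm, hx, one_pow,
      CharTwo.add_self_eq_zero]
  let s := ∑ i ∈ Finset.range a, y ^ 2 ^ i
  have hs' : s + s * s = y := by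
    have := Finset.sum_range_succ (fun i => y ^ 2 ^ i) a
    rw [Finset.sum_range_succ', hy, add_zero, pow_zero, pow_one] at this
    rw [← sq, CharTwo.sum_sq]
    simp only [← pow_mul, ← pow_succ]
    rw [show s = _ from this.symm, add_right_comm, CharTwo.add_self_eq_zero, zero_add]
  refine ⟨_, (x ^ (j + 1)).2, _, s.2, (v ^ (j + 1)).isUnit, ?_, ?_⟩
  · exact (isNilpotent_sum fun i _ =>
      IsNilpotent.pow_of_pos ⟨_, hy⟩ (pow_pos two_pos i).ne').map (Subring.subtype _)
  · refine congrArg Subtype.val (?_ : x = x ^ (j + 1) * x ^ (j + 1) * (1 + s + s * s))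
    rw [add_assoc, hs', add_comm 1, add_assoc, CharTwo.add_self_eq_zero, add_zero, ← pow_add,
      show j + 1 + (j + 1) = 1 + m by omega, pow_add, pow_one, mul_assoc, ← pow_succ',
      Nat.sub_add_cancel Nat.one_le_two_pow, ← pow_mul, pow_succ, ← mul_assoc, mul_comm m, pow_mul,
      hx, one_pow, mul_one]

end Ring

end Pool.Agent.Lib.MP_775b3b_nt.CM
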