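import Pool.Agent.Lib.MP_775b3b_nt.CM.Sel6

/-! The augmentation ideal and its square. -/

set_option autoImplicit false

namespace Pool.Agent.Lib.MP_775b3b_nt.CM

variable {Γ : Type} [Group Γ] [Fintype Γ] {σ : Γ} {G : Subgroup Γ}

theorem selNG_gr {g : Γ} (hg : g ∈ G) : selNG G * gr g = selNG G := ga_ext fun γ => by
  have := G.mul_mem_cancel_right (y := γ) (G.inv_mem hg)
  by_cases hγ : γ ∈ G <;> simp [selNG, hγ, this]

theorem star_selNG : star (selNG G) = selNG G := ga_ext fun γ => by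
  by_cases hγ : γ ∈ G <;> simp [selNG, hγ]

theorem Cub.selNG_cm (h : Cub σ G) (x : GA Γ) : selNG G * x = x * selNG G := by
  have k1 : ∀ g ∈ G, gr g * selNG G = selNG G * gr g := fun g hg => by
    rw [selNG_gr hg, ← star_selNG, ← inv_inv g, ← sel_star_gr, ← star_mul, selNG_gr (inv_mem hg)]
  induction x using sel_ind with
  | h0 => simp
  | ha a b ha hb => rw [mul_add, add_mul, ha, hb]
  | hg γ =>
    have c : Commute (selNG G) (gr σ) := (h.gr_cm _).symm
    rcases h.dec γ with e | e | e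
    · exact (k1 γ e).symm
    · rw [show γ = γ * σ * σ * σ by rw [mul_assoc, mul_assoc, ← mul_assoc σ, h.three, mul_one],
        sel_gr_mul, sel_gr_mul (γ * σ)]
      exact ((Commute.mul_right (k1 _ e).symm c).mul_right c).eq
    · rw [show γ = γ * σ * σ * σ by rw [mul_assoc, mul_assoc, ← mul_assoc σ, h.three, mul_one],
        sel_gr_mul]
      exact (Commute.mul_right (k1 _ e).symm c).eq

/-- the annihilator of the sum of the elements of `G` -/
abbrev An (G : Subgroup Γ) : Type := {x : GA Γ // selNG G * x = 0}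

noncomputable instance : Fintype (An G) := Fintype.ofFinite _

/-- the square of the annihilator -/
def I2 (G : Subgroup Γ) : AddSubgroup (GA Γ) where
  carrier := {z | ∃ f : An G → GA Γ, (∀ x, selNG G * f x = 0) ∧ z = ∑ x, x.1 * f x}
  zero_mem' := ⟨0, fun _ => mul_zero _, by simp⟩
  add_mem' := by
    rintro _ _ ⟨f, hf, rfl⟩ ⟨g, hg, rfl⟩
    exact ⟨f + g, fun x => by rw [Pi.add_apply, mul_add, hf, hg, add_zero], by
      simp only [Pi.add_apply, mul_add, Finset.sum_add_distrib]⟩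
  neg_mem' {a} ha := by rwa [neg_eq_iff_add_eq_zero.2 (sel_two a)]

theorem mul_mem_I2 {x y : GA Γ} (hx : selNG G * x = 0) (hy : selNG G * y = 0) : x * y ∈ I2 G := by
  classical
  refine ⟨Pi.single ⟨x, hx⟩ y, fun a => ?_, ?_⟩
  · rw [Pi.single_apply]
    split_ifs
    exacts [hy, mul_zero _]
  · simp [Pi.single_apply]

theorem I2_mul {z : GA Γ} (hz : z ∈ I2 G) (r : GA Γ) : z * r ∈ I2 G := by
  obtain ⟨f, hf, rfl⟩ := hz
  exact ⟨fun x => f x * r, fun x => by rw [← mul_assoc, hf, zero_mul], by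
    simp only [Finset.sum_mul, mul_assoc]⟩

theorem I2_an {z : GA Γ} (hz : z ∈ I2 G) : selNG G * z = 0 := by
  obtain ⟨f, -, rfl⟩ := hz
  rw [Finset.mul_sum]
  exact Finset.sum_eq_zero fun x _ => by rw [← mul_assoc, x.2, zero_mul]

theorem Cub.an_star (h : Cub σ G) {x : GA Γ} (hx : selNG G * x = 0) : selNG G * star x = 0 := by
  rw [← star_selNG, ← star_mul, ← h.selNG_cm, hx, star_zero]

theorem Cub.I2_star (h : Cub σ G) {z : GA Γ} (hz : z ∈ I2 G) : star z ∈ I2 G := by
  obtain ⟨f, hf, rfl⟩ := hz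
  rw [star_sum]
  exact sum_mem fun x _ => star_mul x.1 (f x) ▸ mul_mem_I2 (h.an_star (hf x)) (h.an_star x.2)

theorem an_one_add {g : Γ} (hg : g ∈ G) : selNG G * (1 + gr g) = 0 := by
  rw [mul_add, mul_one, selNG_gr hg, sel_two]

theorem one_add_I2 {g k : Γ} (hg : g ∈ G) (hk : k ∈ G) :
    1 + gr g + (1 + gr k) + (1 + gr (g * k)) ∈ I2 G := by
  have : 1 + gr g + (1 + gr k) + (1 + gr (g * k)) = (1 + gr g) * (1 + gr k) := by
    rw [sel_gr_mul]
    linear_combination (norm := noncomm_ring) sel_two (1 : GA Γ)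
  exact this ▸ mul_mem_I2 (an_one_add hg) (an_one_add hk)

theorem Cub.normal_form (h : Cub σ G) (a : GA Γ) : ∃ (a0 a1 : ZMod 2), ∃ g ∈ G, ∃ k ∈ G,
    a * ee σ + (a0 • ee σ + a1 • (gr σ * ee σ)) + (1 + gr g) * ee σ +
      (1 + gr k) * (gr σ * ee σ) ∈ I2 G := by
  have o1 : (1 : GA Γ) + gr 1 = 0 := sel_two _
  have z : ∀ {x : GA Γ}, x = 0 → x ∈ I2 G := fun e => e ▸ zero_mem _
  induction a using sel_ind with
  | h0 => exact ⟨0, 0, 1, one_mem _, 1, one_mem _, z (by simp [o1])⟩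
  | ha a b ha hb =>
    obtain ⟨a0, a1, g, hg, k, hk, ha⟩ := ha
    obtain ⟨b0, b1, g', hg', k', hk', hb⟩ := hb
    refine ⟨a0 + b0, a1 + b1, _, mul_mem hg hg', _, mul_mem hk hk', ?_⟩
    have := add_mem (add_mem ha hb) (add_mem (I2_mul (one_add_I2 hg hg') (ee σ))
      (I2_mul (one_add_I2 hk hk') (gr σ * ee σ)))
    refine Eq.mpr (congrArg (· ∈ I2 G) ?_) this
    simp only [add_smul, add_mul]
    linear_combination (norm := abel) -sel_two (1 * ee σ + gr g * ee σ + (1 * ee σ + gr g' * ee σ) +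
      (1 * (gr σ * ee σ) + gr k * (gr σ * ee σ) + (1 * (gr σ * ee σ) + gr k' * (gr σ * ee σ))))
  | hg γ =>
    have e3 : γ = γ * σ * σ * σ := by rw [mul_assoc, mul_assoc, ← mul_assoc σ, h.three, mul_one]
    rcases h.dec γ with e | e | e
    · refine ⟨1, 0, γ, e, 1, one_mem _, z ?_⟩
      rw [o1, one_smul, zero_smul, add_mul, one_mul, zero_mul]
      linear_combination (norm := abel) sel_two (ee σ + gr γ * ee σ)
    · refine ⟨1, 1, _, e, _, e, z ?_⟩
      have e4 : gr γ * ee σ = gr (γ * σ) * (ee σ + gr σ * ee σ) := by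
        conv_lhs => rw [e3, sel_gr_mul, sel_gr_mul (γ * σ), mul_assoc, mul_assoc]
        congr 1
        have := h.ee_mul_ee'
        nth_rw 1 [sel_ee_eq] at this
        rw [add_mul, mul_assoc] at this
        linear_combination (norm := abel) this - sel_two (gr σ * ee σ)
      rw [e4, one_smul, one_smul, add_mul, add_mul, one_mul, one_mul, mul_add]
      linear_combination (norm := abel) sel_two (ee σ + gr σ * ee σ + gr (γ * σ) * ee σ +
        gr (γ * σ) * (gr σ * ee σ))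
    · refine ⟨0, 1, 1, one_mem _, _, e, z ?_⟩
      conv_lhs => rw [o1, one_smul, zero_smul, add_mul, one_mul, zero_mul]
      nth_rw 1 [e3]
      rw [sel_gr_mul _ σ, mul_assoc (gr _)]
      linear_combination (norm := abel) sel_two (gr σ * ee σ + gr (γ * σ * σ) * (gr σ * ee σ))

theorem Cub.selNG_ee (h : Cub σ G) : selNG G * ee σ ≠ 0 := fun e => by
  have := congrArg (·.coeff σ) e
  have h1 : σ * (σ * σ)⁻¹ ∉ G := by
    rw [mul_inv_rev, mul_inv_cancel_left]
    exact mt G.inv_mem_iff.1 h.nmem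
  simp [ee, mul_add, selNG, h.nmem] at this

theorem Cub.an_of_nil (h : Cub σ G) {b : GA Γ} (he : b * ee σ = b) (hb : IsNilpotent b) :
    ∃ g ∈ G, ∃ k ∈ G, b + (1 + gr g) * ee σ + (1 + gr k) * (gr σ * ee σ) ∈ I2 G := by
  obtain ⟨a0, a1, g, hg, k, hk, h1⟩ := h.normal_form b
  rw [he] at h1
  have h2 := I2_an h1
  rw [mul_add, mul_add, ← mul_assoc _ (1 + _), ← mul_assoc _ (1 + _), an_one_add hg, an_one_add hk,
    zero_mul, zero_mul, add_zero, add_zero, mul_add] at h2
  have key : ∀ l : GA Γ, (∀ x, l * x = x * l) → l * l * l = ee σ → selNG G * b + selNG G * l ≠ 0 :=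
    fun l c1 c2 e => by
      obtain ⟨n, hn⟩ := hb
      have e1 : selNG G * b = l * selNG G :=
        ((eq_neg_of_add_eq_zero_left e).trans (neg_eq_iff_add_eq_zero.2 (sel_two _))).trans (c1 _).symm
      have e2 : ∀ j : ℕ, selNG G * b ^ j = l ^ j * selNG G := fun j => by
        induction j with
        | zero => rw [pow_zero, pow_zero, mul_one, one_mul]
        | succ j ih => rw [pow_succ, ← mul_assoc, ih, mul_assoc, e1, ← mul_assoc, ← pow_succ]
      have e3 := e2 (3 * (n + 1))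
      rw [pow_eq_zero_of_le (by omega) hn, mul_zero, pow_mul, pow_three', c2,
        IsIdempotentElem.pow_succ_eq n h.ee_mul_ee', h.ee_cm] at e3
      exact h.selNG_ee e3.symm
  have c0 : ∀ x, Commute (gr σ * ee σ) x := fun x => Commute.mul_left (h.gr_cm x) (h.ee_cm x)
  have c1 : gr σ * ee σ * (gr σ * ee σ) * (gr σ * ee σ) = ee σ := by
    rw [Commute.mul_mul_mul_comm (h.ee_cm _), Commute.mul_mul_mul_comm
      (Commute.mul_left (h.ee_cm _) (h.ee_cm _)), h.gr_three', h.ee_mul_ee', h.ee_mul_ee', one_mul]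
  have c2 : ee σ + gr σ * ee σ = gr σ * ee σ * (gr σ * ee σ) := by
    have := h.ee_mul_ee'
    nth_rw 1 [sel_ee_eq] at this
    rw [Commute.mul_mul_mul_comm (h.ee_cm _), h.ee_mul_ee']
    rw [add_mul] at this
    linear_combination (norm := abel) sel_two (gr σ * ee σ) - this
  rcases (by decide : ∀ r : ZMod 2, r = 0 ∨ r = 1) a0 with rfl | rfl <;>
    rcases (by decide : ∀ r : ZMod 2, r = 0 ∨ r = 1) a1 with rfl | rfl <;>
    simp only [zero_smul, one_smul, add_zero, zero_add] at h1 h2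
  · exact ⟨g, hg, k, hk, h1⟩
  · exact absurd h2 (key _ c0 c1)
  · exact absurd h2 (key _ h.ee_cm (by rw [h.ee_mul_ee', h.ee_mul_ee']))
  · refine absurd h2 (key _ (fun x => Commute.add_left (h.ee_cm x) (c0 x)) ?_)
    rw [c2]
    generalize gr σ * ee σ = x at c1
    rw [show x * x * (x * x) * (x * x) = x * x * x * (x * x * x) by noncomm_ring, c1, h.ee_mul_ee']

theorem Cub.herm_form (h : Cub σ G) {b : GA Γ} (he : b * ee σ = b) (hb : IsNilpotent b)
    (hs : star b = b) : ∃ g ∈ G, IsNilpotent (1 + gr g) ∧ b + (1 + gr g) * ee σ ∈ I2 G := by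
  obtain ⟨g, hg, k, hk, h1⟩ := h.an_of_nil he hb
  have i1 : ∀ g ∈ G, 1 + gr g + (1 + gr g⁻¹) ∈ I2 G := fun g hg => by
    have := one_add_I2 hg (inv_mem hg)
    rwa [mul_inv_cancel, show (1 : GA Γ) + gr 1 = 0 from sel_two _, add_zero] at this
  have h2 := h.I2_star h1
  rw [star_add, star_add, hs, star_mul, star_mul (1 + _), star_add, star_add, star_one, sel_star_gr,
    sel_star_gr, h.star_ee', h.ee_cm, eq_sub_of_add_eq' h.om_add,
    (Commute.sub_left (h.ee_cm _) (Commute.mul_left (h.gr_cm _) (h.ee_cm _))).eq] at h2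
  have h3 : (1 + gr k) * ee σ ∈ I2 G := by
    have := add_mem (add_mem h1 h2) (add_mem (I2_mul (i1 g hg) (ee σ))
      (I2_mul (i1 k hk) (ee σ - gr σ * ee σ)))
    refine Eq.mpr (congrArg (· ∈ I2 G) ?_) this
    linear_combination (norm := noncomm_ring) -sel_two (b + (1 + gr g) * ee σ + (1 + gr g⁻¹) * ee σ +
      ((1 + gr k⁻¹) * ee σ - (1 + gr k⁻¹) * (gr σ * ee σ)))
  have h4 : b + (1 + gr g) * ee σ ∈ I2 G := by
    have := add_mem h1 (I2_mul h3 (gr σ))
    rwa [mul_assoc, ← h.gr_cm, add_assoc, sel_two, add_zero] at this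
  obtain ⟨a, m, ⟨j, rfl⟩, hm⟩ := Nat.exists_eq_two_pow_mul_odd (orderOf_pos g).ne'
  have h5 : ∀ j : ℕ, 1 + gr g + (1 + gr (g ^ (2 * j + 1))) ∈ I2 G := fun j => by
    have := add_mem (one_add_I2 (pow_mem hg j) (pow_mem hg j))
      (one_add_I2 (mul_mem (pow_mem hg j) (pow_mem hg j)) hg)
    rwa [sel_two, zero_add, add_assoc (1 + gr _) (1 + gr g), ← add_assoc (1 + gr _) (1 + gr _),
      sel_two, zero_add, ← pow_add, ← pow_succ, ← two_mul] at this
  refine ⟨_, pow_mem hg (2 * j + 1), ⟨2 ^ a, ?_⟩, ?_⟩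
  · have : ∀ (x : GA Γ) (a : ℕ), (1 + x) ^ 2 ^ a = 1 + x ^ 2 ^ a := fun x a => by
      induction a with
      | zero => simp
      | succ a ih =>
        rw [pow_succ, pow_mul, pow_mul, ih]
        linear_combination (norm := noncomm_ring) sel_two (x ^ 2 ^ a)
    rw [this, MonoidAlgebra.single_pow, one_pow, ← pow_mul, mul_comm, ← hm, pow_orderOf_eq_one]
    exact sel_two _
  · have := add_mem h4 (I2_mul (h5 j) (ee σ))
    rwa [add_mul _ (1 + _), ← add_assoc, add_assoc b, sel_two, add_zero] at this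

end Pool.Agent.Lib.MP_775b3b_nt.CM
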