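import Pool.Agent.Lib.MP_775b3b_nt.CM.Sel2
import Pool.Agent.Lib.MP_775b3b_nt.CM.SelX1

/-! Moves in exact form and their realisation by primes. -/

set_option autoImplicit false

namespace Pool.Agent.Lib.MP_775b3b_nt.CM

open Matrix

variable {Γ : Type} [Group Γ] [Fintype Γ] {σ : Γ} {G : Subgroup Γ}

theorem Cub.move2 (h : Cub σ G) {n : Type} [Fintype n] [DecidableEq n] (X Y : Matrix n n (GA Γ))
    (hX : ee σ • X = X) (hY : ee σ • Y = Y) (hXY : Y * star X = X * star Y)
    (hi : ∀ c : n → GA Γ, ee σ • c = c → c ᵥ* X = 0 → c ᵥ* Y = 0 → c = 0) :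
    ∃ T B : Matrix n n (GA Γ), star T = T ∧ ee σ • T = T ∧ star B = B ∧ ee σ • B = B ∧
      (∀ i j, IsNilpotent (B i j)) ∧ ∀ c m, ee σ • c = c → c ᵥ* Y = m ᵥ* T →
        c ᵥ* Y = (c ᵥ* X + m) ᵥ* B ∧ (c ᵥ* X + m = 0 → c = 0) := by
  have h2 : ∀ x : Matrix n n (GA Γ), x + x = 0 := fun x => Matrix.ext fun i j => sel_two _
  have hs : ∀ r : GA Γ, star (scalar n r) = scalar n (star r) := fun r =>
    diagonal_conjTranspose _
  have hE : ∀ x : Matrix n n (GA Γ), scalar n (ee σ) * x = ee σ • x := fun x =>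
    (smul_eq_diagonal_mul x _).symm
  have hc : ∀ x, scalar n (ee σ) * x = x * scalar n (ee σ) := fun x =>
    (scalar_commute _ h.ee_cm x).eq
  have hv : ∀ c : n → GA Γ, c ᵥ* scalar n (ee σ) = ee σ • c := fun c => funext fun i =>
    (vecMul_diagonal c _ i).trans (h.ee_cm _).symm
  have hw : scalar n (gr σ * ee σ) + star (scalar n (gr σ * ee σ)) = scalar n (ee σ) := by
    rw [hs, ← map_add, h.om_add]
  have hEE : scalar n (ee σ) * scalar n (ee σ) = scalar n (ee σ) := by rw [← map_mul, h.ee_mul_ee']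
  have hsE : star (scalar n (ee σ)) = scalar n (ee σ) := by rw [hs, h.star_ee']
  rw [← hE] at hX hY
  set E := scalar n (ee σ) with hEd
  have hk : (Y + (1 - E)) * (1 - E) = 1 - E := by
    rw [add_mul, mul_sub Y, ← hc, hY, mul_one, sub_self, zero_add, mul_sub, mul_one, sub_mul,
      one_mul, hEE, sub_self, sub_zero]
  obtain ⟨C, D, hu⟩ := unimod (R := Matrix n n (GA Γ)) (a := Y + (1 - E)) (b := X)
    { toFun x := (trace x).coeff 1
      map_add' x y := by simp
      map_smul' r x := by simp } (fun x hx => Matrix.ext fun i j => sel_eq_zero fun r => by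
        simpa [trace_mul_single] using hx (single j i r)) fun z h3 h4 => by
      have h5 : z * E = z := by
        have := congrArg (· * (1 - E)) h3
        simp only [mul_assoc, hk, zero_mul] at this
        rw [mul_sub, mul_one, sub_eq_zero] at this
        exact this.symm
      rw [mul_add, mul_sub, mul_one, h5, sub_self, add_zero] at h3
      exact funext fun i => hi (z i) ((hv _).symm.trans (congrFun h5 i)) (congrFun h4 i)
        (congrFun h3 i)
  have hab : (Y + (1 - E)) * star X = X * star (Y + (1 - E)) := by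
    rw [add_mul, star_add, mul_add, hXY, star_sub, star_one, hsE, mul_sub X, ← hc, hX, mul_one,
      sub_self, sub_mul, one_mul, hc, ← hsE, ← star_mul, hX, sub_self]
  obtain ⟨T, u, t1, t2, t3, t4⟩ := hsr_mod h2 (a := Y + (1 - E)) (b := X) (k := 1 - E)
    (w := scalar n (gr σ * ee σ)) hab hu
    (fun x => (scalar_commute _ (fun r => Commute.mul_left (h.gr_cm r) (h.ee_cm r)) x).eq)
    (by rw [hw, hk]) (by rw [hw, hEd, ← map_mul, h.ee_cm, mul_assoc, h.ee_mul_ee'])
  rw [hw] at t2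
  obtain ⟨v, t5, t6, t7⟩ : ∃ v, (Y + (1 - E) + X * T) * v = 1 ∧ v * (Y + (1 - E) + X * T) = 1 ∧
      T * v * (Y + (1 - E)) ∈ Ring.jacobson (Matrix n n (GA Γ)) :=
    ⟨_, t3 ▸ u.mul_inv, t3 ▸ u.inv_mul, t4⟩
  refine ⟨T, T * v * (Y + (1 - E)), t1, (hE T).symm.trans t2, ?_,
    by rw [← hE, ← mul_assoc, ← mul_assoc, t2], fun i j => jac_nil (entry_mem_jac t7 i j),
    fun c m h3 h5 => ?_⟩
  · generalize Y + (1 - E) = a at *
    have e1 : T * v * a = (1 - T * v * X) * T := by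
      linear_combination (norm := noncomm_ring) T * t6
    have e2 : T * v * a * star (1 - T * v * X) = (1 - T * v * X) * star (T * v * a) := by
      rw [e1, star_mul (1 - _), t1, mul_assoc]
    rw [star_sub, star_one, star_mul _ X, star_mul _ a] at e2
    rw [star_mul _ a]
    linear_combination (norm := noncomm_ring) -e2 - T * v * hab * star (T * v)
  have k0 : c ᵥ* (Y + (1 - E)) = c ᵥ* Y := by
    rw [vecMul_add, vecMul_sub, vecMul_one, hv, h3, sub_self, add_zero]
  have k1 : (c ᵥ* X + m) ᵥ* (T * v) = c := by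
    rw [← vecMul_vecMul, add_vecMul, ← h5, ← k0, vecMul_vecMul, ← vecMul_add, add_comm,
      vecMul_vecMul, t5, vecMul_one]
  exact ⟨by rw [← vecMul_vecMul, k1, k0], fun e => by rw [← k1, e, zero_vecMul]⟩

variable {T : Type} [Fintype T] {u : GA Γ}

theorem Cub.move2' (h : Cub σ G) (hu : star u = u) {ι : Type} [Fintype ι] [DecidableEq ι]
    {y z : ι → Ix T → GA Γ} (hy : Dub u (ee σ) y z) {H : Submodule (GA Γ) (Ix T → GA Γ)}
    (hL : Lag u (ee σ) H) (hF : Fre (ee σ) (Fintype.card ι) H) :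
    ∃ M B : Matrix ι ι (GA Γ), star M = M ∧ ee σ • M = M ∧ star B = B ∧ ee σ • B = B ∧
      (∀ i j, IsNilpotent (B i j)) ∧ ∀ x ∈ H, ∀ m : ι → GA Γ, ee σ • m = m →
        (fun j => hf u x (y j)) = m ᵥ* M → ∃ m' : ι → GA Γ, ee σ • m' = m' ∧
          x + ∑ i, m i • y i = ∑ i, m' i • y i + ∑ i, (m' ᵥ* B) i • z i ∧
          (m' = 0 → x = 0 ∧ m = 0) := by
  obtain ⟨x, hx, hx1, hx2⟩ : ∃ x : ι → Ix T → GA Γ, (∀ i, x i ∈ H) ∧
      (∀ z ∈ H, ∃ c : ι → GA Γ, z = ∑ i, c i • x i) ∧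
      ∀ c : ι → GA Γ, ee σ • c = c → ∑ i, c i • x i = 0 → c = 0 := by
    obtain ⟨x, hx, hx1, hx2⟩ := hF
    let f := Fintype.equivFin ι
    refine ⟨x ∘ f, fun _ => hx _, fun z hz => ?_, fun c hc e => ?_⟩
    · obtain ⟨c, rfl⟩ := hx1 z hz
      exact ⟨c ∘ f, (f.sum_comp fun i => c i • x i).symm⟩
    · have := hx2 (c ∘ f.symm) (fun i => congrFun hc _) (by rw [← f.sum_comp]; simpa using e)
      exact funext fun i => by simpa using congrFun this (f i)
  have ex : ∀ {v}, ee σ • v = v → _ := hy.expand hu h.star_ee' h.ee_cm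
  have hp : ∀ c : ι → GA Γ, ee σ • ∑ i, c i • x i = ∑ i, c i • x i := fun c =>
    hL.part _ (H.sum_mem fun i _ => H.smul_mem _ (hx i))
  have hv : ∀ (c : ι → GA Γ) (w : ι → Ix T → GA Γ),
      c ᵥ* (of fun i j => hf u (x i) (w j)) = fun j => hf u (∑ i, c i • x i) (w j) :=
    fun c w => funext fun j => (hf_sum_left u c x (w j)).symm
  obtain ⟨M, B, m1, m2, m3, m4, m5, m6⟩ := h.move2 (of fun i j => hf u (x i) (z j))
    (of fun i j => hf u (x i) (y j))
    (Matrix.ext fun i j => (hf_smul_left ..).symm.trans (by rw [hL.part _ (hx i)]; rfl))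
    (Matrix.ext fun i j => (hf_smul_left ..).symm.trans (by rw [hL.part _ (hx i)]; rfl))
    (Matrix.ext fun i j => by
      have e := hL.iso _ (hx i) _ (hx j)
      rw [ex (hL.part _ (hx i)), hf_add_left, hf_sum_left, hf_sum_left] at e
      simp only [mul_apply, star_apply, of_apply, hf_star hu]
      rw [eq_neg_of_add_eq_zero_left e, neg_eq_iff_add_eq_zero.2 (sel_two _)]) fun c hc h1 h2 =>
    hx2 c hc (by
      rw [hv] at h1 h2
      rw [ex (hp c)]
      simp [congrFun h1, congrFun h2])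
  refine ⟨M, B, m1, m2, m3, m4, m5, fun v hv' m hm h1 => ?_⟩
  obtain ⟨c, rfl⟩ := hx1 v hv'
  have e1 : ∑ i, (ee σ • c) i • x i = ∑ i, c i • x i := by
    rw [← hp c, Finset.smul_sum]
    simp only [Pi.smul_apply, smul_eq_mul, mul_smul]
  have e2 : ee σ • ee σ • c = ee σ • c := by rw [← mul_smul, h.ee_mul_ee']
  obtain ⟨k1, k2⟩ := m6 (ee σ • c) m e2 (by rw [hv, e1, h1])
  refine ⟨(ee σ • c) ᵥ* (of fun i j => hf u (x i) (z j)) + m,
    by rw [smul_add, ← smul_vecMul, e2, hm], ?_, fun e => ?_⟩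
  · rw [← k1, hv, hv, e1]
    simp only [Pi.add_apply, add_smul, Finset.sum_add_distrib]
    rw [add_right_comm, ← ex (hp c)]
  · have k3 := k2 e
    rw [k3, zero_vecMul, zero_add] at e
    exact ⟨by rw [← e1, k3]; simp, e⟩

theorem Cub.realize (hc : Cub σ G) {n : ℕ} (hn : 0 < n) (y : Fin n → Ix T → GA Γ)
    (M : Matrix (Fin n) (Fin n) (GA Γ)) (m1 : M + star M = of fun i j => hf u (y i) (y j))
    (m2 : ee σ • M = M) {Pr : Type} {Ind : Pr → Pr → Prop} {Ty : Fin n → Pr → Prop}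
    {N : Pr → Pr → GA Γ} (hS : Sup u (ee σ) y Ind Ty N) :
    ∃ (m : ℕ) (p : Fin m → Pr) (t : Fin m → Fin n), (∀ a b, a ≠ b → Ind (p a) (p b)) ∧
      (∀ a, Ty (t a) (p a)) ∧ ∀ (x : Ix T → GA Γ) (c : Fin m → GA Γ), (∀ a, ee σ * c a = c a) →
        (∀ b, hf u x (y (t b)) = ∑ a, c a * N (p a) (p b)) → ∃ m : Fin n → GA Γ, ee σ • m = m ∧
          (fun j => hf u x (y j)) = m ᵥ* M ∧ ∑ a, c a • y (t a) = ∑ i, m i • y i ∧
          (m = 0 → c = 0) := by
  have h2 : ∀ x : Matrix (Fin n) (Fin n) (GA Γ), x + x = 0 := fun x =>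
    Matrix.ext fun i j => sel_two _
  have hE : ∀ r : GA Γ, ee σ * r = r → ee σ • scalar (Fin n) r = scalar (Fin n) r := fun r hr => by
    rw [smul_eq_diagonal_mul, ← scalar_apply, ← map_mul, hr]
  have hv : ∀ r : GA Γ, (∀ x, r * x = x * r) → ∀ c : Fin n → GA Γ, c ᵥ* scalar (Fin n) r = r • c :=
    fun r hr c => funext fun i => (vecMul_diagonal c _ i).trans (hr _).symm
  obtain ⟨P, p1, p2, p3, p4, p5, p6, p7⟩ := hS.triple hn
    (fun S => ee σ • S + scalar _ (ee σ)) (fun _ => M) (fun _ => M + scalar _ (gr σ * ee σ))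
    (fun S => by rw [smul_add, ← mul_smul, hc.ee_mul_ee', hE _ hc.ee_mul_ee']) (fun _ => m2)
    fun _ => by rw [smul_add, m2, hE _ (by rw [hc.ee_cm, mul_assoc, hc.ee_mul_ee'])]
  have hst : ∀ a b, NM N (P a) (P b) + star (NM N (P b) (P a)) = M + star M := fun a b =>
    m1 ▸ Matrix.ext fun i j => hS.recip _ _ _ _ (p1 a i) (p1 b j) ((eq_or_ne (a, i) (b, j)).symm.imp
      (fun ne => p2 ne) fun e => by cases e; rfl)
  have hS0 : ee σ • NM N (P 0) (P 0) = NM N (P 0) (P 0) :=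
    Matrix.ext fun i j => hS.part i _ _ (p1 0 i)
  have hss : ∀ r : GA Γ, star (scalar (Fin n) r) = scalar _ (star r) := fun r =>
    diagonal_conjTranspose _
  simp only [hS0] at p5
  have p8 : NM N (P 0) (P 1) = NM N (P 0) (P 0) + scalar _ (ee σ) := by
    have := hst 0 1
    rw [p5, star_add, hss, hc.star_ee', ← hst 0 0] at this
    linear_combination (norm := abel) this - h2 (scalar _ (ee σ))
  have p9 : NM N (P 0) (P 2) = M := add_right_cancel (p6 ▸ hst 0 2)
  have p10 : NM N (P 1) (P 2) = M + scalar _ (star (gr σ * ee σ)) := by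
    have := hst 1 2
    rw [p7, star_add, hss] at this
    linear_combination (norm := abel) this - h2 (scalar _ (star (gr σ * ee σ)))
  let g := (Fintype.equivFin (Fin 3 × Fin n)).symm
  refine ⟨_, fun a => P (g a).1 (g a).2, fun a => (g a).2, fun a b ne => p2 (g.injective.ne ne),
    fun a => p1 _ _, fun x c c1 c2 => ?_⟩
  let m : Fin 3 → Fin n → GA Γ := fun a i => c (g.symm (a, i))
  have m0 : ∀ a, ee σ • m a = m a := fun a => funext fun i => c1 _
  have s1 : ∑ a, c a • y (g a).2 = ∑ i, (m 0 + m 1 + m 2) i • y i := by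
    rw [← g.symm.sum_comp, Fintype.sum_prod_type, Fin.sum_univ_three]
    simp only [Equiv.apply_symm_apply, Pi.add_apply, add_smul, Finset.sum_add_distrib, m]
  have s2 : ∀ b, (fun j => hf u x (y j)) = m 0 ᵥ* NM N (P 0) (P b) + m 1 ᵥ* NM N (P 1) (P b) +
      m 2 ᵥ* NM N (P 2) (P b) := fun b => funext fun j => by
    have := c2 (g.symm (b, j))
    rw [← g.symm.sum_comp, Fintype.sum_prod_type, Fin.sum_univ_three] at this
    simp only [Equiv.apply_symm_apply] at this
    exact this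
  have co : ∀ x, gr σ * ee σ * x = x * (gr σ * ee σ) := fun x =>
    (Commute.mul_left (hc.gr_cm x) (hc.ee_cm x)).eq
  have w2 : ∀ a, gr σ • gr σ • m a = m a + gr σ • m a := fun a => by
    have := m0 a
    rw [sel_ee_eq, add_smul, mul_smul] at this
    rw [← this, add_right_comm, this, show gr σ • m a + gr σ • m a = 0 from
      funext fun i => sel_two _, zero_add]
  obtain ⟨k1, k2⟩ := gadget (fun x : Fin n → GA Γ => funext fun i => sel_two (x i)) (gr σ)
    (NM N (P 0) (P 0)).vecMulLinear M.vecMulLinear (a := m 0) (φ := fun j => hf u x (y j))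
    (w2 1) (w2 2)
    (by rw [s2 0, p5, p6, vecMul_add, hv _ hc.ee_cm, m0]; rfl)
    (by rw [s2 1, p8, p3, p7, vecMul_add, vecMul_add, hv _ hc.ee_cm, hv _ co, mul_smul, m0, m0]
        rfl)
    (by rw [s2 2, p9, p10, p4, vecMul_add, star_mul, hc.star_ee', sel_star_gr, hc.inv_eq',
          sel_gr_mul, hv _ fun x => (Commute.mul_left (hc.ee_cm x)
            (Commute.mul_left (hc.gr_cm x) (hc.gr_cm x))).eq, hc.ee_cm, mul_smul, m0, mul_smul]
        rfl)
  refine ⟨m 0 + m 1 + m 2, by rw [smul_add, smul_add, m0, m0, m0], k1, s1, fun e => ?_⟩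
  obtain ⟨a0, a1, a2⟩ := k2 e
  refine funext fun a => ?_
  obtain ⟨⟨b, i⟩, rfl⟩ := g.symm.surjective a
  fin_cases b
  exacts [congrFun a0 i, congrFun a1 i, congrFun a2 i]

end Pool.Agent.Lib.MP_775b3b_nt.CM
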